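import Pool.Agent.Work.MP_f82ddf_M.Terminal2

set_option autoImplicit false

/-! # THEOREM M, block FIN: assembly of the hypersurface data -/

namespace Pool.ThmM.FIN

open MvPolynomial Finset

/-- a monic polynomial given by its lower coefficients -/
noncomputable def mp (d : ℕ) (a : ℕ → ℂ) : Polynomial ℂ :=
  Polynomial.X ^ d + ∑ j ∈ range d, Polynomial.C (a j) * Polynomial.X ^ j

theorem deg_low (d : ℕ) (a : ℕ → ℂ) :
    (∑ j ∈ range d, Polynomial.C (a j) * Polynomial.X ^ j : Polynomial ℂ).degree < d := by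
  rw [← Polynomial.mem_degreeLT]
  refine Submodule.sum_mem _ fun j hj => ?_
  rw [Polynomial.mem_degreeLT]
  refine lt_of_le_of_lt (Polynomial.degree_C_mul_X_pow_le j (a j)) ?_
  exact_mod_cast mem_range.1 hj

theorem mp_monic (d : ℕ) (a : ℕ → ℂ) : (mp d a).Monic := Polynomial.monic_X_pow_add (deg_low d a)

theorem mp_natDegree (d : ℕ) (a : ℕ → ℂ) : (mp d a).natDegree = d := by
  apply Polynomial.natDegree_eq_of_degree_eq_some
  unfold mp
  rw [Polynomial.degree_add_eq_left_of_degree_lt, Polynomial.degree_X_pow]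
  rw [Polynomial.degree_X_pow]
  exact deg_low d a

theorem mp_root (d : ℕ) (hd : 1 ≤ d) (a : ℕ → ℂ) : ∃ t : ℂ, t ^ d + ∑ j ∈ range d, a j * t ^ j = 0 := by
  obtain ⟨t, ht⟩ := IsAlgClosed.exists_root (mp d a) (by
    intro h
    have h1 := Polynomial.natDegree_eq_zero_iff_degree_le_zero.2 h.le
    rw [mp_natDegree] at h1
    omega)
  refine ⟨t, ?_⟩
  rw [Polynomial.IsRoot.def] at ht
  simpa [mp, Polynomial.eval_finsetSum] using ht

/-- roots over every point of the first coordinates -/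
theorem root {w d : ℕ} {Q : MvPolynomial (Fin (w + 2)) ℂ} (hd : 1 ≤ d) (hL : LastMonic w d Q)
    (x : Fin (w + 1) → ℂ) : ∃ z : Fin (w + 2) → ℂ, (∀ j, z (Fin.castSucc j) = x j) ∧
      eval z Q = 0 := by
  obtain ⟨q, rfl⟩ := hL
  obtain ⟨t, ht⟩ := mp_root d hd fun j => eval x (q j)
  refine ⟨Fin.snoc (α := fun _ => ℂ) x t, fun j => Fin.snoc_castSucc (α := fun _ => ℂ) _ _ _, ?_⟩
  have h1 : ((Fin.snoc (α := fun _ => ℂ) x t : Fin (w + 2) → ℂ) ∘ Fin.castSucc) = x := by
    funext j
    exact Fin.snoc_castSucc (α := fun _ => ℂ) _ _ _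
  simp only [map_add, map_pow, eval_X, map_sum, map_mul, eval_rename, h1]
  have h2 : (Fin.snoc (α := fun _ => ℂ) x t : Fin (w + 2) → ℂ) (Fin.last (w + 1)) = t :=
    Fin.snoc_last (α := fun _ => ℂ) _ _
  rw [h2]
  exact ht

/-- a linear form through `p` which is not divisible by `Q` -/
theorem linform {w d : ℕ} {Q : MvPolynomial (Fin (w + 2)) ℂ} (hw : 1 ≤ w) (hd : 1 ≤ d)
    (hL : LastMonic w d Q) (p : Fin (w + 2) → ℂ) :
    ∃ l : MvPolynomial (Fin (w + 2)) ℂ, l.IsHomogeneous 1 ∧ eval p l = 0 ∧ ¬ Q ∣ l := by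
  set i0 : Fin (w + 1) := ⟨0, by omega⟩ with hi0
  set i1 : Fin (w + 1) := ⟨1, by omega⟩ with hi1
  by_cases h0 : p (Fin.castSucc i0) = 0
  · obtain ⟨z, hz, hQ⟩ := root hd hL (fun j => if j = i0 then 1 else 0)
    refine ⟨X (Fin.castSucc i0), isHomogeneous_X _ _, by simpa using h0, ?_⟩
    rintro ⟨k, hk⟩
    have h1 := congrArg (eval z) hk
    rw [map_mul, hQ, zero_mul, eval_X, hz, if_pos rfl] at h1
    exact one_ne_zero h1
  · obtain ⟨z, hz, hQ⟩ := root hd hL (fun j => if j = i1 then 1 else 0)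
    refine ⟨C (p (Fin.castSucc i0)) * X (Fin.castSucc i1) -
      C (p (Fin.castSucc i1)) * X (Fin.castSucc i0), ?_, ?_, ?_⟩
    · exact IsHomogeneous.sub (isHomogeneous_C_mul_X _ _) (isHomogeneous_C_mul_X _ _)
    · simp only [map_sub, map_mul, eval_C, eval_X]
      ring
    · rintro ⟨k, hk⟩
      have h1 := congrArg (eval z) hk
      have h2 : i0 ≠ i1 := by
        intro h
        have := congrArg Fin.val h
        simp [hi0, hi1] at this
      rw [map_mul, hQ, zero_mul] at h1
      simp only [map_sub, map_mul, eval_C, eval_X, hz, if_neg h2, if_true] at h1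
      apply h0
      simpa using h1

/-- specialisation of all the variables but the last to `0` -/
noncomputable def spec (w : ℕ) : MvPolynomial (Fin (w + 2)) ℂ →ₐ[ℂ] Polynomial ℂ :=
  aeval fun j => if j = Fin.last (w + 1) then Polynomial.X else 0

theorem spec_pderiv (w : ℕ) (f : MvPolynomial (Fin (w + 2)) ℂ) :
    spec w (pderiv (Fin.last (w + 1)) f) = Polynomial.derivative (spec w f) := by
  induction f using MvPolynomial.induction_on with
  | C a =>
    have h1 : spec w (C a) = Polynomial.C a := by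
      unfold spec
      rw [MvPolynomial.aeval_C]
      rfl
    rw [pderiv_C, map_zero, h1, Polynomial.derivative_C]
  | add p q hp hq => rw [map_add, map_add, hp, hq, map_add, map_add]
  | mul_X p n hp =>
    rw [Derivation.leibniz, smul_eq_mul, smul_eq_mul, map_add, map_mul, map_mul, hp, map_mul,
      Polynomial.derivative_mul]
    have h1 : spec w (pderiv (Fin.last (w + 1)) (X n)) = Polynomial.derivative (spec w (X n)) := by
      unfold spec
      rw [pderiv_X]
      by_cases h : n = Fin.last (w + 1)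
      · subst h
        simp
      · rw [Pi.single_eq_of_ne h]
        simp [h]
    rw [h1]
    ring

theorem spec_lastMonic {w d : ℕ} {Q : MvPolynomial (Fin (w + 2)) ℂ} (hL : LastMonic w d Q) :
    ∃ a : ℕ → ℂ, spec w Q = mp d a := by
  obtain ⟨q, rfl⟩ := hL
  refine ⟨fun j => eval 0 (q j), ?_⟩
  have h1 : ∀ j, spec w (rename Fin.castSucc (q j)) = Polynomial.C (eval 0 (q j)) := by
    intro j
    unfold spec
    rw [aeval_rename]
    have h2 : ((fun j : Fin (w + 2) => if j = Fin.last (w + 1) then (Polynomial.X : Polynomial ℂ)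
        else 0) ∘ Fin.castSucc) = fun _ : Fin (w + 1) => 0 := by
      funext j
      simp [Fin.castSucc_ne_last]
    rw [h2]
    have h3 : (aeval (fun _ : Fin (w + 1) => (0 : Polynomial ℂ)) :
        MvPolynomial (Fin (w + 1)) ℂ →ₐ[ℂ] Polynomial ℂ) =
        (Algebra.ofId ℂ (Polynomial ℂ)).comp (aeval (0 : Fin (w + 1) → ℂ)) := by
      apply MvPolynomial.algHom_ext
      intro j
      simp
    rw [h3]
    rfl
  simp only [map_add, map_pow, map_sum, map_mul, h1]
  have h4 : spec w (X (Fin.last (w + 1))) = Polynomial.X := by simp [spec]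
  rw [h4]
  rfl

theorem pderiv_ne {w d : ℕ} {Q : MvPolynomial (Fin (w + 2)) ℂ} (hd : 1 ≤ d)
    (hL : LastMonic w d Q) : pderiv (Fin.last (w + 1)) Q ≠ 0 := by
  intro h
  obtain ⟨a, ha⟩ := spec_lastMonic hL
  have h1 := spec_pderiv w Q
  rw [h, map_zero, ha] at h1
  have h2 := Polynomial.derivative_eq_zero.1 h1.symm
  rw [mp_natDegree] at h2
  omega

theorem not_dvd_pderiv {w d : ℕ} {Q : MvPolynomial (Fin (w + 2)) ℂ} (hd : 1 ≤ d)
    (hL : LastMonic w d Q) (hQ : Q.IsHomogeneous d) (hQ0 : Q ≠ 0) :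
    ¬ Q ∣ pderiv (Fin.last (w + 1)) Q := by
  rintro ⟨k, hk⟩
  have h0 := pderiv_ne hd hL
  have hk0 : k ≠ 0 := by
    rintro rfl
    rw [mul_zero] at hk
    exact h0 hk
  have h1 := (hQ.pderiv (i := Fin.last (w + 1))).totalDegree h0
  rw [hk, totalDegree_mul_of_isDomain hQ0 hk0, hQ.totalDegree hQ0] at h1
  omega

end Pool.ThmM.FIN

namespace Pool.ThmM

open MvPolynomial Finset

theorem stmt_FIN : Stmt_TER → Stmt_PRB → Stmt_SUB → Stmt_ELI → Stmt_FIN := by
  classical
  intro hTER hPRB hSUB hELI r β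
  obtain ⟨N₁, Dmax, hT⟩ := hTER r fun w D => ∑ d ∈ range (D ^ r + 1), d * (β w d + d)
  refine ⟨N₁, Dmax ^ r, fun S hS hcard => ?_⟩
  obtain ⟨w, D, P, g, T₀, hw, hD, hdat, hg, hT₀, hOn, hNV⟩ := hT S hS hcard
  obtain ⟨d, c, Q, A', hd, hdD, hirr, hhom, hLM, hhA, hQP, hAP⟩ := hPRB r w D P hdat
  have hwr := hdat.le
  have hSub := (hSUB r w c).1
  set QT := pderiv (Fin.last (w + 1)) Q with hQT
  set lift : (Fin (r + 1) → ℂ) → (Fin (w + 2) → ℂ) := fun u => subPt w c (g.mulVec u) with hlift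
  have hprime : Prime Q := hirr.prime
  have hdr : d ≤ D ^ r := hdD.trans (Nat.pow_le_pow_right hdat.pos (by omega))
  -- facts for all the points of `T₀`
  have hzero : ∀ u ∈ T₀, eval (lift u) Q = 0 := by
    intro u hu
    rw [hlift, ← hSub]
    exact hOn u hu _ hQP
  have hAval : ∀ u ∈ T₀, ∀ i, eval (lift u) (A' i) = eval (lift u) QT * (g.mulVec u) i := by
    intro u hu i
    have h1 := hOn u hu _ (hAP i)
    rw [map_sub, map_mul, eval_X, hSub, hSub] at h1
    exact sub_eq_zero.1 h1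
  set T := T₀.filter fun u => eval (lift u) QT ≠ 0 with hTdef
  have hTT : ∀ u ∈ T, u ∈ T₀ := fun u hu => (mem_filter.1 hu).1
  -- divisibility
  have hdiv : ∀ (e : ℕ) (f : MvPolynomial (Fin (w + 2)) ℂ), e ≤ β w d → f.IsHomogeneous e →
      (∀ u ∈ T, eval (lift u) f = 0) → Q ∣ f := by
    intro e f he hf hfT
    by_contra hnd
    have hH : ¬ Q ∣ f * QT := by
      intro h
      rcases hprime.dvd_or_dvd h with h | h
      · exact hnd h
      · exact FIN.not_dvd_pderiv hd hLM hhom hprime.ne_zero h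
    obtain ⟨e', h, he', hhh, hh0, hvan⟩ := hELI w d (e + (d - 1)) Q (f * QT) hd hirr hhom hLM
      (hf.mul hhom.pderiv) hH
    let κ : Fin (w + 1) → Fin (r + 1) := fun j => Fin.ofNat (r + 1) j
    have hκv : ∀ j : Fin (w + 1), ((κ j : Fin (r + 1)) : ℕ) = j := by
      intro j
      have := j.2
      simp only [κ, Fin.ofNat]
      exact Nat.mod_eq_of_lt (by omega)
    have hκ : Function.Injective κ := by
      intro i j hij
      apply Fin.ext
      rw [← hκv i, ← hκv j, hij]
    have hbound : e' ≤ ∑ d ∈ range (D ^ r + 1), d * (β w d + d) := by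
      refine he'.trans ?_
      have h1 : d * (e + (d - 1)) ≤ d * (β w d + d) := Nat.mul_le_mul_left _ (by omega)
      refine h1.trans ?_
      exact Finset.single_le_sum (f := fun d => d * (β w d + d)) (fun _ _ => Nat.zero_le _)
        (mem_range.2 (by omega))
    obtain ⟨u, hu, hne⟩ := hNV e' (rename κ h) hbound hhh.rename_isHomogeneous (by
      intro i hi
      obtain ⟨j, -, rfl⟩ := mem_vars_rename κ h hi
      have h1 := hκv j
      have h2 := j.2
      omega) (by
      intro h0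
      apply hh0
      apply rename_injective κ hκ
      rw [h0, map_zero])
    apply hne
    rw [eval_rename]
    have h1 : (g.mulVec u) ∘ κ = fun j : Fin (w + 1) => lift u j.castSucc := by
      funext j
      have h2 := j.2
      simp only [hlift, subPt, Function.comp, κ]
      rw [if_pos (by simp; omega)]
      rfl
    rw [h1]
    apply hvan _ (hzero u hu)
    rw [map_mul]
    by_cases h2 : eval (lift u) QT = 0
    · rw [h2, mul_zero]
    · rw [hfT u (mem_filter.2 ⟨hu, h2⟩), zero_mul]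
  refine ⟨w, d, Q, fun i => ∑ j, C (g⁻¹ i j) * A' j, T, lift, ?_, ?_, ?_, ?_, hdiv⟩
  · refine ⟨hw, hwr, hd, hirr, hhom, hLM, ?_, ?_, ?_, ?_⟩
    · intro i
      exact IsHomogeneous.sum _ _ _ fun j _ => (hhA j).C_mul _
    · exact fun u hu => hzero u (hTT u hu)
    · exact fun u hu => (mem_filter.1 hu).2
    · intro u hu
      refine ⟨eval (lift u) QT, (mem_filter.1 hu).2, fun i => ?_⟩
      rw [map_sum]
      simp only [map_mul, eval_C, hAval u (hTT u hu)]
      have h1 : (g⁻¹).mulVec (g.mulVec u) = u := by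
        rw [Matrix.mulVec_mulVec, Matrix.nonsing_inv_mul _ hg, Matrix.one_mulVec]
      have h2 : ∑ j, g⁻¹ i j * (g.mulVec u) j = u i := by
        conv_rhs => rw [← h1]
        rfl
      rw [← h2, Finset.mul_sum]
      exact Finset.sum_congr rfl fun j _ => by ring
  · exact hdr.trans (Nat.pow_le_pow_left hD r)
  · exact fun u hu => hT₀ (hTT u hu)
  · by_contra hlt
    rw [not_le] at hlt
    choose l hl1 hl2 hl3 using fun u : Fin (r + 1) → ℂ => FIN.linform hw hd hLM (lift u)
    have h1 : (∏ u ∈ T, l u).IsHomogeneous T.card := by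
      have := IsHomogeneous.prod T l (fun _ => 1) fun u _ => hl1 u
      simpa using this
    have h2 := hdiv T.card (∏ u ∈ T, l u) hlt.le h1 (by
      intro u hu
      rw [map_prod]
      exact Finset.prod_eq_zero hu (hl2 u))
    rw [Prime.dvd_finsetProd_iff hprime] at h2
    obtain ⟨u, -, hu⟩ := h2
    exact hl3 u hu

end Pool.ThmM
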