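import Pool.Agent.Work.MP_f82ddf_M.Core

set_option autoImplicit false

/-! # Block CORE: the result of part P3 -/

open Topology Filter
open scoped Differential
open Pool.Agent.Work.MP_f82ddf_nt.DQ

namespace Pool.ThmM.Chow

open MvPolynomial
open Pool.Agent.Work.MP_f82ddf_M5 (lineAt resAt chow at2 comb Data)

theorem CORE_top {σ : Type} (z : ℂ) : vP (0 : MvPolynomial σ Mer) z = ⊤ := by
  unfold vP
  rw [support_zero, Finset.inf_empty]

theorem CORE_ne {σ : Type} {F : MvPolynomial σ Mer} {z : ℂ} {a : ℤ}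
    (h : vP F z = ((a : ℤ) : WithTop ℤ)) : F ≠ 0 := by
  intro h0
  rw [h0, CORE_top] at h
  exact WithTop.coe_ne_top h.symm

theorem CORE_pow (hV : Pool.ThmM.Stmt_VAL) (y : Mer) (z : ℂ) (k : ℕ) (hy : y ≠ 0) :
    om (y ^ k) z = (((k : ℤ) * dv1 y z : ℤ) : WithTop ℤ) := by
  obtain ⟨h1, h2, h3, h4, h5, h6⟩ := hV z
  induction k with
  | zero =>
    have h := h4 1 one_ne_zero
    rw [map_one] at h
    rw [pow_zero, h]
    simp
  | succ k ih =>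
    rw [pow_succ, h1, ih, h5 y hy, ← WithTop.coe_add]
    congr 1
    push_cast
    ring

theorem CORE_const {N : ℕ} {K : Type} [Field K] (hPLW : Stmt_PLW)
    (R : MvPolynomial (Fin 2 × Fin N) K) (hR : PluF 0 R) : R = C (R.coeff 0) := by
  classical
  have h0 := hPLW N 0 K R hR
  ext α
  rw [coeff_C]
  split_ifs with h
  · rw [h]
  · by_contra hne
    apply h
    symm
    ext p
    have h1 : Finsupp.weight (wb p.1) α = 0 := h0 p.1 hne
    have h2 : α p ≤ Finsupp.weight (wb (N := N) p.1) α := by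
      refine Finsupp.le_weight _ ?_ α
      simp [wb]
    rw [h1] at h2
    rw [Nat.le_zero.1 h2]
    rfl

/-- the hypersurface data give the data of part P5 -/
theorem CORE_data {r w d : ℕ} {Q : MvPolynomial (Fin (w + 2)) ℂ}
    {A : Fin (r + 1) → MvPolynomial (Fin (w + 2)) ℂ} {T : Finset (Fin (r + 1) → ℂ)}
    {lift : (Fin (r + 1) → ℂ) → (Fin (w + 2) → ℂ)} (h : HypData r w d Q A T lift)
    (hTs : ∀ y : Fin (r + 1) → ℂ, (∀ u ∈ T, ∑ i, u i * y i = 0) → y = 0) :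
    Data (w + 2) r d d Q A := by
  refine ⟨h.irr, h.homQ, h.homA, fun y hy => hTs y fun u hu => ?_⟩
  obtain ⟨c, hc, hA⟩ := h.prop u hu
  obtain ⟨G, hG⟩ := hy
  have h1 : eval (lift u) (comb (RingHom.id ℂ) A y) = 0 := by
    rw [hG, map_mul, h.zero u hu, zero_mul]
  have h2 : eval (lift u) (comb (RingHom.id ℂ) A y) = c * ∑ i, u i * y i := by
    unfold comb
    rw [map_sum, Finset.mul_sum]
    refine Finset.sum_congr rfl fun i _ => ?_
    rw [map_mul, eval_C, MvPolynomial.map_id, hA i]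
    ring
  rw [h2] at h1
  exact (mul_eq_zero.1 h1).resolve_left hc

theorem CORE_plu (hCHP : Stmt_CHP) {r N d : ℕ} {Q : MvPolynomial (Fin N) ℂ}
    {A : Fin (r + 1) → MvPolynomial (Fin N) ℂ} (x : Fin (r + 1) → Mer)
    (hD : Data N r d d Q A) : PluF (d * d) (Phi Mer d Q A x) := by
  refine hCHP N d d Mer _ _ (hD.hom.map _) ?_
  unfold comb
  refine IsHomogeneous.sum _ _ _ fun i _ => ?_
  exact ((hD.homA i).map _).C_mul _

theorem CORE_tr (hFCH : Stmt_FCH) {r N d : ℕ} {Q : MvPolynomial (Fin N) ℂ}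
    {A : Fin (r + 1) → MvPolynomial (Fin N) ℂ} (x : Fin (r + 1) → Mer)
    (tr : Mer ≃ₐ[ℂ] Mer) (hx : ∀ i, tr (x i) = x i) :
    map (tr : Mer →+* Mer) (Phi Mer d Q A x) = Phi Mer d Q A x := by
  have h := hFCH.1 N r d Mer Mer (tr : Mer →+* Mer) Q A x (by
    refine RingHom.ext fun a => ?_
    exact tr.commutes a)
  rw [h]
  congr 1
  funext i
  exact hx i

theorem CORE_tend {f g : ℝ → ℝ} {C : ℝ} (h : ∀ t, 1 ≤ t → f t ≤ g t + C)
    (hf : Tendsto (fun r => f r / Real.log r) atTop atTop) :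
    Tendsto (fun r => g r / Real.log r) atTop atTop := by
  refine tendsto_atTop_mono' atTop ?_ (tendsto_atTop_add_const_right atTop (-|C|) hf)
  filter_upwards [eventually_ge_atTop (Real.exp 1)] with t ht
  have h1 : (1 : ℝ) ≤ t := le_trans (by
    have := Real.add_one_le_exp (1 : ℝ)
    linarith) ht
  have ht0 : 0 < t := by linarith
  have hl : 1 ≤ Real.log t := by
    rw [Real.le_log_iff_exp_le ht0]; exact ht
  have hl0 : 0 < Real.log t := by linarith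
  rw [← sub_eq_add_neg, sub_le_iff_le_add, div_le_iff₀ hl0, add_mul, div_mul_cancel₀ _ hl0.ne']
  have h2 := h t h1
  have h3 : C ≤ |C| * Real.log t := by
    calc C ≤ |C| := le_abs_self C
      _ = |C| * 1 := by ring
      _ ≤ |C| * Real.log t := mul_le_mul_of_nonneg_left hl (abs_nonneg _)
  linarith

/-- the value of `∑ x_i A_i` at a lifted node -/
theorem CORE_val {r w d : ℕ} {Q : MvPolynomial (Fin (w + 2)) ℂ}
    {A : Fin (r + 1) → MvPolynomial (Fin (w + 2)) ℂ} {T : Finset (Fin (r + 1) → ℂ)}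
    {lift : (Fin (r + 1) → ℂ) → (Fin (w + 2) → ℂ)} (h : HypData r w d Q A T lift)
    (x : Fin (r + 1) → Mer) {u : Fin (r + 1) → ℂ} (hu : u ∈ T) :
    ∃ c : ℂ, c ≠ 0 ∧ (∑ i, x i * algebraMap ℂ Mer (eval (lift u) (A i))) =
      algebraMap ℂ Mer c * ∑ i, algebraMap ℂ Mer (u i) * x i := by
  obtain ⟨c, hc, hA⟩ := h.prop u hu
  refine ⟨c, hc, ?_⟩
  rw [Finset.mul_sum]
  refine Finset.sum_congr rfl fun i _ => ?_
  rw [hA i, map_mul]
  ring

/-- the order at a node -/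
theorem CORE_node (hPHG : Stmt_PHG) (hVXK : Stmt_VXK) (hV : Pool.ThmM.Stmt_VAL)
    {k r w e0 : ℕ} (hk : 1 ≤ k) {Q : MvPolynomial (Fin (w + 2)) ℂ}
    {A : Fin (r + 1) → MvPolynomial (Fin (w + 2)) ℂ} {T : Finset (Fin (r + 1) → ℂ)}
    {lift : (Fin (r + 1) → ℂ) → (Fin (w + 2) → ℂ)} (h : HypData r w (e0 + 1) Q A T lift)
    (x : Fin (r + 1) → Mer) (hx0 : x ≠ 0)
    (hT0 : ∀ u ∈ T, u ≠ 0)
    (hTs : ∀ y : Fin (r + 1) → ℂ, (∀ u ∈ T, ∑ i, u i * y i = 0) → y = 0)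
    (hli : ∀ y : Fin (r + 1) → ℂ, ∑ i, algebraMap ℂ Mer (y i) * x i = 0 → y = 0)
    (hn : ∀ u ∈ T, ∃ y : Mer, ∑ i, algebraMap ℂ Mer (u i) * x i = y ^ k)
    {u : Fin (r + 1) → ℂ} (hu : u ∈ T) :
    (∑ i, x i * algebraMap ℂ Mer (eval (lift u) (A i))) ≠ 0 ∧
    ∀ z, ∃ n : ℤ, vP (subC Mer (gU (lift u)) (Phi Mer (e0 + 1) Q A x)) z =
      ((((e0 : ℤ) + 1) * dv x z + k * n : ℤ) : WithTop ℤ) := by
  obtain ⟨c, hc, hval⟩ := CORE_val h x hu
  obtain ⟨y, hy⟩ := hn u hu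
  have hs0 : ∑ i, algebraMap ℂ Mer (u i) * x i ≠ 0 := fun h0 => hT0 u hu (hli u h0)
  have hc' : algebraMap ℂ Mer c ≠ 0 := by
    intro h0
    apply hc
    exact (map_eq_zero (algebraMap ℂ Mer)).1 h0
  have hne : (∑ i, x i * algebraMap ℂ Mer (eval (lift u) (A i))) ≠ 0 := by
    rw [hval]
    exact mul_ne_zero hc' hs0
  have hy0 : y ≠ 0 := by
    intro h0
    apply hs0
    rw [hy, h0, zero_pow (by omega)]
  refine ⟨hne, fun z => ?_⟩
  obtain ⟨n, hn'⟩ := hVXK r k T x hx0 hTs hn z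
  have hD := CORE_data h hTs
  have h3 := (hPHG (w + 2) r e0 Q A x z hD hx0).2.2 (lift u) (h.zero u hu) ⟨_, h.smooth u hu⟩
  refine ⟨dv1 y z - n, ?_⟩
  rw [h3, hval, hy, (hV z).1, (hV z).2.2.2.1 c hc, zero_add, CORE_pow hV y z k hy0,
    ← WithTop.coe_add]
  congr 1
  rw [hn']
  ring

theorem p_CORE (hCHP : Stmt_CHP) (hPLW : Stmt_PLW) (hPFA : Stmt_PFA) (hFNC : Stmt_FNC)
    (hFCH : Stmt_FCH) (hPHG : Stmt_PHG) (hVXK : Stmt_VXK) (hLBD : Stmt_LBD) (hHTE : Stmt_HTE)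
    (hFAC : Stmt_FAC) (hCOP : Stmt_COP) (hNOD : Stmt_NOD) (hGRO : Stmt_GRO) (hFTL : Stmt_FTL)
    (hNDC : Stmt_NDC) (hEXE : Stmt_EXE) (hNVH : Stmt_NVH) (hCOU : Stmt_COU) (hEND : Stmt_END)
    (hPRJ : Stmt_PRJ) (hV : Pool.ThmM.Stmt_VAL) : Stmt_CORE := by
  classical
  have hcou : ∀ w d ρ : ℕ, ∃ a : ℕ, (2 * (max 1 (d ^ 2)) - 1) * (2 * (a + ρ + w).choose w) <
      (4 * (max 1 (d ^ 2)) - 1) * (a + w).choose w := fun w d ρ =>
    hCOU w (max 1 (d ^ 2)) ρ (le_max_left _ _)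
  choose fa hfa using hcou
  refine ⟨fun w d => (Finset.range (d * d + 1)).sup fun ρ => fa w d ρ + 2 * ρ, ?_⟩
  intro k r w d Q A T lift x tr hk h hdiv hT0 hTs hli htr3 htrx hn
  have hβ : ∀ ρ, ρ ≤ d * d → fa w d ρ + 2 * ρ ≤
      (Finset.range (d * d + 1)).sup fun ρ => fa w d ρ + 2 * ρ := by
    intro ρ hρ
    exact Finset.le_sup (f := fun ρ => fa w d ρ + 2 * ρ) (Finset.mem_range.2 (by omega))
  have hd1 := h.hd
  have hD := CORE_data h hTs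
  -- `x ≠ 0`
  have hx0 : x ≠ 0 := by
    intro hx
    have h1 := hli (fun _ => 1) (by
      rw [hx]
      simp)
    have h2 := congrFun h1 0
    exact one_ne_zero h2
  obtain ⟨e0, he0⟩ : ∃ e0, d = e0 + 1 := ⟨d - 1, by omega⟩
  obtain ⟨Φ, hΦ⟩ : ∃ Φ, Φ = Phi Mer d Q A x := ⟨_, rfl⟩
  have hv1 : ∀ z, vP Φ z = ((((e0 : ℤ) + 1) * dv x z : ℤ) : WithTop ℤ) := by
    intro z
    rw [hΦ]
    subst he0
    exact (hPHG (w + 2) r e0 Q A x z hD hx0).1
  have hv2 : ∀ e : Fin (w + 2) → ℂ, eval e Q ≠ 0 → ∀ z, vP (subC Mer (gE e) Φ) z =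
      ((((e0 : ℤ) + 1) * dv x z : ℤ) : WithTop ℤ) := by
    intro e he z
    rw [hΦ]
    subst he0
    exact (hPHG (w + 2) r e0 Q A x z hD hx0).2.1 e he
  have hv3 : ∀ u ∈ T, (∑ i, x i * algebraMap ℂ Mer (eval (lift u) (A i))) ≠ 0 ∧
      ∀ z, ∃ n : ℤ, vP (subC Mer (gU (lift u)) Φ) z =
      ((((e0 : ℤ) + 1) * dv x z + k * n : ℤ) : WithTop ℤ) := by
    intro u hu
    rw [hΦ]
    subst he0
    exact CORE_node hPHG hVXK hV hk h x hx0 hT0 hTs hli hn hu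
  have hΦ0 : Φ ≠ 0 := CORE_ne (hv1 0)
  have hPlu : PluF (d * d) Φ := by
    rw [hΦ]; exact CORE_plu hCHP x hD
  have hTr : map (tr : Mer →+* Mer) Φ = Φ := by
    rw [hΦ]; exact CORE_tr hFCH x tr htrx
  obtain ⟨c, Fix, Psi, s, m, hfac, hs1, hs2⟩ := hFAC _ k Φ hΦ0
  by_cases hs : s = ∅
  · refine ⟨c, Fix, Psi, ?_⟩
    change Phi Mer d Q A x = _
    rw [← hΦ, hfac, hs, Finset.prod_empty, mul_one]
  exfalso
  obtain ⟨P₀, hP₀⟩ := Finset.nonempty_iff_ne_empty.2 hs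
  have hm1 : ∀ P ∈ s, 1 ≤ m P := by
    intro P hP
    by_contra hm
    apply (hs1 P hP).2.2
    have : m P = 0 := by omega
    rw [this]
    exact dvd_zero k
  obtain ⟨R, hR⟩ : ∃ R, R = ∏ P ∈ s, P := ⟨_, rfl⟩
  obtain ⟨Rc, hRc⟩ : ∃ Rc, Rc = C c * map (algebraMap ℂ Mer) Fix * Psi ^ k *
    ∏ P ∈ s, P ^ (m P - 1) := ⟨_, rfl⟩
  have hΦR : Φ = R * Rc := by
    rw [hfac, hR, hRc]
    have h1 : ∏ P ∈ s, P ^ m P = (∏ P ∈ s, P) * ∏ P ∈ s, P ^ (m P - 1) := by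
      rw [← Finset.prod_mul_distrib]
      refine Finset.prod_congr rfl fun P hP => ?_
      rw [← pow_succ', Nat.sub_add_cancel (hm1 P hP)]
    rw [h1]
    ring
  have hR0 : R ≠ 0 := by
    intro h0
    apply hΦ0
    rw [hΦR, h0, zero_mul]
  have hPR : P₀ ∣ R := by
    rw [hR]
    exact Finset.dvd_prod_of_mem _ hP₀
  obtain ⟨ρ, hρ, hPluR⟩ := hPFA (w + 2) (d * d) Mer R Rc (by rw [← hΦR]; exact hΦ0)
    (by rw [← hΦR]; exact hPlu)
  have hρ1 : 1 ≤ ρ := by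
    by_contra hρ0
    have hρ0' : ρ = 0 := by omega
    rw [hρ0'] at hPluR
    have h1 := CORE_const hPLW R hPluR
    apply (hs1 P₀ hP₀).1.not_isUnit
    refine isUnit_of_dvd_unit hPR ?_
    rw [h1]
    refine IsUnit.map C (isUnit_iff_ne_zero.2 ?_)
    intro h2
    apply hR0
    rw [h1, h2, C_0]
  have hcop : IsRelPrime R (dz R) := by
    rw [hR]
    exact hCOP _ s (fun P hP => ⟨(hs1 P hP).1, (hs1 P hP).2.1⟩) hs2
  -- nodes
  have hnod : ∀ u ∈ T, ∀ z, vP (subC Mer (gU (lift u)) R) z ≠ vP R z + 1 := by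
    intro u hu z
    obtain ⟨n, hn1⟩ := (hv3 u hu).2 z
    have h1 := hv1 z
    rw [hfac] at h1 hn1
    rw [hR]
    exact hNOD _ _ (gU (lift u)) k c Fix Psi s m z _ n hk (fun P hP => (hs1 P hP).2.2) h1 hn1
  have hgU : ∀ u ∈ T, subC Mer (gU (lift u)) R ≠ 0 := by
    intro u hu h0
    obtain ⟨n, hn1⟩ := (hv3 u hu).2 0
    apply CORE_ne hn1
    rw [hΦR, map_mul, h0, zero_mul]
  -- the centre of projection
  obtain ⟨e, heQ, hel, heT, hrel⟩ := hEXE w ρ Q (T.image lift) R h.irr.ne_zero hρ1 hPluR hR0 hcop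
    (by
      intro u hu
      obtain ⟨u', hu', rfl⟩ := Finset.mem_image.1 hu
      exact ⟨_, h.smooth u' hu'⟩)
    (by
      intro u hu
      obtain ⟨u', hu', rfl⟩ := Finset.mem_image.1 hu
      exact hgU u' hu')
  have hgE0 : subC Mer (gE e) R ≠ 0 := by
    intro h0
    apply CORE_ne (hv2 e heQ 0)
    rw [hΦR, map_mul, h0, zero_mul]
  have hL := hLBD (w + 2) r d Q A x e hD hx0 heQ
  rw [← hΦ] at hL
  obtain ⟨hvE, hTE⟩ := hHTE _ _ (gE e) Φ R Rc hΦR hΦ0 (fun z => by rw [hv1, hv2 e heQ]) hL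
  obtain ⟨F, hF⟩ : ∃ F, F = subC Mer (gF e) R := ⟨_, rfl⟩
  have hPr := hPRJ w ρ Mer R e hPluR hel
  have hev : ∀ u ∈ T, evC (prj e (lift u)) F ≠ 0 := by
    intro u hu
    have h1 := hPr.2.2.2 (lift u)
    rw [← hF] at h1
    change evC (prj e (lift u)) F = evC (ppt (lift u) e) R at h1
    rw [h1]
    exact (heT (lift u) (Finset.mem_image_of_mem _ hu)).2
  have hTne : T.Nonempty := by
    rw [Finset.nonempty_iff_ne_empty]
    intro hT
    have h1 := hTs (fun _ => 1) (by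
      intro u hu
      rw [hT] at hu
      exact absurd hu (Finset.notMem_empty u))
    exact one_ne_zero (congrFun h1 0)
  have hF0 : F ≠ 0 := by
    obtain ⟨u, hu⟩ := hTne
    intro h0
    apply hev u hu
    rw [h0]
    unfold evC
    exact map_zero _
  -- growth
  have hgr : Tendsto (fun r => TP F r / Real.log r) atTop atTop := by
    have h1 := hGRO _ tr Φ P₀ R htr3 hΦ0 hTr ⟨Rc, hΦR⟩ hPR (hs1 P₀ hP₀).2.1
    obtain ⟨C1, hC1⟩ := hTE
    obtain ⟨C2, hC2⟩ := (hFTL w ρ R e hPluR hel).2 hgE0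
    rw [← hF] at hC2
    refine CORE_tend (C := C2 + C1) (fun t ht => ?_) h1
    have h2 := hC1 t ht
    have h3 := hC2 t ht
    linarith
  have hmax : max 1 (d ^ 2) = d ^ 2 := max_eq_right (Nat.one_le_pow _ _ hd1)
  have hcnt := hfa w d ρ
  rw [hmax] at hcnt
  refine hEND w ρ (d ^ 2) (fa w d ρ) F ((fun u => prj e (lift u)) '' (T : Set (Fin (r + 1) → ℂ)))
    (Nat.one_le_pow _ _ hd1) hcnt (by rw [hF]; exact hPr.1) hF0 (by rw [hF]; exact hrel)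
    ?_ ?_ hgr ?_
  · rintro p ⟨u, hu, rfl⟩
    exact hev u hu
  · intro G hG hG0
    refine hNVH w d (fa w d ρ + 2 * ρ) Q (lift '' (T : Set (Fin (r + 1) → ℂ))) e hd1 h.homQ heQ
      hel ?_ G hG ?_
    · intro f hf hf0
      refine hdiv _ f (hβ ρ hρ) hf fun u hu => hf0 _ ⟨u, hu, rfl⟩
    · rintro p ⟨u, hu, rfl⟩
      exact hG0 _ ⟨u, hu, rfl⟩
  · rintro p ⟨u, hu, rfl⟩
    have h1 := hNDC w r d ρ Q A x (lift u) e R Rc hd1 hD (h.zero u hu)
      (heT (lift u) (Finset.mem_image_of_mem _ hu)).1 heQ hel (hv3 u hu).1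
      (by rw [← hΦ]; exact hΦR) hPluR (hnod u hu)
      (heT (lift u) (Finset.mem_image_of_mem _ hu)).2 hvE hTE
    rw [← hF] at h1
    exact h1

end Pool.ThmM.Chow
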