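import Pool.Agent.Work.MP_f82ddf_M.Chow

set_option autoImplicit false

/-! # Theorem M, part P3, block BAI: countably many nonzero polynomials -/

namespace Pool.ThmM.Chow

open MvPolynomial

theorem BAI_main (N : ℕ) : ∀ (ι : Type) [Countable ι] (g : ι → MvPolynomial (Fin N) ℂ),
    (∀ i, g i ≠ 0) → ∃ θ : Fin N → ℂ, ∀ i, eval θ (g i) ≠ 0 := by
  induction N with
  | zero =>
    intro ι _ g hg
    refine ⟨fun i => 0, fun i h => hg i ?_⟩
    have h1 := eq_C_of_isEmpty (g i)
    rw [h1, eval_C] at h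
    rw [h1, h, C_0]
  | succ N ih =>
    intro ι _ g hg
    have h1 : ∀ i, (finSuccEquiv ℂ N (g i)).leadingCoeff ≠ 0 := by
      intro i
      rw [Polynomial.leadingCoeff_ne_zero]
      exact (map_ne_zero_iff _ (finSuccEquiv ℂ N).injective).2 (hg i)
    obtain ⟨θ', hθ'⟩ := ih ι (fun i => (finSuccEquiv ℂ N (g i)).leadingCoeff) h1
    have h2 : ∀ i, Polynomial.map (eval θ') (finSuccEquiv ℂ N (g i)) ≠ 0 := by
      intro i h
      apply hθ' i
      have h3 := congrArg (fun p => p.coeff (finSuccEquiv ℂ N (g i)).natDegree) h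
      simpa [Polynomial.coeff_map] using h3
    obtain ⟨z, hz⟩ : ∃ z : ℂ, ∀ i,
        (Polynomial.map (eval θ') (finSuccEquiv ℂ N (g i))).eval z ≠ 0 := by
      by_contra hcon
      push Not at hcon
      apply not_countable_complex
      refine Set.Countable.mono (s₂ := ⋃ i,
        {z : ℂ | (Polynomial.map (eval θ') (finSuccEquiv ℂ N (g i))).eval z = 0}) ?_ ?_
      · intro z _
        obtain ⟨i, hi⟩ := hcon z
        exact Set.mem_iUnion.2 ⟨i, hi⟩
      · refine Set.countable_iUnion fun i => Set.Finite.countable ?_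
        exact Polynomial.finite_setOf_isRoot (h2 i)
    refine ⟨Fin.cons z θ', fun i => ?_⟩
    rw [eval_eq_eval_mv_eval']
    exact hz i

theorem p_BAI : Stmt_BAI := by
  intro N Z g G hZ hg hG
  haveI : Countable Z := hZ.to_subtype
  obtain ⟨θ, hθ⟩ := BAI_main N (Option Z) (fun o => o.elim G fun z => g z.1) (by
    intro o
    cases o with
    | none => exact hG
    | some z => exact hg z.1 z.2)
  exact ⟨θ, hθ none, fun z hz => hθ (some ⟨z, hz⟩)⟩

end Pool.ThmM.Chow
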