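import Pool.Agent.Work.MP_f82ddf_M.Chow

set_option autoImplicit false

/-! # Block CHP: the Chow form is of Pluecker type -/

namespace Pool.ThmM.Chow

open MvPolynomial
open Pool.Agent.Work.MP_f82ddf_M5 (lineAt resAt chow at2 comb Data)

theorem p_CHP (hF : Pool.Agent.Work.MP_f82ddf_M5.Stmt_FUN)
    (hD : Pool.Agent.Work.MP_f82ddf_M5.Stmt_DEG) (hRF : Stmt_RFL) (hRT : Stmt_RTS)
    (hL : Stmt_LNH) : Stmt_CHP := by
  obtain ⟨ε, hε, hRF⟩ := hRF
  intro N d D R _ F G hFd hGD B _ φ a b c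
  have h5 : ∀ a b : Fin N → B, at2 φ a b (chow d D F G) = resAt φ F G a b d D := fun a b =>
    hF.2.2.2.2.1 N d D R B φ F G a b
  -- invariance in the second point
  have H2 : ∀ (a b : Fin N → B) (c : B),
      resAt φ F G a (fun j => b j + c * a j) d D = resAt φ F G a b d D := by
    intro a b c
    unfold resAt
    rw [hL.2.1 N R B φ F a b c, hL.2.1 N R B φ G a b c]
    exact hRT.1 B _ _ d D c (hD N d R B φ F a b hFd).1 (hD N D R B φ G a b hGD).1
  have H4 : ∀ (a b : Fin N → B) (c : B),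
      resAt φ F G a (fun j => c * b j) d D = c ^ (d * D) * resAt φ F G a b d D := by
    intro a b c
    unfold resAt
    exact hRT.2 B _ _ _ _ d D c (hL.2.2 N d R B φ F a b c hFd) (hL.2.2 N D R B φ G a b c hGD)
  have HS : ∀ a b : Fin N → B,
      resAt φ F G b a d D = (ε d D : B) * resAt φ F G a b d D := by
    intro a b
    unfold resAt
    rw [hL.1 N d R B φ F a b hFd, hL.1 N D R B φ G a b hGD]
    exact hRF B _ _ d D
  have hεB : (ε d D : B) * (ε d D : B) = 1 := by
    rw [← Int.cast_mul, hε, Int.cast_one]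
  refine ⟨?_, ?_, ?_, ?_⟩
  · rw [h5, h5, HS b (fun j => a j + c * b j), H2 b a c, HS a b, ← mul_assoc, hεB, one_mul]
  · rw [h5, h5, H2]
  · rw [h5, h5, HS b (fun j => c * a j), H4 b a c, HS a b]
    linear_combination (c ^ (d * D) * resAt φ F G a b d D) * hεB
  · rw [h5, h5, H4]

end Pool.ThmM.Chow
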