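import Pool.Agent.Work.MP_f82ddf_M.Core
import Pool.Agent.Work.MP_f82ddf_M1.B_DVD
import Pool.Agent.Work.MP_f82ddf_M1.B_COP

set_option autoImplicit false

/-! # Block COP (helper22): the moving part is relatively prime to its derivative -/

open Topology Filter
open scoped Differential
open Pool.Agent.Work.MP_f82ddf_nt.DQ

namespace Pool.ThmM.Chow

open MvPolynomial

theorem p_COP (hZ : Pool.ThmM.Stmt_DZR) : Stmt_COP := by
  intro σ _ s hs hna
  have h1 : ∀ P ∈ s, Irreducible P ∧ ¬ Pool.ThmM.IsFix P :=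
    fun P hP => ⟨(hs P hP).1, fun ⟨c, G, h⟩ => (hs P hP).2 c G h⟩
  have h2 : ∀ P ∈ s, ∀ P' ∈ s, P ≠ P' → ¬ Associated P P' :=
    fun P hP P' hP' hne hass => hne (hna P hP P' hP' hass.dvd)
  have h3 := Pool.ThmM.p_COP (Pool.ThmM.p_DVD hZ) hZ σ s h1 h2
  have hR : ∏ P ∈ s, P ≠ 0 := Finset.prod_ne_zero_iff.2 fun P hP => (hs P hP).1.ne_zero
  intro D hDR hDd
  obtain ⟨E, hE⟩ := hDR
  obtain ⟨F, hF⟩ := hDd
  have hE0 : E ≠ 0 := by
    rintro rfl
    exact hR (by rw [hE, mul_zero])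
  have h4 : (∏ P ∈ s, P) ∣ E * dz (∏ P ∈ s, P) := by
    refine ⟨F, ?_⟩
    rw [hF]
    conv_rhs => rw [hE]
    ring
  obtain ⟨G, hG⟩ := h3 E h4
  have h5 : E * (D * G) = E * 1 := by
    conv_rhs => rw [mul_one, hG, hE]
    ring
  exact IsUnit.of_mul_eq_one _ (mul_left_cancel₀ hE0 h5)

end Pool.ThmM.Chow
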