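import Pool.Agent.Work.MP_f82ddf_M.Chow

set_option autoImplicit false

open Topology Filter

namespace Pool.ThmM.Chow

theorem COU_iter (w c q : ℕ)
    (h : ∀ a : ℕ, (c + 1) * (a + w).choose w ≤ c * (a + q + w).choose w) (j : ℕ) :
    (c + 1) ^ j ≤ c ^ j * (j * q + w).choose w := by
  induction j with
  | zero => simp
  | succ j ih =>
    calc (c + 1) ^ (j + 1) = (c + 1) ^ j * (c + 1) := pow_succ _ _
      _ ≤ (c ^ j * (j * q + w).choose w) * (c + 1) := Nat.mul_le_mul_right _ ih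
      _ = c ^ j * ((c + 1) * (j * q + w).choose w) := by ring
      _ ≤ c ^ j * (c * (j * q + q + w).choose w) := Nat.mul_le_mul_left _ (h (j * q))
      _ = c ^ (j + 1) * ((j + 1) * q + w).choose w := by
        rw [show (j + 1) * q + w = j * q + q + w by ring]; ring

theorem COU_bound (w c q j : ℕ) (hj : 1 ≤ j)
    (h : ∀ a : ℕ, (c + 1) * (a + w).choose w ≤ c * (a + q + w).choose w) :
    (c + 1) ^ j ≤ c ^ j * (j ^ w * (q + w) ^ w) := by
  refine (COU_iter w c q h j).trans (Nat.mul_le_mul_left _ ?_)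
  refine (Nat.choose_le_pow _ _).trans ?_
  rw [← mul_pow]
  apply Nat.pow_le_pow_left
  nlinarith [Nat.zero_le w, Nat.zero_le q]

theorem COU_false (w c q : ℕ) (hc : 1 ≤ c)
    (h : ∀ a : ℕ, (c + 1) * (a + w).choose w ≤ c * (a + q + w).choose w) : False := by
  have hc' : (0 : ℝ) < c := by exact_mod_cast hc
  have hr : (1 : ℝ) < ((c : ℝ) + 1) / c := by
    rw [lt_div_iff₀ hc']; linarith
  have ht := tendsto_pow_const_div_const_pow_of_one_lt w hr
  have hM : (0 : ℝ) < ((q : ℝ) + w) ^ w + 1 := by positivity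
  have he := (ht.eventually (gt_mem_nhds (show (0 : ℝ) < 1 / (((q : ℝ) + w) ^ w + 1) by
    positivity))).and (eventually_ge_atTop 1)
  obtain ⟨j, hj, hj1⟩ := he.exists
  have hb := COU_bound w c q j hj1 h
  have hb' : ((c : ℝ) + 1) ^ j ≤ (c : ℝ) ^ j * ((j : ℝ) ^ w * ((q : ℝ) + w) ^ w) := by
    exact_mod_cast hb
  have hcj : (0 : ℝ) < (c : ℝ) ^ j := by positivity
  rw [div_pow] at hj
  have h1 : ((c : ℝ) + 1) ^ j / (c : ℝ) ^ j ≤ (j : ℝ) ^ w * ((q : ℝ) + w) ^ w := by
    rw [div_le_iff₀ hcj]; linarith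
  have hpos : (0 : ℝ) < ((c : ℝ) + 1) ^ j / (c : ℝ) ^ j := by positivity
  rw [div_lt_div_iff₀ hpos hM] at hj
  have h2 : (0 : ℝ) < (j : ℝ) ^ w := by
    have : (0 : ℝ) < j := by exact_mod_cast hj1
    positivity
  nlinarith

/-- COU: the count at the end. -/
theorem p_COU : Stmt_COU := by
  intro w b q hb
  by_contra hcon
  push Not at hcon
  refine COU_false w (4 * b - 2) q (by omega) fun a => ?_
  have h1 := hcon a
  have e1 : 4 * b - 2 + 1 = 4 * b - 1 := by omega
  have e2 : (2 * b - 1) * (2 * (a + q + w).choose w) = (4 * b - 2) * (a + q + w).choose w := by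
    rw [← mul_assoc, show (2 * b - 1) * 2 = 4 * b - 2 by omega]
  rw [e1, ← e2]
  exact h1

end Pool.ThmM.Chow
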