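import Pool.Agent.Work.MP_f82ddf_M.Chow

set_option autoImplicit false

/-! # Block CPS: specialisation of coprimality -/

open Topology Filter

namespace Pool.ThmM.Chow

open MvPolynomial

/-! ## Exponents -/

/-- the exponents of degree `n` in `N` variables -/
def CPS_I (N n : ℕ) : Finset (Fin N →₀ ℕ) := (Finset.univ : Finset (Fin N)).finsuppAntidiag n

theorem CPS_memI {N n : ℕ} {m : Fin N →₀ ℕ} : m ∈ CPS_I N n ↔ Finsupp.weight (1 : Fin N → ℕ) m = n := by
  rw [CPS_I, Finset.mem_finsuppAntidiag, Finsupp.weight_apply, Finsupp.sum_fintype _ _ (by simp)]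
  simp

/-- the form with given coefficients -/
noncomputable def CPS_pv {N n : ℕ} {T : Type} [CommRing T] (u : CPS_I N n → T) :
    MvPolynomial (Fin N) T :=
  ∑ i : CPS_I N n, monomial (i : Fin N →₀ ℕ) (u i)

theorem CPS_pv_hom {N n : ℕ} {T : Type} [CommRing T] (u : CPS_I N n → T) :
    (CPS_pv u).IsHomogeneous n := by
  refine IsHomogeneous.sum _ _ _ fun i _ => ?_
  intro d hd
  rw [coeff_monomial] at hd
  by_cases h : (i : Fin N →₀ ℕ) = d
  · rw [← h]; exact CPS_memI.1 i.2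
  · rw [if_neg h] at hd; exact absurd rfl hd

theorem CPS_pv_coeff {N n : ℕ} {T : Type} [CommRing T] {A : MvPolynomial (Fin N) T}
    (hA : A.IsHomogeneous n) : CPS_pv (fun i : CPS_I N n => coeff (i : Fin N →₀ ℕ) A) = A := by
  unfold CPS_pv
  rw [Finset.sum_coe_sort (CPS_I N n) (fun d => monomial d (coeff d A))]
  conv_rhs => rw [← support_sum_monomial_coeff A]
  symm
  apply Finset.sum_subset
  · intro d hd
    exact CPS_memI.2 (hA (mem_support_iff.1 hd))
  · intro d _ hd
    rw [notMem_support_iff.1 hd, monomial_zero]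

theorem CPS_pv_inj {N n : ℕ} {T : Type} [CommRing T] {u : CPS_I N n → T} (h : CPS_pv u = 0) :
    u = 0 := by
  classical
  funext i
  have h1 : coeff (i : Fin N →₀ ℕ) (CPS_pv u) = u i := by
    unfold CPS_pv
    rw [coeff_sum, Finset.sum_eq_single i]
    · rw [coeff_monomial, if_pos rfl]
    · intro j _ hj
      rw [coeff_monomial, if_neg (fun h => hj (Subtype.ext h))]
    · intro h; exact absurd (Finset.mem_univ _) h
  rw [← h1, h, coeff_zero]
  rfl

/-- a form whose coefficients of the right degree are zero is zero -/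
theorem CPS_zero {N n : ℕ} {T : Type} [CommRing T] {A : MvPolynomial (Fin N) T}
    (hA : A.IsHomogeneous n) (h : ∀ k : CPS_I N n, coeff (k : Fin N →₀ ℕ) A = 0) : A = 0 := by
  rw [← CPS_pv_coeff hA]
  unfold CPS_pv
  refine Finset.sum_eq_zero fun i _ => ?_
  show monomial (i : Fin N →₀ ℕ) (coeff (i : Fin N →₀ ℕ) A) = 0
  rw [h i, monomial_zero]

/-! ## The matrix -/

/-- the matrix of `(A, B) ↦ A R + B R'` -/
noncomputable def CPS_L {N : ℕ} (n k : ℕ) {T : Type} [CommRing T]
    (R R' : MvPolynomial (Fin N) T) : Matrix (CPS_I N k) (CPS_I N n ⊕ CPS_I N n) T :=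
  fun c => Sum.elim (fun i => coeff (c : Fin N →₀ ℕ) (monomial (i : Fin N →₀ ℕ) 1 * R))
    (fun i => coeff (c : Fin N →₀ ℕ) (monomial (i : Fin N →₀ ℕ) 1 * R'))

theorem CPS_coeff_pv {N n : ℕ} {T : Type} [CommRing T] (R : MvPolynomial (Fin N) T)
    (u : CPS_I N n → T) (c : Fin N →₀ ℕ) :
    coeff c (CPS_pv u * R) = ∑ i : CPS_I N n, coeff c (monomial (i : Fin N →₀ ℕ) 1 * R) * u i := by
  unfold CPS_pv
  rw [Finset.sum_mul, coeff_sum]
  refine Finset.sum_congr rfl fun i _ => ?_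
  have h1 : (monomial (i : Fin N →₀ ℕ) (u i) : MvPolynomial (Fin N) T) =
      C (u i) * monomial (i : Fin N →₀ ℕ) 1 := by
    rw [C_mul_monomial, mul_one]
  rw [h1, mul_assoc, coeff_C_mul, mul_comm]

theorem CPS_mulVec {N n k : ℕ} {T : Type} [CommRing T] (R R' : MvPolynomial (Fin N) T)
    (v : CPS_I N n ⊕ CPS_I N n → T) (c : CPS_I N k) :
    (CPS_L n k R R').mulVec v c =
      coeff (c : Fin N →₀ ℕ) (CPS_pv (fun i => v (Sum.inl i)) * R +
        CPS_pv (fun i => v (Sum.inr i)) * R') := by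
  rw [coeff_add, CPS_coeff_pv, CPS_coeff_pv]
  unfold Matrix.mulVec dotProduct
  rw [Fintype.sum_sum_type]
  rfl

theorem CPS_L_map {N n k : ℕ} {T T' : Type} [CommRing T] [CommRing T'] (f : T →+* T')
    (R R' : MvPolynomial (Fin N) T) :
    (CPS_L n k R R').map f = CPS_L n k (MvPolynomial.map f R) (MvPolynomial.map f R') := by
  ext c i
  have h : ∀ (i : Fin N →₀ ℕ) (P : MvPolynomial (Fin N) T),
      f (coeff (c : Fin N →₀ ℕ) (monomial i 1 * P)) =
        coeff (c : Fin N →₀ ℕ) (monomial i 1 * MvPolynomial.map f P) := by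
    intro i P
    rw [← coeff_map, map_mul, map_monomial, map_one]
  rcases i with i | i
  · exact h i R
  · exact h i R'

/-! ## The isomorphism -/

section iso
variable (N : ℕ) (K : Type) [Field K]

/-- separate the variables -/
noncomputable def CPS_th :
    MvPolynomial (Fin 2 × Fin N) K →+* MvPolynomial (Fin N) (MvPolynomial (Fin N) K) :=
  eval₂Hom (C.comp C) (fun p => if p.1 = 0 then X p.2 else C (X p.2))

/-- the inverse -/
noncomputable def CPS_ps :
    MvPolynomial (Fin N) (MvPolynomial (Fin N) K) →+* MvPolynomial (Fin 2 × Fin N) K :=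
  eval₂Hom (rename (fun j => ((1 : Fin 2), j))).toRingHom (fun j => X (0, j))

theorem CPS_ps_th (F : MvPolynomial (Fin 2 × Fin N) K) : CPS_ps N K (CPS_th N K F) = F := by
  have h : (CPS_ps N K).comp (CPS_th N K) = RingHom.id _ := by
    refine MvPolynomial.ringHom_ext ?_ ?_
    · intro z
      simp [CPS_ps, CPS_th]
    · rintro ⟨i, j⟩
      have hi : i = 0 ∨ i = 1 := by revert i; decide
      rcases hi with rfl | rfl <;> simp [CPS_ps, CPS_th]
  exact congrArg (fun f => f F) h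

theorem CPS_th_ps (F : MvPolynomial (Fin N) (MvPolynomial (Fin N) K)) :
    CPS_th N K (CPS_ps N K F) = F := by
  have h : (CPS_th N K).comp (CPS_ps N K) = RingHom.id _ := by
    refine MvPolynomial.ringHom_ext' ?_ ?_
    · refine MvPolynomial.ringHom_ext ?_ ?_
      · intro z
        simp [CPS_ps, CPS_th]
      · intro j
        simp [CPS_ps, CPS_th]
    · intro j
      simp [CPS_ps, CPS_th]
  exact congrArg (fun f => f F) h

theorem CPS_th_ne {F : MvPolynomial (Fin 2 × Fin N) K} (h : F ≠ 0) : CPS_th N K F ≠ 0 := by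
  intro h1
  apply h
  rw [← CPS_ps_th N K F, h1, map_zero]

theorem CPS_th_relPrime {R R' : MvPolynomial (Fin 2 × Fin N) K} (h : IsRelPrime R R') :
    IsRelPrime (CPS_th N K R) (CPS_th N K R') := by
  intro d h1 h2
  have h3 := map_dvd (CPS_ps N K) h1
  have h4 := map_dvd (CPS_ps N K) h2
  rw [CPS_ps_th] at h3 h4
  have h5 := (h h3 h4).map (CPS_th N K)
  rwa [CPS_th_ps] at h5

theorem CPS_th_hom {F : MvPolynomial (Fin 2 × Fin N) K} {ρ : ℕ}
    (h : IsWeightedHomogeneous (wb 0) F ρ) : (CPS_th N K F).IsHomogeneous ρ := by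
  have h1 : CPS_th N K F = ∑ d ∈ F.support, (C (C (coeff d F)) : MvPolynomial (Fin N) _) *
      ∏ i ∈ d.support, (if i.1 = 0 then X i.2 else C (X i.2)) ^ d i := by
    unfold CPS_th
    rw [coe_eval₂Hom, eval₂_eq]
    rfl
  rw [h1]
  refine IsHomogeneous.sum _ _ _ fun d hd => ?_
  have h2 := h (mem_support_iff.1 hd)
  rw [Finsupp.weight_apply] at h2
  have h3 : ρ = 0 + ∑ i ∈ d.support, (wb (N := N) 0 i) * d i := by
    rw [zero_add, ← h2]
    unfold Finsupp.sum
    exact Finset.sum_congr rfl fun i _ => mul_comm _ _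
  rw [h3]
  refine IsHomogeneous.mul (isHomogeneous_C _ _) (IsHomogeneous.prod _ _ _ fun i _ => ?_)
  by_cases hi : i.1 = 0
  · rw [if_pos hi, wb, if_pos hi]
    exact (isHomogeneous_X _ _).pow _
  · rw [if_neg hi, wb, if_neg hi]
    exact (isHomogeneous_C _ _).pow _

end iso

/-- specialisation -/
theorem CPS_spec (N : ℕ) (K : Type) [Field K] [Algebra ℂ K] (e : Fin N → ℂ)
    (F : MvPolynomial (Fin 2 × Fin N) K) :
    subC K (gE e) F =
      MvPolynomial.map (eval (fun j => algebraMap ℂ K (e j))) (CPS_th N K F) := by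
  have h : subC K (gE e) =
      (MvPolynomial.map (eval (fun j => algebraMap ℂ K (e j)))).comp (CPS_th N K) := by
    refine MvPolynomial.ringHom_ext ?_ ?_
    · intro z
      simp [subC, CPS_th]
    · rintro ⟨i, j⟩
      have hi : i = 0 ∨ i = 1 := by revert i; decide
      rcases hi with rfl | rfl <;> simp [subC, CPS_th, gE, ppt]
  exact congrArg (fun f => f F) h

/-! ## The injectivity -/

/-- forms of degree `ρ - 1` over a domain, relatively prime forms of degree `ρ` -/
theorem CPS_inj {N ρ : ℕ} {S : Type} [CommRing S] [IsDomain S]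
    [DecompositionMonoid (MvPolynomial (Fin N) S)] (hρ : 1 ≤ ρ) {R R' : MvPolynomial (Fin N) S}
    (hR : R.IsHomogeneous ρ) (hR0 : R ≠ 0) (hrel : IsRelPrime R R')
    {A B : MvPolynomial (Fin N) S} (hB : B.IsHomogeneous (ρ - 1)) (h : A * R + B * R' = 0) :
    A = 0 ∧ B = 0 := by
  have h1 : R ∣ B * R' := ⟨-A, by linear_combination h⟩
  have h2 : R ∣ B := hrel.dvd_of_dvd_mul_right h1
  have hB0 : B = 0 := by
    by_contra hB0
    obtain ⟨G, hG⟩ := h2
    have hG0 : G ≠ 0 := by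
      rintro rfl
      exact hB0 (by rw [hG, mul_zero])
    have h3 := totalDegree_mul_of_isDomain hR0 hG0
    rw [← hG, hB.totalDegree hB0, hR.totalDegree hR0] at h3
    omega
  refine ⟨?_, hB0⟩
  rw [hB0, zero_mul, add_zero] at h
  exact (mul_eq_zero.1 h).resolve_right hR0

theorem p_CPS (hW : Stmt_WHF) (hM : Stmt_MIN) : Stmt_CPS := by
  classical
  intro N ρ K _ _ R R' hρ hR hR' hR0 hrel
  set T := CPS_th N K R with hTd
  set T' := CPS_th N K R' with hTd'
  have hT : T.IsHomogeneous ρ := CPS_th_hom N K hR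
  have hT' : T'.IsHomogeneous ρ := CPS_th_hom N K hR'
  have hT0 : T ≠ 0 := CPS_th_ne N K hR0
  have hTrel : IsRelPrime T T' := CPS_th_relPrime N K hrel
  -- `N ≥ 1`
  have hN : 1 ≤ N := by
    by_contra h
    have hN0 : N = 0 := by omega
    subst hN0
    obtain ⟨d, hd⟩ := MvPolynomial.ne_zero_iff.1 hT0
    have h1 := hT hd
    have h2 : d = 0 := Subsingleton.elim _ _
    rw [h2, map_zero] at h1
    omega
  have hρ2 : ρ - 1 + ρ = 2 * ρ - 1 := by omega
  obtain ⟨D, H, hH0, hDL⟩ := hM (MvPolynomial (Fin N) K) (CPS_I N (ρ - 1) ⊕ CPS_I N (ρ - 1))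
    (CPS_I N (2 * ρ - 1)) (CPS_L (ρ - 1) (2 * ρ - 1) T T') (by
      intro v hv
      have h1 : CPS_pv (fun i => v (Sum.inl i)) * T + CPS_pv (fun i => v (Sum.inr i)) * T' = 0 := by
        refine CPS_zero (n := 2 * ρ - 1) ?_ ?_
        · rw [← hρ2]
          exact ((CPS_pv_hom _).mul hT).add ((CPS_pv_hom _).mul hT')
        · intro k
          rw [← CPS_mulVec T T' v k, hv]
          rfl
      obtain ⟨h2, h3⟩ := CPS_inj hρ hT hT0 hTrel (CPS_pv_hom _) h1
      have h4 := CPS_pv_inj h2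
      have h5 := CPS_pv_inj h3
      funext i
      rcases i with i | i
      · exact congrFun h4 i
      · exact congrFun h5 i)
  refine ⟨H, hH0, ?_⟩
  intro e he
  set f : MvPolynomial (Fin N) K →+* K := eval (fun j => algebraMap ℂ K (e j)) with hf
  rw [CPS_spec, CPS_spec]
  set U := MvPolynomial.map f T with hU
  set U' := MvPolynomial.map f T' with hU'
  have hUh : U.IsHomogeneous ρ := hT.map f
  have hUh' : U'.IsHomogeneous ρ := hT'.map f
  -- the key injectivity
  have hkey : ∀ A B : MvPolynomial (Fin N) K, A.IsHomogeneous (ρ - 1) → B.IsHomogeneous (ρ - 1) →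
      A * U + B * U' = 0 → A = 0 ∧ B = 0 := by
    intro A B hA hB hAB
    let v : CPS_I N (ρ - 1) ⊕ CPS_I N (ρ - 1) → K :=
      Sum.elim (fun i => coeff (i : Fin N →₀ ℕ) A) (fun i => coeff (i : Fin N →₀ ℕ) B)
    have h1 : (CPS_L (ρ - 1) (2 * ρ - 1) U U').mulVec v = 0 := by
      funext c
      rw [CPS_mulVec]
      have e1 : CPS_pv (fun i => v (Sum.inl i)) = A := CPS_pv_coeff hA
      have e2 : CPS_pv (fun i => v (Sum.inr i)) = B := CPS_pv_coeff hB
      rw [e1, e2, hAB, coeff_zero]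
      rfl
    have h2 : (D.map f) * (CPS_L (ρ - 1) (2 * ρ - 1) U U') = f H • (1 : Matrix _ _ K) := by
      rw [hU, hU', ← CPS_L_map, ← Matrix.map_mul, hDL]
      ext i j
      simp only [Matrix.map_apply, Matrix.smul_apply, smul_eq_mul, map_mul, Matrix.one_apply]
      congr 1
      split_ifs
      · exact map_one f
      · exact map_zero f
    have h3 : f H • v = 0 := by
      have h4 : ((D.map f) * (CPS_L (ρ - 1) (2 * ρ - 1) U U')).mulVec v = 0 := by
        rw [← Matrix.mulVec_mulVec, h1, Matrix.mulVec_zero]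
      rw [h2, Matrix.smul_mulVec, Matrix.one_mulVec] at h4
      exact h4
    have h4 : v = 0 := (smul_eq_zero.1 h3).resolve_left he
    constructor
    · refine CPS_zero hA fun k => ?_
      exact congrFun h4 (Sum.inl k)
    · refine CPS_zero hB fun k => ?_
      exact congrFun h4 (Sum.inr k)
  obtain ⟨Mo, hMo⟩ : ∃ Mo : ℕ → MvPolynomial (Fin N) K,
      ∀ k, (Mo k).IsHomogeneous k ∧ Mo k ≠ 0 := by
    refine ⟨fun k => X (⟨0, hN⟩ : Fin N) ^ k, fun k => ⟨?_, pow_ne_zero _ (X_ne_zero _)⟩⟩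
    have h1 := (isHomogeneous_X K (⟨0, hN⟩ : Fin N)).pow k
    rwa [one_mul] at h1
  have hU0 : U ≠ 0 := by
    intro h
    have h1 := (hkey (Mo (ρ - 1)) 0 (hMo (ρ - 1)).1 (isHomogeneous_zero _ _ _)
      (by rw [h, mul_zero, zero_mul, add_zero])).1
    exact (hMo (ρ - 1)).2 h1
  refine ⟨hU0, ?_⟩
  intro π hπ hπ'
  obtain ⟨R₁, hR₁⟩ := hπ
  obtain ⟨R₂, hR₂⟩ := hπ'
  have hne : π * R₁ ≠ 0 := by rw [← hR₁]; exact hU0
  have hπ0 : π ≠ 0 := left_ne_zero_of_mul hne
  have hR₁0 : R₁ ≠ 0 := right_ne_zero_of_mul hne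
  obtain ⟨α, β, hαβ, hπα, hR₁β⟩ := hW (Fin N) K 1 π R₁ ρ hne (by rw [← hR₁]; exact hUh)
  have hR₂β : R₂.IsHomogeneous β := by
    by_cases h0 : R₂ = 0
    · rw [h0]; exact isHomogeneous_zero _ _ _
    · have hne2 : π * R₂ ≠ 0 := mul_ne_zero hπ0 h0
      obtain ⟨α', β', hαβ', hπα', hR₂β'⟩ := hW (Fin N) K 1 π R₂ ρ hne2
        (by rw [← hR₂]; exact hUh')
      have h1 : α = α' := by
        rw [← IsHomogeneous.totalDegree (show π.IsHomogeneous α from hπα) hπ0,
          ← IsHomogeneous.totalDegree (show π.IsHomogeneous α' from hπα') hπ0]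
      have h2 : β' = β := by omega
      rw [← h2]; exact hR₂β'
  rcases Nat.eq_zero_or_pos α with h0 | hpos
  · -- `π` is a constant
    have h1 : π.totalDegree = 0 := by
      rw [IsHomogeneous.totalDegree (show π.IsHomogeneous α from hπα) hπ0, h0]
    rw [totalDegree_eq_zero_iff_eq_C] at h1
    rw [h1]
    have h2 : coeff 0 π ≠ 0 := by
      intro h
      rw [h, C_0] at h1
      exact hπ0 h1
    exact (isUnit_iff_ne_zero.2 h2).map C
  · exfalso
    have hd : α - 1 + β = ρ - 1 := by omega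
    have hA : (Mo (α - 1) * R₂).IsHomogeneous (ρ - 1) := by
      rw [← hd]; exact (hMo (α - 1)).1.mul hR₂β
    have hR₁β' : R₁.IsHomogeneous β := hR₁β
    have hB : (-(Mo (α - 1) * R₁)).IsHomogeneous (ρ - 1) := by
      rw [← hd]
      exact ((hMo (α - 1)).1.mul hR₁β').neg
    have h0 : Mo (α - 1) * R₂ * U + -(Mo (α - 1) * R₁) * U' = 0 := by
      rw [hR₁, hR₂]; ring
    have h1 := (hkey _ _ hA hB h0).2
    rw [neg_eq_zero] at h1
    exact mul_ne_zero (hMo (α - 1)).2 hR₁0 h1

end Pool.ThmM.Chow
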