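import Pool.Agent.Work.MP_f82ddf_M.Core

set_option autoImplicit false

/-! Block DFF (helper25): division by the fixed linear factors. -/

open Topology Filter
open scoped Differential
open Pool.Agent.Work.MP_f82ddf_nt.DQ

namespace Pool.ThmM.Chow

open MvPolynomial

/-- the product with a form shifts the homogeneous components -/
theorem DFF_comp {σ K : Type} [Field K] {P : MvPolynomial σ K} {d : ℕ} (hP : P.IsHomogeneous d)
    (s : MvPolynomial σ K) (n : ℕ) :
    homogeneousComponent (d + n) (P * s) = P * homogeneousComponent n s := by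
  conv_lhs => rw [← sum_homogeneousComponent s]
  rw [Finset.mul_sum, map_sum]
  have h : ∀ i ∈ Finset.range (s.totalDegree + 1),
      homogeneousComponent (d + n) (P * homogeneousComponent i s) =
        if n = i then P * homogeneousComponent i s else 0 := by
    intro i _
    rw [homogeneousComponent_of_mem (hP.mul (homogeneousComponent_isHomogeneous i s))]
    by_cases h : n = i
    · subst h; simp
    · rw [if_neg h, if_neg (by omega)]
  rw [Finset.sum_congr rfl h]
  rw [Finset.sum_ite_eq]
  split_ifs with h1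
  · rfl
  · rw [homogeneousComponent_eq_zero]
    · simp
    · simpa using h1

theorem DFF_comp_zero {σ K : Type} [Field K] {P : MvPolynomial σ K} {d : ℕ}
    (hP : P.IsHomogeneous d) (s : MvPolynomial σ K) (n : ℕ) (hn : n < d) :
    homogeneousComponent n (P * s) = 0 := by
  rw [← sum_homogeneousComponent s, Finset.mul_sum, map_sum]
  refine Finset.sum_eq_zero ?_
  intro i _
  rw [homogeneousComponent_of_mem (hP.mul (homogeneousComponent_isHomogeneous i s)),
    if_neg (by omega)]

/-- the linear form over `Mer` -/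
theorem DFF_lf (v : Fin 3 → ℂ) : map (algebraMap ℂ Mer) (M4P.lf v) =
    ∑ i, C (algebraMap ℂ Mer (v i)) * X i := by
  unfold M4P.lf
  rw [map_sum]
  refine Finset.sum_congr rfl fun i _ => ?_
  rw [map_mul, map_C, map_X]

theorem DFF_lf_hom (v : Fin 3 → ℂ) : (map (algebraMap ℂ Mer) (M4P.lf v)).IsHomogeneous 1 := by
  rw [DFF_lf]
  apply IsHomogeneous.sum
  intro i _
  have h := (isHomogeneous_C (Fin 3) (algebraMap ℂ Mer (v i))).mul (isHomogeneous_X Mer i)
  simpa using h

/-- a polynomial which vanishes on the plane is divisible by its equation -/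
theorem DFF_dvd (hNVC : Stmt_NVC) (v : Fin 3 → ℂ) (hv : v ≠ 0) (F : MvPolynomial (Fin 3) Mer)
    (hF : ∀ m : Fin 3 → ℂ, ∑ i, v i * m i = 0 → evC m F = 0) :
    map (algebraMap ℂ Mer) (M4P.lf v) ∣ F := by
  obtain ⟨i₀, hi₀⟩ : ∃ i, v i ≠ 0 := by
    by_contra h
    push Not at h
    exact hv (funext h)
  obtain ⟨L, hL⟩ : ∃ L : MvPolynomial (Fin 3) Mer, L = map (algebraMap ℂ Mer) (M4P.lf v) :=
    ⟨_, rfl⟩
  obtain ⟨g, hg⟩ : ∃ g : MvPolynomial (Fin 3) Mer →ₐ[Mer] MvPolynomial (Fin 3) Mer,
      g = aeval (fun i => X i - C (algebraMap ℂ Mer (if i = i₀ then (v i₀)⁻¹ else 0)) * L) :=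
    ⟨_, rfl⟩
  have hgX : ∀ i, g (X i) = X i - C (algebraMap ℂ Mer (if i = i₀ then (v i₀)⁻¹ else 0)) * L := by
    intro i
    rw [hg, aeval_X]
  rw [← hL]
  -- `F - g F` is divisible by `L`
  have h1 : ∀ G : MvPolynomial (Fin 3) Mer, L ∣ G - g G := by
    intro G
    induction G using MvPolynomial.induction_on with
    | C a =>
      have : g (C a) = C a := by
        rw [hg, aeval_C]
        rfl
      rw [this, sub_self]
      exact dvd_zero _
    | add p q hp hq =>
      have h2 : p + q - g (p + q) = (p - g p) + (q - g q) := by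
        rw [map_add]
        ring
      rw [h2]
      exact dvd_add hp hq
    | mul_X p i hp =>
      have h2 : p * X i - g (p * X i) = (p - g p) * X i +
          g p * (C (algebraMap ℂ Mer (if i = i₀ then (v i₀)⁻¹ else 0)) * L) := by
        rw [map_mul, hgX]
        ring
      rw [h2]
      exact dvd_add (dvd_mul_of_dvd_left hp _)
        (dvd_mul_of_dvd_right (dvd_mul_left L _) _)
  -- `g F = 0`
  have h2 : g F = 0 := by
    by_contra hne
    obtain ⟨p, hp⟩ := hNVC (Fin 3) Mer (g F) hne
    apply hp
    have h3 : eval (fun i => algebraMap ℂ Mer (p i)) (g F) =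
        evC (fun i => p i - (if i = i₀ then (v i₀)⁻¹ else 0) * ∑ j, v j * p j) F := by
      unfold evC
      rw [hg, aeval_def, ← coe_eval₂Hom]
      have h4 : (eval (fun i => algebraMap ℂ Mer (p i))).comp (eval₂Hom
          (algebraMap Mer (MvPolynomial (Fin 3) Mer)) (fun i => X i -
            C (algebraMap ℂ Mer (if i = i₀ then (v i₀)⁻¹ else 0)) * L)) =
          eval (fun i => algebraMap ℂ Mer (p i - (if i = i₀ then (v i₀)⁻¹ else 0) *
            ∑ j, v j * p j)) := by
        apply ringHom_ext
        · intro a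
          simp [algebraMap_eq]
        · intro i
          have h5 : eval (fun i => algebraMap ℂ Mer (p i)) L =
              algebraMap ℂ Mer (∑ j, v j * p j) := by
            rw [hL, DFF_lf, map_sum, map_sum]
            refine Finset.sum_congr rfl fun j _ => ?_
            rw [map_mul, eval_C, eval_X, map_mul]
          rw [RingHom.comp_apply, coe_eval₂Hom, eval₂_X, map_sub, eval_X, map_mul, eval_C, h5,
            eval_X, map_sub, map_mul]
      exact RingHom.congr_fun h4 F
    rw [h3]
    apply hF
    have h5 : ∀ i, v i * (p i - (if i = i₀ then (v i₀)⁻¹ else 0) * ∑ j, v j * p j) =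
        v i * p i - (if i = i₀ then 1 else 0) * ∑ j, v j * p j := by
      intro i
      by_cases h : i = i₀
      · rw [if_pos h, if_pos h, h]
        field_simp
      · rw [if_neg h, if_neg h]
        ring
    rw [Finset.sum_congr rfl fun i _ => h5 i, Finset.sum_sub_distrib, ← Finset.sum_mul,
      Finset.sum_ite_eq']
    simp
  have h3 := h1 F
  rw [h2, sub_zero] at h3
  exact h3

theorem p_DFF (hNVC : Stmt_NVC) : Stmt_DFF := by
  intro ρ
  induction ρ with
  | zero =>
    intro F₁ hne hhom
    refine ⟨0, 1, F₁, by simp, hhom, ?_⟩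
    intro v hv
    by_contra hcon
    push Not at hcon
    obtain ⟨F₂, hF₂⟩ := DFF_dvd hNVC v hv F₁ hcon
    apply hne
    have h1 : homogeneousComponent 0 F₁ = F₁ := by
      rw [homogeneousComponent_of_mem hhom, if_pos rfl]
    rw [← h1, hF₂]
    exact DFF_comp_zero (DFF_lf_hom v) F₂ 0 (by norm_num)
  | succ ρ ih =>
    intro F₁ hne hhom
    by_cases hall : ∀ v : Fin 3 → ℂ, v ≠ 0 → ∃ m : Fin 3 → ℂ, (∑ i, v i * m i = 0) ∧ evC m F₁ ≠ 0
    · exact ⟨ρ + 1, 1, F₁, by simp, hhom, hall⟩
    · push Not at hall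
      obtain ⟨v, hv, hcon⟩ := hall
      obtain ⟨F₂, hF₂⟩ := DFF_dvd hNVC v hv F₁ hcon
      have h1 : F₁ = map (algebraMap ℂ Mer) (M4P.lf v) * homogeneousComponent ρ F₂ := by
        have h2 : homogeneousComponent (1 + ρ) F₁ = F₁ := by
          rw [homogeneousComponent_of_mem hhom, if_pos (by omega)]
        have h3 := DFF_comp (DFF_lf_hom v) F₂ ρ
        rw [← hF₂, h2] at h3
        exact h3
      obtain ⟨ρ', Fx, F, h2, h3, h4⟩ := ih (homogeneousComponent ρ F₂) (by
        intro h2
        rw [h2, mul_zero] at h1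
        exact hne h1) (homogeneousComponent_isHomogeneous ρ F₂)
      refine ⟨ρ', M4P.lf v * Fx, F, ?_, h3, h4⟩
      rw [h1, h2, map_mul]
      ring

end Pool.ThmM.Chow
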