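import Pool.Agent.Work.MP_f82ddf_M.Core

/-!
# Block DZS (helper26)
-/

set_option autoImplicit false

open Topology Filter
open scoped Differential
open Pool.Agent.Work.MP_f82ddf_nt.DQ

namespace Pool.ThmM.Chow

open MvPolynomial

theorem p_DZS : Pool.ThmM.Stmt_DZR → Stmt_FNC → Stmt_DZS := by
  intro hDZR _
  obtain ⟨hco, hadd, hmul, _, _, hzero⟩ := hDZR
  have hC : ∀ (σ : Type) (c : Mer), dz (C c : MvPolynomial σ Mer) = C (c′) := by
    intro σ c
    classical
    ext α
    rw [hco, coeff_C, coeff_C]
    split_ifs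
    · rfl
    · exact map_zero _
  have hmap : ∀ (σ : Type) (G : MvPolynomial σ ℂ), dz (map (algebraMap ℂ Mer) G) = 0 := by
    intro σ G
    exact (hzero σ _).mpr ⟨G, rfl⟩
  have hX : ∀ (σ : Type) (i : σ), dz (X i : MvPolynomial σ Mer) = 0 := by
    intro σ i
    have := hmap σ (X i)
    rwa [map_X] at this
  refine ⟨?_, ?_⟩
  · intro σ τ g F
    have hsC : ∀ c : Mer, subC Mer g (C c) = C c := by
      intro c
      unfold subC
      rw [coe_eval₂Hom, eval₂_C]
    have hsX : ∀ i : σ, subC Mer g (X i) = map (algebraMap ℂ Mer) (g i) := by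
      intro i
      unfold subC
      rw [coe_eval₂Hom, eval₂_X]
    induction F using MvPolynomial.induction_on with
    | C c => rw [hsC, hC, hC, hsC]
    | add p q hp hq => rw [map_add, hadd, hp, hq, hadd, map_add]
    | mul_X p i hp =>
      rw [map_mul, hmul, hp, hsX, hmap, mul_zero, add_zero, hmul, hX, mul_zero, add_zero, map_mul,
        hsX]
  · intro σ wt F n hF d hd
    rw [hco] at hd
    apply hF
    intro h0
    apply hd
    rw [h0]
    exact map_zero _

end Pool.ThmM.Chow
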