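import Pool.Agent.Work.MP_f82ddf_M.Core

set_option autoImplicit false

/-! # THEOREM M, part P3b: block END (the final contradiction).  helper79. -/

open Topology Filter
open scoped Differential
open Pool.Agent.Work.MP_f82ddf_nt.DQ

namespace Pool.ThmM.Chow

theorem p_END (hL : Pool.ThmM.Stmt_LEMS) (hM : Pool.ThmM.Stmt_MON) : Stmt_END := by
  intro w q b a F S hb hnum hq hF hrel hev hG hT hD
  obtain ⟨J, hJS, hcard, hmain⟩ := hL w q a F S hq hF
    (fun B _ h => hrel.dvd_of_dvd_mul_right h) hev hG hT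
  have hb0 : (1 : ℝ) ≤ b := by exact_mod_cast hb
  have hb1 : (0 : ℝ) < b := by linarith
  -- the bound for one node
  have hone : ∀ p ∈ J, ∃ C : ℝ, ∀ r : ℝ, 1 ≤ r →
      NN (tru (dv1 (evC p F) - dvP F)) r ≤ (1 - 1 / (2 * (b : ℝ))) * TP F r + C :=
    fun p hp => hD p (hJS p hp)
  choose! Cp hCp using hone
  obtain ⟨Ct, hCt⟩ : ∃ Ct : ℝ, Ct = ∑ p ∈ J, Cp p := ⟨_, rfl⟩
  have hsum : ∀ r : ℝ, 1 ≤ r → ∑ p ∈ J, NN (tru (dv1 (evC p F) - dvP F)) r
      ≤ J.card * ((1 - 1 / (2 * (b : ℝ))) * TP F r) + Ct := by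
    intro r hr
    have h1 : ∑ p ∈ J, NN (tru (dv1 (evC p F) - dvP F)) r
        ≤ ∑ p ∈ J, ((1 - 1 / (2 * (b : ℝ))) * TP F r + Cp p) :=
      Finset.sum_le_sum fun p hp => hCp p hp r hr
    rw [Finset.sum_add_distrib, Finset.sum_const, nsmul_eq_mul, ← hCt] at h1
    exact h1
  -- the numbers
  have hMa : (a + w).choose w = numM w a := (hM.1 w a).symm
  have hMq : (a + q + w).choose w = numM w (a + q) := (hM.1 w (a + q)).symm
  rw [hMa, hMq] at hnum
  have hγ1 : (J.card : ℝ) * (2 * b - 1) + 1 ≤ 2 * b * numM w a := by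
    have h1 : (((2 * b - 1 : ℕ) : ℤ)) * (2 * (numM w (a + q) : ℤ)) <
        ((4 * b - 1 : ℕ) : ℤ) * (numM w a : ℤ) := by exact_mod_cast hnum
    have h2 : ((2 * b - 1 : ℕ) : ℤ) = 2 * b - 1 := by
      have : 1 ≤ 2 * b := by omega
      push_cast [Nat.cast_sub this]
      ring
    have h3 : ((4 * b - 1 : ℕ) : ℤ) = 4 * b - 1 := by
      have : 1 ≤ 4 * b := by omega
      push_cast [Nat.cast_sub this]
      ring
    rw [h2, h3] at h1
    have h4 : (J.card : ℤ) + numM w a = 2 * numM w (a + q) := by exact_mod_cast hcard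
    have h5 : (J.card : ℤ) * (2 * b - 1) + 1 ≤ 2 * b * numM w a := by
      rw [← h4] at h1
      have h6 : (2 * (b : ℤ) - 1) * ((J.card : ℤ) + numM w a) + 1 ≤ (4 * b - 1) * numM w a := h1
      linarith
    exact_mod_cast h5
  have hlog : Tendsto (fun r : ℝ => Real.log r) atTop atTop := Real.tendsto_log_atTop
  have h1 : ∀ᶠ r : ℝ in atTop, 4 * b * |Ct| + 1 ≤ TP F r := by
    have h2 : ∀ᶠ r : ℝ in atTop, 1 ≤ TP F r / Real.log r := hT.eventually_ge_atTop 1
    have h3 : ∀ᶠ r : ℝ in atTop, 4 * b * |Ct| + 1 ≤ Real.log r := hlog.eventually_ge_atTop _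
    filter_upwards [h2, h3] with r h2 h3
    have h4 : 0 < Real.log r := by
      have : 0 ≤ 4 * b * |Ct| := by positivity
      linarith
    rw [le_div_iff₀ h4, one_mul] at h2
    exact h3.trans h2
  obtain ⟨r₁, hr₁⟩ := eventually_atTop.1 h1
  obtain ⟨r, hr0, hr1, hle⟩ := hmain (1 / (4 * b)) (by positivity) r₁
  have h2 := hr₁ r hr0
  have h3 := hsum r hr1
  have hTP : 0 < TP F r := by
    have : 0 ≤ 4 * b * |Ct| := by positivity
    linarith
  have h4 : (numM w a : ℝ) * TP F r ≤ J.card * ((1 - 1 / (2 * (b : ℝ))) * TP F r) + Ct +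
      1 / (4 * b) * TP F r := by linarith
  have h5 : 2 * (b : ℝ) * (numM w a * TP F r) ≤
      2 * b * (J.card * ((1 - 1 / (2 * (b : ℝ))) * TP F r) + Ct + 1 / (4 * b) * TP F r) :=
    mul_le_mul_of_nonneg_left h4 (by positivity)
  have h6 : 2 * (b : ℝ) * (J.card * ((1 - 1 / (2 * (b : ℝ))) * TP F r) + Ct + 1 / (4 * b) * TP F r) =
      J.card * (2 * b - 1) * TP F r + 2 * b * Ct + TP F r / 2 := by
    field_simp
    ring
  rw [h6] at h5
  have h7 : ((J.card : ℝ) * (2 * b - 1) + 1) * TP F r ≤ 2 * b * numM w a * TP F r :=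
    mul_le_mul_of_nonneg_right hγ1 hTP.le
  have h8 : 2 * (b : ℝ) * Ct ≤ 2 * b * |Ct| := mul_le_mul_of_nonneg_left (le_abs_self Ct) (by positivity)
  nlinarith

end Pool.ThmM.Chow
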