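import Pool.Agent.Work.MP_f82ddf_M.Core

/-! Block EXE (helper76): the centre of projection -/

set_option autoImplicit false

open Topology Filter
open scoped Differential
open Pool.Agent.Work.MP_f82ddf_nt.DQ

namespace Pool.ThmM.Chow

open MvPolynomial
open Pool.Agent.Work.MP_f82ddf_M5 (lineAt resAt chow at2 comb Data)

theorem EXE_map {σ : Type} (e : σ → ℂ) (Q : MvPolynomial σ ℂ) :
    eval (fun i => algebraMap ℂ Mer (e i)) (map (algebraMap ℂ Mer) Q) =
      algebraMap ℂ Mer (eval e Q) := by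
  rw [eval_map]
  have h1 := MvPolynomial.eval₂_comp_left (algebraMap ℂ Mer) (RingHom.id ℂ) e Q
  rw [RingHom.comp_id] at h1
  exact h1.symm

theorem EXE_ev (hFNC : Stmt_FNC) {N : ℕ} (u e : Fin N → ℂ) (R : MvPolynomial (Fin 2 × Fin N) Mer) :
    eval (fun i => algebraMap ℂ Mer (e i)) (subC Mer (gU u) R) = evC (ppt u e) R := by
  have h1 := hFNC.2.2.2.1 (Fin 2 × Fin N) (Fin N) Mer Mer (RingHom.id Mer) (gU u)
    (fun i => algebraMap ℂ Mer (e i)) R
  have h2 : (fun i => eval₂ ((RingHom.id Mer).comp (algebraMap ℂ Mer))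
      (fun i => algebraMap ℂ Mer (e i)) (gU u i)) =
      fun i => algebraMap ℂ Mer (ppt u e i) := by
    funext i
    unfold gU ppt
    split_ifs
    · rw [eval₂_C]
      rfl
    · rw [eval₂_X]
  rw [h2] at h1
  exact h1

theorem p_EXE (hCPS : Stmt_CPS) (hNVC : Stmt_NVC) (hPLW : Stmt_PLW) (hPRJ : Stmt_PRJ)
    (hDZS : Stmt_DZS) (hFNC : Stmt_FNC) : Stmt_EXE := by
  classical
  intro w ρ Q T R hQ hρ hPl hR hrel hT hT'
  have hw : IsWeightedHomogeneous (wb 0) R ρ := hPLW _ _ Mer R hPl 0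
  have hwd : IsWeightedHomogeneous (wb 0) (dz R) ρ := hDZS.2 _ (wb 0) R ρ hw
  obtain ⟨H₁, hH₁, hCP⟩ := hCPS (w + 2) ρ Mer R (dz R) hρ hw hwd hR hrel
  have hinj : Function.Injective (algebraMap ℂ Mer) := (algebraMap ℂ Mer).injective
  have hQ' : map (algebraMap ℂ Mer) Q ≠ 0 := by
    intro h
    apply hQ
    apply map_injective (algebraMap ℂ Mer) hinj
    rw [h, map_zero]
  have hlin : ∀ u ∈ T, (∑ j, C (algebraMap ℂ Mer (eval u (pderiv j Q))) *
      (X j : MvPolynomial (Fin (w + 2)) Mer)) ≠ 0 := by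
    intro u hu h
    obtain ⟨i, hi⟩ := hT u hu
    have h1 := congrArg (eval (fun j => if j = i then (1 : Mer) else 0)) h
    rw [map_sum, map_zero] at h1
    simp only [map_mul, eval_C, eval_X, mul_ite, mul_one, mul_zero, Finset.sum_ite_eq',
      Finset.mem_univ, if_true] at h1
    apply hi
    apply hinj
    rw [h1, map_zero]
  obtain ⟨H, hHdef⟩ : ∃ H : MvPolynomial (Fin (w + 2)) Mer,
      H = H₁ * map (algebraMap ℂ Mer) Q * X (Fin.last (w + 1)) *
        ∏ u ∈ T, ((∑ j, C (algebraMap ℂ Mer (eval u (pderiv j Q))) *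
          (X j : MvPolynomial (Fin (w + 2)) Mer)) * subC Mer (gU u) R) := ⟨_, rfl⟩
  have hH : H ≠ 0 := by
    rw [hHdef]
    refine mul_ne_zero (mul_ne_zero (mul_ne_zero hH₁ hQ') (X_ne_zero _)) ?_
    rw [Finset.prod_ne_zero_iff]
    intro u hu
    exact mul_ne_zero (hlin u hu) (hT' u hu)
  obtain ⟨e, he⟩ := hNVC (Fin (w + 2)) Mer H hH
  rw [hHdef, map_mul, map_mul, map_mul, map_prod] at he
  have he1 := left_ne_zero_of_mul he
  have he2 := right_ne_zero_of_mul he
  have he3 := right_ne_zero_of_mul he1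
  have he4 := left_ne_zero_of_mul he1
  have he5 := right_ne_zero_of_mul he4
  have he6 := left_ne_zero_of_mul he4
  rw [Finset.prod_ne_zero_iff] at he2
  rw [EXE_map] at he5
  rw [eval_X] at he3
  have hQe : eval e Q ≠ 0 := by
    intro h
    rw [h, map_zero] at he5
    exact he5 rfl
  have hlast : e (Fin.last (w + 1)) ≠ 0 := by
    intro h
    rw [h, map_zero] at he3
    exact he3 rfl
  refine ⟨e, hQe, hlast, ?_, ?_⟩
  · intro u hu
    have h1 := he2 u hu
    rw [map_mul] at h1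
    have h2 := left_ne_zero_of_mul h1
    have h3 := right_ne_zero_of_mul h1
    rw [EXE_ev hFNC] at h3
    refine ⟨?_, h3⟩
    intro h4
    apply h2
    rw [map_sum]
    have h5 : (∑ j, eval (fun i => algebraMap ℂ Mer (e i))
        (C (algebraMap ℂ Mer (eval u (pderiv j Q))) * (X j : MvPolynomial (Fin (w + 2)) Mer))) =
        algebraMap ℂ Mer (∑ j, e j * eval u (pderiv j Q)) := by
      rw [map_sum]
      refine Finset.sum_congr rfl fun j _ => ?_
      rw [map_mul, eval_C, eval_X, map_mul, mul_comm]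
    rw [h5, h4, map_zero]
  · obtain ⟨_, hP2, hP3, _⟩ := hPRJ w ρ Mer R e hPl hlast
    obtain ⟨_, hrelE⟩ := hCP e he6
    rw [← hDZS.1, ← hP2, hDZS.1] at hrelE
    intro D hD1 hD2
    have h1 : subC Mer (gQ e) D ∣ subC Mer (gQ e) (subC Mer (gF e) R) := map_dvd _ hD1
    have h2 : subC Mer (gQ e) D ∣ subC Mer (gQ e) (dz (subC Mer (gF e) R)) := map_dvd _ hD2
    have h3 : IsUnit (subC Mer (gQ e) D) := hrelE h1 h2
    have h4 := h3.map (subC Mer (gZ w))
    rw [hP3 D] at h4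
    exact h4

end Pool.ThmM.Chow
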