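import Pool.Agent.Work.MP_f82ddf_M.Core

set_option autoImplicit false

/-! Block FAC of the core of THEOREM M (helper98). -/

open Topology Filter
open scoped Differential
open Pool.Agent.Work.MP_f82ddf_nt.DQ

namespace Pool.ThmM.Chow

open MvPolynomial

theorem FAC_unit {σ : Type} (P : MvPolynomial σ Mer) (h : IsUnit P) :
    ∃ κ : Mer, κ ≠ 0 ∧ P = C κ := by
  obtain ⟨κ, hκ, rfl⟩ := MvPolynomial.isUnit_iff_eq_C_of_isReduced.mp h
  exact ⟨κ, hκ.ne_zero, rfl⟩

theorem FAC_assoc {σ : Type} {P Q : MvPolynomial σ Mer} (hP : Irreducible P) (hQ : Irreducible Q)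
    (h : P ∣ Q) : ∃ κ : Mer, P = C κ * Q := by
  obtain ⟨v, hv⟩ := h
  have hu : IsUnit v := (hQ.isUnit_or_isUnit hv).resolve_left hP.not_isUnit
  obtain ⟨κ, hκ, rfl⟩ := FAC_unit v hu
  refine ⟨κ⁻¹, ?_⟩
  rw [hv, mul_comm P (C κ), ← mul_assoc, ← C_mul, inv_mul_cancel₀ hκ, C_1, one_mul]

theorem FAC_aux {σ : Type} (Φ : MvPolynomial σ Mer) : Φ ≠ 0 →
    ∃ (c : Mer) (Fix : MvPolynomial σ ℂ) (t : Finset (MvPolynomial σ Mer))
      (m : MvPolynomial σ Mer → ℕ),
      Φ = C c * map (algebraMap ℂ Mer) Fix * ∏ P ∈ t, P ^ m P ∧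
      (∀ P ∈ t, Irreducible P ∧ Mov P) ∧ ∀ P ∈ t, ∀ P' ∈ t, P ∣ P' → P = P' := by
  classical
  induction Φ using WfDvdMonoid.induction_on_irreducible with
  | zero => intro h; exact absurd rfl h
  | unit u hu =>
    intro _
    obtain ⟨κ, _, rfl⟩ := FAC_unit u hu
    exact ⟨κ, 1, ∅, fun _ => 0, by simp, by simp, by simp⟩
  | mul a i ha hi ih =>
    intro _
    obtain ⟨c, Fix, t, m, h1, h2, h3⟩ := ih ha
    by_cases hM : Mov i
    · by_cases hex : ∃ P' ∈ t, i ∣ P'
      · obtain ⟨P', hP', hd⟩ := hex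
        obtain ⟨κ, hκ⟩ := FAC_assoc hi (h2 P' hP').1 hd
        refine ⟨κ * c, Fix, t, Function.update m P' (m P' + 1), ?_, h2, h3⟩
        have e1 : ∏ P ∈ t, P ^ (Function.update m P' (m P' + 1)) P = P' * ∏ P ∈ t, P ^ m P := by
          rw [← Finset.mul_prod_erase t _ hP', ← Finset.mul_prod_erase t (fun P => P ^ m P) hP']
          simp only [Function.update_self]
          rw [pow_succ', mul_assoc]
          congr 2
          refine Finset.prod_congr rfl fun P hP => ?_
          rw [Function.update_of_ne (Finset.ne_of_mem_erase hP)]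
        rw [e1, h1, hκ, C_mul]
        ring
      · push Not at hex
        refine ⟨c, Fix, insert i t, Function.update m i 1, ?_, ?_, ?_⟩
        · have hit : i ∉ t := fun h => hex i h dvd_rfl
          rw [Finset.prod_insert hit]
          simp only [Function.update_self, pow_one]
          have e1 : ∏ P ∈ t, P ^ (Function.update m i 1) P = ∏ P ∈ t, P ^ m P := by
            refine Finset.prod_congr rfl fun P hP => ?_
            rw [Function.update_of_ne (fun h : P = i => hit (h ▸ hP))]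
          rw [e1, h1]
          ring
        · intro P hP
          rcases Finset.mem_insert.mp hP with rfl | hP
          · exact ⟨hi, hM⟩
          · exact h2 P hP
        · intro P hP P' hP' hd
          rcases Finset.mem_insert.mp hP with rfl | hPt
          · rcases Finset.mem_insert.mp hP' with rfl | hPt'
            · rfl
            · exact absurd hd (hex P' hPt')
          · rcases Finset.mem_insert.mp hP' with rfl | hPt'
            · exact absurd ((h2 P hPt).1.dvd_symm hi hd) (hex P hPt)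
            · exact h3 P hPt P' hPt' hd
    · unfold Mov at hM
      push Not at hM
      obtain ⟨c', G, rfl⟩ := hM
      refine ⟨c' * c, G * Fix, t, m, ?_, h2, h3⟩
      rw [h1, C_mul, map_mul]
      ring

theorem p_FAC : Stmt_FAC := by
  classical
  intro σ _ k Φ hΦ
  obtain ⟨c, Fix, t, m, h1, h2, h3⟩ := FAC_aux Φ hΦ
  refine ⟨c, Fix, ∏ P ∈ t.filter (fun P => k ∣ m P), P ^ (m P / k),
    t.filter (fun P => ¬ k ∣ m P), m, ?_, ?_, ?_⟩
  · have e : (∏ P ∈ t.filter (fun P => k ∣ m P), P ^ (m P / k)) ^ k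
        = ∏ P ∈ t.filter (fun P => k ∣ m P), P ^ m P := by
      rw [← Finset.prod_pow]
      refine Finset.prod_congr rfl fun P hP => ?_
      rw [← pow_mul, Nat.div_mul_cancel (Finset.mem_filter.mp hP).2]
    rw [e, mul_assoc, Finset.prod_filter_mul_prod_filter_not, ← h1]
  · intro P hP
    obtain ⟨hP, hk⟩ := Finset.mem_filter.mp hP
    exact ⟨(h2 P hP).1, (h2 P hP).2, hk⟩
  · intro P hP P' hP' hd
    exact h3 P (Finset.mem_filter.mp hP).1 P' (Finset.mem_filter.mp hP').1 hd

end Pool.ThmM.Chow
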