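import Pool.Agent.Work.MP_f82ddf_M.Chow

set_option autoImplicit false

/-! # THEOREM M, part P3, block FCH (functoriality of the Chow form) -/

open Topology Filter
open scoped Differential
open Pool.Agent.Work.MP_f82ddf_nt.DQ

namespace Pool.ThmM.Chow

open MvPolynomial
open Pool.Agent.Work.MP_f82ddf_M5 (lineAt resAt chow at2 comb Data)

theorem FCH_comb {N r : ℕ} {K L : Type} [CommRing K] [CommRing L] [Algebra ℂ K] [Algebra ℂ L]
    (φ : K →+* L) (A : Fin (r + 1) → MvPolynomial (Fin N) ℂ) (x : Fin (r + 1) → K)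
    (h : φ.comp (algebraMap ℂ K) = algebraMap ℂ L) :
    map φ (comb (algebraMap ℂ K) A x) = comb (algebraMap ℂ L) A (fun i => φ (x i)) := by
  unfold comb
  rw [map_sum]
  refine Finset.sum_congr rfl fun i _ => ?_
  rw [map_mul, map_C, MvPolynomial.map_map, h]

theorem FCH_line {N : ℕ} (Q : MvPolynomial (Fin N) ℂ) (u e θ : Fin N → ℂ) (a b : Fin 3 → ℂ) :
    lineAt (RingHom.id ℂ) (qp u e θ Q) a b =
      lineAt (RingHom.id ℂ) Q (fun j => u j * a 0 + e j * a 1 + θ j * a 2)
        (fun j => u j * b 0 + e j * b 1 + θ j * b 2) := by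
  unfold lineAt qp
  induction Q using MvPolynomial.induction_on with
  | C c => simp
  | add p q hp hq => rw [map_add, eval₂_add, eval₂_add, hp, hq]
  | mul_X p j hp =>
    rw [map_mul, eval₂_mul, eval₂_mul, hp, aeval_X, eval₂_X]
    congr 1
    unfold pl
    simp only [eval₂_add, eval₂_mul, eval₂_C, eval₂_X, RingHom.comp_apply, RingHom.id_apply,
      Polynomial.C_add, Polynomial.C_mul]
    ring

theorem p_FCH : Pool.Agent.Work.MP_f82ddf_M5.Stmt_FUN → Stmt_FNC → Stmt_FCH := by
  intro hFUN _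
  obtain ⟨_, _, _, _, h5, h6⟩ := hFUN
  refine ⟨?_, ?_, ?_, ?_, ?_⟩
  · intro N r d K L _ _ _ _ φ Q A x h
    unfold Phi
    rw [h6, MvPolynomial.map_map, h, FCH_comb φ A x h]
  · intro N r d Q A x
    unfold Phi
    have e1 : algebraMap ℂ ℂ = RingHom.id ℂ := rfl
    rw [e1, MvPolynomial.map_id]
  · intro N r d τ K _ _ Q A x a b
    unfold Phi
    rw [← h5]
    unfold subC at2
    congr 2
    funext p
    unfold ppt
    split_ifs <;> rfl
  · intro N r d Q A x a b
    unfold Phi
    have e1 : algebraMap ℂ ℂ = RingHom.id ℂ := rfl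
    rw [e1, MvPolynomial.map_id, ← h5]
    rfl
  · intro N d Q G u e θ a b
    unfold resAt
    rw [FCH_line, FCH_line]

end Pool.ThmM.Chow
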