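import Pool.Agent.Work.MP_f82ddf_M.Chow

/-!
# Block FNC (helper46)
-/

set_option autoImplicit false

namespace Pool.ThmM.Chow

open MvPolynomial

theorem FNC_C {σ τ K : Type} [CommRing K] [Algebra ℂ K] (g : σ → MvPolynomial τ ℂ) (r : K) :
    subC K g (C r) = C r := by
  unfold subC
  rw [coe_eval₂Hom, eval₂_C]

theorem FNC_X {σ τ K : Type} [CommRing K] [Algebra ℂ K] (g : σ → MvPolynomial τ ℂ) (i : σ) :
    subC K g (X i) = map (algebraMap ℂ K) (g i) := by
  unfold subC
  rw [coe_eval₂Hom, eval₂_X]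

theorem FNC_3 (σ τ K : Type) [CommRing K] [Algebra ℂ K] (g : σ → MvPolynomial τ ℂ)
    (Q : MvPolynomial σ ℂ) :
    subC K g (map (algebraMap ℂ K) Q) = map (algebraMap ℂ K) (aeval g Q) := by
  have h : (subC K g).comp (map (algebraMap ℂ K)) =
      (map (algebraMap ℂ K)).comp (aeval g : MvPolynomial σ ℂ →ₐ[ℂ] MvPolynomial τ ℂ).toRingHom := by
    apply MvPolynomial.ringHom_ext
    · intro r
      rw [RingHom.comp_apply, RingHom.comp_apply, map_C, FNC_C]
      show _ = map (algebraMap ℂ K) (aeval g (C r))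
      rw [aeval_C, algebraMap_eq, map_C]
    · intro i
      rw [RingHom.comp_apply, RingHom.comp_apply, map_X, FNC_X]
      show _ = map (algebraMap ℂ K) (aeval g (X i))
      rw [aeval_X]
  exact RingHom.congr_fun h Q

theorem p_FNC : Stmt_FNC := by
  refine ⟨?_, ?_, FNC_3, ?_, ?_, ?_⟩
  · intro σ τ K L _ _ _ _ φ g F hφ
    have h : (map φ).comp (subC K g) = (subC L g).comp (map φ) := by
      apply MvPolynomial.ringHom_ext
      · intro r
        rw [RingHom.comp_apply, RingHom.comp_apply, map_C, FNC_C, FNC_C, map_C]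
      · intro i
        rw [RingHom.comp_apply, RingHom.comp_apply, map_X, FNC_X, FNC_X, map_map, hφ]
    exact RingHom.congr_fun h F
  · intro σ τ υ K _ _ g h F
    have h1 : (subC K h).comp (subC K g) = subC K (fun i => aeval h (g i)) := by
      apply MvPolynomial.ringHom_ext
      · intro r
        rw [RingHom.comp_apply, FNC_C, FNC_C, FNC_C]
      · intro i
        rw [RingHom.comp_apply, FNC_X, FNC_X, FNC_3]
    exact RingHom.congr_fun h1 F
  · intro σ τ K B _ _ _ φ g p F
    have h1 : (eval₂Hom φ p).comp (subC K g) =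
        eval₂Hom φ (fun i => eval₂ (φ.comp (algebraMap ℂ K)) p (g i)) := by
      apply MvPolynomial.ringHom_ext
      · intro r
        rw [RingHom.comp_apply, FNC_C, coe_eval₂Hom, coe_eval₂Hom, eval₂_C, eval₂_C]
      · intro i
        rw [RingHom.comp_apply, FNC_X, coe_eval₂Hom, coe_eval₂Hom, eval₂_X, eval₂_map]
    exact RingHom.congr_fun h1 F
  · intro σ τ g F
    unfold subC
    have h1 : (fun i => map (algebraMap ℂ ℂ) (g i)) = g := by
      funext i
      rw [show algebraMap ℂ ℂ = RingHom.id ℂ from rfl, map_id]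
    rw [h1]
    rfl
  · intro σ τ K _ _ g F m n hF hg
    unfold subC
    rw [coe_eval₂Hom]
    exact hF.eval₂ C _ (fun r => isHomogeneous_C _ _) (fun i => (hg i).map _)

end Pool.ThmM.Chow
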