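import Pool.Agent.Work.MP_f82ddf_M.Core

set_option autoImplicit false

/-! # Theorem M, part P3b, block FTL: projection, orders and heights -/

namespace Pool.ThmM.Chow

open MvPolynomial

theorem p_FTL (_hFNC : Stmt_FNC) (hPRJ : Stmt_PRJ) (hLSB : Stmt_LSB) : Stmt_FTL := by
  intro w ρ R e hR he
  obtain ⟨-, h2, h3, -⟩ := hPRJ w ρ Pool.Agent.Work.MP_f82ddf_nt.DQ.Mer R e hR he
  have h4 := h3 (subC Pool.Agent.Work.MP_f82ddf_nt.DQ.Mer (gF e) R)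
  rw [h2] at h4
  refine ⟨fun z => le_antisymm ?_ ?_, fun hne => ?_⟩
  · have h := ((hLSB _ (subC Pool.Agent.Work.MP_f82ddf_nt.DQ.Mer (gF e) R)).2 _ (gQ e)).1 z
    rw [h2] at h
    exact h
  · have h := ((hLSB _ (subC Pool.Agent.Work.MP_f82ddf_nt.DQ.Mer (gE e) R)).2 _ (gZ w)).1 z
    rw [h4] at h
    exact h
  · have h := ((hLSB _ (subC Pool.Agent.Work.MP_f82ddf_nt.DQ.Mer (gF e) R)).2 _ (gQ e)).2
      (by rw [h2]; exact hne)
    rw [h2] at h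
    obtain ⟨C, hC⟩ := h
    exact ⟨C, fun t ht => (hC t ht).2⟩

end Pool.ThmM.Chow
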