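import Pool.Agent.Work.MP_f82ddf_M.Core

set_option autoImplicit false

/-! # Block GRO (helper52): growth -/

open Topology Filter
open scoped Differential
open Pool.Agent.Work.MP_f82ddf_nt.DQ

namespace Pool.ThmM.Chow

open MvPolynomial

/-- one quotient of coefficients of a moving polynomial is not constant -/
theorem GRO_quot {σ : Type} (P : MvPolynomial σ Mer) (hP : Mov P) (β : σ →₀ ℕ)
    (hβ : P.coeff β ≠ 0) : ∃ α, ∀ a : ℂ, P.coeff α / P.coeff β ≠ algebraMap ℂ Mer a := by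
  classical
  by_contra h
  push Not at h
  choose a ha using h
  refine hP (P.coeff β) (∑ α ∈ P.support, monomial α (a α)) ?_
  ext γ
  rw [coeff_C_mul, coeff_map, coeff_sum]
  simp only [coeff_monomial]
  rw [Finset.sum_ite_eq' P.support γ a]
  by_cases hγ : γ ∈ P.support
  · rw [if_pos hγ, ← ha γ, mul_div_cancel₀ _ hβ]
  · rw [if_neg hγ, map_zero, mul_zero]
    exact notMem_support_iff.1 hγ

theorem p_GRO : Stmt_PER → Stmt_GRW → Stmt_GEL → Stmt_LOW → Stmt_GRO := by
  classical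
  intro hPER hGRW hGEL hLOW σ _ tr Φ P R htr hΦ0 hΦ hRΦ hPR hMov
  have hR0 : R ≠ 0 := fun h => hΦ0 (zero_dvd_iff.1 (h ▸ hRΦ))
  have hP0 : P ≠ 0 := fun h => hR0 (zero_dvd_iff.1 (h ▸ hPR))
  obtain ⟨β, hβ⟩ := support_nonempty.2 hP0
  have hβ0 : P.coeff β ≠ 0 := mem_support_iff.1 hβ
  obtain ⟨α, hα⟩ := GRO_quot P hMov β hβ0
  have hα0 : α ∈ P.support := by
    rw [mem_support_iff]
    intro h
    exact hα 0 (by rw [h, zero_div, map_zero])
  obtain ⟨n, hn, hper⟩ := hPER σ tr Φ P hΦ0 hΦ (hPR.trans hRΦ)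
  have hrat : ¬ IsRat (P.coeff α / P.coeff β) := by
    intro h
    obtain ⟨a, ha⟩ := htr _ n hn (hper α β) h
    exact hα a ha
  have hT : Tendsto (fun r => TP P r / Real.log r) atTop atTop :=
    hGRW P.support (cf P) ⟨α, hα0⟩ ⟨β, hβ⟩ hβ0 hrat
  obtain ⟨P', rfl⟩ := hPR
  have hP'0 : P' ≠ 0 := fun h => hR0 (by rw [h, mul_zero])
  obtain ⟨C, hC⟩ := hGEL σ P P' hP0 hP'0
  obtain ⟨γ, hγ⟩ := support_nonempty.2 hP'0
  obtain ⟨-, C', K, -, -, hK⟩ := hLOW P'.support (cf P') (Pi.single ⟨γ, hγ⟩ 1) (P'.coeff γ) (by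
    rw [Finset.sum_eq_single (⟨γ, hγ⟩ : P'.support)]
    · rw [Pi.single_eq_same, map_one, one_mul]
      rfl
    · intro b _ hb
      rw [Pi.single_eq_of_ne hb, map_zero, zero_mul]
    · intro h
      exact absurd (Finset.mem_univ _) h) (mem_support_iff.1 hγ)
  have hlow : ∀ᶠ r in atTop, TP P r / Real.log r + -(|K| + |C|) ≤ TP (P * P') r / Real.log r := by
    filter_upwards [eventually_ge_atTop (Real.exp 1)] with r hr
    have hr1 : 1 ≤ r := le_trans (by rw [Real.one_le_exp_iff]; norm_num) hr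
    have hlog : 1 ≤ Real.log r := by
      rw [Real.le_log_iff_exp_le (by linarith)]
      exact hr
    have h1 := (hC r (by linarith)).2
    have h2 : -K ≤ TP P' r := hK r hr1
    have h3 := (abs_le.1 h1).1
    have h4 : TP P r - (|K| + |C|) ≤ TP (P * P') r := by
      have := le_abs_self K
      have := le_abs_self C
      linarith
    have h5 : (TP P r - (|K| + |C|)) / Real.log r ≤ TP (P * P') r / Real.log r :=
      div_le_div_of_nonneg_right h4 (by linarith)
    refine le_trans ?_ h5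
    rw [sub_div]
    have h6 : (|K| + |C|) / Real.log r ≤ |K| + |C| :=
      div_le_self (by positivity) hlog
    linarith
  exact tendsto_atTop_mono' _ hlow (tendsto_atTop_add_const_right _ _ hT)

end Pool.ThmM.Chow
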