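import Pool.Agent.Work.MP_f82ddf_M.Chow

set_option autoImplicit false

/-! # THEOREM M, part P3a, block HRZ: a vanishing resultant gives a common zero -/

namespace Pool.ThmM.Chow

open MvPolynomial
open Pool.Agent.Work.MP_f82ddf_M5 (lineAt resAt chow at2 comb Data)

theorem HRZ_eval {N : ℕ} (F : MvPolynomial (Fin N) ℂ) (a b : Fin N → ℂ) (s : ℂ) :
    (lineAt (RingHom.id ℂ) F a b).eval s = eval (fun j => s * a j + b j) F := by
  unfold lineAt
  rw [← Polynomial.coe_evalRingHom, MvPolynomial.hom_eval₂]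
  have h1 : (Polynomial.evalRingHom s).comp (Polynomial.C.comp (RingHom.id ℂ)) = RingHom.id ℂ := by
    ext c
    simp
  have h2 : (fun i => (Polynomial.evalRingHom s)
      (Polynomial.C (a i) * Polynomial.X + Polynomial.C (b i))) = fun j => s * a j + b j := by
    funext j
    rw [Polynomial.coe_evalRingHom, Polynomial.eval_add, Polynomial.eval_mul, Polynomial.eval_C,
      Polynomial.eval_X, Polynomial.eval_C, mul_comm]
  rw [h1]
  exact congrArg (fun v => eval₂ (RingHom.id ℂ) v F) h2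

/-- the case of a polynomial of the right degree -/
theorem HRZ_root (f g : Polynomial ℂ) (m n : ℕ) (hf : f.natDegree ≤ m) (hf0 : f.coeff m ≠ 0)
    (hg : g.natDegree ≤ n) (h : f.resultant g m n = 0) : ∃ s : ℂ, f.eval s = 0 ∧ g.eval s = 0 := by
  have hd : f.natDegree = m := le_antisymm hf (Polynomial.le_natDegree_of_ne_zero hf0)
  have hf1 : f ≠ 0 := by
    rintro rfl
    exact hf0 (Polynomial.coeff_zero _)
  rw [← hd, Polynomial.resultant_eq_prod_eval f g n hg (IsAlgClosed.splits f)] at h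
  have h1 : (f.roots.map g.eval).prod = 0 := by
    rcases mul_eq_zero.1 h with h2 | h2
    · exact absurd h2 (pow_ne_zero _ (Polynomial.leadingCoeff_ne_zero.2 hf1))
    · exact h2
  rw [Multiset.prod_eq_zero_iff, Multiset.mem_map] at h1
  obtain ⟨s, hs, hs'⟩ := h1
  exact ⟨s, (Polynomial.mem_roots'.1 hs).2, hs'⟩

theorem p_HRZ : Pool.Agent.Work.MP_f82ddf_M5.Stmt_DEG → Stmt_HRZ := by
  intro hDEG N m n F G a b hm hn hF hG hres
  obtain ⟨f1, f2, -, -⟩ := hDEG N m ℂ ℂ (RingHom.id ℂ) F a b hF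
  obtain ⟨g1, g2, -, -⟩ := hDEG N n ℂ ℂ (RingHom.id ℂ) G a b hG
  have hev : ∀ P : MvPolynomial (Fin N) ℂ, eval₂ (RingHom.id ℂ) a P = eval a P := fun P => rfl
  rw [hev] at f2 g2
  unfold resAt at hres
  by_cases hFa : eval a F = 0
  · by_cases hGa : eval a G = 0
    · refine ⟨1, 0, Or.inl one_ne_zero, ?_, ?_⟩
      · simpa using hFa
      · simpa using hGa
    · rw [Polynomial.resultant_comm] at hres
      have h2 : (lineAt (RingHom.id ℂ) G a b).resultant (lineAt (RingHom.id ℂ) F a b) n m = 0 := by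
        rcases mul_eq_zero.1 hres with h3 | h3
        · exact absurd h3 (pow_ne_zero _ (by norm_num))
        · exact h3
      obtain ⟨s, hs1, hs2⟩ := HRZ_root _ _ n m g1 (by rw [g2]; exact hGa) f1 h2
      rw [HRZ_eval] at hs1 hs2
      refine ⟨s, 1, Or.inr one_ne_zero, ?_, ?_⟩
      · simpa using hs2
      · simpa using hs1
  · obtain ⟨s, hs1, hs2⟩ := HRZ_root _ _ m n f1 (by rw [f2]; exact hFa) g1 hres
    rw [HRZ_eval] at hs1 hs2
    refine ⟨s, 1, Or.inr one_ne_zero, ?_, ?_⟩
    · simpa using hs1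
    · simpa using hs2

end Pool.ThmM.Chow
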