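import Pool.Agent.Work.MP_f82ddf_M.Core

set_option autoImplicit false

/-! # Block HTE: heights and orders of a factor after a substitution -/

open Topology Filter
open scoped Differential
open Pool.Agent.Work.MP_f82ddf_nt.DQ

namespace Pool.ThmM.Chow

open MvPolynomial

/-- general version: the orders of `F` and of the substituted polynomial agree -/
theorem HTE_gen (hG : Stmt_GAU) (hE : Stmt_GEL) (hV : Stmt_VPD) (hL : Stmt_LSB)
    {σ τ : Type} [Finite σ] [Finite τ] (g : σ → MvPolynomial τ ℂ)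
    (F R Rc : MvPolynomial σ Mer) (hF : F = R * Rc) (hF0 : F ≠ 0) (hg0 : subC Mer g F ≠ 0)
    (hv : ∀ z, vP (subC Mer g F) z = vP F z)
    (hC : ∃ C : ℝ, ∀ t : ℝ, t ≠ 0 → LL (cf F) t ≤ LL (cf (subC Mer g F)) t + C) :
    (∀ z, vP (subC Mer g R) z = vP R z) ∧
    ∃ C : ℝ, ∀ t : ℝ, 1 ≤ t → TP R t ≤ TP (subC Mer g R) t + C := by
  have hR0 : R ≠ 0 := by
    rintro rfl
    exact hF0 (by rw [hF, zero_mul])
  have hRc0 : Rc ≠ 0 := by
    rintro rfl
    exact hF0 (by rw [hF, mul_zero])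
  have hgF : subC Mer g F = subC Mer g R * subC Mer g Rc := by rw [hF, map_mul]
  have hgR0 : subC Mer g R ≠ 0 := by
    intro h
    exact hg0 (by rw [hgF, h, zero_mul])
  have hgRc0 : subC Mer g Rc ≠ 0 := by
    intro h
    exact hg0 (by rw [hgF, h, mul_zero])
  have hord : ∀ z, dvP (subC Mer g R) z = dvP R z := by
    intro z
    have h1 := hG σ R Rc z
    have h2 := hG τ (subC Mer g R) (subC Mer g Rc) z
    have h3 := (hL σ R).2 τ g |>.1 z
    have h4 := (hL σ Rc).2 τ g |>.1 z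
    rw [← hF, ← hv z, hV _ _ hg0 z, hV _ _ hR0 z, hV _ _ hRc0 z] at h1
    rw [← hgF, hV _ _ hg0 z, hV _ _ hgR0 z, hV _ _ hgRc0 z] at h2
    rw [hV _ _ hR0 z, hV _ _ hgR0 z] at h3
    rw [hV _ _ hRc0 z, hV _ _ hgRc0 z] at h4
    have h1' : dvP (subC Mer g F) z = dvP R z + dvP Rc z := by exact_mod_cast h1
    have h2' : dvP (subC Mer g F) z = dvP (subC Mer g R) z + dvP (subC Mer g Rc) z := by
      exact_mod_cast h2
    have h3' : dvP R z ≤ dvP (subC Mer g R) z := by exact_mod_cast h3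
    have h4' : dvP Rc z ≤ dvP (subC Mer g Rc) z := by exact_mod_cast h4
    omega
  refine ⟨fun z => by rw [hV _ _ hR0 z, hV _ _ hgR0 z, hord z], ?_⟩
  have hdv : dvP (subC Mer g F) = dvP F := by
    ext z
    have h1 := hv z
    rw [hV _ _ hF0 z, hV _ _ hg0 z] at h1
    exact_mod_cast h1
  obtain ⟨C₀, hC₀⟩ := hC
  obtain ⟨C₁, hC₁⟩ := hE σ R Rc hR0 hRc0
  obtain ⟨C₂, hC₂⟩ := hE τ (subC Mer g R) (subC Mer g Rc) hgR0 hgRc0
  obtain ⟨C₃, hC₃⟩ := ((hL σ Rc).2 τ g).2 hgRc0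
  refine ⟨C₀ + C₁ + C₂ + C₃, fun t ht => ?_⟩
  have ht0 : t ≠ 0 := by linarith
  have h0 := hC₀ t ht0
  have h1 := (abs_le.1 (hC₁ t ht0).2).1
  have h2 := (abs_le.1 (hC₂ t ht0).2).2
  have h3 := (hC₃ t ht).2
  rw [← hF] at h1
  rw [← hgF] at h2
  have e1 : TP F t = LL (cf F) t - NN (dvP F) t := rfl
  have e2 : TP (subC Mer g F) t = LL (cf (subC Mer g F)) t - NN (dvP (subC Mer g F)) t := rfl
  rw [hdv] at e2
  linarith

theorem p_HTE (hG : Stmt_GAU) (hE : Stmt_GEL) (hV : Stmt_VPD) (hL : Stmt_LSB) : Stmt_HTE := by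
  intro σ τ _ _ g F R Rc hF hF0 hv hC
  have hg0 : subC Mer g F ≠ 0 := by
    intro h0
    have h1 := hv 0
    rw [hV _ _ hF0 0, h0] at h1
    simp [vP] at h1
  exact HTE_gen hG hE hV hL g F R Rc hF hF0 hg0 hv hC

end Pool.ThmM.Chow
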