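import Pool.Agent.Work.MP_f82ddf_M.Chow
import Pool.Agent.Work.MP_f82ddf_M5.T_DEG

set_option autoImplicit false

/-! # THEOREM M, part P3a, block IRA (helper53): the resultant argument for the generic branch -/

namespace Pool.ThmM.Chow

open MvPolynomial
open Pool.Agent.Work.MP_f82ddf_M5 (lineAt)

/-! ## Degrees of the coefficients -/

theorem IRA_bd_mul {R : Type} [CommRing R] {F G : Polynomial (Polynomial R)} {k l : ℕ}
    (hF : ∀ i, (F.coeff i).natDegree ≤ k) (hG : ∀ i, (G.coeff i).natDegree ≤ l) (i : ℕ) :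
    ((F * G).coeff i).natDegree ≤ k + l := by
  rw [Polynomial.coeff_mul]
  refine Polynomial.natDegree_sum_le_of_forall_le _ _ fun p _ => ?_
  exact Polynomial.natDegree_mul_le.trans (Nat.add_le_add (hF _) (hG _))

theorem IRA_bd_pow {R : Type} [CommRing R] {F : Polynomial (Polynomial R)} {k : ℕ}
    (hF : ∀ i, (F.coeff i).natDegree ≤ k) (n : ℕ) : ∀ i, ((F ^ n).coeff i).natDegree ≤ n * k := by
  induction n with
  | zero =>
    intro i
    rw [pow_zero, Polynomial.coeff_one]
    split_ifs
    · simp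
    · simp
  | succ n ih =>
    intro i
    rw [pow_succ, Nat.succ_mul]
    exact IRA_bd_mul ih hF i

theorem IRA_bd_prod {R ι : Type} [CommRing R] (F : ι → Polynomial (Polynomial R)) (k : ι → ℕ)
    (s : Finset ι) (hF : ∀ j ∈ s, ∀ i, ((F j).coeff i).natDegree ≤ k j) :
    ∀ i, ((∏ j ∈ s, F j).coeff i).natDegree ≤ ∑ j ∈ s, k j := by
  classical
  induction s using Finset.induction_on with
  | empty =>
    intro i
    rw [Finset.prod_empty, Polynomial.coeff_one]
    split_ifs
    · simp
    · simp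
  | insert a s ha ih =>
    intro i
    rw [Finset.prod_insert ha, Finset.sum_insert ha]
    exact IRA_bd_mul (hF a (Finset.mem_insert_self a s))
      (ih fun j hj => hF j (Finset.mem_insert_of_mem hj)) i

theorem IRA_bd_gen {N : ℕ} (u e : Fin N → ℂ) (j : Fin N) (i : ℕ) :
    ((Polynomial.C (Polynomial.C (C (u j))) +
    Polynomial.C (Polynomial.C (C (e j))) * Polynomial.X +
    Polynomial.C (Polynomial.X * Polynomial.C (X j)) :
      Polynomial (Polynomial (MvPolynomial (Fin N) ℂ))).coeff i).natDegree ≤ 1 := by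
  rw [Polynomial.coeff_add, Polynomial.coeff_add, Polynomial.coeff_C, Polynomial.coeff_C,
    Polynomial.coeff_C_mul, Polynomial.coeff_X]
  refine (Polynomial.natDegree_add_le _ _).trans (max_le ((Polynomial.natDegree_add_le _ _).trans
    (max_le ?_ ?_)) ?_)
  · split_ifs
    · rw [Polynomial.natDegree_C]; exact Nat.zero_le _
    · rw [Polynomial.natDegree_zero]; exact Nat.zero_le _
  · split_ifs
    · rw [mul_one, Polynomial.natDegree_C]; exact Nat.zero_le _
    · rw [mul_zero, Polynomial.natDegree_zero]; exact Nat.zero_le _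
  · split_ifs
    · refine Polynomial.natDegree_mul_le.trans ?_
      rw [Polynomial.natDegree_C, add_zero]
      exact Polynomial.natDegree_X_le
    · rw [Polynomial.natDegree_zero]; exact Nat.zero_le _

theorem IRA_bd {N d : ℕ} (Q : MvPolynomial (Fin N) ℂ) (u e : Fin N → ℂ) (hQ : Q.IsHomogeneous d)
    (i : ℕ) : ((PQ u e Q).coeff i).natDegree ≤ d := by
  unfold PQ
  rw [aeval_def, eval₂_eq, Polynomial.finsetSum_coeff]
  refine Polynomial.natDegree_sum_le_of_forall_le _ _ fun s hs => ?_
  have h1 : (algebraMap ℂ (Polynomial (Polynomial (MvPolynomial (Fin N) ℂ)))) (coeff s Q) =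
      Polynomial.C (Polynomial.C (C (coeff s Q))) := rfl
  rw [h1, Polynomial.coeff_C_mul]
  refine Polynomial.natDegree_mul_le.trans ?_
  rw [Polynomial.natDegree_C, zero_add]
  refine (IRA_bd_prod _ (fun j => s j * 1) s.support (fun j _ =>
    IRA_bd_pow (IRA_bd_gen u e j) (s j)) i).trans ?_
  have h2 : s.degree = d := by
    rw [Finsupp.degree_eq_weight_one]
    exact hQ (mem_support_iff.1 hs)
  simp only [mul_one]
  exact h2.le

theorem IRA_det {R : Type} [CommRing R] {n k : ℕ} (A : Matrix (Fin n) (Fin n) (Polynomial R))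
    (hA : ∀ i j, (A i j).natDegree ≤ k) : A.det.natDegree ≤ n * k := by
  rw [Matrix.det_apply']
  refine Polynomial.natDegree_sum_le_of_forall_le _ _ fun σ _ => ?_
  refine Polynomial.natDegree_mul_le.trans ?_
  rw [Polynomial.natDegree_intCast, zero_add]
  refine (Polynomial.natDegree_prod_le _ _).trans ?_
  refine (Finset.sum_le_sum fun i _ => hA (σ i) i).trans ?_
  rw [Finset.sum_const, Finset.card_univ, Fintype.card_fin, smul_eq_mul]

theorem IRA_res {R : Type} [CommRing R] {m n k : ℕ} (F G : Polynomial (Polynomial R))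
    (hF : ∀ i, (F.coeff i).natDegree ≤ k) (hG : ∀ i, (G.coeff i).natDegree ≤ k) :
    (F.resultant G m n).natDegree ≤ (m + n) * k := by
  unfold Polynomial.resultant
  refine IRA_det _ fun i j => ?_
  unfold Polynomial.sylvester
  rw [Matrix.of_apply]
  refine Fin.addCases (fun j₁ => ?_) (fun j₁ => ?_) j
  · rw [Fin.addCases_left]
    split_ifs
    · exact hG _
    · rw [Polynomial.natDegree_zero]; exact Nat.zero_le _
  · rw [Fin.addCases_right]
    split_ifs
    · exact hF _
    · rw [Polynomial.natDegree_zero]; exact Nat.zero_le _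

/-! ## The specialisation at `Z = λ` -/

/-- `θ_j ↦ a_j Y + b_j + c θ_j`, `Y ↦ Y` -/
noncomputable def IRA_au {N : ℕ} (a b : Fin N → ℂ) (c : ℂ) :
    Polynomial (MvPolynomial (Fin N) ℂ) →+* Polynomial (MvPolynomial (Fin N) ℂ) :=
  Polynomial.eval₂RingHom
    (eval₂Hom ((Polynomial.C : MvPolynomial (Fin N) ℂ →+* _).comp C)
      (fun j => Polynomial.C (C (a j)) * Polynomial.X + Polynomial.C (C (b j) + C c * X j)))
    Polynomial.X

theorem IRA_au_X {N : ℕ} (a b : Fin N → ℂ) (c : ℂ) : IRA_au a b c Polynomial.X = Polynomial.X := by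
  unfold IRA_au
  rw [Polynomial.coe_eval₂RingHom, Polynomial.eval₂_X]

theorem IRA_au_C {N : ℕ} (a b : Fin N → ℂ) (c : ℂ) (r : ℂ) :
    IRA_au a b c (Polynomial.C (C r)) = Polynomial.C (C r) := by
  unfold IRA_au
  rw [Polynomial.coe_eval₂RingHom, Polynomial.eval₂_C, eval₂Hom_C]
  rfl

theorem IRA_au_j {N : ℕ} (a b : Fin N → ℂ) (c : ℂ) (j : Fin N) :
    IRA_au a b c (Polynomial.C (X j)) =
      Polynomial.C (C (a j)) * Polynomial.X + Polynomial.C (C (b j) + C c * X j) := by
  unfold IRA_au
  rw [Polynomial.coe_eval₂RingHom, Polynomial.eval₂_C, eval₂Hom_X']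

theorem IRA_au_comp {N : ℕ} (a b a' b' : Fin N → ℂ) (c c' : ℂ) (h : c' * c = 1)
    (ha : ∀ j, a' j + c' * a j = 0) (hb : ∀ j, b' j + c' * b j = 0) :
    (IRA_au a b c).comp (IRA_au a' b' c') = RingHom.id _ := by
  apply Polynomial.ringHom_ext'
  · apply MvPolynomial.ringHom_ext
    · intro r
      have : IRA_au a b c (IRA_au a' b' c' (Polynomial.C (C r))) = Polynomial.C (C r) := by
        rw [IRA_au_C, IRA_au_C]
      exact this
    · intro j
      have : IRA_au a b c (IRA_au a' b' c' (Polynomial.C (X j))) = Polynomial.C (X j) := by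
        rw [IRA_au_j, Polynomial.C_add, Polynomial.C_mul, map_add, map_mul, map_add, map_mul,
          IRA_au_C, IRA_au_X, IRA_au_C, IRA_au_C, IRA_au_j]
        have e1 : (Polynomial.C (C (a' j)) : Polynomial (MvPolynomial (Fin N) ℂ)) +
            Polynomial.C (C c') * Polynomial.C (C (a j)) = 0 := by
          rw [← Polynomial.C_mul, ← Polynomial.C_add, ← map_mul, ← map_add, ha, map_zero,
            Polynomial.C_0]
        have e2 : (Polynomial.C (C (b' j)) : Polynomial (MvPolynomial (Fin N) ℂ)) +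
            Polynomial.C (C c') * Polynomial.C (C (b j)) = 0 := by
          rw [← Polynomial.C_mul, ← Polynomial.C_add, ← map_mul, ← map_add, hb, map_zero,
            Polynomial.C_0]
        have e3 : (Polynomial.C (C c') : Polynomial (MvPolynomial (Fin N) ℂ)) *
            Polynomial.C (C c) = 1 := by
          rw [← Polynomial.C_mul, ← map_mul, h, map_one, Polynomial.C_1]
        rw [Polynomial.C_add, Polynomial.C_mul]
        linear_combination (Polynomial.X : Polynomial (MvPolynomial (Fin N) ℂ)) * e1 + e2 +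
          Polynomial.C (X j) * e3
      exact this
  · have : IRA_au a b c (IRA_au a' b' c' Polynomial.X) = Polynomial.X := by
      rw [IRA_au_X, IRA_au_X]
    exact this

theorem IRA_au_prime {N : ℕ} (a b : Fin N → ℂ) (c : ℂ) (hc : c ≠ 0) (Q : MvPolynomial (Fin N) ℂ)
    (hQ : Prime Q) : Prime (IRA_au a b c (Polynomial.C Q)) := by
  let E : Polynomial (MvPolynomial (Fin N) ℂ) ≃+* Polynomial (MvPolynomial (Fin N) ℂ) :=
    RingEquiv.ofRingHom (IRA_au a b c) (IRA_au (fun j => - (c⁻¹ * a j)) (fun j => - (c⁻¹ * b j)) c⁻¹)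
      (IRA_au_comp _ _ _ _ _ _ (inv_mul_cancel₀ hc) (fun j => neg_add_cancel _)
        (fun j => neg_add_cancel _))
      (IRA_au_comp _ _ _ _ _ _ (mul_inv_cancel₀ hc)
        (fun j => by field_simp; ring) (fun j => by field_simp; ring))
  have h1 : Prime (Polynomial.C Q) := Polynomial.prime_C_iff.2 hQ
  exact (MulEquiv.prime_iff E.toMulEquiv).2 h1

theorem IRA_spec {N : ℕ} (u e : Fin N → ℂ) (Q : MvPolynomial (Fin N) ℂ) (c : ℂ) :
    (PQ u e Q).map (Polynomial.evalRingHom (C c)) = IRA_au e u c (Polynomial.C Q) := by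
  unfold PQ IRA_au
  rw [Polynomial.coe_eval₂RingHom, Polynomial.eval₂_C]
  induction Q using MvPolynomial.induction_on with
  | C a =>
    rw [aeval_C, eval₂Hom_C]
    have h1 : (algebraMap ℂ (Polynomial (Polynomial (MvPolynomial (Fin N) ℂ)))) a =
      Polynomial.C (Polynomial.C (C a)) := rfl
    rw [h1, Polynomial.map_C, Polynomial.coe_evalRingHom, Polynomial.eval_C]
    rfl
  | add p q hp hq =>
    rw [map_add, Polynomial.map_add, hp, hq, map_add]
  | mul_X p j hp =>
    rw [map_mul, Polynomial.map_mul, hp, map_mul, aeval_X, eval₂Hom_X']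
    congr 1
    rw [Polynomial.map_add, Polynomial.map_add, Polynomial.map_mul, Polynomial.map_C,
      Polynomial.map_C, Polynomial.map_C, Polynomial.map_X, Polynomial.coe_evalRingHom,
      Polynomial.eval_C, Polynomial.eval_C, Polynomial.eval_mul, Polynomial.eval_X,
      Polynomial.eval_C, Polynomial.C_add]
    ring

theorem IRA_au_line {N : ℕ} (a b : Fin N → ℂ) (c : ℂ) (Q : MvPolynomial (Fin N) ℂ) :
    IRA_au a b c (Polynomial.C Q) =
      lineAt C Q (fun j => C (a j)) (fun j => C (b j) + C c * X j) := by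
  unfold IRA_au lineAt
  rw [Polynomial.coe_eval₂RingHom, Polynomial.eval₂_C]
  rfl

theorem IRA_P_line {N : ℕ} (u e : Fin N → ℂ) (Q : MvPolynomial (Fin N) ℂ) :
    PQ u e Q = lineAt (Polynomial.C.comp C) Q (fun j => Polynomial.C (C (e j)))
      (fun j => Polynomial.C (C (u j)) + Polynomial.X * Polynomial.C (X j)) := by
  unfold PQ lineAt
  rw [aeval_def]
  have h : (fun j => Polynomial.C (Polynomial.C (C (u j))) +
      Polynomial.C (Polynomial.C (C (e j))) * Polynomial.X +
      Polynomial.C (Polynomial.X * Polynomial.C (X j)) :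
        Fin N → Polynomial (Polynomial (MvPolynomial (Fin N) ℂ))) =
      fun j => Polynomial.C (Polynomial.C (C (e j))) * Polynomial.X +
        Polynomial.C (Polynomial.C (C (u j)) + Polynomial.X * Polynomial.C (X j)) := by
    funext j
    rw [Polynomial.C_add]
    ring
  rw [h]
  rfl

theorem IRA_eval {N : ℕ} (e : Fin N → ℂ) (Q : MvPolynomial (Fin N) ℂ) :
    eval₂ (C : ℂ →+* MvPolynomial (Fin N) ℂ) (fun j => C (e j)) Q = C (eval e Q) := by
  have h := eval₂_comp_left (C : ℂ →+* MvPolynomial (Fin N) ℂ) (RingHom.id ℂ) e Q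
  rw [RingHom.comp_id] at h
  rw [eval, coe_eval₂Hom]
  exact h.symm

theorem p_IRA (hRES : Pool.Agent.Work.MP_f82ddf_M5.Stmt_RES) : Stmt_IRA := by
  classical
  intro N d Q u e hQi hQh hQe A hA hAd hAc η hP hAη
  have hd : 0 < d := by omega
  have hDEG := Pool.Agent.Work.MP_f82ddf_M5.stmt_DEG
  have hPd : (PQ u e Q).natDegree ≤ d := by
    rw [IRA_P_line]
    exact (hDEG N d _ _ _ Q _ _ hQh).1
  -- the resultant
  have hρ0 : (PQ u e Q).resultant A d (d - 1) ≠ 0 := by
    intro hρ
    obtain ⟨i, hi⟩ : ∃ i, A.coeff i ≠ 0 := by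
      by_contra h
      push Not at h
      exact hA (Polynomial.ext fun i => by rw [h i, Polynomial.coeff_zero])
    obtain ⟨c, hc⟩ := Infinite.exists_notMem_finset
      (insert (0 : ℂ) ((A.coeff i).roots.toFinset.preimage (C : ℂ → MvPolynomial (Fin N) ℂ)
        ((C_injective (Fin N) ℂ).injOn)))
    rw [Finset.mem_insert, not_or, Finset.mem_preimage, Multiset.mem_toFinset,
      Polynomial.mem_roots hi] at hc
    obtain ⟨hc0, hci⟩ := hc
    have hAc' : A.map (Polynomial.evalRingHom (C c)) ≠ 0 := by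
      intro h
      apply hci
      have h1 := congrArg (fun F => Polynomial.coeff F i) h
      simp only [Polynomial.coeff_map, Polynomial.coeff_zero] at h1
      exact h1
    have hprime : Prime ((PQ u e Q).map (Polynomial.evalRingHom (C c))) := by
      rw [IRA_spec]
      exact IRA_au_prime e u c hc0 Q hQi.prime
    have hD := hDEG N d _ _ (C : ℂ →+* MvPolynomial (Fin N) ℂ) Q (fun j => C (e j))
      (fun j => C (u j) + C c * X j) hQh
    rw [← IRA_au_line, ← IRA_spec, IRA_eval] at hD
    have hnd : ((PQ u e Q).map (Polynomial.evalRingHom (C c))).natDegree = d := by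
      refine Polynomial.natDegree_eq_of_le_of_coeff_ne_zero hD.1 ?_
      rw [hD.2.1]
      intro h
      rw [← map_zero (C : ℂ →+* MvPolynomial (Fin N) ℂ)] at h
      exact hQe (C_injective _ _ h)
    have hAn : (A.map (Polynomial.evalRingHom (C c))).natDegree ≤ d - 1 :=
      Polynomial.natDegree_map_le.trans (by omega)
    have hndvd : ¬ (PQ u e Q).map (Polynomial.evalRingHom (C c)) ∣
        A.map (Polynomial.evalRingHom (C c)) := by
      intro h
      have h1 := Polynomial.natDegree_le_of_dvd h hAc'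
      omega
    have h1 := hRES (MvPolynomial (Fin N) ℂ) _ _ d (d - 1) hprime hnd hd hAn hndvd
    rw [Polynomial.resultant_map_map, hρ, map_zero] at h1
    exact h1 rfl
  obtain ⟨p, q, _, _, hpq⟩ := Polynomial.exists_mul_add_mul_eq_C_resultant (PQ u e Q) A
    (m := d) (n := d - 1) hPd (by omega) (Or.inl hd.ne')
  have h1 := congrArg (fun F => Polynomial.eval η F) hpq
  simp only [Polynomial.eval_add, Polynomial.eval_mul, Polynomial.eval_C] at h1
  have h2 : (Polynomial.X : Polynomial (MvPolynomial (Fin N) ℂ)) ^ (2 * d ^ 2) ∣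
      (PQ u e Q).resultant A d (d - 1) := by
    rw [← h1]
    exact dvd_add (Dvd.dvd.mul_right hP _) (Dvd.dvd.mul_right hAη _)
  have h3 := Polynomial.natDegree_le_of_dvd h2 hρ0
  rw [Polynomial.natDegree_X_pow] at h3
  have h4 := IRA_res (m := d) (n := d - 1) (PQ u e Q) A (IRA_bd Q u e hQh) hAc
  have h5 : (d + (d - 1)) * d < 2 * d ^ 2 := by
    obtain ⟨f, rfl⟩ : ∃ f, d = f + 1 := ⟨d - 1, by omega⟩
    rw [Nat.add_sub_cancel]
    nlinarith
  omega

end Pool.ThmM.Chow
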