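import Pool.Agent.Work.MP_f82ddf_M.Chow

set_option autoImplicit false

/-! # Block IRR (helper52): irreducibility of the generic plane section -/

namespace Pool.ThmM.Chow

open MvPolynomial

/-- the first two coefficients of `Q(u + Y e)` -/
theorem IRR_c01 {N : ℕ} (R : Type) [CommRing R] [Algebra ℂ R] (u e : Fin N → ℂ)
    (Q : MvPolynomial (Fin N) ℂ) :
    (aeval (fun j => Polynomial.C (algebraMap ℂ R (u j)) +
      Polynomial.C (algebraMap ℂ R (e j)) * Polynomial.X) Q : Polynomial R).coeff 0 =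
        algebraMap ℂ R (eval u Q) ∧
    (aeval (fun j => Polynomial.C (algebraMap ℂ R (u j)) +
      Polynomial.C (algebraMap ℂ R (e j)) * Polynomial.X) Q : Polynomial R).coeff 1 =
        algebraMap ℂ R (∑ j, e j * eval u (pderiv j Q)) := by
  classical
  induction Q using MvPolynomial.induction_on with
  | C a =>
    simp [Polynomial.algebraMap_apply, Polynomial.coeff_C]
  | add p q hp hq =>
    rw [map_add, Polynomial.coeff_add, Polynomial.coeff_add, hp.1, hq.1, hp.2, hq.2]
    simp only [map_add, mul_add, Finset.sum_add_distrib]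
    exact ⟨trivial, trivial⟩
  | mul_X p i hp =>
    rw [map_mul, aeval_X]
    constructor
    · rw [Polynomial.mul_coeff_zero, hp.1]
      simp
    · have h1 : ∀ (f : Polynomial R) (x y : R),
          (f * (Polynomial.C x + Polynomial.C y * Polynomial.X)).coeff 1 =
            f.coeff 1 * x + f.coeff 0 * y := by
        intro f x y
        rw [mul_add, Polynomial.coeff_add, Polynomial.coeff_mul_C, ← mul_assoc]
        rw [show (1 : ℕ) = 0 + 1 from rfl, Polynomial.coeff_mul_X, Polynomial.coeff_mul_C]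
      rw [h1, hp.1, hp.2]
      have h2 : ∑ j, e j * eval u (pderiv j (p * X i)) =
          (∑ j, e j * eval u (pderiv j p)) * u i + eval u p * e i := by
        simp only [Derivation.leibniz, smul_eq_mul, map_add, map_mul, eval_X, pderiv_X]
        rw [Finset.sum_mul]
        have h3 : eval u p * e i = ∑ j, e j * (eval u p * eval u
            ((Pi.single j (1 : MvPolynomial (Fin N) ℂ) : Fin N → MvPolynomial (Fin N) ℂ) i)) := by
          rw [Finset.sum_eq_single i]
          · simp
            ring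
          · intro j _ hj
            simp [Pi.single_apply, hj, Ne.symm hj]
          · simp
        rw [h3, ← Finset.sum_add_distrib]
        refine Finset.sum_congr rfl fun j _ => ?_
        ring
      rw [h2]
      simp only [map_add, map_mul]

theorem IRR_coeff {N : ℕ} (u e : Fin N → ℂ) (Q : MvPolynomial (Fin N) ℂ) :
    ((PQ u e Q).coeff 0).coeff 0 = algebraMap ℂ (MvPolynomial (Fin N) ℂ) (eval u Q) ∧
    ((PQ u e Q).coeff 1).coeff 0 =
      algebraMap ℂ (MvPolynomial (Fin N) ℂ) (∑ j, e j * eval u (pderiv j Q)) := by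
  have h1 : (PQ u e Q).map Polynomial.constantCoeff =
      aeval (fun j => Polynomial.C (algebraMap ℂ (MvPolynomial (Fin N) ℂ) (u j)) +
        Polynomial.C (algebraMap ℂ (MvPolynomial (Fin N) ℂ) (e j)) * Polynomial.X) Q := by
    rw [PQ, ← Polynomial.coe_mapRingHom]
    refine (map_aeval (R := ℂ) (σ := Fin N) (S₁ := Polynomial (Polynomial (MvPolynomial (Fin N) ℂ)))
      (B := Polynomial (MvPolynomial (Fin N) ℂ)) _
      (Polynomial.mapRingHom Polynomial.constantCoeff) _).trans ?_
    rw [aeval_def, coe_eval₂Hom]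
    congr 1
    · ext c
      simp [Polynomial.algebraMap_apply]
    · funext j
      simp
  have h2 := IRR_c01 (MvPolynomial (Fin N) ℂ) u e Q
  rw [← h1, Polynomial.coeff_map, Polynomial.coeff_map] at h2
  exact h2

/-- specialisation of `P(η)` -/
theorem IRR_spec {N : ℕ} (u e θ : Fin N → ℂ) (Q : MvPolynomial (Fin N) ℂ)
    (η : Polynomial (MvPolynomial (Fin N) ℂ)) :
    ((PQ u e Q).eval η).map (eval θ) =
      aeval ![1, η.map (eval θ), Polynomial.X] (qp u e θ Q) := by
  have h1 : ((PQ u e Q).eval η).map (eval θ) =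
      ((Polynomial.mapRingHom (eval θ)).comp (Polynomial.evalRingHom η)) (PQ u e Q) := rfl
  have h2 : aeval ![1, η.map (eval θ), Polynomial.X] (qp u e θ Q) =
      (aeval (R := ℂ) ![(1 : Polynomial ℂ), η.map (eval θ), Polynomial.X] :
        MvPolynomial (Fin 3) ℂ →+* Polynomial ℂ) (qp u e θ Q) := rfl
  rw [h1, h2, PQ, qp, map_aeval, map_aeval, coe_eval₂Hom, coe_eval₂Hom]
  congr 1
  · ext c
    simp [Polynomial.algebraMap_apply]
  · funext j
    simp [pl]

theorem IRR_line {N : ℕ} (u e θ : Fin N → ℂ) (Q : MvPolynomial (Fin N) ℂ) :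
    aeval ![(1 : Polynomial ℂ), Polynomial.X, 0] (qp u e θ Q) =
      aeval (fun j => Polynomial.C (algebraMap ℂ ℂ (u j)) +
        Polynomial.C (algebraMap ℂ ℂ (e j)) * Polynomial.X) Q := by
  have h2 : aeval ![(1 : Polynomial ℂ), Polynomial.X, 0] (qp u e θ Q) =
      (aeval (R := ℂ) ![(1 : Polynomial ℂ), Polynomial.X, 0] :
        MvPolynomial (Fin 3) ℂ →+* Polynomial ℂ) (qp u e θ Q) := rfl
  rw [h2, qp, map_aeval, coe_eval₂Hom, aeval_def]
  congr 1
  · ext c
    simp [Polynomial.algebraMap_apply]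
  · funext j
    simp [pl]

theorem IRR_const (η : Polynomial ℂ) (h0 : η.coeff 0 = 0) (F : MvPolynomial (Fin 3) ℂ) :
    (aeval ![(1 : Polynomial ℂ), η, Polynomial.X] F).coeff 0 =
      (aeval ![(1 : Polynomial ℂ), Polynomial.X, 0] F).coeff 0 := by
  have h1 : ∀ (g : Fin 3 → Polynomial ℂ), (aeval g F).coeff 0 =
      eval (fun i => (g i).coeff 0) F := by
    intro g
    have h2 : (aeval g F).coeff 0 = (Polynomial.constantCoeff (R := ℂ)) (aeval g F) := rfl
    rw [h2, map_aeval, coe_eval₂Hom]
    have h3 : (Polynomial.constantCoeff (R := ℂ)).comp (algebraMap ℂ (Polynomial ℂ)) =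
        RingHom.id ℂ := by
      ext c
      simp [Polynomial.algebraMap_apply]
    rw [h3]
    rfl
  rw [h1, h1]
  congr 2
  funext i
  fin_cases i
  · rfl
  · simpa using h0
  · simp

/-- the vector of the coefficients -/
noncomputable def IRR_v {d : ℕ} (a : MvPolynomial (Fin 3) ℂ) (p : Fin d × Fin (d + 1)) : ℂ :=
  ∑ s ∈ a.support, if s 1 = p.1 ∧ s 2 = p.2 then a.coeff s else 0

theorem IRR_sum {d d1 : ℕ} (hd : d1 < d) (a : MvPolynomial (Fin 3) ℂ) (ha : a.IsHomogeneous d1)
    (η : Polynomial ℂ) : aeval ![(1 : Polynomial ℂ), η, Polynomial.X] a =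
      ∑ p : Fin d × Fin (d + 1),
        Polynomial.C (IRR_v a p) * (Polynomial.X ^ (p.2 : ℕ) * η ^ (p.1 : ℕ)) := by
  have hdeg : ∀ s ∈ a.support, s 1 < d ∧ s 2 < d + 1 := by
    intro s hs
    have h1 : s.degree = d1 := by
      by_contra h
      exact (mem_support_iff.1 hs) (ha.coeff_eq_zero h)
    rw [Finsupp.degree_eq_sum, Fin.sum_univ_three] at h1
    omega
  have h1 : ∀ p : Fin d × Fin (d + 1),
      Polynomial.C (IRR_v a p) * (Polynomial.X ^ (p.2 : ℕ) * η ^ (p.1 : ℕ)) =
      ∑ s ∈ a.support, if s 1 = p.1 ∧ s 2 = p.2 then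
        Polynomial.C (a.coeff s) * (Polynomial.X ^ (p.2 : ℕ) * η ^ (p.1 : ℕ)) else 0 := by
    intro p
    rw [IRR_v, map_sum, Finset.sum_mul]
    refine Finset.sum_congr rfl fun s _ => ?_
    split_ifs
    · rfl
    · rw [map_zero, zero_mul]
  rw [Finset.sum_congr rfl fun p _ => h1 p, Finset.sum_comm, aeval_def, eval₂_eq']
  refine Finset.sum_congr rfl fun s hs => ?_
  obtain ⟨h2, h3⟩ := hdeg s hs
  rw [Finset.sum_eq_single (⟨⟨s 1, h2⟩, ⟨s 2, h3⟩⟩ : Fin d × Fin (d + 1))]
  · rw [if_pos ⟨rfl, rfl⟩, Fin.prod_univ_three]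
    show Polynomial.C (coeff s a) * (1 ^ s 0 * η ^ s 1 * Polynomial.X ^ s 2) =
      Polynomial.C (coeff s a) * (Polynomial.X ^ s 2 * η ^ s 1)
    rw [one_pow]
    ring
  · rintro ⟨⟨i, hi⟩, ⟨j, hj⟩⟩ _ hne
    rw [if_neg]
    rintro ⟨h4, h5⟩
    apply hne
    simp only at h4 h5
    subst h4
    subst h5
    rfl
  · intro h
    exact absurd (Finset.mem_univ _) h

theorem IRR_inj {d d1 : ℕ} (hd : d1 < d) (a : MvPolynomial (Fin 3) ℂ) (ha : a.IsHomogeneous d1)
    (h : ∀ p : Fin d × Fin (d + 1), IRR_v a p = 0) : a = 0 := by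
  by_contra h0
  obtain ⟨s, hs⟩ := support_nonempty.2 h0
  have hdeg : ∀ s ∈ a.support, s 0 + s 1 + s 2 = d1 := by
    intro s hs
    have h1 : s.degree = d1 := by
      by_contra h
      exact (mem_support_iff.1 hs) (ha.coeff_eq_zero h)
    rw [Finsupp.degree_eq_sum, Fin.sum_univ_three] at h1
    exact h1
  have h1 := hdeg s hs
  have h2 := h (⟨s 1, by omega⟩, ⟨s 2, by omega⟩)
  rw [IRR_v, Finset.sum_eq_single s] at h2
  · rw [if_pos ⟨rfl, rfl⟩] at h2
    exact (mem_support_iff.1 hs) h2
  · intro t ht hts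
    rw [if_neg]
    rintro ⟨h3, h4⟩
    simp only at h3 h4
    apply hts
    have h5 := hdeg t ht
    ext i
    fin_cases i
    · show t 0 = s 0
      omega
    · exact h3
    · exact h4
  · intro h
    exact absurd hs h

theorem p_IRR : Stmt_WHF → Stmt_MIN → Stmt_NWT → Stmt_IRA → Stmt_IRR := by
  classical
  intro hWHF hMIN hNWT hIRA N d Q u e hQ hQh hQu hQd hQe
  have hd : d ≠ 0 := by
    rintro rfl
    have h1 : Q.totalDegree = 0 := (totalDegree_zero_iff_isHomogeneous _).2 hQh
    rw [totalDegree_eq_zero_iff_eq_C] at h1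
    apply hQ.not_isUnit
    rw [h1]
    rw [h1, eval_C] at hQe
    exact (isUnit_iff_ne_zero.2 hQe).map C
  obtain ⟨hc0, hc1⟩ := IRR_coeff u e Q
  obtain ⟨η, hη0, hη⟩ := hNWT (MvPolynomial (Fin N) ℂ) (PQ u e Q) (2 * d ^ 2)
    (by rw [hc0, hQu, map_zero])
    (by rw [hc1]; exact (isUnit_iff_ne_zero.2 hQd).map _)
  let S := MvPolynomial (Fin N) ℂ
  let L : Matrix (Fin (2 * d ^ 2)) (Fin d × Fin (d + 1)) S :=
    fun l p => ((Polynomial.X : Polynomial S) ^ (p.2 : ℕ) * η ^ (p.1 : ℕ)).coeff l
  obtain ⟨D, G, hG, hDL⟩ := hMIN S (Fin d × Fin (d + 1)) (Fin (2 * d ^ 2)) L (by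
    intro v hv
    let A : Polynomial (Polynomial S) := ∑ p : Fin d × Fin (d + 1),
      Polynomial.C (Polynomial.C (v p) * Polynomial.X ^ (p.2 : ℕ)) * Polynomial.X ^ (p.1 : ℕ)
    have hcoe : ∀ m, A.coeff m = ∑ p : Fin d × Fin (d + 1),
        if m = (p.1 : ℕ) then Polynomial.C (v p) * Polynomial.X ^ (p.2 : ℕ) else 0 := by
      intro m
      simp only [A, Polynomial.finsetSum_coeff, Polynomial.coeff_C_mul, Polynomial.coeff_X_pow,
        mul_ite, mul_one, mul_zero]
    by_cases hA : A = 0
    · funext q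
      have h1 := hcoe q.1
      rw [hA, Polynomial.coeff_zero] at h1
      have h2 := congrArg (fun f : Polynomial S => f.coeff q.2) h1
      simp only [Polynomial.coeff_zero, Polynomial.finsetSum_coeff] at h2
      rw [Finset.sum_eq_single q] at h2
      · rw [if_pos rfl, Polynomial.coeff_C_mul, Polynomial.coeff_X_pow, if_pos rfl, mul_one] at h2
        exact h2.symm
      · intro p _ hp
        by_cases h3 : (q.1 : ℕ) = (p.1 : ℕ)
        · rw [if_pos h3, Polynomial.coeff_C_mul, Polynomial.coeff_X_pow, if_neg, mul_zero]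
          intro h4
          apply hp
          exact Prod.ext (Fin.ext h3.symm) (Fin.ext h4.symm)
        · rw [if_neg h3, Polynomial.coeff_zero]
      · intro h
        exact absurd (Finset.mem_univ _) h
    · exfalso
      refine hIRA N d Q u e hQ hQh hQe A hA ?_ ?_ η hη ?_
      · have h1 : A.natDegree ≤ d - 1 := by
          refine Polynomial.natDegree_sum_le_of_forall_le _ _ fun p _ => ?_
          refine (Polynomial.natDegree_C_mul_X_pow_le _ _).trans ?_
          have := p.1.2
          omega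
        omega
      · intro m
        rw [hcoe]
        refine Polynomial.natDegree_sum_le_of_forall_le _ _ fun p _ => ?_
        split_ifs
        · refine (Polynomial.natDegree_C_mul_X_pow_le _ _).trans ?_
          have := p.2.2
          omega
        · simp
      · rw [Polynomial.X_pow_dvd_iff]
        intro l hl
        have h1 := congrFun hv ⟨l, hl⟩
        rw [Matrix.mulVec, dotProduct] at h1
        simp only [A, Polynomial.eval_finsetSum, Polynomial.eval_mul, Polynomial.eval_C,
          Polynomial.eval_pow, Polynomial.eval_X, Polynomial.finsetSum_coeff]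
        refine Eq.trans ?_ h1
        refine Finset.sum_congr rfl fun p _ => ?_
        rw [mul_assoc, Polynomial.coeff_C_mul, mul_comm])
  refine ⟨G, hG, fun θ hθ => ?_⟩
  set q := qp u e θ Q with hq
  set ηθ := η.map (eval θ) with hηθ
  have hη0' : ηθ.coeff 0 = 0 := by
    rw [hηθ, Polynomial.coeff_map, hη0, map_zero]
  have hqh : q.IsHomogeneous d := by
    have h1 := hQh.aeval (pl u e θ X) (n := 1) (by
      intro j
      have hX : ∀ (c : ℂ) (i : Fin 3), (C c * X i : MvPolynomial (Fin 3) ℂ).IsHomogeneous 1 :=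
        fun c i => isHomogeneous_C_mul_X c i
      exact ((hX _ _).add (hX _ _)).add (hX _ _))
    rw [one_mul] at h1
    exact h1
  have hqdvd : (Polynomial.X : Polynomial ℂ) ^ (2 * d ^ 2) ∣
      aeval ![(1 : Polynomial ℂ), ηθ, Polynomial.X] q := by
    have h1 := IRR_spec u e θ Q η
    rw [← hηθ, ← hq] at h1
    rw [← h1]
    have h2 := map_dvd (Polynomial.mapRingHom (eval θ)) hη
    simpa using h2
  have hline := IRR_line u e θ Q
  rw [← hq] at hline
  obtain ⟨hl0, hl1⟩ := IRR_c01 ℂ u e Q
  rw [← hline] at hl0 hl1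
  have hl0' : (aeval ![(1 : Polynomial ℂ), Polynomial.X, 0] q).coeff 0 = 0 := by
    rw [hl0, hQu, map_zero]
  have hl1' : (aeval ![(1 : Polynomial ℂ), Polynomial.X, 0] q).coeff 1 ≠ 0 := by
    rw [hl1]
    exact hQd
  have hq0 : q ≠ 0 := by
    intro h
    rw [h, map_zero, Polynomial.coeff_zero] at hl1'
    exact hl1' rfl
  -- the main step
  have main : ∀ (a b : MvPolynomial (Fin 3) ℂ) (d1 : ℕ), q = a * b → a.IsHomogeneous d1 →
      d1 < d → (aeval ![(1 : Polynomial ℂ), Polynomial.X, 0] a).coeff 0 = 0 → False := by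
    intro a b d1 hab ha hd1 ha0
    have hb0 : (aeval ![(1 : Polynomial ℂ), Polynomial.X, 0] b).coeff 0 ≠ 0 := by
      intro hb0
      apply hl1'
      rw [hab, map_mul, Polynomial.coeff_mul]
      rw [Finset.Nat.antidiagonal_succ]
      simp [ha0, hb0]
    have hbX : ¬ (Polynomial.X : Polynomial ℂ) ∣ aeval ![(1 : Polynomial ℂ), ηθ, Polynomial.X] b := by
      rw [Polynomial.X_dvd_iff, IRR_const ηθ hη0']
      exact hb0
    have hcop : IsCoprime ((Polynomial.X : Polynomial ℂ) ^ (2 * d ^ 2))
        (aeval ![(1 : Polynomial ℂ), ηθ, Polynomial.X] b) :=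
      IsCoprime.pow_left ((Polynomial.irreducible_X.coprime_iff_not_dvd).2 hbX)
    have hadvd : (Polynomial.X : Polynomial ℂ) ^ (2 * d ^ 2) ∣
        aeval ![(1 : Polynomial ℂ), ηθ, Polynomial.X] a := by
      have h1 := hqdvd
      rw [hab, map_mul] at h1
      exact hcop.dvd_of_dvd_mul_right h1
    have hL : ∀ l : Fin (2 * d ^ 2), ∑ p, eval θ (L l p) * IRR_v a p = 0 := by
      intro l
      have h1 := (Polynomial.X_pow_dvd_iff.1 hadvd) l l.2
      rw [IRR_sum hd1 a ha ηθ, Polynomial.finsetSum_coeff] at h1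
      refine Eq.trans (Finset.sum_congr rfl fun p _ => ?_) h1
      rw [Polynomial.coeff_C_mul, mul_comm]
      congr 1
      show eval θ (((Polynomial.X : Polynomial S) ^ (p.2 : ℕ) * η ^ (p.1 : ℕ)).coeff l) = _
      rw [← Polynomial.coeff_map, Polynomial.map_mul, Polynomial.map_pow, Polynomial.map_pow,
        Polynomial.map_X]
    have hv : ∀ p : Fin d × Fin (d + 1), IRR_v a p = 0 := by
      intro p0
      have h1 : eval θ G * IRR_v a p0 = 0 := by
        have h2 : ∑ p, eval θ ((D * L) p0 p) * IRR_v a p = 0 := by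
          have h3 : ∀ p, eval θ ((D * L) p0 p) * IRR_v a p =
              ∑ l, eval θ (D p0 l) * (eval θ (L l p) * IRR_v a p) := by
            intro p
            rw [Matrix.mul_apply, map_sum, Finset.sum_mul]
            refine Finset.sum_congr rfl fun l _ => ?_
            rw [map_mul, mul_assoc]
          rw [Finset.sum_congr rfl fun p _ => h3 p, Finset.sum_comm]
          refine Finset.sum_eq_zero fun l _ => ?_
          rw [← Finset.mul_sum, hL l, mul_zero]
        rw [hDL, Finset.sum_eq_single p0] at h2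
        · rw [Matrix.smul_apply, Matrix.one_apply_eq, smul_eq_mul, mul_one] at h2
          exact h2
        · intro p _ hp
          rw [Matrix.smul_apply, Matrix.one_apply_ne (Ne.symm hp), smul_zero, map_zero, zero_mul]
        · intro h
          exact absurd (Finset.mem_univ _) h
      exact (mul_eq_zero.1 h1).resolve_left hθ
    have ha1 := IRR_inj hd1 a ha hv
    exact hq0 (by rw [hab, ha1, zero_mul])
  refine ⟨?_, ?_⟩
  · intro hu
    have h1 : constantCoeff q = 0 := by
      rw [constantCoeff_eq]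
      refine hqh.coeff_eq_zero ?_
      rw [map_zero]
      exact Ne.symm hd
    have h2 := hu.map (constantCoeff (R := ℂ) (σ := Fin 3))
    rw [h1] at h2
    exact not_isUnit_zero h2
  · intro a b hab
    obtain ⟨d1, d2, hd12, ha, hb⟩ := hWHF (Fin 3) ℂ 1 a b d (by rw [← hab]; exact hq0)
      (by rw [← hab]; exact hqh)
    have ha' : a.IsHomogeneous d1 := ha
    have hb' : b.IsHomogeneous d2 := hb
    have hunit : ∀ x : MvPolynomial (Fin 3) ℂ, x ≠ 0 → x.IsHomogeneous 0 → IsUnit x := by
      intro x hx hx0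
      have h1 : x.totalDegree = 0 := (totalDegree_zero_iff_isHomogeneous _).2 hx0
      rw [totalDegree_eq_zero_iff_eq_C] at h1
      rw [h1]
      refine (isUnit_iff_ne_zero.2 ?_).map C
      intro h2
      apply hx
      rw [h1, h2, map_zero]
    have ha0 : a ≠ 0 := by
      rintro rfl
      exact hq0 (by rw [hab, zero_mul])
    have hb0 : b ≠ 0 := by
      rintro rfl
      exact hq0 (by rw [hab, mul_zero])
    rcases Nat.eq_zero_or_pos d1 with h1 | h1
    · rw [h1] at ha'
      exact Or.inl (hunit a ha0 ha')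
    rcases Nat.eq_zero_or_pos d2 with h2 | h2
    · rw [h2] at hb'
      exact Or.inr (hunit b hb0 hb')
    exfalso
    have h3 := hl0'
    rw [hab, map_mul, Polynomial.mul_coeff_zero] at h3
    rcases mul_eq_zero.1 h3 with h4 | h4
    · exact main a b d1 hab ha' (by omega) h4
    · exact main b a d2 (by rw [hab, mul_comm]) hb' (by omega) h4

end Pool.ThmM.Chow
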