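import Pool.Agent.Work.MP_f82ddf_M.Core

set_option autoImplicit false

/-! # Block LBD: lower bound for the restriction of the Chow form by compactness -/

open Topology Filter
open scoped Differential
open Pool.Agent.Work.MP_f82ddf_nt.DQ

namespace Pool.ThmM.Chow

open MvPolynomial
open Pool.Agent.Work.MP_f82ddf_M5 (lineAt resAt chow at2 comb Data)

/-- homogeneity of the Chow form in `y` -/
theorem LBD_smul {N r : ℕ} (d : ℕ) (Q : MvPolynomial (Fin N) ℂ)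
    (A : Fin (r + 1) → MvPolynomial (Fin N) ℂ) (y : Fin (r + 1) → ℂ) (t : ℂ) :
    Phi ℂ d Q A (fun i => t * y i) = C (t ^ d) * Phi ℂ d Q A y := by
  have h1 : comb (algebraMap ℂ ℂ) A (fun i => t * y i) = C t * comb (algebraMap ℂ ℂ) A y := by
    unfold comb
    rw [Finset.mul_sum]
    refine Finset.sum_congr rfl fun i _ => ?_
    rw [C_mul, mul_assoc]
  unfold Phi chow resAt
  rw [h1]
  have h2 : lineAt (B := MvPolynomial (Fin 2 × Fin N) ℂ) C (C t * comb (algebraMap ℂ ℂ) A y)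
      (fun i => X (0, i)) (fun i => X (1, i)) =
      Polynomial.C (C t) * lineAt (B := MvPolynomial (Fin 2 × Fin N) ℂ) C
        (comb (algebraMap ℂ ℂ) A y) (fun i => X (0, i)) (fun i => X (1, i)) := by
    unfold lineAt
    rw [eval₂_mul, eval₂_C]
    rfl
  rw [h2, Polynomial.resultant_C_mul_right, C_pow]

/-- compactness -/
theorem LBD_cpt {r : ℕ} (S1 S2 : (Fin (r + 1) → ℂ) → ℝ) (d : ℕ) (hd : d ≠ 0)
    (hS1c : Continuous S1) (hS2c : Continuous S2)
    (hS1t : ∀ (y : Fin (r + 1) → ℂ) (t : ℂ), S1 (fun i => t * y i) = ‖t‖ ^ d * S1 y)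
    (hS2t : ∀ (y : Fin (r + 1) → ℂ) (t : ℂ), S2 (fun i => t * y i) = ‖t‖ ^ d * S2 y)
    (hS1nn : ∀ y, 0 ≤ S1 y) (hS2nn : ∀ y, 0 ≤ S2 y) (hS2pos : ∀ y, y ≠ 0 → 0 < S2 y) :
    ∃ K : ℝ, 0 < K ∧ ∀ y, S1 y ≤ K * S2 y := by
  have hcpt : IsCompact (Metric.sphere (0 : Fin (r + 1) → ℂ) 1) := isCompact_sphere _ _
  have hne : (Metric.sphere (0 : Fin (r + 1) → ℂ) 1).Nonempty := by
    refine ⟨fun _ => 1, ?_⟩
    rw [mem_sphere_zero_iff_norm, pi_norm_const, norm_one]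
  obtain ⟨y1, hy1, hmax⟩ := hcpt.exists_isMaxOn hne hS1c.continuousOn
  obtain ⟨y2, hy2, hmin⟩ := hcpt.exists_isMinOn hne hS2c.continuousOn
  have hy2' : y2 ≠ 0 := by
    intro h
    rw [h, mem_sphere_zero_iff_norm, norm_zero] at hy2
    exact zero_ne_one hy2
  have hc : 0 < S2 y2 := hS2pos y2 hy2'
  have hK : 0 < (S1 y1 + 1) / S2 y2 := div_pos (by linarith [hS1nn y1]) hc
  refine ⟨(S1 y1 + 1) / S2 y2, hK, fun y => ?_⟩
  by_cases hy : y = 0
  · have h2 : y = fun i => (0 : ℂ) * y i := by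
      rw [hy]; funext i; simp
    have h3 : S1 y = 0 := by
      rw [h2, hS1t, norm_zero, zero_pow hd, zero_mul]
    rw [h3]
    exact mul_nonneg hK.le (hS2nn y)
  · have hn : 0 < ‖y‖ := norm_pos_iff.2 hy
    obtain ⟨y0, hy0⟩ : ∃ y0 : Fin (r + 1) → ℂ, y0 = ((‖y‖⁻¹ : ℝ) : ℂ) • y := ⟨_, rfl⟩
    have hy0n : y0 ∈ Metric.sphere (0 : Fin (r + 1) → ℂ) 1 := by
      rw [mem_sphere_zero_iff_norm, hy0, norm_smul, Complex.norm_real, norm_inv, norm_norm]
      exact inv_mul_cancel₀ hn.ne'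
    have hyy : y = fun i => ((‖y‖ : ℝ) : ℂ) * y0 i := by
      funext i
      rw [hy0, Pi.smul_apply, smul_eq_mul,
        ← mul_assoc, ← Complex.ofReal_mul, mul_inv_cancel₀ hn.ne', Complex.ofReal_one, one_mul]
    have e1 : S1 y = ‖y‖ ^ d * S1 y0 := by
      have := hS1t y0 ((‖y‖ : ℝ) : ℂ)
      rw [← hyy, Complex.norm_real, norm_norm] at this
      exact this
    have e2 : S2 y = ‖y‖ ^ d * S2 y0 := by
      have := hS2t y0 ((‖y‖ : ℝ) : ℂ)
      rw [← hyy, Complex.norm_real, norm_norm] at this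
      exact this
    have e3 : S1 y0 ≤ S1 y1 := hmax hy0n
    have e4 : S2 y2 ≤ S2 y0 := hmin hy0n
    rw [e1, e2]
    have e5 : S1 y0 ≤ (S1 y1 + 1) / S2 y2 * S2 y0 := by
      calc S1 y0 ≤ S1 y1 + 1 := by linarith
        _ = (S1 y1 + 1) / S2 y2 * S2 y2 := by rw [div_mul_cancel₀ _ hc.ne']
        _ ≤ (S1 y1 + 1) / S2 y2 * S2 y0 := by gcongr
    calc ‖y‖ ^ d * S1 y0 ≤ ‖y‖ ^ d * ((S1 y1 + 1) / S2 y2 * S2 y0) := by gcongr
      _ = (S1 y1 + 1) / S2 y2 * (‖y‖ ^ d * S2 y0) := by ring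

/-- coefficients are polynomials in `y` -/
theorem LBD_pol (hF : Stmt_FNC) (hH : Stmt_FCH) {N r d : ℕ}
    (Q : MvPolynomial (Fin N) ℂ) (A : Fin (r + 1) → MvPolynomial (Fin N) ℂ) (e : Fin N → ℂ) :
    ∃ (U : MvPolynomial (Fin 2 × Fin N) (MvPolynomial (Fin (r + 1)) ℂ))
      (V : MvPolynomial (Fin N) (MvPolynomial (Fin (r + 1)) ℂ)),
      (∀ (y : Fin (r + 1) → ℂ) α, (Phi ℂ d Q A y).coeff α = eval y (U.coeff α)) ∧
      ∀ (y : Fin (r + 1) → ℂ) β, (subC ℂ (gE e) (Phi ℂ d Q A y)).coeff β =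
        eval y (V.coeff β) := by
  have hcomp : ∀ y : Fin (r + 1) → ℂ,
      (eval y : MvPolynomial (Fin (r + 1)) ℂ →+* ℂ).comp
        (algebraMap ℂ (MvPolynomial (Fin (r + 1)) ℂ)) = algebraMap ℂ ℂ := by
    intro y
    refine RingHom.ext fun a => ?_
    rw [RingHom.comp_apply, MvPolynomial.algebraMap_eq, eval_C]
    rfl
  have hmU : ∀ y : Fin (r + 1) → ℂ, map (eval y : MvPolynomial (Fin (r + 1)) ℂ →+* ℂ)
      (Phi (MvPolynomial (Fin (r + 1)) ℂ) d Q A X) = Phi ℂ d Q A y := by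
    intro y
    have h := hH.1 N r d (MvPolynomial (Fin (r + 1)) ℂ) ℂ (eval y) Q A X (hcomp y)
    rw [h]
    congr 1
    funext i
    rw [eval_X]
  refine ⟨Phi (MvPolynomial (Fin (r + 1)) ℂ) d Q A X,
    subC (MvPolynomial (Fin (r + 1)) ℂ) (gE e) (Phi (MvPolynomial (Fin (r + 1)) ℂ) d Q A X),
    fun y α => ?_, fun y β => ?_⟩
  · rw [← hmU y, coeff_map]
  · have h := hF.1 _ _ (MvPolynomial (Fin (r + 1)) ℂ) ℂ (eval y) (gE e)
      (Phi (MvPolynomial (Fin (r + 1)) ℂ) d Q A X) (hcomp y)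
    rw [hmU] at h
    rw [← h, coeff_map]

theorem LBD_cx (hZ : Stmt_NZE) (hF : Stmt_FNC) (hH : Stmt_FCH) {N r d : ℕ}
    (Q : MvPolynomial (Fin N) ℂ) (A : Fin (r + 1) → MvPolynomial (Fin N) ℂ) (e : Fin N → ℂ)
    (hD : Data N r d d Q A) (he : eval e Q ≠ 0) :
    ∃ (K : ℝ) (V : Finset (Fin N →₀ ℕ)), 0 < K ∧ ∀ y : Fin (r + 1) → ℂ, ∀ α,
      ‖(Phi ℂ d Q A y).coeff α‖ ≤
        K * ∑ β ∈ V, ‖(subC ℂ (gE e) (Phi ℂ d Q A y)).coeff β‖ := by
  obtain ⟨U, V, hcU, hcV⟩ := LBD_pol (d := d) hF hH Q A e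
  have hd : d ≠ 0 := by
    intro hd
    apply hD.irr.not_isUnit
    have h3 := hD.hom
    rw [hd] at h3
    have h4 : Q = C (Q.coeff 0) :=
      (MvPolynomial.totalDegree_eq_zero_iff_eq_C (p := Q)).1 (Nat.le_zero.1 h3.totalDegree_le)
    rw [h4]
    refine IsUnit.map C (isUnit_iff_ne_zero.2 ?_)
    intro h5
    rw [h5, C_0] at h4
    exact hD.irr.ne_zero h4
  have hsub : ∀ (y : Fin (r + 1) → ℂ) (t : ℂ), subC ℂ (gE e) (Phi ℂ d Q A (fun i => t * y i)) =
      C (t ^ d) * subC ℂ (gE e) (Phi ℂ d Q A y) := by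
    intro y t
    rw [LBD_smul, map_mul]
    congr 1
    exact eval₂_C _ _ _
  have hS2pos : ∀ y : Fin (r + 1) → ℂ, y ≠ 0 →
      0 < ∑ β ∈ V.support, ‖(subC ℂ (gE e) (Phi ℂ d Q A y)).coeff β‖ := by
    intro y hy
    have hnd : ¬ Q ∣ comb (RingHom.id ℂ) A y := fun h => hy (hD.nd y h)
    have hhom : (comb (RingHom.id ℂ) A y).IsHomogeneous d := by
      unfold comb
      refine IsHomogeneous.sum _ _ _ fun i _ => ?_
      rw [MvPolynomial.map_id]
      exact (hD.homA i).C_mul _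
    have h0 := hZ N d d Q (comb (RingHom.id ℂ) A y) e hD.irr hD.hom hhom hnd he
    rw [← hH.2.1] at h0
    obtain ⟨β, hβ⟩ := (MvPolynomial.ne_zero_iff).1 h0
    have hβV : β ∈ V.support := by
      rw [mem_support_iff]
      intro h
      apply hβ
      rw [hcV, h, map_zero]
    refine lt_of_lt_of_le (norm_pos_iff.2 hβ) ?_
    exact Finset.single_le_sum
      (f := fun β => ‖(subC ℂ (gE e) (Phi ℂ d Q A y)).coeff β‖) (fun _ _ => norm_nonneg _) hβV
  obtain ⟨K, hK, hKy⟩ := LBD_cpt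
    (fun y => ∑ α ∈ U.support, ‖(Phi ℂ d Q A y).coeff α‖)
    (fun y => ∑ β ∈ V.support, ‖(subC ℂ (gE e) (Phi ℂ d Q A y)).coeff β‖) d hd
    (by
      refine continuous_finsetSum _ fun α _ => ?_
      simp only [hcU]
      exact (MvPolynomial.continuous_eval _).norm)
    (by
      refine continuous_finsetSum _ fun α _ => ?_
      simp only [hcV]
      exact (MvPolynomial.continuous_eval _).norm)
    (by
      intro y t
      simp only [LBD_smul, coeff_C_mul, norm_mul, norm_pow, Finset.mul_sum])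
    (by
      intro y t
      simp only [hsub, coeff_C_mul, norm_mul, norm_pow, Finset.mul_sum])
    (fun y => Finset.sum_nonneg fun _ _ => norm_nonneg _)
    (fun y => Finset.sum_nonneg fun _ _ => norm_nonneg _) hS2pos
  refine ⟨K, V.support, hK, fun y α => ?_⟩
  by_cases hα : α ∈ U.support
  · refine le_trans ?_ (hKy y)
    exact Finset.single_le_sum (f := fun α => ‖(Phi ℂ d Q A y).coeff α‖)
      (fun _ _ => norm_nonneg _) hα
  · have : (Phi ℂ d Q A y).coeff α = 0 := by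
      rw [hcU, notMem_support_iff.1 hα, map_zero]
    rw [this, norm_zero]
    exact mul_nonneg hK.le (Finset.sum_nonneg fun _ _ => norm_nonneg _)

/-- coefficients of `spv F z` -/
theorem LBD_coeff {σ : Type} (F : MvPolynomial σ Mer) (z : ℂ) (α : σ →₀ ℕ) :
    (α ∈ F.support → (spv F z).coeff α = rep (F.coeff α) z) ∧
    (α ∉ F.support → (spv F z).coeff α = 0) := by
  classical
  unfold spv
  rw [coeff_sum]
  simp only [coeff_monomial]
  rw [Finset.sum_ite_eq' F.support α]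
  exact ⟨fun h => if_pos h, fun h => if_neg h⟩

theorem p_LBD : Stmt_NZE → Stmt_FNC → Stmt_FCH → Stmt_SPV → Pool.ThmM.Stmt_ALG →
    Pool.ThmM.Stmt_ORD → Pool.ThmM.Stmt_CMP → Stmt_LBD := by
  intro hZ hF hH hS hA hO hC N r d Q A x e hD hx he
  obtain ⟨K, V, hK, hKV⟩ := LBD_cx hZ hF hH Q A e hD he
  obtain ⟨Φ, hΦ⟩ : ∃ Φ, Φ = Phi Mer d Q A x := ⟨_, rfl⟩
  obtain ⟨Φe, hΦe⟩ : ∃ Φe, Φe = subC Mer (gE e) Φ := ⟨_, rfl⟩
  rw [← hΦ, ← hΦe]
  by_cases h0 : Φ = 0
  · refine ⟨0, fun t ht => ?_⟩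
    have h1 : Φe = 0 := by rw [hΦe, h0, map_zero]
    have h2 : ∀ (σ : Type) (F : MvPolynomial σ Mer), F = 0 → LL (cf F) t = 0 := by
      intro σ F hF0
      have h3 : ∀ z, Real.log ‖vec (cf F) z‖ = 0 := by
        intro z
        have : vec (cf F) z = 0 := by
          funext α
          exfalso
          have h4 := mem_support_iff.1 α.2
          apply h4
          subst hF0
          exact coeff_zero _
        rw [this, norm_zero, Real.log_zero]
      unfold LL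
      simp only [h3]
      exact Real.circleAverage_const 0 0 t
    rw [h2 _ _ h0, h2 _ _ h1]
    norm_num
  obtain ⟨α₀, hα₀⟩ := (MvPolynomial.ne_zero_iff).1 h0
  have hα₀s : α₀ ∈ Φ.support := mem_support_iff.2 hα₀
  -- off a discrete set
  have hev : ∀ᶠ z in codiscrete ℂ, Real.log ‖vec (cf Φ) z‖ ≤
      Real.log ‖vec (cf Φe) z‖ + Real.log (K * V.card) := by
    have e1 := hS.2.2.2.2.1 N r d Q A x
    have e2 := hS.2.2.2.1 _ _ (gE e) Φ
    have e3 := hA.2.2.2.2.2.2.2 _ hα₀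
    filter_upwards [e1, e2, e3] with z z1 z2 z3
    rw [← hΦ] at z1
    rw [← hΦe] at z2
    have hb : ‖vec (cf Φ) z‖ ≤ K * V.card * ‖vec (cf Φe) z‖ := by
      rw [pi_norm_le_iff_of_nonneg (by positivity)]
      intro α
      have h1 : vec (cf Φ) z α = (Phi ℂ d Q A (fun i => rep (x i) z)).coeff α.1 := by
        rw [← z1, (LBD_coeff Φ z α.1).1 α.2]
        rfl
      rw [h1]
      refine (hKV _ α.1).trans ?_
      rw [mul_assoc]
      refine mul_le_mul_of_nonneg_left ?_ hK.le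
      rw [← nsmul_eq_mul]
      refine Finset.sum_le_card_nsmul _ _ _ fun β _ => ?_
      rw [← z1, ← z2]
      by_cases hβ : β ∈ Φe.support
      · rw [(LBD_coeff Φe z β).1 hβ]
        exact norm_le_pi_norm (vec (cf Φe) z) ⟨β, hβ⟩
      · rw [(LBD_coeff Φe z β).2 hβ, norm_zero]; exact norm_nonneg _
    have hpos : 0 < ‖vec (cf Φ) z‖ := by
      have : ‖vec (cf Φ) z ⟨α₀, hα₀s⟩‖ ≤ ‖vec (cf Φ) z‖ := norm_le_pi_norm _ _
      exact lt_of_lt_of_le (norm_pos_iff.2 z3) this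
    have hpos2 : 0 < K * V.card * ‖vec (cf Φe) z‖ := lt_of_lt_of_le hpos hb
    have hne1 : (K * (V.card : ℝ)) ≠ 0 := left_ne_zero_of_mul hpos2.ne'
    have hne2 : ‖vec (cf Φe) z‖ ≠ 0 := right_ne_zero_of_mul hpos2.ne'
    calc Real.log ‖vec (cf Φ) z‖ ≤ Real.log (K * V.card * ‖vec (cf Φe) z‖) :=
          Real.log_le_log hpos hb
      _ = Real.log ‖vec (cf Φe) z‖ + Real.log (K * V.card) := by
          rw [Real.log_mul hne1 hne2, add_comm]
  refine ⟨Real.log (K * V.card), fun t ht => ?_⟩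
  have hI : ∀ (σ : Type) (F : MvPolynomial σ Mer),
      CircleIntegrable (fun z => Real.log ‖vec (cf F) z‖) 0 t := by
    intro σ F
    have hm := (hO _ (cf F)).1
    exact MeromorphicOn.circleIntegrable_log_norm (fun z _ => hm z)
  have hconst : CircleIntegrable (fun _ : ℂ => Real.log (K * V.card)) 0 t :=
    circleIntegrable_const _ _ _
  have h := hC _ _ t ht (hI _ Φ) ((hI _ Φe).add hconst) hev
  unfold LL
  refine h.trans (le_of_eq ?_)
  have h2 := Real.circleAverage_add (hI _ Φe) hconst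
  rw [Real.circleAverage_const] at h2
  exact h2

end Pool.ThmM.Chow
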