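import Pool.Agent.Work.MP_f82ddf_M.Chow

set_option autoImplicit false

/-! Block LNH (helper54): the polynomial `F (s a + b)`: reversal, shift, scaling. -/

open Topology Filter
open scoped Differential
open Pool.Agent.Work.MP_f82ddf_nt.DQ

namespace Pool.ThmM.Chow

open MvPolynomial
open Pool.Agent.Work.MP_f82ddf_M5 (lineAt resAt chow at2 comb Data)

/-- the linear polynomial `a s + b` -/
theorem LNH_lin {B : Type} [CommRing B] (a b : B) :
    (Polynomial.C a * Polynomial.X + Polynomial.C b).reflect 1 =
      Polynomial.C b * Polynomial.X + Polynomial.C a := by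
  rw [Polynomial.reflect_add, Polynomial.reflect_C_mul, Polynomial.reflect_one_X,
    Polynomial.reflect_C, pow_one, mul_one, add_comm]

theorem LNH_pow {B : Type} [CommRing B] (a b : B) (n : ℕ) :
    ((Polynomial.C a * Polynomial.X + Polynomial.C b) ^ n).natDegree ≤ n ∧
    ((Polynomial.C a * Polynomial.X + Polynomial.C b) ^ n).reflect n =
      (Polynomial.C b * Polynomial.X + Polynomial.C a) ^ n := by
  induction n with
  | zero => simp
  | succ n ih =>
    have h1 : (Polynomial.C a * Polynomial.X + Polynomial.C b).natDegree ≤ 1 :=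
      Polynomial.natDegree_linear_le
    constructor
    · rw [pow_succ]
      exact (Polynomial.natDegree_mul_le).trans (add_le_add ih.1 h1)
    · rw [pow_succ, Polynomial.reflect_mul _ _ ih.1 h1, ih.2, LNH_lin, pow_succ]

theorem LNH_prod {B ι : Type} [CommRing B] (a b : ι → B) (m : ι → ℕ) (s : Finset ι) :
    (∏ i ∈ s, (Polynomial.C (a i) * Polynomial.X + Polynomial.C (b i)) ^ m i).natDegree ≤
      ∑ i ∈ s, m i ∧
    (∏ i ∈ s, (Polynomial.C (a i) * Polynomial.X + Polynomial.C (b i)) ^ m i).reflect
      (∑ i ∈ s, m i) =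
        ∏ i ∈ s, (Polynomial.C (b i) * Polynomial.X + Polynomial.C (a i)) ^ m i := by
  classical
  induction s using Finset.induction_on with
  | empty => simp
  | insert j s hj ih =>
    rw [Finset.prod_insert hj, Finset.prod_insert hj, Finset.sum_insert hj]
    have h1 := LNH_pow (a j) (b j) (m j)
    constructor
    · exact (Polynomial.natDegree_mul_le).trans (add_le_add h1.1 ih.1)
    · rw [Polynomial.reflect_mul _ _ h1.1 ih.1, h1.2, ih.2]

theorem LNH_sum {B ι : Type} [CommRing B] (f : ι → Polynomial B) (d : ℕ) (s : Finset ι) :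
    (∑ i ∈ s, f i).reflect d = ∑ i ∈ s, (f i).reflect d := by
  classical
  induction s using Finset.induction_on with
  | empty => simp
  | insert j s hj ih => rw [Finset.sum_insert hj, Finset.sum_insert hj, Polynomial.reflect_add, ih]

/-- exchange of the points is reversal -/
theorem LNH_rev {N d : ℕ} {R B : Type} [CommRing R] [CommRing B] (φ : R →+* B)
    (F : MvPolynomial (Fin N) R) (a b : Fin N → B) (hF : F.IsHomogeneous d) :
    lineAt φ F b a = (lineAt φ F a b).reflect d := by
  unfold lineAt
  rw [eval₂_eq', eval₂_eq', LNH_sum]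
  refine Finset.sum_congr rfl fun m hm => ?_
  have hd : ∑ i, m i = d := by
    have h1 := hF (mem_support_iff.1 hm)
    rw [← h1, Finsupp.weight_apply, Finsupp.sum_fintype _ _ (fun i => by simp)]
    simp
  rw [RingHom.comp_apply, Polynomial.reflect_C_mul]
  congr 1
  rw [← hd]
  exact (LNH_prod a b (fun i => m i) Finset.univ).2.symm

/-- the shift -/
theorem LNH_shift {N : ℕ} {R B : Type} [CommRing R] [CommRing B] (φ : R →+* B)
    (F : MvPolynomial (Fin N) R) (a b : Fin N → B) (c : B) :
    lineAt φ F a (fun j => b j + c * a j) = Polynomial.taylor c (lineAt φ F a b) := by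
  unfold lineAt
  have h := MvPolynomial.hom_eval₂ F (Polynomial.C.comp φ)
    ((Polynomial.taylorAlgHom c : Polynomial B →ₐ[B] Polynomial B) : Polynomial B →+* Polynomial B)
    (fun i => Polynomial.C (a i) * Polynomial.X + Polynomial.C (b i))
  have h2 : Polynomial.taylor c (eval₂ (Polynomial.C.comp φ)
      (fun i => Polynomial.C (a i) * Polynomial.X + Polynomial.C (b i)) F) =
      ((Polynomial.taylorAlgHom c : Polynomial B →ₐ[B] Polynomial B) : Polynomial B →+* Polynomial B)
        (eval₂ (Polynomial.C.comp φ)
          (fun i => Polynomial.C (a i) * Polynomial.X + Polynomial.C (b i)) F) := rfl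
  rw [h2, h]
  have h3 : ((Polynomial.taylorAlgHom c : Polynomial B →ₐ[B] Polynomial B) :
      Polynomial B →+* Polynomial B).comp (Polynomial.C.comp φ) = Polynomial.C.comp φ := by
    ext r
    simp [Polynomial.taylor_C]
  rw [h3]
  congr 1
  funext i
  show Polynomial.C (a i) * Polynomial.X + Polynomial.C (b i + c * a i) =
    Polynomial.taylor c (Polynomial.C (a i) * Polynomial.X + Polynomial.C (b i))
  rw [map_add (Polynomial.taylor c), Polynomial.taylor_mul, Polynomial.taylor_C,
    Polynomial.taylor_C, Polynomial.taylor_X, map_add, map_mul]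
  ring

/-- scaling of the first point -/
theorem LNH_comp {N : ℕ} {R B : Type} [CommRing R] [CommRing B] (φ : R →+* B)
    (F : MvPolynomial (Fin N) R) (a b : Fin N → B) (c : B) :
    lineAt φ F (fun j => c * b j) a =
      (lineAt φ F b a).comp (Polynomial.C c * Polynomial.X) := by
  unfold lineAt
  have h := MvPolynomial.hom_eval₂ F (Polynomial.C.comp φ)
    (Polynomial.compRingHom (Polynomial.C c * Polynomial.X))
    (fun i => Polynomial.C (b i) * Polynomial.X + Polynomial.C (a i))
  rw [Polynomial.coe_compRingHom_apply] at h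
  rw [h]
  have h3 : (Polynomial.compRingHom (Polynomial.C c * Polynomial.X)).comp (Polynomial.C.comp φ) =
      Polynomial.C.comp φ := by
    ext r
    simp
  rw [h3]
  congr 1
  funext i
  simp only [Polynomial.coe_compRingHom_apply]
  rw [Polynomial.add_comp, Polynomial.mul_comp, Polynomial.C_comp, Polynomial.C_comp,
    Polynomial.X_comp, map_mul]
  ring

theorem p_LNH (_h : Pool.Agent.Work.MP_f82ddf_M5.Stmt_DEG) : Stmt_LNH := by
  refine ⟨?_, ?_, ?_⟩
  · intro N d R B _ _ φ F a b hF
    exact LNH_rev φ F a b hF
  · intro N R B _ _ φ F a b c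
    exact LNH_shift φ F a b c
  · intro N d R B _ _ φ F a b c hF i hi
    rw [LNH_rev φ F (fun j => c * b j) a hF, Polynomial.coeff_reflect, Polynomial.revAt_le hi,
      LNH_comp, Polynomial.comp_C_mul_X_coeff, LNH_rev φ F a b hF, Polynomial.coeff_reflect,
      Polynomial.revAt_le (Nat.sub_le d i), Nat.sub_sub_self hi, mul_comm]

end Pool.ThmM.Chow
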