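import Pool.Agent.Work.MP_f82ddf_M.Core

/-!
# Block LSB (helper26)
-/

set_option autoImplicit false

open Topology Filter
open scoped Differential
open Pool.Agent.Work.MP_f82ddf_nt.DQ

namespace Pool.ThmM.Chow

open MvPolynomial

/-- orders of complex linear combinations -/
theorem LSB_sum (hVAL : Pool.ThmM.Stmt_VAL) {ι : Type} (s : Finset ι) (m : ι → ℂ) (c : ι → Mer)
    (z : ℂ) (v : WithTop ℤ) (h : ∀ i ∈ s, v ≤ om (c i) z) :
    v ≤ om (∑ i ∈ s, algebraMap ℂ Mer (m i) * c i) z := by
  classical
  obtain ⟨hmul, hadd, htop, hconst, _, _⟩ := hVAL z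
  induction s using Finset.induction_on with
  | empty =>
    rw [Finset.sum_empty, (htop 0).mpr rfl]
    exact le_top
  | insert a s ha ih =>
    rw [Finset.sum_insert ha]
    refine le_trans ?_ (hadd _ _)
    refine le_min ?_ (ih fun i hi => h i (Finset.mem_insert_of_mem hi))
    by_cases hm : m a = 0
    · rw [hm, map_zero, zero_mul, (htop 0).mpr rfl]
      exact le_top
    · rw [hmul, hconst _ hm, zero_add]
      exact h a (Finset.mem_insert_self a s)

/-- substitution in a monomial -/
theorem LSB_mono {σ τ : Type} (g : σ → MvPolynomial τ ℂ) (α : σ →₀ ℕ) (c : Mer) :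
    subC Mer g (monomial α c) =
      C c * MvPolynomial.map (algebraMap ℂ Mer) (aeval g (monomial α (1 : ℂ))) := by
  have h : (subC Mer g).comp (MvPolynomial.map (algebraMap ℂ Mer)) =
      (MvPolynomial.map (algebraMap ℂ Mer)).comp
        (aeval g : MvPolynomial σ ℂ →ₐ[ℂ] MvPolynomial τ ℂ).toRingHom := by
    apply MvPolynomial.ringHom_ext
    · intro r
      rw [RingHom.comp_apply, RingHom.comp_apply, map_C]
      show subC Mer g (C _) = MvPolynomial.map (algebraMap ℂ Mer) (aeval g (C r))
      rw [aeval_C, algebraMap_eq, map_C]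
      unfold subC
      rw [coe_eval₂Hom, eval₂_C]
    · intro i
      rw [RingHom.comp_apply, RingHom.comp_apply, map_X]
      show subC Mer g (X i) = MvPolynomial.map (algebraMap ℂ Mer) (aeval g (X i))
      rw [aeval_X]
      unfold subC
      rw [coe_eval₂Hom, eval₂_X]
  have h1 : monomial α c = C c * MvPolynomial.map (algebraMap ℂ Mer) (monomial α (1 : ℂ)) := by
    rw [map_monomial, map_one, C_mul_monomial, mul_one]
  have h2 : subC Mer g (C c) = C c := by
    unfold subC
    rw [coe_eval₂Hom, eval₂_C]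
  rw [h1, map_mul, h2]
  congr 1
  exact RingHom.congr_fun h (monomial α 1)

theorem LSB_coeff {σ τ : Type} (g : σ → MvPolynomial τ ℂ) (F : MvPolynomial σ Mer)
    (β : τ →₀ ℕ) : coeff β (subC Mer g F) =
      ∑ α ∈ F.support, algebraMap ℂ Mer (coeff β (aeval g (monomial α (1 : ℂ)))) * coeff α F := by
  conv_lhs => rw [← support_sum_monomial_coeff F]
  rw [map_sum, coeff_sum]
  refine Finset.sum_congr rfl fun α _ => ?_
  rw [LSB_mono, coeff_C_mul, coeff_map, mul_comm]

theorem p_LSB : Pool.ThmM.Stmt_VAL → Pool.ThmM.Stmt_LIN → Pool.ThmM.Stmt_NNP →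
    Pool.ThmM.Stmt_VPD → Stmt_LSB := by
  intro hVAL hLIN hNNP _ σ F
  refine ⟨?_, ?_⟩
  · intro p z
    have h : evC p F = ∑ α ∈ F.support,
        algebraMap ℂ Mer (∏ i ∈ α.support, p i ^ α i) * coeff α F := by
      unfold evC
      rw [eval_eq]
      refine Finset.sum_congr rfl fun α _ => ?_
      rw [mul_comm, map_prod]
      simp only [map_pow]
    rw [h]
    exact LSB_sum hVAL _ _ _ z _ fun α hα => Finset.inf_le (f := fun α => om (coeff α F) z) hα
  · intro τ g
    refine ⟨?_, ?_⟩
    · intro z
      refine Finset.le_inf fun β _ => ?_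
      rw [LSB_coeff]
      exact LSB_sum hVAL _ _ _ z _ fun α hα => Finset.inf_le (f := fun α => om (coeff α F) z) hα
    · intro hne
      have hd : cf (subC Mer g F) ≠ 0 := by
        intro h0
        apply hne
        ext β
        rw [coeff_zero]
        by_contra hβ
        exact hβ (congrFun h0 ⟨β, mem_support_iff.mpr hβ⟩)
      have hlin : ∀ k : (subC Mer g F).support, cf (subC Mer g F) k =
          ∑ i : F.support, algebraMap ℂ Mer
            (coeff (k : τ →₀ ℕ) (aeval g (monomial (i : σ →₀ ℕ) (1 : ℂ)))) * cf F i := by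
        intro k
        show coeff (k : τ →₀ ℕ) (subC Mer g F) = _
        rw [LSB_coeff]
        exact (Finset.sum_coe_sort F.support (fun α => algebraMap ℂ Mer
            (coeff (k : τ →₀ ℕ) (aeval g (monomial α (1 : ℂ)))) * coeff α F)).symm
      obtain ⟨hdv, K, hK⟩ := hLIN F.support (subC Mer g F).support
        (fun k i => coeff (k : τ →₀ ℕ) (aeval g (monomial (i : σ →₀ ℕ) (1 : ℂ))))
        (cf F) (cf (subC Mer g F)) hlin hd
      refine ⟨K, fun r hr => ?_⟩
      have h1 := hK r (by linarith)
      have h2 := hNNP.2.2.2.1 _ _ r hdv hr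
      refine ⟨h1, ?_⟩
      unfold TP TT
      linarith

end Pool.ThmM.Chow
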