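import Pool.Agent.Work.MP_f82ddf_M.Chow

set_option autoImplicit false

namespace Pool.ThmM.Chow

theorem p_MIN : Stmt_MIN := by
  classical
  intro S ι κ _ _ _ _ _ L hL
  let K := FractionRing S
  have hinj : Function.Injective (algebraMap S K) := IsFractionRing.injective S K
  let L' : Matrix κ ι K := L.map (algebraMap S K)
  have hker : LinearMap.ker (Matrix.mulVecLin L') = ⊥ := by
    rw [LinearMap.ker_eq_bot']
    intro w hw
    obtain ⟨b, hb⟩ := IsLocalization.exist_integer_multiples_of_finite (nonZeroDivisors S) w
    choose v hv using hb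
    have hb0 : (algebraMap S K) (b : S) ≠ 0 := by
      intro h0
      rw [← map_zero (algebraMap S K)] at h0
      exact nonZeroDivisors.coe_ne_zero b (hinj h0)
    have h1 : L.mulVec v = 0 := by
      funext k
      apply hinj
      rw [Pi.zero_apply, map_zero]
      have h2 : (Matrix.mulVecLin L') w k = 0 := by rw [hw]; rfl
      rw [Matrix.mulVecLin_apply] at h2
      have h3 : (algebraMap S K) ((L.mulVec v) k) = (algebraMap S K) (b : S) * (L'.mulVec w) k := by
        simp only [Matrix.mulVec, dotProduct, map_sum, map_mul, Finset.mul_sum]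
        refine Finset.sum_congr rfl fun i _ => ?_
        have h4 : (algebraMap S K) (v i) = (algebraMap S K) (b : S) * w i := by
          rw [hv i, Algebra.smul_def]
        rw [h4]
        show (algebraMap S K) (L k i) * _ = _ * ((algebraMap S K) (L k i) * w i)
        ring
      rw [h3, h2, mul_zero]
    have h5 := hL v h1
    funext i
    have h6 : (algebraMap S K) (v i) = (algebraMap S K) (b : S) * w i := by
      rw [hv i, Algebra.smul_def]
    rw [h5, Pi.zero_apply, map_zero] at h6
    rcases mul_eq_zero.1 h6.symm with h7 | h7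
    · exact absurd h7 hb0
    · exact h7
  obtain ⟨g, hg⟩ := LinearMap.exists_leftInverse_of_injective (Matrix.mulVecLin L') hker
  have hD' : LinearMap.toMatrix' g * L' = 1 := by
    have h8 := LinearMap.toMatrix'_comp g (Matrix.mulVecLin L')
    rw [hg, LinearMap.toMatrix'_id] at h8
    rw [h8]
    congr 1
    exact (LinearMap.toMatrix'_toLin' L').symm
  obtain ⟨b, hb⟩ := IsLocalization.exist_integer_multiples_of_finite (nonZeroDivisors S)
    (fun p : ι × κ => LinearMap.toMatrix' g p.1 p.2)
  choose D hD using hb
  refine ⟨Matrix.of fun i k => D (i, k), (b : S), nonZeroDivisors.coe_ne_zero b, ?_⟩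
  ext i j
  apply hinj
  have h9 : (LinearMap.toMatrix' g * L') i j = (1 : Matrix ι ι K) i j := by rw [hD']
  rw [Matrix.mul_apply] at h9
  rw [Matrix.mul_apply, map_sum]
  have h10 : ∀ k, (algebraMap S K) (Matrix.of (fun i k => D (i, k)) i k * L k j) =
      (algebraMap S K) (b : S) * (LinearMap.toMatrix' g i k * L' k j) := by
    intro k
    rw [map_mul]
    have h11 : (algebraMap S K) (D (i, k)) = (algebraMap S K) (b : S) * LinearMap.toMatrix' g i k := by
      rw [hD (i, k), Algebra.smul_def]
    show (algebraMap S K) (D (i, k)) * _ = _ * (_ * (algebraMap S K) (L k j))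
    rw [h11]
    ring
  rw [Finset.sum_congr rfl fun k _ => h10 k, ← Finset.mul_sum, h9]
  rw [Matrix.smul_apply, smul_eq_mul, map_mul]
  congr 1
  rw [Matrix.one_apply, Matrix.one_apply]
  split_ifs <;> simp

end Pool.ThmM.Chow
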