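import Pool.Agent.Work.MP_f82ddf_M.Core

set_option autoImplicit false

/-! # Block NDC (helper59): the truncated counting function at one node -/

open Topology Filter
open scoped Differential
open Pool.Agent.Work.MP_f82ddf_nt.DQ

namespace Pool.ThmM.Chow

open MvPolynomial
open Pool.Agent.Work.MP_f82ddf_M5 (lineAt resAt chow at2 comb Data)

/-- the indicator divisor of the simple points -/
noncomputable def NDC_one (D : Function.locallyFinsupp ℂ ℤ) : Function.locallyFinsupp ℂ ℤ where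
  toFun z := if D z = 1 then 1 else 0
  supportWithinDomain' := by intro z _; exact Set.mem_univ z
  supportLocallyFiniteWithinDomain' := by
    intro z hz
    obtain ⟨t, ht, hf⟩ := D.supportLocallyFiniteWithinDomain' z hz
    refine ⟨t, ht, hf.subset ?_⟩
    intro y hy
    refine ⟨hy.1, fun h0 => hy.2 ?_⟩
    change D y = 0 at h0
    change (if D y = 1 then (1 : ℤ) else 0) = 0
    rw [h0]; rfl

theorem NDC_one_apply (D : Function.locallyFinsupp ℂ ℤ) (z : ℂ) :
    NDC_one D z = if D z = 1 then 1 else 0 := rfl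

theorem NDC_evC {σ : Type} [Fintype σ] (F : MvPolynomial σ Mer) (p : σ → ℂ) :
    evC p F = ∑ i : F.support, algebraMap ℂ Mer (∏ j, p j ^ (i : σ →₀ ℕ) j) * cf F i := by
  unfold evC
  rw [MvPolynomial.eval_eq', ← Finset.sum_coe_sort]
  refine Finset.sum_congr rfl fun s _ => ?_
  rw [mul_comm, map_prod]
  simp only [map_pow]
  rfl

theorem NDC_vP_zero {σ : Type} (z : ℂ) : vP (0 : MvPolynomial σ Mer) z = ⊤ := by
  unfold vP
  rw [MvPolynomial.support_zero, Finset.inf_empty]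

theorem p_NDC (hPLC : Stmt_PLC) (hFTL : Stmt_FTL) (hPRJ : Stmt_PRJ) (hVAL : Stmt_VAL)
    (hVPD : Stmt_VPD) (hNNP : Stmt_NNP) (hLOW : Stmt_LOW) : Stmt_NDC := by
  intro w r d ρ Q A x u e R Rc hd hData huQ hsm heQ hel hxu hPhi hPlu hnod hf0 hvE hTE
  obtain ⟨F, hF⟩ : ∃ F, F = subC Mer (gF e) R := ⟨_, rfl⟩
  rw [← hF]
  obtain ⟨-, hQE, hZ, hev⟩ := hPRJ w ρ Mer R e hPlu hel
  obtain ⟨f, hf⟩ : ∃ f, f = evC (ppt u e) R := ⟨_, rfl⟩
  have hfF : evC (prj e u) F = f := by
    rw [hF, hf]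
    exact hev u
  rw [← hf] at hf0
  rw [hfF]
  have hF0 : F ≠ 0 := by
    intro h
    apply hf0
    rw [← hfF, h]
    unfold evC
    exact map_zero _
  have hR0 : R ≠ 0 := by
    intro h
    apply hf0
    rw [hf, h]
    unfold evC
    exact map_zero _
  obtain ⟨hvF, hTF⟩ := hFTL w ρ R e hPlu hel
  rw [← hF] at hvF hTF
  have hE0 : subC Mer (gE e) R ≠ 0 := by
    intro h
    have h1 := hvE 0
    rw [h, NDC_vP_zero, hVPD _ R hR0 0] at h1
    exact WithTop.coe_ne_top h1.symm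
  obtain ⟨C1, hC1⟩ := hTF hE0
  obtain ⟨C2, hC2⟩ := hTE
  have hvFR : ∀ z, vP R z = (dvP F z : ℤ) := by
    intro z
    rw [← hvE z, ← hvF z, hVPD _ F hF0 z]
  obtain ⟨hdv, C3, K3, h31, h32, -⟩ := hLOW F.support (cf F)
    (fun i => ∏ j, prj e u j ^ (i : Fin (w + 1) →₀ ℕ) j) f
    (by rw [← hfF]; exact NDC_evC F (prj e u)) hf0
  have hdv' : dvP F ≤ dv1 f := hdv
  obtain ⟨D, hD⟩ : ∃ D, D = dv1 f - dvP F := ⟨_, rfl⟩
  rw [← hD]
  have hDz : ∀ z, D z = dv1 f z - dvP F z := by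
    intro z
    rw [hD]
    rfl
  have hD0 : ∀ z, 0 ≤ D z := by
    intro z
    have h1 : dvP F z ≤ dv1 f z := hdv' z
    rw [hDz]
    omega
  obtain ⟨C4, hC4⟩ := hPLC (w + 2) r d ρ Q A x u e R Rc hd hData huQ hsm heQ hxu hPhi hPlu hnod
    (by rw [← hf]; exact hf0)
  have hone := hC4 (NDC_one D) (by
    intro z
    rw [NDC_one_apply, ← hf]
    by_cases h1 : D z = 1
    · right
      refine ⟨if_pos h1, ?_⟩
      obtain ⟨-, -, -, -, h2, -⟩ := hVAL z
      rw [h2 f hf0, hvFR z]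
      have h3 : dv1 f z = dvP F z + 1 := by
        have h4 := hDz z
        omega
      rw [h3]
      rfl
    · left
      exact if_neg h1)
  obtain ⟨n1, n2, n3, n4, n5, -⟩ := hNNP
  have htru : ∀ t : ℝ, 1 ≤ t → 2 * NN (tru D) t ≤ NN D t + NN (NDC_one D) t := by
    intro t ht
    have h1 := n4 (2 • tru D) (D + NDC_one D) t (by
      intro z
      have key : 2 * min (D z) 1 ≤ D z + (if D z = 1 then 1 else 0) := by
        have h4 := hD0 z
        split_ifs with h5 <;> omega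
      have h2 : (2 • tru D) z = 2 * min (D z) 1 := by
        change (2 • (tru D : ℂ → ℤ)) z = _
        rw [Pi.smul_apply, nsmul_eq_mul]
        rfl
      have h3 : (D + NDC_one D) z = D z + (if D z = 1 then 1 else 0) := rfl
      exact (h2.trans_le key).trans_eq h3.symm) ht
    rw [n3, n1] at h1
    push_cast at h1
    exact h1
  have hND : ∀ t : ℝ, 1 ≤ t → NN D t ≤ TP F t + (K3 - C3) := by
    intro t ht
    have h1 := h31 t (by linarith)
    have h2 := h32 t (by linarith)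
    have h3 : TP F t = NN D t + (LL (cf F) t - LL1 f t) + C3 := by
      rw [hD]
      exact h1
    linarith
  have hd1 : (1 : ℝ) ≤ ((d ^ 2 : ℕ) : ℝ) := by
    have : 1 ≤ d ^ 2 := Nat.one_le_pow _ _ hd
    exact_mod_cast this
  have hcast : ((d ^ 2 - 1 : ℕ) : ℝ) = ((d ^ 2 : ℕ) : ℝ) - 1 := by
    have : 1 ≤ d ^ 2 := Nat.one_le_pow _ _ hd
    rw [Nat.cast_sub this, Nat.cast_one]
  obtain ⟨q, hq⟩ : ∃ q : ℝ, q = ((d ^ 2 : ℕ) : ℝ) := ⟨_, rfl⟩
  rw [← hq] at hd1 hcast ⊢
  have hq0 : 0 < q := by linarith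
  refine ⟨((K3 - C3) + ((q - 1) * (C1 + C2) + C4) / q) / 2, fun t ht => ?_⟩
  have h1 := htru t ht
  have h2 := hND t ht
  have h3 := hone t ht
  rw [hcast, ← hq] at h3
  have h4 : TP R t ≤ TP F t + (C1 + C2) := by
    have := hC1 t ht
    have := hC2 t ht
    linarith
  have h5 : q * NN (NDC_one D) t ≤ (q - 1) * (TP F t + (C1 + C2)) + C4 := by
    have h6 : (q - 1) * TP R t ≤ (q - 1) * (TP F t + (C1 + C2)) :=
      mul_le_mul_of_nonneg_left h4 (by linarith)
    linarith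
  have h6 : NN (NDC_one D) t ≤ (1 - 1 / q) * TP F t + ((q - 1) * (C1 + C2) + C4) / q := by
    have h7 : NN (NDC_one D) t ≤ ((q - 1) * (TP F t + (C1 + C2)) + C4) / q := by
      rw [le_div_iff₀ hq0]
      linarith
    refine h7.trans (le_of_eq ?_)
    field_simp
    ring
  have h8 : (1 - 1 / (2 * q)) * TP F t = (TP F t + (1 - 1 / q) * TP F t) / 2 := by
    field_simp
    ring
  rw [h8]
  linarith

end Pool.ThmM.Chow
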