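import Pool.Agent.Work.MP_f82ddf_M.Chow

set_option autoImplicit false

namespace Pool.ThmM.Chow

open MvPolynomial

theorem p_NVC : Stmt_NVC := by
  intro σ K _ _ _ H hH
  by_contra hcon
  push Not at hcon
  apply hH
  have hinf : ∀ _ : σ, (Set.range (algebraMap ℂ K)).Infinite := fun _ =>
    Set.infinite_range_of_injective (algebraMap ℂ K).injective
  refine MvPolynomial.funext_set (fun _ => Set.range (algebraMap ℂ K)) hinf ?_
  intro x hx
  choose p hp using fun i => hx i (Set.mem_univ i)
  have h1 := hcon p
  have h2 : (fun i => algebraMap ℂ K (p i)) = x := funext hp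
  rw [h2] at h1
  rw [h1, map_zero]

end Pool.ThmM.Chow
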