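import Pool.Agent.Work.MP_f82ddf_M.Chow

set_option autoImplicit false

namespace Pool.ThmM.Chow

open MvPolynomial

theorem NVH_smul {N d : ℕ} {Q : MvPolynomial (Fin N) ℂ} (hQ : Q.IsHomogeneous d) (s : ℂ)
    (x : Fin N → ℂ) : eval (fun j => s * x j) Q = s ^ d * eval x Q := by
  rw [eval_eq', eval_eq', Finset.mul_sum]
  refine Finset.sum_congr rfl fun e he => ?_
  have h1 : ∑ i, e i = d := by
    have h2 := hQ.degree_eq_sum_deg_support he
    rw [h2]
    exact (Finset.sum_subset (Finset.subset_univ _)
      (fun i _ hi => Finsupp.notMem_support_iff.1 hi)).symm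
  simp only [mul_pow]
  rw [Finset.prod_mul_distrib, Finset.prod_pow_eq_pow_sum, h1]
  ring

theorem p_NVH : Stmt_NVH := by
  intro w d m Q S e hd hQ heQ he hS G hG hGS
  have hhom : (aeval (gQ e) G).IsHomogeneous m := by
    have h1 := hG.aeval (R := ℂ) (gQ e) (n := 1) (fun j => by
      unfold gQ
      exact (isHomogeneous_X _ _).sub (by
        have := (isHomogeneous_C (R := ℂ) (σ := Fin (w + 2)) (e j.castSucc / e (Fin.last (w + 1)))).mul
          (isHomogeneous_X ℂ (Fin.last (w + 1)))
        rwa [zero_add] at this))
    rwa [one_mul] at h1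
  have hval : ∀ p : Fin (w + 2) → ℂ, eval p (aeval (gQ e) G) = eval (prj e p) G := by
    intro p
    have h1 : eval p (aeval (gQ e) G) = ((eval p).comp (aeval (gQ e)).toRingHom) G := rfl
    rw [h1]
    congr 1
    apply MvPolynomial.ringHom_ext
    · intro r
      simp
    · intro j
      simp [gQ, prj]
  obtain ⟨H, hH⟩ := hS (aeval (gQ e) G) hhom (fun p hp => by rw [hval]; exact hGS p hp)
  have hzero : ∀ p : Fin (w + 2) → ℂ, eval p (aeval (gQ e) G) = 0 := by
    intro p
    by_contra hne
    -- the restriction to the line through `p` with direction `e`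
    set L : MvPolynomial (Fin (w + 2)) ℂ →+* Polynomial ℂ :=
      eval₂Hom Polynomial.C (fun j => Polynomial.C (p j) + Polynomial.C (e j) * Polynomial.X) with hL
    have hLf : L (aeval (gQ e) G) = Polynomial.C (eval p (aeval (gQ e) G)) := by
      rw [hval]
      have h1 : L (aeval (gQ e) G) = (L.comp (aeval (gQ e)).toRingHom) G := rfl
      have h2 : Polynomial.C (eval (prj e p) G) = (Polynomial.C.comp (eval (prj e p))) G := rfl
      rw [h1, h2]
      congr 1
      apply MvPolynomial.ringHom_ext
      · intro r
        simp [hL]
      · intro j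
        have h3 : (L.comp (aeval (R := ℂ) (gQ e)).toRingHom) (X j) = L (gQ e j) := by
          show L (aeval (R := ℂ) (gQ e) (X j)) = L (gQ e j)
          rw [aeval_X]
        rw [h3]
        unfold gQ
        rw [map_sub, map_mul]
        have h4 : ∀ i, L (X i) = Polynomial.C (p i) + Polynomial.C (e i) * Polynomial.X := by
          intro i
          simp [hL]
        have h5 : ∀ r : ℂ, L (C r) = Polynomial.C r := by
          intro r
          simp [hL]
        rw [h4, h4, h5]
        have h6 : (Polynomial.C.comp (eval (prj e p))) (X j) = Polynomial.C (prj e p j) := by simp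
        rw [h6]
        unfold prj
        rw [Polynomial.C_sub, Polynomial.C_mul]
        have h7 : (Polynomial.C (e j.castSucc) : Polynomial ℂ) =
            Polynomial.C (e j.castSucc / e (Fin.last (w + 1))) *
              Polynomial.C (e (Fin.last (w + 1))) := by
          rw [← Polynomial.C_mul]
          congr 1
          field_simp
        rw [h7]
        ring
    rw [hH, map_mul, ← hH] at hLf
    have hunit : IsUnit (L Q) := by
      apply isUnit_of_mul_isUnit_left (y := L H)
      rw [hLf]
      exact Polynomial.isUnit_C.2 (isUnit_iff_ne_zero.2 hne)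
    obtain ⟨c, hc, hcL⟩ := Polynomial.isUnit_iff.1 hunit
    have hLe : ∀ t : ℂ, eval (fun j => p j + e j * t) Q = c := by
      intro t
      have h1 : Polynomial.eval t (L Q) = ((Polynomial.evalRingHom t).comp L) Q := rfl
      have h2 : (Polynomial.evalRingHom t).comp L = eval (fun j => p j + e j * t) := by
        apply MvPolynomial.ringHom_ext
        · intro r
          simp [hL]
        · intro j
          simp [hL]
      rw [← h2, ← h1, ← hcL]
      simp
    -- the restriction in the other chart
    set L' : MvPolynomial (Fin (w + 2)) ℂ →+* Polynomial ℂ :=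
      eval₂Hom Polynomial.C (fun j => Polynomial.C (p j) * Polynomial.X + Polynomial.C (e j)) with hL'
    have hLe' : ∀ s : ℂ, Polynomial.eval s (L' Q) = eval (fun j => p j * s + e j) Q := by
      intro s
      have h1 : Polynomial.eval s (L' Q) = ((Polynomial.evalRingHom s).comp L') Q := rfl
      have h2 : (Polynomial.evalRingHom s).comp L' = eval (fun j => p j * s + e j) := by
        apply MvPolynomial.ringHom_ext
        · intro r
          simp [hL']
        · intro j
          simp [hL']
      rw [h1, h2]
    have heq : L' Q = Polynomial.C c * Polynomial.X ^ d := by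
      apply Polynomial.eq_of_infinite_eval_eq
      have h1 : ({0}ᶜ : Set ℂ).Infinite := (Set.finite_singleton (0 : ℂ)).infinite_compl
      refine h1.mono ?_
      intro s hs
      have hs0 : s ≠ 0 := hs
      show Polynomial.eval s (L' Q) = Polynomial.eval s (Polynomial.C c * Polynomial.X ^ d)
      rw [hLe', Polynomial.eval_mul, Polynomial.eval_C, Polynomial.eval_pow, Polynomial.eval_X]
      have h2 : (fun j => p j * s + e j) = fun j => s * (p j + e j * s⁻¹) := by
        funext j
        field_simp
      rw [h2, NVH_smul hQ, hLe]
      ring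
    have h3 := hLe' 0
    rw [heq, Polynomial.eval_mul, Polynomial.eval_pow, Polynomial.eval_X,
      zero_pow (by omega), mul_zero] at h3
    apply heQ
    rw [h3]
    congr 1
    have : (fun j => p j * 0 + e j) = e := by
      funext j
      ring
    rw [this]
  have hf0 : aeval (gQ e) G = 0 := by
    apply MvPolynomial.funext
    intro p
    rw [hzero p, map_zero]
  -- set the last variable to zero
  have h1 : aeval (gZ w) (aeval (gQ e) G) = G := by
    have h2 : aeval (gZ w) (aeval (gQ e) G) = ((aeval (gZ w)).comp (aeval (gQ e))) G := rfl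
    have h3 : (aeval (gZ w)).comp (aeval (gQ e)) = AlgHom.id ℂ (MvPolynomial (Fin (w + 1)) ℂ) := by
      apply MvPolynomial.algHom_ext
      intro j
      simp [gQ, gZ]
    rw [h2, h3]
    rfl
  rw [← h1, hf0, map_zero]

end Pool.ThmM.Chow
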