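import Pool.Agent.Work.MP_f82ddf_M.Chow

set_option autoImplicit false

/-! # Block NWT: Newton approximation of a root -/

namespace Pool.ThmM.Chow

theorem NWT_coeff_eval {S : Type} [CommRing S] (p : Polynomial (Polynomial S))
    (η : Polynomial S) (hη : η.coeff 0 = 0) : (p.eval η).coeff 0 = (p.coeff 0).coeff 0 := by
  conv_lhs => rw [← Polynomial.divX_mul_X_add p]
  rw [Polynomial.eval_add, Polynomial.eval_mul, Polynomial.eval_X, Polynomial.eval_C,
    Polynomial.coeff_add, Polynomial.mul_coeff_zero, hη, mul_zero, zero_add]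

theorem p_NWT : Stmt_NWT := by
  intro S _ qt b h0 h1
  induction b with
  | zero => exact ⟨0, by simp, by simp⟩
  | succ b ih =>
    rcases Nat.eq_zero_or_pos b with rfl | hb
    · refine ⟨0, by simp, ?_⟩
      rw [zero_add, pow_one, Polynomial.X_dvd_iff, NWT_coeff_eval _ _ (by simp)]
      exact h0
    · obtain ⟨η, hη, r, hr⟩ := ih
      have hd : ((Polynomial.derivative qt).eval η).coeff 0 = (qt.coeff 1).coeff 0 := by
        rw [NWT_coeff_eval _ _ hη, Polynomial.coeff_derivative]
        simp
      obtain ⟨v, hv⟩ := h1.exists_right_inv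
      obtain ⟨k, hk⟩ := Polynomial.binomExpansion qt η
        (Polynomial.C (-(r.coeff 0) * v) * Polynomial.X ^ b)
      refine ⟨η + Polynomial.C (-(r.coeff 0) * v) * Polynomial.X ^ b, ?_, ?_⟩
      · rw [Polynomial.coeff_add, hη, Polynomial.mul_coeff_zero, Polynomial.coeff_X_pow]
        simp [hb.ne]
      · rw [hk, hr]
        have e : Polynomial.X ^ b * r + (Polynomial.derivative qt).eval η *
            (Polynomial.C (-(r.coeff 0) * v) * Polynomial.X ^ b) +
            k * (Polynomial.C (-(r.coeff 0) * v) * Polynomial.X ^ b) ^ 2 =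
            Polynomial.X ^ b * (r + (Polynomial.derivative qt).eval η *
              Polynomial.C (-(r.coeff 0) * v) +
              k * Polynomial.C (-(r.coeff 0) * v) ^ 2 * Polynomial.X ^ b) := by ring
        rw [e, pow_succ]
        apply mul_dvd_mul_left
        rw [Polynomial.X_dvd_iff, Polynomial.coeff_add, Polynomial.coeff_add,
          Polynomial.mul_coeff_zero, Polynomial.mul_coeff_zero, Polynomial.coeff_C_zero,
          Polynomial.coeff_X_pow, if_neg hb.ne, mul_zero, add_zero, hd]
        linear_combination (- r.coeff 0) * hv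

end Pool.ThmM.Chow
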