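import Pool.Agent.Work.MP_f82ddf_M.Chow

set_option autoImplicit false

/-! # THEOREM M, part P3a, block NZE (helper74) -/

namespace Pool.ThmM.Chow

open MvPolynomial
open Pool.Agent.Work.MP_f82ddf_M5 (lineAt resAt chow at2 comb Data)

theorem NZE_subC {N : ℕ} (e : Fin N → ℂ) (F : MvPolynomial (Fin 2 × Fin N) ℂ) :
    subC ℂ (gE e) F = at2 C X (fun j => C (e j)) F := by
  unfold subC at2
  congr 2
  funext p
  unfold gE ppt
  split_ifs <;> simp

theorem NZE_pos {N d : ℕ} {Q : MvPolynomial (Fin N) ℂ} (hQ : Irreducible Q)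
    (hd : Q.IsHomogeneous d) : 0 < d := by
  rcases Nat.eq_zero_or_pos d with rfl | h
  · exfalso
    have h1 : Q.totalDegree = 0 := Nat.le_zero.1 hd.totalDegree_le
    rw [totalDegree_eq_zero_iff_eq_C] at h1
    have h2 : Q.coeff 0 ≠ 0 := by
      intro h3
      rw [h3, map_zero] at h1
      exact hQ.ne_zero h1
    apply hQ.not_isUnit
    rw [h1]
    exact (isUnit_iff_ne_zero.2 h2).map C
  · exact h

theorem p_NZE (hFUN : Pool.Agent.Work.MP_f82ddf_M5.Stmt_FUN)
    (hDEG : Pool.Agent.Work.MP_f82ddf_M5.Stmt_DEG) (hRES : Pool.Agent.Work.MP_f82ddf_M5.Stmt_RES)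
    (hPRI : Pool.Agent.Work.MP_f82ddf_M5.Stmt_PRI) (hCHP : Stmt_CHP) (hPGL : Stmt_PGL)
    (_hFNC : Stmt_FNC) : Stmt_NZE := by
  intro N d D Q G e hQ hd hD hQG he
  obtain ⟨_, _, hF3, _, hF5, _⟩ := hFUN
  have hdpos := NZE_pos hQ hd
  -- over `Fin 0 ⊕ Fin N`
  let a : Fin N → MvPolynomial (Fin 0) ℂ := fun i => C (e i)
  obtain ⟨hpr, hdv⟩ := hPRI N (Fin 0) Q a hQ
  have ha : (fun i => rename (Sum.inl : Fin 0 → Fin 0 ⊕ Fin N) (a i)) = fun i => C (e i) := by
    funext i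
    exact rename_C _ _
  rw [ha] at hpr
  have hdv' := hdv G
  rw [ha] at hdv'
  obtain ⟨h1, h2, _, _⟩ := hDEG N d ℂ (MvPolynomial (Fin 0 ⊕ Fin N) ℂ) C Q
    (fun i => C (e i)) (fun i => X (Sum.inr i)) hd
  have h3 := (hDEG N D ℂ (MvPolynomial (Fin 0 ⊕ Fin N) ℂ) C G
    (fun i => C (e i)) (fun i => X (Sum.inr i)) hD).1
  have h4 : eval₂ C (fun i => (C (e i) : MvPolynomial (Fin 0 ⊕ Fin N) ℂ)) Q = C (eval e Q) := by
    have := (eval₂_comp_left (C : ℂ →+* MvPolynomial (Fin 0 ⊕ Fin N) ℂ) (RingHom.id ℂ) e Q)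
    rw [RingHom.comp_id] at this
    exact this.symm
  have h5 : (lineAt (B := MvPolynomial (Fin 0 ⊕ Fin N) ℂ) C Q (fun i => C (e i))
      (fun i => X (Sum.inr i))).natDegree = d := by
    refine le_antisymm h1 (Polynomial.le_natDegree_of_ne_zero ?_)
    rw [h2, h4]
    intro h6
    exact he (C_injective _ _ (h6.trans (map_zero C).symm))
  have h7 := hRES (MvPolynomial (Fin 0 ⊕ Fin N) ℂ) _ _ d D hpr h5 hdpos h3
    (fun h8 => hQG (hdv' h8))
  -- transfer to `Fin N`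
  let τ : Fin 0 ⊕ Fin N → Fin N := Sum.elim Fin.elim0 id
  have hτ : Function.Injective τ := by
    rintro (i | i) (j | j) hij
    · exact i.elim0
    · exact i.elim0
    · exact j.elim0
    · exact congrArg Sum.inr hij
  let θ : MvPolynomial (Fin 0 ⊕ Fin N) ℂ →+* MvPolynomial (Fin N) ℂ := (rename τ).toRingHom
  have hθ : Function.Injective θ := rename_injective τ hτ
  have h8 := hF3 N d D ℂ (MvPolynomial (Fin 0 ⊕ Fin N) ℂ) (MvPolynomial (Fin N) ℂ) C θ Q G
    (fun i => C (e i)) (fun i => X (Sum.inr i))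
  have h9 : θ.comp C = (C : ℂ →+* MvPolynomial (Fin N) ℂ) := by
    ext x
    change coeff _ (rename τ (C x)) = _
    rw [rename_C]
  have h10 : (fun i : Fin N => θ (C (e i))) = fun i => C (e i) := by
    funext i
    exact rename_C _ _
  have h11 : (fun i : Fin N => θ (X (Sum.inr i))) = fun i => X i := by
    funext i
    exact rename_X _ _
  rw [h9, h10, h11] at h8
  have h12 : resAt C Q G (fun i => (C (e i) : MvPolynomial (Fin N) ℂ)) (fun i => X i) d D ≠ 0 := by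
    rw [← h8]
    intro h13
    exact h7 (hθ (h13.trans (map_zero θ).symm))
  -- exchange
  have h14 := hPGL N (d * D) ℂ _ (hCHP N d D ℂ Q G hd hD) (MvPolynomial (Fin N) ℂ) C
    (fun i => C (e i)) (fun i => X i) 0 1 1 0
  simp only [zero_mul, one_mul, zero_add, add_zero, mul_zero, zero_sub, mul_one] at h14
  rw [hF5, hF5] at h14
  rw [NZE_subC]
  change at2 C (fun i => X i) (fun j => C (e j)) (chow d D Q G) ≠ 0
  rw [hF5, h14]
  exact mul_ne_zero (pow_ne_zero _ (neg_ne_zero.2 one_ne_zero)) h12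

end Pool.ThmM.Chow
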