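import Pool.Agent.Work.MP_f82ddf_M.Core

set_option autoImplicit false

open Topology Filter
open scoped Differential
open Pool.Agent.Work.MP_f82ddf_nt.DQ

namespace Pool.ThmM.Chow

theorem OZE_cod {p : ℂ → Prop} (h : ∀ᶠ z in codiscrete ℂ, p z) (z₀ : ℂ) :
    ∀ᶠ z in 𝓝[≠] z₀, p z := by
  unfold Filter.Eventually Filter.codiscrete at h
  rw [mem_codiscreteWithin_iff_forall_mem_nhdsNE] at h
  have h1 := h z₀ (Set.mem_univ z₀)
  rw [Set.compl_univ, Set.union_empty] at h1
  exact h1

theorem OZE_eq {f g : ℂ → ℂ} {z : ℂ} (hf : ContinuousAt f z) (hg : ContinuousAt g z)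
    (h : f =ᶠ[codiscrete ℂ] g) : f z = g z :=
  ((hf.eventuallyEq_nhds_iff_eventuallyEq_nhdsNE hg).mp (OZE_cod h z)).eq_of_nhds

theorem OZE_an (hR : Pool.ThmM.Stmt_REP) {f : Mer} {z : ℂ} (h : 0 ≤ om f z) :
    AnalyticAt ℂ (rep f) z := by
  have h1 : MeromorphicNFAt (rep f) z := (hR f).1 (Set.mem_univ z)
  exact h1.meromorphicOrderAt_nonneg_iff_analyticAt.mp h

theorem OZE_const (hR : Pool.ThmM.Stmt_REP) (hA : Pool.ThmM.Stmt_ALG)
    (hV : Pool.ThmM.Stmt_VAL) (a : ℂ) (z : ℂ) :
    0 ≤ om (algebraMap ℂ Mer a) z ∧ rep (algebraMap ℂ Mer a) z = a := by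
  have h0 : 0 ≤ om (algebraMap ℂ Mer a) z := by
    by_cases ha : a = 0
    · rw [ha, map_zero, ((hV z).2.2.1 0).mpr rfl]
      exact le_top
    · rw [(hV z).2.2.2.1 a ha]
  exact ⟨h0, OZE_eq (OZE_an hR h0).continuousAt continuousAt_const (hA.2.2.2.2.2.2.1 a)⟩

theorem p_OZE (hR : Pool.ThmM.Stmt_REP) (hA : Pool.ThmM.Stmt_ALG) (hV : Pool.ThmM.Stmt_VAL) :
    Stmt_OZE := by
  intro z
  obtain ⟨v1, v2, v3, v4, v5, v6⟩ := hV z
  let O : Subalgebra ℂ Mer :=
    { carrier := {f | 0 ≤ om f z}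
      mul_mem' := by
        intro f g hf hg
        have hf' : 0 ≤ om f z := hf
        have hg' : 0 ≤ om g z := hg
        show 0 ≤ om (f * g) z
        rw [v1]
        exact add_nonneg hf' hg'
      add_mem' := by
        intro f g hf hg
        have hf' : 0 ≤ om f z := hf
        have hg' : 0 ≤ om g z := hg
        exact le_trans (le_min hf' hg') (v2 f g)
      algebraMap_mem' := fun a => (OZE_const hR hA hV a z).1 }
  have hO : ∀ f : Mer, f ∈ O ↔ 0 ≤ om f z := fun f => Iff.rfl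
  have hO' : ∀ f : O, 0 ≤ om (f : Mer) z := fun f => (hO _).mp f.2
  have hmul : ∀ f g : O, rep ((f * g : O) : Mer) z = rep (f : Mer) z * rep (g : Mer) z := by
    intro f g
    have h1 := OZE_eq (OZE_an hR (hO' (f * g))).continuousAt
      ((OZE_an hR (hO' f)).continuousAt.mul (OZE_an hR (hO' g)).continuousAt)
      (hA.2.2.2.1 (f : Mer) (g : Mer))
    exact h1
  have hadd : ∀ f g : O, rep ((f + g : O) : Mer) z = rep (f : Mer) z + rep (g : Mer) z := by
    intro f g
    have h1 := OZE_eq (OZE_an hR (hO' (f + g))).continuousAt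
      ((OZE_an hR (hO' f)).continuousAt.add (OZE_an hR (hO' g)).continuousAt)
      (hA.2.1 (f : Mer) (g : Mer))
    exact h1
  have h0 : rep ((0 : O) : Mer) z = 0 := by
    have h1 := (OZE_const hR hA hV 0 z).2
    rw [map_zero] at h1
    exact h1
  have h1 : rep ((1 : O) : Mer) z = 1 := by
    have h1 := (OZE_const hR hA hV 1 z).2
    rw [map_one] at h1
    exact h1
  let θ : O →ₐ[ℂ] ℂ :=
    { toFun := fun f => rep (f : Mer) z
      map_one' := h1
      map_mul' := hmul
      map_zero' := h0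
      map_add' := hadd
      commutes' := fun a => (OZE_const hR hA hV a z).2 }
  have hθ : ∀ f : O, θ f = rep (f : Mer) z := fun _ => rfl
  refine ⟨O, θ, hO, hθ, ?_⟩
  intro f
  have h2 : MeromorphicNFAt (rep (f : Mer)) z := (hR (f : Mer)).1 (Set.mem_univ z)
  have h3 := h2.meromorphicOrderAt_eq_zero_iff
  have h4 : om (f : Mer) z = meromorphicOrderAt (rep (f : Mer)) z := rfl
  rw [hθ]
  constructor
  · intro h5
    have h6 : om (f : Mer) z ≠ 0 := by
      intro h7
      rw [h4] at h7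
      exact h3.mp h7 h5
    have h7 : 0 < om (f : Mer) z := lt_of_le_of_ne (hO' f) (Ne.symm h6)
    generalize om (f : Mer) z = w at h7
    induction w using WithTop.recTopCoe with
    | top => exact le_top
    | coe n =>
      have h8 : (0 : ℤ) < n := by exact_mod_cast h7
      have h9 : (1 : ℤ) ≤ n := h8
      exact_mod_cast h9
  · intro h5
    by_contra h6
    have h7 := h3.mpr h6
    rw [← h4] at h7
    rw [h7] at h5
    exact absurd h5 (by norm_num)

end Pool.ThmM.Chow
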