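import Pool.Agent.Work.MP_f82ddf_M.Core

set_option autoImplicit false

/-! # PER: periodicity of divisors -/

open Topology Filter
open scoped Differential
open Pool.Agent.Work.MP_f82ddf_nt.DQ

namespace Pool.ThmM.Chow

open MvPolynomial

theorem PER_fin {σ : Type} [Finite σ] (Φ : MvPolynomial σ Mer) (hΦ : Φ ≠ 0)
    (q : ℕ → MvPolynomial σ Mer) (hq : ∀ i, q i ∣ Φ) :
    ∃ i j : ℕ, i < j ∧ Associated (q i) (q j) := by
  classical
  have hy : Associates.mk Φ ≠ 0 := Associates.mk_ne_zero.mpr hΦ
  have hfin : Finite {x : Associates (MvPolynomial σ Mer) // x ∣ Associates.mk Φ} :=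
    @Fintype.finite _ (UniqueFactorizationMonoid.fintypeSubtypeDvd (Associates.mk Φ) hy)
  obtain ⟨i, j, hij, he⟩ := Finite.exists_ne_map_eq_of_infinite
    (fun i : ℕ => (⟨Associates.mk (q i), Associates.mk_dvd_mk.2 (hq i)⟩ :
      {x : Associates (MvPolynomial σ Mer) // x ∣ Associates.mk Φ}))
  have he' : Associates.mk (q i) = Associates.mk (q j) := congrArg Subtype.val he
  have ha : Associated (q i) (q j) := Associates.mk_eq_mk_iff_associated.mp he'
  rcases lt_or_gt_of_ne hij with h | h
  · exact ⟨i, j, h, ha⟩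
  · exact ⟨j, i, h, ha.symm⟩

theorem p_PER : Stmt_PER := by
  intro σ _ tr Φ P hΦ hinv hP
  classical
  have hit : ∀ (n : ℕ) (α : σ →₀ ℕ),
      coeff α ((MvPolynomial.map (tr : Mer →+* Mer))^[n] P) = (tr^[n]) (coeff α P) := by
    intro n
    induction n with
    | zero => intro α; rfl
    | succ n ih =>
      intro α
      rw [Function.iterate_succ_apply', Function.iterate_succ_apply', coeff_map, ih]
      rfl
  have hq : ∀ n : ℕ, (MvPolynomial.map (tr : Mer →+* Mer))^[n] P ∣ Φ := by
    intro n
    induction n with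
    | zero => exact hP
    | succ n ih =>
      rw [Function.iterate_succ_apply', ← hinv]
      exact map_dvd (MvPolynomial.map (tr : Mer →+* Mer)) ih
  obtain ⟨i, j, hij, ha⟩ := PER_fin Φ hΦ _ hq
  have hinj : Function.Injective (tr : Mer → Mer) := tr.injective
  have hinji : Function.Injective (tr^[i]) := hinj.iterate i
  have hP0 : P ≠ 0 := by
    rintro rfl
    exact hΦ (zero_dvd_iff.mp hP)
  obtain ⟨u, hu⟩ := ha
  obtain ⟨c, hc, huc⟩ := isUnit_iff_eq_C_of_isReduced.mp u.isUnit
  have hc0 : c ≠ 0 := hc.ne_zero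
  -- coefficients
  have hcoef : ∀ α, (tr^[i]) (coeff α P) * c = (tr^[i]) ((tr^[j - i]) (coeff α P)) := by
    intro α
    have h1 := congrArg (coeff α) hu
    rw [huc, mul_comm, coeff_C_mul, hit, hit] at h1
    rw [← Function.iterate_add_apply, Nat.add_sub_cancel' hij.le, ← h1, mul_comm]
  have hdiv : ∀ (n : ℕ) (a b : Mer), (tr^[n]) (a / b) = (tr^[n]) a / (tr^[n]) b := by
    intro n
    induction n with
    | zero => intro a b; rfl
    | succ n ih =>
      intro a b
      rw [Function.iterate_succ_apply', Function.iterate_succ_apply',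
        Function.iterate_succ_apply', ih, map_div₀]
  refine ⟨j - i, by omega, ?_⟩
  intro α β
  apply hinji
  rw [hdiv (j - i), hdiv i, hdiv i, ← hcoef α, ← hcoef β]
  exact mul_div_mul_right _ _ hc0

end Pool.ThmM.Chow
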