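import Pool.Agent.Work.MP_f82ddf_M.Chow

set_option autoImplicit false

/-! # THEOREM M, part P3a, block PFA: factors of a polynomial of Pluecker type -/

namespace Pool.ThmM.Chow

open MvPolynomial
open Pool.Agent.Work.MP_f82ddf_M5 (lineAt resAt chow at2 comb Data)

/-- A ring homomorphism applied to `at2`. -/
theorem PFA_comp {N : ℕ} {R B B' : Type} [CommRing R] [CommRing B] [CommRing B'] (φ : R →+* B)
    (θ : B →+* B') (a b : Fin N → B) (F : MvPolynomial (Fin 2 × Fin N) R) :
    θ (at2 φ a b F) = at2 (θ.comp φ) (fun i => θ (a i)) (fun i => θ (b i)) F := by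
  unfold at2
  rw [coe_eval₂Hom, coe_eval₂Hom, hom_eval₂]
  congr 1
  funext p
  by_cases h : p.1 = 0
  · rw [if_pos h, if_pos h]
  · rw [if_neg h, if_neg h]

/-- The substitution of the variables themselves. -/
theorem PFA_self {N : ℕ} {R : Type} [CommRing R] (F : MvPolynomial (Fin 2 × Fin N) R) :
    at2 C (fun i => X (0, i)) (fun i => X (1, i)) F = F := by
  unfold at2
  rw [coe_eval₂Hom]
  have h : (fun p : Fin 2 × Fin N => if p.1 = 0 then (X (0, p.2) : MvPolynomial (Fin 2 × Fin N) R)
      else X (1, p.2)) = X := by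
    funext p
    obtain ⟨i, j⟩ := p
    fin_cases i
    · rfl
    · rfl
  rw [h]
  exact eval₂_eta F

/-- A factor of a constant polynomial is constant. -/
theorem PFA_const {S : Type} [CommRing S] [IsDomain S] (p q : Polynomial S) (c : S) (hc : c ≠ 0)
    (h : p * q = Polynomial.C c) : p = Polynomial.C (p.coeff 0) := by
  have h0 : p * q ≠ 0 := by
    rw [h, Ne, Polynomial.C_eq_zero]
    exact hc
  have h1 : (p * q).natDegree = 0 := by rw [h, Polynomial.natDegree_C]
  rw [Polynomial.natDegree_mul (left_ne_zero_of_mul h0) (right_ne_zero_of_mul h0)] at h1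
  exact Polynomial.eq_C_of_natDegree_eq_zero (by omega)

/-- The value of a weighted homogeneous polynomial at a scaled point. -/
theorem PFA_scale {σ R B : Type} [CommRing R] [CommRing B] (φ : R →+* B) (x : σ → B) (c : B)
    (w : σ → ℕ) (P : MvPolynomial σ R) (n : ℕ) (h : IsWeightedHomogeneous w P n) :
    eval₂ φ (fun i => c ^ w i * x i) P = c ^ n * eval₂ φ x P := by
  rw [eval₂_eq, eval₂_eq, Finset.mul_sum]
  refine Finset.sum_congr rfl fun d hd => ?_
  have h1 : Finsupp.weight w d = n := h (mem_support_iff.mp hd)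
  have h2 : ∏ i ∈ d.support, (c ^ w i * x i) ^ d i = c ^ n * ∏ i ∈ d.support, x i ^ d i := by
    simp only [mul_pow, Finset.prod_mul_distrib, ← pow_mul]
    rw [Finset.prod_pow_eq_pow_sum]
    congr 2
    rw [← h1, Finsupp.weight_apply, Finsupp.sum]
    refine Finset.sum_congr rfl fun i _ => ?_
    rw [smul_eq_mul, mul_comm]
  rw [h2]
  ring

/-- Invariance of a factor, in one direction: `ua`, `ub` are the changes of `a`, `b`. -/
theorem PFA_inv {N : ℕ} {K : Type} [Field K] (P G : MvPolynomial (Fin 2 × Fin N) K)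
    (hPG : P * G ≠ 0) (a' b' : Fin N → Polynomial (MvPolynomial (Fin 2 × Fin N) K))
    (h0a : ∀ j, (a' j).eval 0 = X (0, j)) (h0b : ∀ j, (b' j).eval 0 = X (1, j))
    (h : at2 (Polynomial.C.comp C) a' b' (P * G) = Polynomial.C (P * G)) :
    at2 (Polynomial.C.comp C) a' b' P = Polynomial.C P := by
  rw [map_mul] at h
  have h1 := PFA_const _ _ _ hPG h
  have h2 : (at2 (Polynomial.C.comp C) a' b' P :
      Polynomial (MvPolynomial (Fin 2 × Fin N) K)).coeff 0 = P := by
    rw [Polynomial.coeff_zero_eq_eval_zero, ← Polynomial.coe_evalRingHom, PFA_comp]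
    have h3 : ((Polynomial.evalRingHom (0 : MvPolynomial (Fin 2 × Fin N) K)).comp
        (Polynomial.C.comp C)) = C := by
      ext1 z
      simp
    rw [h3]
    simp only [Polynomial.coe_evalRingHom, h0a, h0b]
    exact PFA_self P
  rw [h2] at h1
  exact h1

theorem p_PFA : Stmt_PLW → Stmt_WHF → Stmt_PFA := by
  intro hPLW hWHF N ρ K _ P G hPG hF
  have hP0 : P ≠ 0 := left_ne_zero_of_mul hPG
  -- the ring `S[T]`
  obtain ⟨a, ha⟩ : ∃ a : Fin N → Polynomial (MvPolynomial (Fin 2 × Fin N) K),
    a = fun i => Polynomial.C (X (0, i)) := ⟨_, rfl⟩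
  obtain ⟨b, hb⟩ : ∃ b : Fin N → Polynomial (MvPolynomial (Fin 2 × Fin N) K),
    b = fun i => Polynomial.C (X (1, i)) := ⟨_, rfl⟩
  have hgen : ∀ F : MvPolynomial (Fin 2 × Fin N) K,
      at2 (Polynomial.C.comp C) a b F = Polynomial.C F := by
    intro F
    have h := PFA_comp C (Polynomial.C : MvPolynomial (Fin 2 × Fin N) K →+* _)
      (fun i => X (0, i)) (fun i => X (1, i)) F
    rw [PFA_self] at h
    rw [h, ha, hb]
  -- invariance in `S[T]`
  have hi1 : at2 (Polynomial.C.comp C) (fun j => a j + Polynomial.X * b j) b P =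
      Polynomial.C P := by
    apply PFA_inv P G hPG
    · intro j
      rw [ha, hb]
      simp
    · intro j
      rw [hb]
      simp
    · rw [(hF _ (Polynomial.C.comp C) a b Polynomial.X).1]
      exact hgen _
  have hi2 : at2 (Polynomial.C.comp C) a (fun j => b j + Polynomial.X * a j) P =
      Polynomial.C P := by
    apply PFA_inv P G hPG
    · intro j
      rw [ha]
      simp
    · intro j
      rw [ha, hb]
      simp
    · rw [(hF _ (Polynomial.C.comp C) a b Polynomial.X).2.1]
      exact hgen _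
  -- invariance for all rings
  have hall : ∀ (B : Type) [CommRing B] (φ : K →+* B) (x y : Fin N → B) (c : B),
      at2 φ (fun j => x j + c * y j) y P = at2 φ x y P ∧
      at2 φ x (fun j => y j + c * x j) P = at2 φ x y P := by
    intro B _ φ x y c
    obtain ⟨θ, hθ⟩ : ∃ θ : Polynomial (MvPolynomial (Fin 2 × Fin N) K) →+* B,
      θ = Polynomial.eval₂RingHom (at2 φ x y) c := ⟨_, rfl⟩
    have hθC : θ.comp (Polynomial.C.comp C) = φ := by
      rw [hθ]
      ext1 z
      simp [at2]
    have hθa : ∀ j, θ (a j) = x j := by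
      intro j
      rw [hθ, ha]
      simp [at2]
    have hθb : ∀ j, θ (b j) = y j := by
      intro j
      rw [hθ, hb]
      simp [at2]
    have hθX : θ Polynomial.X = c := by
      rw [hθ]
      simp
    have hθP : θ (Polynomial.C P) = at2 φ x y P := by
      rw [hθ]
      simp
    constructor
    · have h := congrArg θ hi1
      rw [PFA_comp, hθC, hθP] at h
      rw [← h]
      congr 2
      · funext j
        rw [map_add, map_mul, hθa, hθb, hθX]
      · funext j
        rw [hθb]
    · have h := congrArg θ hi2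
      rw [PFA_comp, hθC, hθP] at h
      rw [← h]
      congr 2
      · funext j
        rw [hθa]
      · funext j
        rw [map_add, map_mul, hθa, hθb, hθX]
  have hswap : ∀ (B : Type) [CommRing B] (φ : K →+* B) (x y : Fin N → B),
      at2 φ x y P = at2 φ y (fun j => - x j) P := by
    intro B _ φ x y
    rw [← (hall B φ x y 1).1, ← (hall B φ (fun j => x j + 1 * y j) y (-1)).2]
    have e1 : (fun j => y j + -1 * (x j + 1 * y j)) = fun j => - x j := by
      funext j
      ring
    rw [e1, ← (hall B φ (fun j => x j + 1 * y j) (fun j => - x j) 1).1]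
    congr 2
    funext j
    ring
  -- homogeneity
  obtain ⟨m, m', hm, hmP, -⟩ := hWHF (Fin 2 × Fin N) K (wb 0) P G ρ hPG (hPLW N ρ K _ hF 0)
  obtain ⟨n, n', hn, hnP, -⟩ := hWHF (Fin 2 × Fin N) K (wb 1) P G ρ hPG (hPLW N ρ K _ hF 1)
  have hh1 : ∀ (B : Type) [CommRing B] (φ : K →+* B) (x y : Fin N → B) (c : B),
      at2 φ (fun j => c * x j) y P = c ^ m * at2 φ x y P := by
    intro B _ φ x y c
    have h := PFA_scale φ (fun p : Fin 2 × Fin N => if p.1 = 0 then x p.2 else y p.2) c _ P m hmP
    unfold at2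
    rw [coe_eval₂Hom, coe_eval₂Hom, ← h]
    congr 1
    funext p
    obtain ⟨i, j⟩ := p
    fin_cases i
    · simp [wb]
    · simp [wb]
  have hh2 : ∀ (B : Type) [CommRing B] (φ : K →+* B) (x y : Fin N → B) (c : B),
      at2 φ x (fun j => c * y j) P = c ^ n * at2 φ x y P := by
    intro B _ φ x y c
    have h := PFA_scale φ (fun p : Fin 2 × Fin N => if p.1 = 0 then x p.2 else y p.2) c _ P n hnP
    unfold at2
    rw [coe_eval₂Hom, coe_eval₂Hom, ← h]
    congr 1
    funext p
    obtain ⟨i, j⟩ := p
    fin_cases i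
    · simp [wb]
    · simp [wb]
  have hmn : m = n := by
    have h1 := hh1 _ (Polynomial.C.comp C) a b Polynomial.X
    rw [hswap, hgen] at h1
    have e : (fun j => - (Polynomial.X * a j)) = fun j => Polynomial.X * (- a j) := by
      funext j
      ring
    rw [e, hh2, ← hswap, hgen] at h1
    have hC : (Polynomial.C P : Polynomial (MvPolynomial (Fin 2 × Fin N) K)) ≠ 0 := by
      rw [Ne, Polynomial.C_eq_zero]
      exact hP0
    have h2 := mul_right_cancel₀ hC h1
    have h3 := congrArg Polynomial.natDegree h2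
    rw [Polynomial.natDegree_X_pow, Polynomial.natDegree_X_pow] at h3
    exact h3.symm
  refine ⟨m, by omega, fun B _ φ x y c => ⟨(hall B φ x y c).1, (hall B φ x y c).2,
    hh1 B φ x y c, ?_⟩⟩
  rw [hmn]
  exact hh2 B φ x y c

end Pool.ThmM.Chow
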