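import Pool.Agent.Work.MP_f82ddf_M.Core

set_option autoImplicit false

/-! # THEOREM M, block PFC (helper33) -/

open Topology Filter
open scoped Differential
open Pool.Agent.Work.MP_f82ddf_nt.DQ

namespace Pool.ThmM.Chow

open MvPolynomial
open Pool.Agent.Work.MP_f82ddf_M5 (lineAt resAt chow at2 comb Data)

/-- A codiscrete condition fails only on a countable set. -/
theorem PFC_cnt {p : ℂ → Prop} (h : ∀ᶠ z in codiscrete ℂ, p z) : {z | ¬ p z}.Countable := by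
  have h3 := (mem_codiscrete'.1 h).2
  exact (HereditarilyLindelofSpace.isLindelof _).countable_of_isDiscrete h3

theorem PFC_sum (hA : Stmt_ALG) {α : Type} (S : Finset α) (g : α → Mer) :
    ∀ᶠ z in codiscrete ℂ, rep (∑ s ∈ S, g s) z = ∑ s ∈ S, rep (g s) z := by
  classical
  obtain ⟨-, ha, -, -, -, -, hc, -⟩ := hA
  induction S using Finset.induction_on with
  | empty =>
    have h := hc 0
    rw [map_zero] at h
    filter_upwards [h] with z hz
    rw [Finset.sum_empty, Finset.sum_empty, hz]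
  | insert a S hS ih =>
    rw [Finset.sum_insert hS]
    filter_upwards [ih, ha (g a) (∑ s ∈ S, g s)] with z h1 h2
    rw [Finset.sum_insert hS, h2, h1]

theorem PFC_lin (hA : Stmt_ALG) {r : ℕ} (x : Fin (r + 1) → Mer) (a : Fin (r + 1) → ℂ) :
    ∀ᶠ z in codiscrete ℂ, rep (∑ i, x i * algebraMap ℂ Mer (a i)) z = ∑ i, rep (x i) z * a i := by
  have h1 := PFC_sum hA Finset.univ (fun i => x i * algebraMap ℂ Mer (a i))
  have h2 : ∀ᶠ z in codiscrete ℂ, ∀ i : Fin (r + 1),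
      rep (x i * algebraMap ℂ Mer (a i)) z = rep (x i) z * a i := by
    rw [Filter.eventually_all]
    intro i
    filter_upwards [hA.2.2.2.1 (x i) (algebraMap ℂ Mer (a i)), hA.2.2.2.2.2.2.1 (a i)] with z h3 h4
    rw [h3, h4]
  filter_upwards [h1, h2] with z h3 h4
  rw [h3]
  exact Finset.sum_congr rfl fun i _ => h4 i

theorem PFC_comb_hom {N r d : ℕ} {Q : MvPolynomial (Fin N) ℂ}
    {A : Fin (r + 1) → MvPolynomial (Fin N) ℂ} (hD : Data N r d d Q A) (y : Fin (r + 1) → ℂ) :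
    (comb (RingHom.id ℂ) A y).IsHomogeneous d := by
  unfold comb
  apply IsHomogeneous.sum
  intro i _
  have h1 := (hD.homA i).map (RingHom.id ℂ)
  exact h1.C_mul _

theorem PFC_comb_eval {N r : ℕ} (A : Fin (r + 1) → MvPolynomial (Fin N) ℂ)
    (y : Fin (r + 1) → ℂ) (u : Fin N → ℂ) :
    eval u (comb (RingHom.id ℂ) A y) = ∑ i, y i * eval u (A i) := by
  unfold comb
  simp [map_sum]

theorem p_PFC (hZER : Stmt_ZER) (hQPP : Stmt_QPP) (_ : Stmt_FNC) (hFCH : Stmt_FCH)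
    (hSPV : Stmt_SPV) (hALG : Stmt_ALG) : Stmt_PFC := by
  intro N r d ρ Q A x u e θ R Rc Fx F hd hD hirr hQe hQu hne hPhi hsub hFh hF0 hρ
  obtain ⟨-, -, sp3, sp4, sp5, sp6, sp7, sp8⟩ := hSPV
  have ev : ∀ᶠ z in codiscrete ℂ,
      (spv (R * Rc) z = spv R z * spv Rc z ∧
      spv (subC Mer (gP u e θ) R) z = subC ℂ (gP u e θ) (spv R z) ∧
      spv (subC Mer gC (map (algebraMap ℂ Mer) Fx * F)) z =
        subC ℂ gC (spv (map (algebraMap ℂ Mer) Fx * F) z)) ∧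
      (spv (map (algebraMap ℂ Mer) Fx * F) z = spv (map (algebraMap ℂ Mer) Fx) z * spv F z ∧
      spv (Phi Mer d Q A x) z = Phi ℂ d Q A (fun i => rep (x i) z) ∧
      spv F z ≠ 0) ∧
      (rep (∑ i, x i * algebraMap ℂ Mer (eval u (A i))) z = ∑ i, rep (x i) z * eval u (A i) ∧
      rep (∑ i, x i * algebraMap ℂ Mer (eval u (A i))) z ≠ 0) := by
    filter_upwards [sp3 _ R Rc, sp4 _ _ (gP u e θ) R,
      sp4 _ _ gC (map (algebraMap ℂ Mer) Fx * F), sp3 _ (map (algebraMap ℂ Mer) Fx) F,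
      sp5 N r d Q A x, sp6 _ F hF0, PFC_lin hALG x (fun i => eval u (A i)),
      hALG.2.2.2.2.2.2.2 _ hne] with z h1 h2 h3 h4 h5 h6 h7 h8
    exact ⟨⟨h1, h2, h3⟩, ⟨h4, h5, h6⟩, h7, h8⟩
  refine ⟨_, PFC_cnt ev, ?_⟩
  intro z hz
  rw [Set.mem_setOf_eq, not_not] at hz
  obtain ⟨⟨e1, e2, e3⟩, ⟨e4, e5, e6⟩, e7, e8⟩ := hz
  obtain ⟨y, hy⟩ : ∃ y : Fin (r + 1) → ℂ, y = fun i => rep (x i) z := ⟨_, rfl⟩
  rw [← hy] at e5
  have hyi : ∀ i, rep (x i) z = y i := fun i => by rw [hy]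
  simp only [hyi] at e7
  rw [e7] at e8
  rw [sp7] at e4
  have hq1 := hQPP N d Q u e θ hD.hom
  have hχh := PFC_comb_hom hD y
  have hc1 := hQPP N d (comb (RingHom.id ℂ) A y) u e θ hχh
  have key : subC ℂ (gP u e θ) (spv R z) = subC ℂ gC (Fx * spv F z) := by
    rw [← e2, hsub, e3, e4]
  refine (hZER d ρ (qp u e θ Q) (qp u e θ (comb (RingHom.id ℂ) A y)) (spv F z) hd hirr hq1.1 hc1.1
    ?_ ?_ (sp8 _ F ρ z hFh) e6 hρ ?_)
  · rw [hq1.2.1]
    simpa using hQe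
  · rintro ⟨g, hg⟩
    have h1 := congrArg (eval ![1, 0, 0]) hg
    rw [map_mul, hq1.2.1, hc1.2.1] at h1
    have h2 : (fun j => u j * (![1, 0, 0] : Fin 3 → ℂ) 0 + e j * (![1, 0, 0] : Fin 3 → ℂ) 1 +
        θ j * (![1, 0, 0] : Fin 3 → ℂ) 2) = u := by
      funext j; simp
    rw [h2, hQu, zero_mul, PFC_comb_eval] at h1
    exact e8 h1
  · intro a b hab
    rw [hFCH.2.2.2.2, ← hFCH.2.2.2.1, ← e5, hPhi, e1, map_mul]
    have h1 := hq1.2.2.2 ℂ (spv R z) (Fx * spv F z) a b key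
    have h2 : eval (fun i => algebraMap ℂ ℂ (crs a b i)) (Fx * spv F z) = 0 := by
      show eval (crs a b) (Fx * spv F z) = 0
      rw [map_mul, hab, mul_zero]
    rw [h2] at h1
    have h3 : eval (ppt (fun j => u j * a 0 + e j * a 1 + θ j * a 2)
        (fun j => u j * b 0 + e j * b 1 + θ j * b 2)) (spv R z) = 0 := h1.symm
    rw [h3, zero_mul]

end Pool.ThmM.Chow
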