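import Pool.Agent.Work.MP_f82ddf_M.Chow

/-! # Block PGL (helper55): equivariance -/

set_option autoImplicit false

namespace Pool.ThmM.Chow

open MvPolynomial
open Pool.Agent.Work.MP_f82ddf_M5 (lineAt resAt chow at2 comb Data)

theorem PGL_hom {N : ℕ} {R B B' : Type} [CommRing R] [CommRing B] [CommRing B'] (φ : R →+* B)
    (θ : B →+* B') (a b : Fin N → B) (F : MvPolynomial (Fin 2 × Fin N) R) :
    θ (at2 φ a b F) = at2 (θ.comp φ) (fun j => θ (a j)) (fun j => θ (b j)) F := by
  unfold at2
  rw [coe_eval₂Hom, coe_eval₂Hom, hom_eval₂]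
  congr 1
  funext p

  split_ifs <;> rfl

/-- the case of an invertible `p` -/
theorem PGL_unit {N ρ : ℕ} {R : Type} [CommRing R] {F : MvPolynomial (Fin 2 × Fin N) R}
    (hF : PluF ρ F) {B : Type} [CommRing B] (φ : R →+* B) (a b : Fin N → B) (p q r s p' : B)
    (hp : p * p' = 1) :
    at2 φ (fun j => p * a j + q * b j) (fun j => r * a j + s * b j) F =
      (p * s - q * r) ^ ρ * at2 φ a b F := by
  have e1 : (fun j => r * a j + s * b j) =
      fun j => (s - q * r * p') * b j + (r * p') * (p * a j + q * b j) := by
    funext j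
    have : r * a j = (p * p') * (r * a j) := by rw [hp, one_mul]
    rw [this]
    ring
  rw [e1, (hF B φ (fun j => p * a j + q * b j) (fun j => (s - q * r * p') * b j) (r * p')).2.1,
    (hF B φ (fun j => p * a j + q * b j) b (s - q * r * p')).2.2.2,
    (hF B φ (fun j => p * a j) b q).1, (hF B φ a b p).2.2.1, ← mul_assoc, ← mul_pow]
  congr 2
  have : q * r = (p * p') * (q * r) := by rw [hp, one_mul]
  linear_combination this

theorem p_PGL : Stmt_PGL := by
  intro N ρ R _ F hF B _ φ a b p q r s
  -- the localisation of `B[T]`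
  let u : Polynomial B := Polynomial.X + Polynomial.C p
  have hu : u.Monic := Polynomial.monic_X_add_C p
  let L : Type := Localization.Away u
  let ι : Polynomial B →+* L := algebraMap (Polynomial B) L
  have hι : Function.Injective ι :=
    IsLocalization.injective L (Submonoid.powers_le.2 hu.mem_nonZeroDivisors)
  have hunit : IsUnit (ι u) := IsLocalization.Away.algebraMap_isUnit u
  obtain ⟨p', hp'⟩ := hunit.exists_right_inv
  have hL := PGL_unit hF ((ι.comp Polynomial.C).comp φ) (fun j => ι (Polynomial.C (a j)))
    (fun j => ι (Polynomial.C (b j))) (ι u) (ι (Polynomial.C q)) (ι (Polynomial.C r))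
    (ι (Polynomial.C s)) p' hp'
  have hB : at2 (Polynomial.C.comp φ) (fun j => u * Polynomial.C (a j) + Polynomial.C q * Polynomial.C (b j))
      (fun j => Polynomial.C r * Polynomial.C (a j) + Polynomial.C s * Polynomial.C (b j)) F =
        (u * Polynomial.C s - Polynomial.C q * Polynomial.C r) ^ ρ *
          at2 (Polynomial.C.comp φ) (fun j => Polynomial.C (a j)) (fun j => Polynomial.C (b j)) F := by
    apply hι
    rw [map_mul, map_pow, map_sub, map_mul, map_mul, PGL_hom, PGL_hom]
    simp only [map_add, map_mul]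
    exact hL
  have h0 := congrArg (Polynomial.evalRingHom (0 : B)) hB
  rw [map_mul, map_pow, map_sub, map_mul, map_mul, PGL_hom, PGL_hom] at h0
  have e2 : (Polynomial.evalRingHom (0 : B)).comp (Polynomial.C.comp φ) = φ := by
    ext x
    simp
  have e3 : Polynomial.evalRingHom (0 : B) u = p := by
    simp [u]
  have e4 : ∀ x : B, Polynomial.evalRingHom (0 : B) (Polynomial.C x) = x := fun x => by simp
  rw [e2] at h0
  simp only [map_add, map_mul, e3, e4] at h0
  exact h0

end Pool.ThmM.Chow
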