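import Pool.Agent.Work.MP_f82ddf_M.Core

set_option autoImplicit false

/-! Block PHG: orders of the Chow form for arbitrary `x` (scaling). -/

open Topology Filter
open scoped Differential
open Pool.Agent.Work.MP_f82ddf_nt.DQ

namespace Pool.ThmM.Chow

open MvPolynomial
open Pool.Agent.Work.MP_f82ddf_M5 (lineAt resAt chow at2 comb Data)

theorem PHG_cancel (a : ℤ) (w s : WithTop ℤ) (h : ((a : ℤ) : WithTop ℤ) + w = s) :
    w = ((-a : ℤ) : WithTop ℤ) + s := by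
  rw [← h, ← add_assoc, ← WithTop.coe_add, neg_add_cancel, WithTop.coe_zero, zero_add]

theorem PHG_one (hV : Stmt_VAL) (z : ℂ) : om (1 : Mer) z = 0 := by
  have h := (hV z).2.2.2.1 1 one_ne_zero
  rwa [map_one] at h

theorem PHG_pow (hV : Stmt_VAL) (z : ℂ) (h : Mer) (n : ℤ) (hn : om h z = (n : WithTop ℤ)) (d : ℕ) :
    om (h ^ d) z = ((d * n : ℤ) : WithTop ℤ) := by
  induction d with
  | zero => simpa using PHG_one hV z
  | succ d ih =>
    rw [pow_succ, (hV z).1, ih, hn, ← WithTop.coe_add]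
    congr 1
    push_cast
    ring

theorem PHG_unit (hV : Stmt_VAL) (z : ℂ) (n : ℤ) :
    ∃ h : Mer, h ≠ 0 ∧ om h z = (n : WithTop ℤ) := by
  have hz : om (zt z) z = ((1 : ℤ) : WithTop ℤ) := (hV z).2.2.2.2.2
  have hz0 : zt z ≠ 0 := by
    intro h
    have h1 := ((hV z).2.2.1 (zt z)).2 h
    rw [hz] at h1
    exact WithTop.coe_ne_top h1
  obtain ⟨m, rfl | rfl⟩ := n.eq_nat_or_neg
  · refine ⟨zt z ^ m, pow_ne_zero _ hz0, ?_⟩
    rw [PHG_pow hV z (zt z) 1 hz m, mul_one]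
  · have hg : zt z ^ m ≠ 0 := pow_ne_zero _ hz0
    refine ⟨(zt z ^ m)⁻¹, inv_ne_zero hg, ?_⟩
    have h1 : om (zt z ^ m * (zt z ^ m)⁻¹) z = 0 := by
      rw [mul_inv_cancel₀ hg]; exact PHG_one hV z
    rw [(hV z).1, PHG_pow hV z (zt z) 1 hz m, mul_one] at h1
    have h2 := PHG_cancel _ _ _ h1
    rw [h2, add_zero]

theorem PHG_vC {σ : Type} (h : Mer) (h0 : h ≠ 0) (z : ℂ) :
    vP (C h : MvPolynomial σ Mer) z = om h z := by
  classical
  unfold vP
  have hs : (C h : MvPolynomial σ Mer).support = {0} := by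
    rw [C_apply, support_monomial, if_neg h0]
  rw [hs, Finset.inf_singleton]
  congr 1
  rw [coeff_C, if_pos rfl]

theorem PHG_comb {N r : ℕ} (A : Fin (r + 1) → MvPolynomial (Fin N) ℂ) (x : Fin (r + 1) → Mer)
    (h : Mer) :
    comb (algebraMap ℂ Mer) A (fun i => h * x i) = C h * comb (algebraMap ℂ Mer) A x := by
  unfold comb
  rw [Finset.mul_sum]
  refine Finset.sum_congr rfl fun i _ => ?_
  rw [C_mul, mul_assoc]

theorem PHG_Phi {N r : ℕ} (d : ℕ) (Q : MvPolynomial (Fin N) ℂ)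
    (A : Fin (r + 1) → MvPolynomial (Fin N) ℂ) (x : Fin (r + 1) → Mer) (h : Mer) :
    Phi Mer d Q A (fun i => h * x i) = C (h ^ d) * Phi Mer d Q A x := by
  unfold Phi chow resAt
  rw [PHG_comb]
  have hl : lineAt C (C h * comb (algebraMap ℂ Mer) A x) (fun i => X (0, i)) (fun i => X (1, i)) =
      Polynomial.C (C h : MvPolynomial (Fin 2 × Fin N) Mer) *
        lineAt C (comb (algebraMap ℂ Mer) A x) (fun i => X (0, i)) (fun i => X (1, i)) := by
    unfold lineAt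
    rw [eval₂_mul, eval₂_C]
    rfl
  rw [hl, Polynomial.resultant_C_mul_right, map_pow]

theorem PHG_sub {σ τ : Type} (g : σ → MvPolynomial τ ℂ) (h : Mer) (F : MvPolynomial σ Mer) :
    subC Mer g (C h * F) = C h * subC Mer g F := by
  rw [map_mul]
  congr 1
  unfold subC
  rw [eval₂Hom_C]

theorem p_PHG : Stmt_PHZ → Stmt_PHN → Stmt_FNC → Stmt_ORD → Stmt_VAL → Stmt_GAU → Stmt_PHG := by
  intro hZ hN _ hO hV hG N r e Q A x z hD hx
  obtain ⟨-, hO2⟩ := hO (Fin (r + 1)) x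
  obtain ⟨hmin, i0, hi0, hi0v⟩ := hO2 hx z
  obtain ⟨h, h0, hh⟩ := PHG_unit hV z (- dv x z)
  have hpos : ∀ i, 0 ≤ om (h * x i) z := by
    intro i
    rw [(hV z).1, hh]
    by_cases hi : x i = 0
    · rw [((hV z).2.2.1 (x i)).2 hi, WithTop.add_top]
      exact le_top
    · rw [(hV z).2.2.2.2.1 (x i) hi, ← WithTop.coe_add]
      have := hmin i hi
      exact_mod_cast (by omega : (0 : ℤ) ≤ - dv x z + dv1 (x i) z)
  have hzero : ∃ i, om (h * x i) z = 0 := by
    refine ⟨i0, ?_⟩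
    rw [(hV z).1, hh, (hV z).2.2.2.2.1 (x i0) hi0, ← WithTop.coe_add, hi0v, neg_add_cancel,
      WithTop.coe_zero]
  have hd0 : h ^ (e + 1) ≠ 0 := pow_ne_zero _ h0
  have hdv := PHG_pow hV z h _ hh (e + 1)
  obtain ⟨hz1, hz2⟩ := hZ N r (e + 1) Q A (fun i => h * x i) z hD hpos hzero
  refine ⟨?_, ?_, ?_⟩
  · rw [PHG_Phi, hG, PHG_vC _ hd0, hdv] at hz1
    rw [PHG_cancel _ _ _ hz1, add_zero]
    congr 1
    push_cast
    ring
  · intro c hc
    have hz3 := hz2 c hc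
    rw [PHG_Phi, PHG_sub, hG, PHG_vC _ hd0, hdv] at hz3
    rw [PHG_cancel _ _ _ hz3, add_zero]
    congr 1
    push_cast
    ring
  · intro u hu hu2
    have hn := hN N r e Q A (fun i => h * x i) z u hD hpos hzero hu hu2
    have hs : ∑ i, h * x i * algebraMap ℂ Mer (eval u (A i)) =
        h * ∑ i, x i * algebraMap ℂ Mer (eval u (A i)) := by
      rw [Finset.mul_sum]
      exact Finset.sum_congr rfl fun i _ => mul_assoc _ _ _
    rw [PHG_Phi, PHG_sub, hG, PHG_vC _ hd0, hdv, hs, (hV z).1, hh] at hn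
    rw [PHG_cancel _ _ _ hn, ← add_assoc, ← WithTop.coe_add, add_comm]
    congr 2
    push_cast
    ring

end Pool.ThmM.Chow
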