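import Pool.Agent.Work.MP_f82ddf_M.Core

/-! Block PHN (helper76): order of the Chow form at a smooth point -/

set_option autoImplicit false

open Pool.Agent.Work.MP_f82ddf_nt.DQ

namespace Pool.ThmM.Chow

open MvPolynomial
open Pool.Agent.Work.MP_f82ddf_M5 (lineAt resAt chow at2 comb Data)

theorem PHN_comb {N n : ℕ} {R R' : Type} [CommRing R] [CommRing R'] (φ : ℂ →+* R) (ψ : R →+* R')
    (A : Fin (n + 1) → MvPolynomial (Fin N) ℂ) (x : Fin (n + 1) → R) :
    map ψ (comb φ A x) = comb (ψ.comp φ) A (fun i => ψ (x i)) := by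
  unfold comb
  rw [map_sum]
  refine Finset.sum_congr rfl fun i _ => ?_
  rw [map_mul, map_C, map_map]

theorem PHN_hom {N n D : ℕ} {R : Type} [CommRing R] (φ : ℂ →+* R)
    (A : Fin (n + 1) → MvPolynomial (Fin N) ℂ) (x : Fin (n + 1) → R)
    (hA : ∀ i, (A i).IsHomogeneous D) : (comb φ A x).IsHomogeneous D := by
  unfold comb
  refine IsHomogeneous.sum _ _ _ fun i _ => ?_
  have h1 := (isHomogeneous_C (Fin N) (x i)).mul ((hA i).map φ)
  rwa [zero_add] at h1

theorem PHN_res (hFUN : Pool.Agent.Work.MP_f82ddf_M5.Stmt_FUN) {N : ℕ} {R R' : Type} [CommRing R]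
    [CommRing R'] (ψ : R →+* R') (F G : MvPolynomial (Fin N) R) (c : Fin N → R) (e D : ℕ) :
    map ψ (resAt C F G (fun j => C (c j)) X e D) =
      resAt C (map ψ F) (map ψ G) (fun j => C (ψ (c j))) X e D := by
  have h1 := hFUN.2.2.1 N e D R (MvPolynomial (Fin N) R) (MvPolynomial (Fin N) R') C (map ψ) F G
    (fun j => C (c j)) X
  have h2 := hFUN.2.2.2.1 N e D R R' (MvPolynomial (Fin N) R') C ψ F G
    (fun j => C (ψ (c j))) X
  rw [h1, h2]
  have h3 : (map ψ).comp (C : R →+* MvPolynomial (Fin N) R) =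
      (C : R' →+* MvPolynomial (Fin N) R').comp ψ := by
    ext a
    simp
  rw [h3]
  congr 1
  · funext j
    exact map_C _ _
  · funext j
    exact map_X _ _

theorem PHN_eval (hFUN : Pool.Agent.Work.MP_f82ddf_M5.Stmt_FUN) {N : ℕ}
    (F G : MvPolynomial (Fin N) ℂ) (c b : Fin N → ℂ) (e D : ℕ) :
    eval b (resAt C F G (fun j => C (c j)) X e D) = resAt (RingHom.id ℂ) F G c b e D := by
  have h1 := hFUN.2.2.1 N e D ℂ (MvPolynomial (Fin N) ℂ) ℂ C (eval b) F G
    (fun j => C (c j)) X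
  rw [h1]
  have h3 : (eval b).comp (C : ℂ →+* MvPolynomial (Fin N) ℂ) = RingHom.id ℂ := by
    ext a
    simp
  rw [h3]
  congr 1
  · funext j
    exact eval_C _
  · funext j
    exact eval_X _

theorem PHN_C (hVAL : Pool.ThmM.Stmt_VAL) {σ : Type} (g : Mer) (z : ℂ) :
    vP (C g : MvPolynomial σ Mer) z = om g z := by
  classical
  unfold vP
  by_cases hg : g = 0
  · subst hg
    rw [map_zero, support_zero, Finset.inf_empty]
    exact (((hVAL z).2.2.1 0).2 rfl).symm
  · have h1 : (C g : MvPolynomial σ Mer).support = {0} := by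
      rw [C_apply, support_monomial, if_neg hg]
    rw [h1, Finset.inf_singleton, coeff_C, if_pos rfl]

theorem p_PHN (hFUN : Pool.Agent.Work.MP_f82ddf_M5.Stmt_FUN)
    (hPTD : Pool.Agent.Work.MP_f82ddf_M5.Stmt_PTD)
    (hIDE : Pool.Agent.Work.MP_f82ddf_M5.Stmt_IDE) (hFNC : Stmt_FNC) (hFCH : Stmt_FCH)
    (hOZE : Stmt_OZE) (hRDA : Stmt_RDA) (hGAU : Pool.ThmM.Stmt_GAU) (hORD : Pool.ThmM.Stmt_ORD)
    (hVAL : Pool.ThmM.Stmt_VAL) : Stmt_PHN := by
  intro N r e Q A x z u hD h0 hex hQu hsm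
  -- the identity on `Q = 0`
  have h1 := hFCH.2.2.1 N r (e + 1) (Fin N) Mer Q A x (fun j => C (u j)) X
  have h2 : subC Mer (gU u) (Phi Mer (e + 1) Q A x) =
      resAt C (map (algebraMap ℂ Mer) Q) (comb (algebraMap ℂ Mer) A x)
        (fun j => C (algebraMap ℂ Mer (u j))) X (e + 1) (e + 1) := by
    refine h1.trans ?_
    congr 1
    · funext j
      exact map_C _ _
    · funext j
      exact map_X _ _
  have hev : ∀ F : MvPolynomial (Fin N) Mer,
      eval₂ (C : Mer →+* MvPolynomial (Fin N) Mer) (fun j => C (algebraMap ℂ Mer (u j))) F =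
        C (eval (fun j => algebraMap ℂ Mer (u j)) F) := by
    intro F
    have h3 := MvPolynomial.eval₂_comp_left (C : Mer →+* MvPolynomial (Fin N) Mer)
      (RingHom.id Mer) (fun j => algebraMap ℂ Mer (u j)) F
    rw [RingHom.comp_id] at h3
    exact h3.symm
  have hevm : ∀ P : MvPolynomial (Fin N) ℂ, eval (fun j => algebraMap ℂ Mer (u j))
      (map (algebraMap ℂ Mer) P) = algebraMap ℂ Mer (eval u P) := by
    intro P
    rw [eval_map]
    have h3 := MvPolynomial.eval₂_comp_left (algebraMap ℂ Mer) (RingHom.id ℂ) u P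
    rw [RingHom.comp_id] at h3
    exact h3.symm
  have hG : eval (fun j => algebraMap ℂ Mer (u j)) (comb (algebraMap ℂ Mer) A x) =
      ∑ i, x i * algebraMap ℂ Mer (eval u (A i)) := by
    unfold comb
    rw [map_sum]
    refine Finset.sum_congr rfl fun i _ => ?_
    rw [map_mul, eval_C, hevm]
  have h4 := hIDE N e (e + 1) Mer (MvPolynomial (Fin N) Mer) C (map (algebraMap ℂ Mer) Q)
    (comb (algebraMap ℂ Mer) A x) (fun j => C (algebraMap ℂ Mer (u j))) X (hD.hom.map _)
    (PHN_hom _ A x hD.homA) (by rw [hev, hevm, hQu, map_zero, map_zero])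
  rw [hev, hG] at h4
  rw [h2, h4]
  -- the remaining resultant has order `0`
  obtain ⟨O, θ, hLoc⟩ := hOZE z
  obtain ⟨x', hx'⟩ : ∃ x' : Fin (r + 1) → O, ∀ i, (x' i : Mer) = x i :=
    ⟨fun i => ⟨x i, (hLoc.mem _).2 (h0 i)⟩, fun i => rfl⟩
  have hy : (fun i => θ (x' i)) ≠ 0 := by
    intro h5
    obtain ⟨i, hi⟩ := hex
    have h6 : θ (x' i) = 0 := congrFun h5 i
    have h7 := (hLoc.zero (x' i)).1 h6
    rw [hx' i, hi] at h7
    exact absurd h7 (by decide)
  have hnd : ¬ Q ∣ comb (RingHom.id ℂ) A (fun i => θ (x' i)) := fun h5 => hy (hD.nd _ h5)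
  obtain ⟨b, hb, _⟩ := hPTD N e (e + 1) Q (comb (RingHom.id ℂ) A (fun i => θ (x' i))) 1 u hD.irr
    hD.hom (PHN_hom _ A _ hD.homA) hnd hQu hsm one_ne_zero
  have hρ0 : resAt C Q (comb (RingHom.id ℂ) A (fun i => θ (x' i))) (fun j => C (u j)) X e (e + 1) ≠
      0 := by
    intro h5
    apply hb
    rw [← PHN_eval hFUN, h5, map_zero]
  have hθ : (θ : O →+* ℂ).comp (algebraMap ℂ O) = RingHom.id ℂ := by
    ext a
    exact θ.commutes a
  have hv : (O.val : O →+* Mer).comp (algebraMap ℂ O) = algebraMap ℂ Mer := by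
    ext a
    rfl
  have hred : map (θ : O →+* ℂ) (resAt C (map (algebraMap ℂ O) Q) (comb (algebraMap ℂ O) A x')
      (fun j => C (algebraMap ℂ O (u j))) X e (e + 1)) =
      resAt C Q (comb (RingHom.id ℂ) A (fun i => θ (x' i))) (fun j => C (u j)) X e (e + 1) := by
    rw [PHN_res hFUN, PHN_comb, map_map, hθ, map_id]
    congr 1
    funext j
    exact congrArg C (θ.commutes (u j))
  have hval : map (O.val : O →+* Mer) (resAt C (map (algebraMap ℂ O) Q)
      (comb (algebraMap ℂ O) A x') (fun j => C (algebraMap ℂ O (u j))) X e (e + 1)) =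
      resAt C (map (algebraMap ℂ Mer) Q) (comb (algebraMap ℂ Mer) A x)
        (fun j => C (algebraMap ℂ Mer (u j))) X e (e + 1) := by
    rw [PHN_res hFUN, PHN_comb, map_map, hv]
    have h5 : (fun i => (O.val : O →+* Mer) (x' i)) = x := funext hx'
    rw [h5]
    rfl
  have h8 := ((hRDA (Fin N) z O θ hLoc).1 (resAt C (map (algebraMap ℂ O) Q)
    (comb (algebraMap ℂ O) A x') (fun j => C (algebraMap ℂ O (u j))) X e (e + 1))).2.1
    (by rw [hred]; exact hρ0)
  rw [hval] at h8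
  -- orders
  have h9 : ((-1) ^ (e + 1) * C (∑ i, x i * algebraMap ℂ Mer (eval u (A i))) :
      MvPolynomial (Fin N) Mer) =
      C (algebraMap ℂ Mer ((-1) ^ (e + 1)) * ∑ i, x i * algebraMap ℂ Mer (eval u (A i))) := by
    rw [map_mul, map_pow, map_pow]
    simp
  rw [h9, hGAU, h8, add_zero, PHN_C hVAL, (hVAL z).1, (hVAL z).2.2.2.1 _ (by
    exact pow_ne_zero _ (neg_ne_zero.2 one_ne_zero)), zero_add]

end Pool.ThmM.Chow
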