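import Pool.Agent.Work.MP_f82ddf_M.Core

/-!
# Block PHZ (helper26)
-/

set_option autoImplicit false

open Topology Filter
open scoped Differential
open Pool.Agent.Work.MP_f82ddf_nt.DQ

namespace Pool.ThmM.Chow

open MvPolynomial
open Pool.Agent.Work.MP_f82ddf_M5 (lineAt resAt chow at2 comb Data)

/-- coordinates in the local ring -/
theorem PHZ_red {r : ℕ} (x : Fin (r + 1) → Mer) (z : ℂ) (hx : ∀ i, 0 ≤ om (x i) z)
    (hx0 : ∃ i, om (x i) z = 0) (O : Subalgebra ℂ Mer) (θ : O →ₐ[ℂ] ℂ) (hL : LocAt z O θ) :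
    ∃ x' : Fin (r + 1) → O, (∀ i, (x' i : Mer) = x i) ∧ (fun i => θ (x' i)) ≠ 0 := by
  have hmem : ∀ i, x i ∈ O := fun i => (hL.mem _).mpr (hx i)
  refine ⟨fun i => ⟨x i, hmem i⟩, fun i => rfl, ?_⟩
  intro h0
  obtain ⟨i₀, h3⟩ := hx0
  have h1 := congrFun h0 i₀
  have h2 := (hL.zero ⟨x i₀, hmem i₀⟩).mp h1
  rw [show ((⟨x i₀, hmem i₀⟩ : O) : Mer) = x i₀ from rfl, h3] at h2
  exact absurd h2 (by decide)

theorem p_PHZ : Pool.Agent.Work.MP_f82ddf_M5.Stmt_LINE → Stmt_NZE → Stmt_FNC → Stmt_FCH →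
    Stmt_OZE → Stmt_RDA → Stmt_PHZ := by
  intro hLINE hNZE hFNC hFCH hOZE hRDA N r d Q A x z hD hx hx0
  have hhom : ∀ y : Fin (r + 1) → ℂ, (comb (RingHom.id ℂ) A y).IsHomogeneous d := by
    intro y
    unfold comb
    refine IsHomogeneous.sum _ _ _ fun i _ => ?_
    have h1 := (isHomogeneous_C (Fin N) (y i)).mul ((hD.homA i).map (RingHom.id ℂ))
    rwa [zero_add] at h1
  obtain ⟨O, θ, hL⟩ := hOZE z
  obtain ⟨x', hx', hy⟩ := PHZ_red x z hx hx0 O θ hL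
  have h1 : map (O.val : O →+* Mer) (Phi O d Q A x') = Phi Mer d Q A x := by
    rw [hFCH.1 N r d O Mer (O.val : O →+* Mer) Q A x' rfl]
    congr 1
    funext i
    exact hx' i
  have h2 : map (θ : O →+* ℂ) (Phi O d Q A x') =
      chow d d Q (comb (RingHom.id ℂ) A (fun i => θ (x' i))) := by
    rw [hFCH.1 N r d O ℂ (θ : O →+* ℂ) Q A x' (by ext; simp), hFCH.2.1]
    rfl
  refine ⟨?_, ?_⟩
  · rw [← h1]
    refine ((hRDA _ z O θ hL).1 (Phi O d Q A x')).2.mp ?_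
    rw [h2]
    exact hLINE N d d Q _ hD.irr hD.hom (hhom _) fun h => hy (hD.nd _ h)
  · intro e he
    rw [← h1, ← hFNC.1 (Fin 2 × Fin N) (Fin N) O Mer (O.val : O →+* Mer) (gE e) _ rfl]
    refine ((hRDA _ z O θ hL).1 (subC O (gE e) (Phi O d Q A x'))).2.mp ?_
    rw [hFNC.1 (Fin 2 × Fin N) (Fin N) O ℂ (θ : O →+* ℂ) (gE e) _ (by ext; simp), h2]
    exact hNZE N d d Q _ e hD.irr hD.hom (hhom _) (fun h => hy (hD.nd _ h)) he

end Pool.ThmM.Chow
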