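import Pool.Agent.Work.MP_f82ddf_M.Core

set_option autoImplicit false

/-! Block PLC (helper54): the plane theorem for one node (assembly). -/

open Topology Filter
open scoped Differential
open Pool.Agent.Work.MP_f82ddf_nt.DQ

namespace Pool.ThmM.Chow

open MvPolynomial
open Pool.Agent.Work.MP_f82ddf_M5 (lineAt resAt chow at2 comb Data)

/-! ### values -/

theorem PLC_eval_map {τ : Type} (G : MvPolynomial τ ℂ) (p : τ → ℂ) :
    eval (fun i => algebraMap ℂ Mer (p i)) (map (algebraMap ℂ Mer) G) =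
      algebraMap ℂ Mer (eval p G) := by
  rw [eval_map]
  exact (eval₂_comp_left (algebraMap ℂ Mer) (RingHom.id ℂ) p G).symm

theorem PLC_evC_map {τ : Type} (G : MvPolynomial τ ℂ) (p : τ → ℂ) :
    evC p (map (algebraMap ℂ Mer) G) = algebraMap ℂ Mer (eval p G) := PLC_eval_map G p

theorem PLC_evC_mul {τ : Type} (F G : MvPolynomial τ Mer) (p : τ → ℂ) :
    evC p (F * G) = evC p F * evC p G := map_mul _ F G

theorem PLC_evC_subC {σ τ : Type} (g : σ → MvPolynomial τ ℂ) (F : MvPolynomial σ Mer) (p : τ → ℂ) :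
    evC p (subC Mer g F) = evC (fun i => eval p (g i)) F := by
  unfold evC subC
  induction F using MvPolynomial.induction_on with
  | C a => simp
  | add F G hF hG => rw [map_add, map_add, map_add, hF, hG]
  | mul_X F i hF => rw [map_mul, map_mul, map_mul, hF, eval₂Hom_X', PLC_eval_map, eval_X]

theorem PLC_gU {N : ℕ} (u θ : Fin N → ℂ) : (fun i => eval θ (gU u i)) = ppt u θ := by
  funext p
  unfold gU ppt
  split_ifs
  · exact eval_C _
  · exact eval_X _

theorem PLC_evC_gU {N : ℕ} (u θ : Fin N → ℂ) (R : MvPolynomial (Fin 2 × Fin N) Mer) :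
    evC θ (subC Mer (gU u) R) = evC (ppt u θ) R := by
  rw [PLC_evC_subC, PLC_gU]

theorem PLC_neg {N ρ : ℕ} (u θ : Fin N → ℂ) (R : MvPolynomial (Fin 2 × Fin N) Mer)
    (hR : PluF ρ R) :
    evC (ppt u (fun j => - θ j)) R = (-1) ^ ρ * evC (ppt u θ) R := by
  have h := (hR Mer (RingHom.id Mer) (fun j => algebraMap ℂ Mer (u j))
    (fun j => algebraMap ℂ Mer (θ j)) (-1)).2.2.2
  have e1 : ∀ b : Fin N → ℂ, at2 (RingHom.id Mer) (fun j => algebraMap ℂ Mer (u j))
      (fun j => algebraMap ℂ Mer (b j)) R = evC (ppt u b) R := by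
    intro b
    show eval₂ (RingHom.id Mer) _ R = eval₂ (RingHom.id Mer) _ R
    congr 1
    funext p
    show (if p.1 = 0 then _ else _) = algebraMap ℂ Mer (if p.1 = 0 then u p.2 else b p.2)
    split_ifs <;> rfl
  have e2 : (fun j => (-1 : Mer) * algebraMap ℂ Mer (θ j)) =
      fun j => algebraMap ℂ Mer ((fun j => - θ j) j) := by
    funext j
    simp
  rw [e2, e1, e1] at h
  exact h

/-! ### orders -/

theorem PLC_vP_map (hVAL : Stmt_VAL) {τ : Type} (G : MvPolynomial τ ℂ) (hG : G ≠ 0) (z : ℂ) :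
    vP (map (algebraMap ℂ Mer) G) z = 0 := by
  unfold vP
  rw [support_map_of_injective G (algebraMap ℂ Mer).injective]
  have h1 : ∀ α ∈ G.support, om (coeff α (map (algebraMap ℂ Mer) G)) z = 0 := by
    intro α hα
    rw [coeff_map]
    exact (hVAL z).2.2.2.1 _ (mem_support_iff.1 hα)
  apply le_antisymm
  · obtain ⟨α, hα⟩ := support_nonempty.2 hG
    rw [← h1 α hα]
    exact Finset.inf_le hα
  · exact Finset.le_inf fun α hα => (h1 α hα).ge

theorem PLC_countable (D : Function.locallyFinsupp ℂ ℤ) : {z | D z ≠ 0}.Countable := by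
  have h1 := D.eq_zero_codiscreteWithin
  have h2 : {z : ℂ | ¬ (D z = 0)}.Countable := by
    have h3 := (mem_codiscrete'.1 h1).2
    exact (HereditarilyLindelofSpace.isLindelof _).countable_of_isDiscrete h3
  exact h2

theorem PLC_low (hLOW : Stmt_LOW) {σ : Type} (F : MvPolynomial σ Mer) (hF : F ≠ 0) :
    ∃ K : ℝ, ∀ t : ℝ, 1 ≤ t → - K ≤ TP F t := by
  classical
  obtain ⟨α, hα⟩ := support_nonempty.2 hF
  have hα' := mem_support_iff.1 hα
  obtain ⟨-, C, K, -, -, h⟩ := hLOW F.support (cf F)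
    (fun β => if β = ⟨α, hα⟩ then 1 else 0) (coeff α F) (by
      rw [Finset.sum_eq_single (⟨α, hα⟩ : F.support)]
      · rw [if_pos rfl, map_one, one_mul]
        rfl
      · intro β _ hβ
        rw [if_neg hβ, map_zero, zero_mul]
      · intro h
        exact absurd (Finset.mem_univ _) h) hα'
  exact ⟨K, h⟩

/-- the height of a factor -/
theorem PLC_hfac (hLOW : Stmt_LOW) (hGEL : Stmt_GEL) {σ : Type} [Finite σ]
    (F G : MvPolynomial σ Mer) (hF : F ≠ 0) (hG : G ≠ 0) :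
    ∃ K : ℝ, ∀ t : ℝ, 1 ≤ t → TP G t ≤ TP (F * G) t + K := by
  obtain ⟨K, hK⟩ := PLC_low hLOW F hF
  obtain ⟨C, hC⟩ := hGEL σ F G hF hG
  refine ⟨K + C, fun t ht => ?_⟩
  have h1 := hK t ht
  have h2 := (hC t (by linarith)).2
  rw [abs_le] at h2
  linarith [h2.1]

/-- the degree 0 case -/
theorem PLC_deg0 {F : MvPolynomial (Fin 3) Mer} (hF : F.IsHomogeneous 0) :
    ∃ c : Mer, F = C c := by
  refine ⟨coeff 0 F, ?_⟩
  rw [← totalDegree_eq_zero_iff_eq_C]
  exact Nat.le_zero.1 hF.totalDegree_le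

theorem p_PLC : Stmt_IRR → Stmt_BAI → Stmt_QPP → Stmt_PLS → Stmt_PSI → Stmt_DFF → Stmt_PFC →
    Stmt_RDN → Stmt_LSB → M4P.PLANE → Stmt_VAL → Stmt_GAU → Stmt_VPD → Stmt_GEL → Stmt_LOW →
    Stmt_NNP → Stmt_PLC := by
  intro hIRR hBAI hQPP hPLS hPSI hDFF hPFC hRDN hLSB hPLANE hVAL hGAU hVPD hGEL hLOW hNNP
  intro N r d ρ Q A x u e R Rc hd hData hQu hder hQe hxu hPhi hplu hnode hfne
  -- notation
  obtain ⟨f, hf⟩ : ∃ f, f = evC (ppt u e) R := ⟨_, rfl⟩
  rw [← hf] at hfne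
  obtain ⟨Gu, hGu⟩ : ∃ G, G = subC Mer (gU u) R := ⟨_, rfl⟩
  rw [← hGu] at hnode
  have hfG : evC e Gu = f := by rw [hGu, PLC_evC_gU, hf]
  have hGu0 : Gu ≠ 0 := by
    intro h
    rw [h] at hfG
    exact hfne (by rw [← hfG]; exact map_zero _)
  have hR0 : R ≠ 0 := by
    intro h
    rw [h] at hf
    exact hfne (by rw [hf]; exact map_zero _)
  -- orders as integers
  have hom : ∀ (y : Mer) (z : ℂ), y ≠ 0 → om y z = ((dv1 y z : ℤ) : WithTop ℤ) :=
    fun y z hy => (hVAL z).2.2.2.2.1 y hy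
  have homul : ∀ (y y' : Mer) (z : ℂ), om (y * y') z = om y z + om y' z :=
    fun y y' z => (hVAL z).1 y y'
  have hom0 : ∀ (a : ℂ) (z : ℂ), a ≠ 0 → om (algebraMap ℂ Mer a) z = 0 :=
    fun a z ha => (hVAL z).2.2.2.1 a ha
  -- the exceptional set
  obtain ⟨Z, hZ⟩ : ∃ Z : Set ℂ, Z = {z | om f z = vP R z + 1} := ⟨_, rfl⟩
  have hZc : Z.Countable := by
    refine ((PLC_countable (dv1 f)).union (PLC_countable (dvP R))).mono ?_
    intro z hz
    rw [hZ, Set.mem_ofPred_eq, hom f z hfne, hVPD _ R hR0 z] at hz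
    have h1 : dv1 f z = dvP R z + 1 := by exact_mod_cast hz
    by_contra hcon
    rw [Set.mem_union, not_or, Set.mem_ofPred_eq, Set.mem_ofPred_eq, not_not, not_not] at hcon
    omega
  have hZG : ∀ z ∈ Z, vP Gu z = vP R z := by
    intro z hz
    rw [hZ, Set.mem_ofPred_eq] at hz
    have h1 : vP R z ≤ vP Gu z := by
      rw [hGu]
      exact ((hLSB _ R).2 _ (gU u)).1 z
    have h2 : vP Gu z ≤ om f z := by
      rw [← hfG]
      exact (hLSB _ Gu).1 e z
    have h3 := hnode z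
    rw [hz] at h2
    rw [hVPD _ R hR0 z, hVPD _ Gu hGu0 z] at h1 h2 h3
    rw [hVPD _ R hR0 z, hVPD _ Gu hGu0 z]
    have h1' : dvP R z ≤ dvP Gu z := by exact_mod_cast h1
    have h2' : dvP Gu z ≤ dvP R z + 1 := by exact_mod_cast h2
    have h3' : dvP Gu z ≠ dvP R z + 1 := by
      intro h
      apply h3
      rw [h]
      norm_cast
    have h4 : dvP Gu z = dvP R z := by omega
    rw [h4]
  have hgex : ∀ z : ℂ, ∃ F₀ : MvPolynomial (Fin N) ℂ, F₀ ≠ 0 ∧
      ∀ p : Fin N → ℂ, eval p F₀ ≠ 0 → om (evC p Gu) z = vP Gu z :=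
    fun z => hRDN _ Gu z hGu0
  choose g hg0 hg using hgex
  obtain ⟨G, hG0, hG⟩ := hIRR N d Q u e hData.irr hData.hom hQu hder hQe
  obtain ⟨θ, hθG, hθg⟩ := hBAI N Z g G hZc (fun z _ => hg0 z) hG0
  have hirr := hG θ hθG
  have hθ : ∀ z ∈ Z, om (evC (ppt u θ) R) z = vP R z := by
    intro z hz
    have h1 := hg z θ (hθg z hz)
    rw [hZG z hz] at h1
    rw [← h1, hGu, PLC_evC_gU]
  -- the plane
  obtain ⟨F₁, hF₁h, hF₁, hF₁D⟩ := hPSI ρ Mer (subC Mer (gP u e θ) R) (hPLS N ρ Mer R u e θ hplu)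
  obtain ⟨hqh, hqv, hqd, hqF⟩ := hQPP N d Q u e θ hData.hom
  have hv1 : evC ![0, 0, 1] F₁ = f := by
    have h1 := hqF Mer R F₁ ![1, 0, 0] ![0, 1, 0] hF₁
    have e1 : crs ![(1 : ℂ), 0, 0] ![0, 1, 0] = ![0, 0, 1] := by
      unfold crs
      simp
    have e2 : (fun j => u j * (![1, 0, 0] : Fin 3 → ℂ) 0 + e j * (![1, 0, 0] : Fin 3 → ℂ) 1 +
        θ j * (![1, 0, 0] : Fin 3 → ℂ) 2) = u := by
      funext j
      simp
    have e3 : (fun j => u j * (![0, 1, 0] : Fin 3 → ℂ) 0 + e j * (![0, 1, 0] : Fin 3 → ℂ) 1 +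
        θ j * (![0, 1, 0] : Fin 3 → ℂ) 2) = e := by
      funext j
      simp
    rw [e1, e2, e3] at h1
    rw [hf]
    exact h1
  have hv2 : evC ![0, 1, 0] F₁ = (-1) ^ ρ * evC (ppt u θ) R := by
    have h1 := hqF Mer R F₁ ![1, 0, 0] ![0, 0, -1] hF₁
    have e1 : crs ![(1 : ℂ), 0, 0] ![0, 0, -1] = ![0, 1, 0] := by
      unfold crs
      simp
    have e2 : (fun j => u j * (![1, 0, 0] : Fin 3 → ℂ) 0 + e j * (![1, 0, 0] : Fin 3 → ℂ) 1 +
        θ j * (![1, 0, 0] : Fin 3 → ℂ) 2) = u := by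
      funext j
      simp
    have e3 : (fun j => u j * (![0, 0, -1] : Fin 3 → ℂ) 0 + e j * (![0, 0, -1] : Fin 3 → ℂ) 1 +
        θ j * (![0, 0, -1] : Fin 3 → ℂ) 2) = fun j => - θ j := by
      funext j
      simp
    rw [e1, e2, e3] at h1
    rw [← PLC_neg u θ R hplu]
    exact h1
  have hv2o : ∀ z ∈ Z, om (evC ![0, 1, 0] F₁) z = vP R z := by
    intro z hz
    have h1 : ((-1 : Mer)) ^ ρ = algebraMap ℂ Mer ((-1) ^ ρ) := by simp
    rw [hv2, homul, h1, hom0 _ z (pow_ne_zero _ (by norm_num)), zero_add]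
    exact hθ z hz
  have hF₁0 : F₁ ≠ 0 := by
    intro h
    rw [h] at hv1
    exact hfne (by rw [← hv1]; exact map_zero _)
  obtain ⟨M, hM⟩ : ∃ M : MvPolynomial (Fin 3) Mer, M = X 2 ^ ρ := ⟨_, rfl⟩
  have hMmap : M = map (algebraMap ℂ Mer) (X 2 ^ ρ) := by
    rw [hM]
    simp
  have hM0 : M ≠ 0 := by
    rw [hM]
    exact pow_ne_zero _ (X_ne_zero _)
  have hMv : ∀ z, vP M z = 0 := by
    intro z
    rw [hMmap]
    exact PLC_vP_map hVAL _ (pow_ne_zero _ (X_ne_zero _)) z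
  rw [← hM] at hF₁D
  have hMF₁ : M * F₁ ≠ 0 := mul_ne_zero hM0 hF₁0
  have hD0 : subC Mer gD (subC Mer (gP u e θ) R) ≠ 0 := by rw [hF₁D]; exact hMF₁
  have hP0 : subC Mer (gP u e θ) R ≠ 0 := by
    intro h
    rw [h] at hD0
    exact hD0 (map_zero _)
  -- (5)
  have hvF₁ : ∀ z ∈ Z, vP F₁ z = vP R z := by
    intro z hz
    apply le_antisymm
    · rw [← hv2o z hz]
      exact (hLSB _ F₁).1 _ z
    · have h1 := ((hLSB _ R).2 _ (gP u e θ)).1 z
      have h2 := ((hLSB _ (subC Mer (gP u e θ) R)).2 _ gD).1 z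
      rw [hF₁D, hGAU _ M F₁ z, hMv z, zero_add] at h2
      exact h1.trans h2
  -- (6)
  obtain ⟨ρ', Fx, F, hF₁F, hFh, hmov⟩ := hDFF ρ F₁ hF₁0 hF₁h
  have hFx0 : Fx ≠ 0 := by
    intro h
    apply hF₁0
    rw [hF₁F, h, map_zero, zero_mul]
  have hmFx0 : map (algebraMap ℂ Mer) Fx ≠ 0 := by
    intro h
    apply hF₁0
    rw [hF₁F, h, zero_mul]
  have hF0 : F ≠ 0 := by
    intro h
    apply hF₁0
    rw [hF₁F, h, mul_zero]
  have hvF : ∀ z, vP F z = vP F₁ z := by
    intro z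
    rw [hF₁F, hGAU, PLC_vP_map hVAL _ hFx0 z, zero_add]
  have hevF : ∀ p : Fin 3 → ℂ, evC p F₁ = algebraMap ℂ Mer (eval p Fx) * evC p F := by
    intro p
    rw [hF₁F, PLC_evC_mul, PLC_evC_map]
  have homF : ∀ (p : Fin 3 → ℂ) (z : ℂ), evC p F₁ ≠ 0 → om (evC p F) z = om (evC p F₁) z := by
    intro p z hp
    have h1 : eval p Fx ≠ 0 := by
      intro h
      apply hp
      rw [hevF, h, map_zero, zero_mul]
    rw [hevF, homul, hom0 _ z h1, zero_add]
  have hfF : ∀ z, om (evC ![0, 0, 1] F) z = om f z := by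
    intro z
    rw [homF _ z (by rw [hv1]; exact hfne), hv1]
  have hfF0 : evC ![0, 0, 1] F ≠ 0 := by
    intro h
    apply hfne
    rw [← hv1, hevF, h, mul_zero]
  -- (7) heights
  have hH : ∃ K : ℝ, ∀ t : ℝ, 1 ≤ t → TP F t ≤ TP R t + K := by
    obtain ⟨K1, hK1⟩ := PLC_hfac hLOW hGEL _ F hmFx0 hF0
    obtain ⟨K2, hK2⟩ := PLC_hfac hLOW hGEL _ F₁ hM0 hF₁0
    obtain ⟨K3, hK3⟩ := ((hLSB _ (subC Mer (gP u e θ) R)).2 _ gD).2 hD0
    obtain ⟨K4, hK4⟩ := ((hLSB _ R).2 _ (gP u e θ)).2 hP0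
    refine ⟨K1 + K2 + K3 + K4, fun t ht => ?_⟩
    have h1 := hK1 t ht
    have h2 := hK2 t ht
    have h3 := (hK3 t ht).2
    have h4 := (hK4 t ht).2
    rw [← hF₁F] at h1
    rw [← hF₁D] at h2
    linarith
  obtain ⟨K, hK⟩ := hH
  by_cases hρ' : ρ' = 0
  · -- (8)
    subst hρ'
    obtain ⟨c, hc⟩ := PLC_deg0 hFh
    have hc0 : c ≠ 0 := by
      intro h
      apply hF0
      rw [hc, h, map_zero]
    have hZe : ∀ z, z ∉ Z := by
      intro z hz
      have h1 : om f z = om c z := by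
        rw [← hfF z, hc]
        congr 1
        exact eval_C _
      have h2 : vP F z = om c z := by
        have h3 := hGAU _ F F z
        have h4 : vP F z = om (coeff 0 F) z := by
          unfold vP
          have h5 : F.support = {0} := by
            rw [hc]
            ext α
            rw [mem_support_iff, coeff_C, Finset.mem_singleton]
            constructor
            · intro h
              by_contra hcon
              rw [if_neg (fun h' => hcon h'.symm)] at h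
              exact h rfl
            · intro h
              rw [if_pos h.symm]
              exact hc0
          rw [h5, Finset.inf_singleton]
        rw [h4, hc, coeff_C, if_pos rfl]
      have h3 := hvF₁ z hz
      rw [← hvF z, h2, ← h1] at h3
      rw [hZ, Set.mem_ofPred_eq, h3, hVPD _ R hR0 z] at hz
      have h4 : dvP R z = dvP R z + 1 := by exact_mod_cast hz
      omega
    obtain ⟨K2, hK2⟩ := PLC_low hLOW R hR0
    refine ⟨((d ^ 2 - 1 : ℕ) : ℝ) * K2, fun D hD t ht => ?_⟩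
    have hD0 : D = 0 := by
      ext z
      rcases hD z with h | ⟨_, h⟩
      · exact h
      · exfalso
        apply hZe z
        rw [hZ, Set.mem_ofPred_eq, hf]
        exact h
    have hN0 : NN D t = 0 := by
      have h1 := hNNP.2.1 D D t
      rw [sub_self, sub_self] at h1
      rw [hD0]
      exact h1
    rw [hN0, mul_zero]
    have h1 := hK2 t ht
    have h2 : 0 ≤ ((d ^ 2 - 1 : ℕ) : ℝ) * (TP R t + K2) :=
      mul_nonneg (Nat.cast_nonneg _) (by linarith)
    linarith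
  · -- (9)
    have hρ1 : 1 ≤ ρ' := Nat.one_le_iff_ne_zero.2 hρ'
    obtain ⟨E, hE, hEf⟩ := hPFC N r d ρ' Q A x u e θ R Rc Fx F hd hData hirr hQe hQu hxu hPhi
      (by rw [hF₁, hF₁F]) hFh hF0 hρ1
    have hDat : M4P.Dat ρ' (qp u e θ Q) F E := ⟨hFh, hE, hEf, hmov⟩
    obtain ⟨C, hC⟩ := hPLANE ρ' d (qp u e θ Q) F E hirr hqh (by
        rw [hqv]
        have : (fun j => u j * (![1, 0, 0] : Fin 3 → ℂ) 0 + e j * (![1, 0, 0] : Fin 3 → ℂ) 1 +
            θ j * (![1, 0, 0] : Fin 3 → ℂ) 2) = u := by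
          funext j
          simp
        rw [this]
        exact hQu) (by rw [hqd]; exact hder) (by
        rw [hqv]
        have : (fun j => u j * (![0, 1, 0] : Fin 3 → ℂ) 0 + e j * (![0, 1, 0] : Fin 3 → ℂ) 1 +
            θ j * (![0, 1, 0] : Fin 3 → ℂ) 2) = e := by
          funext j
          simp
        rw [this]
        exact hQe) hDat hfF0
    refine ⟨((d ^ 2 - 1 : ℕ) : ℝ) * K + C, fun D hD t ht => ?_⟩
    have h1 := hC D (fun z => by
      rcases hD z with h | ⟨h, _⟩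
      · exact h.ge
      · show (0 : ℤ) ≤ D z
        rw [h]
        norm_num) (fun z hz => by
      rcases hD z with h | ⟨h, h'⟩
      · exact absurd h hz.ne'
      · have hzZ : z ∈ Z := by
          rw [hZ, Set.mem_ofPred_eq, hf]
          exact h'
        have hne : evC ![0, 1, 0] F₁ ≠ 0 := by
          intro h0
          have h2 := hv2o z hzZ
          rw [h0, hVPD _ R hR0 z, ((hVAL z).2.2.1 0).2 rfl] at h2
          exact WithTop.top_ne_coe h2
        constructor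
        · rw [homF _ z hne, hv2o z hzZ, hvF z, hvF₁ z hzZ]
        · rw [hfF z, hvF z, hvF₁ z hzZ, h, hf, h']
          norm_cast) t ht
    have h2 := mul_le_mul_of_nonneg_left (hK t ht) (Nat.cast_nonneg (d ^ 2 - 1) : (0 : ℝ) ≤ _)
    linarith

end Pool.ThmM.Chow
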