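import Pool.Agent.Work.MP_f82ddf_M.Chow

set_option autoImplicit false

/-! # Block PLS (helper30) -/

open Topology Filter
open scoped Differential
open Pool.Agent.Work.MP_f82ddf_nt.DQ

namespace Pool.ThmM.Chow

open MvPolynomial
open Pool.Agent.Work.MP_f82ddf_M5 (lineAt resAt chow at2 comb Data)

/-- the point of the plane with coordinates `a` -/
def PLS_pt {N : ℕ} {B : Type} [CommRing B] (ψ : ℂ →+* B) (u e θ : Fin N → ℂ) (a : Fin 3 → B) :
    Fin N → B := fun j => ψ (u j) * a 0 + ψ (e j) * a 1 + ψ (θ j) * a 2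

theorem PLS_at2 {N : ℕ} {K : Type} [CommRing K] [Algebra ℂ K] {B : Type} [CommRing B]
    (φ : K →+* B) (u e θ : Fin N → ℂ) (a b : Fin 3 → B) (F : MvPolynomial (Fin 2 × Fin N) K) :
    at2 φ a b (subC K (gP u e θ) F) =
      at2 φ (PLS_pt (φ.comp (algebraMap ℂ K)) u e θ a)
        (PLS_pt (φ.comp (algebraMap ℂ K)) u e θ b) F := by
  have h : (eval₂Hom φ (ppt a b)).comp (subC K (gP u e θ)) =
      eval₂Hom φ (ppt (PLS_pt (φ.comp (algebraMap ℂ K)) u e θ a)
        (PLS_pt (φ.comp (algebraMap ℂ K)) u e θ b)) := by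
    apply MvPolynomial.ringHom_ext
    · intro c
      simp [subC]
    · rintro ⟨i, j⟩
      by_cases hi : i = 0 <;>
        simp [subC, gP, ppt, pl, PLS_pt, hi]
  exact DFunLike.congr_fun h F

theorem p_PLS : Stmt_PLS := by
  intro N ρ K _ _ F u e θ hF B _ φ a b c
  rw [PLS_at2, PLS_at2, PLS_at2, PLS_at2, PLS_at2]
  set ψ := φ.comp (algebraMap ℂ K)
  have h1 : ∀ a b : Fin 3 → B, PLS_pt ψ u e θ (fun j => a j + c * b j) =
      fun j => PLS_pt ψ u e θ a j + c * PLS_pt ψ u e θ b j := by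
    intro a b
    funext j
    simp only [PLS_pt]
    ring
  have h2 : ∀ a : Fin 3 → B, PLS_pt ψ u e θ (fun j => c * a j) =
      fun j => c * PLS_pt ψ u e θ a j := by
    intro a
    funext j
    simp only [PLS_pt]
    ring
  rw [h1, h1, h2, h2]
  exact hF B φ _ _ c

end Pool.ThmM.Chow
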