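import Pool.Agent.Work.MP_f82ddf_M.Chow

set_option autoImplicit false

/-! # PRJ: projection from `e` -/

namespace Pool.ThmM.Chow

open MvPolynomial
open Pool.Agent.Work.MP_f82ddf_M5 (lineAt resAt chow at2 comb Data)

theorem PRJ_comp {N : ℕ} {R B B' : Type} [CommRing R] [CommRing B] [CommRing B'] (φ : R →+* B)
    (θ : B →+* B') (a b : Fin N → B) (F : MvPolynomial (Fin 2 × Fin N) R) :
    θ (at2 φ a b F) = at2 (θ.comp φ) (fun j => θ (a j)) (fun j => θ (b j)) F := by
  have h : θ.comp (at2 φ a b) = at2 (θ.comp φ) (fun j => θ (a j)) (fun j => θ (b j)) := by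
    apply ringHom_ext
    · intro r
      simp [at2]
    · intro p
      simp only [at2, RingHom.comp_apply, eval₂Hom_X']
      split_ifs <;> rfl
  exact congrArg (fun f => f F) h

theorem PRJ_sub {N : ℕ} {τ : Type} (K : Type) [CommRing K] [Algebra ℂ K]
    (a b : Fin N → MvPolynomial τ ℂ) (F : MvPolynomial (Fin 2 × Fin N) K) :
    subC K (ppt a b) F = at2 C (fun j => map (algebraMap ℂ K) (a j))
      (fun j => map (algebraMap ℂ K) (b j)) F := by
  have h : subC K (ppt a b) = at2 C (fun j => map (algebraMap ℂ K) (a j))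
      (fun j => map (algebraMap ℂ K) (b j)) := by
    apply ringHom_ext
    · intro r
      simp [at2, subC]
    · intro p
      simp only [at2, subC, eval₂Hom_X', ppt]
      split_ifs <;> rfl
  exact congrArg (fun f => f F) h

/-- `F ↦ F(T X)` -/
noncomputable def PRJ_psi (n : ℕ) (K : Type) [CommRing K] :
    MvPolynomial (Fin n) K →+* Polynomial (MvPolynomial (Fin n) K) :=
  eval₂Hom (Polynomial.C.comp C) (fun j => Polynomial.X * Polynomial.C (X j))

theorem PRJ_psi_mon {n : ℕ} {K : Type} [CommRing K] (u : Fin n →₀ ℕ) (a : K) :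
    PRJ_psi n K (monomial u a) = Polynomial.C (monomial u a) * Polynomial.X ^ u.degree := by
  unfold PRJ_psi
  rw [eval₂Hom_monomial, monomial_eq, map_mul, Finsupp.prod, Finsupp.prod, map_prod]
  simp only [mul_pow, Finset.prod_mul_distrib, map_pow, RingHom.comp_apply]
  rw [Finset.prod_pow_eq_pow_sum]
  have h : ∑ i ∈ u.support, u i = u.degree := rfl
  rw [h]
  ring

theorem PRJ_psi_coeff {n : ℕ} {K : Type} [CommRing K] (F : MvPolynomial (Fin n) K)
    (s : Fin n →₀ ℕ) (m : ℕ) :
    coeff s ((PRJ_psi n K F).coeff m) = if s.degree = m then coeff s F else 0 := by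
  classical
  induction F using MvPolynomial.induction_on' with
  | monomial u a =>
    rw [PRJ_psi_mon, Polynomial.coeff_C_mul_X_pow]
    by_cases h : m = u.degree
    · rw [if_pos h]
      by_cases hs : s.degree = m
      · rw [if_pos hs]
      · rw [if_neg hs, coeff_monomial, if_neg]
        rintro rfl
        exact hs h.symm
    · rw [if_neg h, coeff_zero]
      by_cases hs : s.degree = m
      · rw [if_pos hs, coeff_monomial, if_neg]
        rintro rfl
        exact h hs.symm
      · rw [if_neg hs]
  | add p q hp hq =>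
    rw [map_add, Polynomial.coeff_add, coeff_add, coeff_add, hp, hq]
    split_ifs <;> simp

theorem PRJ_hom {n : ℕ} {K : Type} [CommRing K] (F : MvPolynomial (Fin n) K) (ρ : ℕ)
    (h : PRJ_psi n K F = Polynomial.X ^ ρ * Polynomial.C F) : F.IsHomogeneous ρ := by
  intro s hs
  have h1 := PRJ_psi_coeff F s s.degree
  rw [if_pos rfl, h, mul_comm, Polynomial.coeff_C_mul_X_pow] at h1
  by_contra hcon
  apply hs
  rw [← h1, if_neg, coeff_zero]
  intro h2
  apply hcon
  rw [← h2, Finsupp.degree_eq_weight_one]
  rfl

theorem p_PRJ : Stmt_FNC → Stmt_PRJ := by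
  intro hF w ρ K _ _ R e hR he
  obtain ⟨-, hcomp, -, -, -, -⟩ := hF
  have heK : algebraMap ℂ K (e (Fin.last (w + 1))) ≠ 0 := by
    intro h
    exact he ((map_eq_zero _).1 h)
  refine ⟨?_, ?_, ?_, ?_⟩
  · -- homogeneous
    apply PRJ_hom
    unfold gF
    rw [PRJ_sub, PRJ_comp]
    have h1 := (hR (Polynomial (MvPolynomial (Fin (w + 1)) K)) (Polynomial.C.comp C)
      (fun j => Polynomial.C (map (algebraMap ℂ K) (Fin.snoc
        (α := fun _ => MvPolynomial (Fin (w + 1)) ℂ) X 0 j)))
      (fun j => Polynomial.C (map (algebraMap ℂ K) (C (e j)))) Polynomial.X).2.2.1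
    rw [PRJ_comp]
    have e1 : (PRJ_psi (w + 1) K).comp C = Polynomial.C.comp C := by
      apply RingHom.ext
      intro r
      simp [PRJ_psi]
    have e2 : (fun j : Fin (w + 2) => PRJ_psi (w + 1) K (map (algebraMap ℂ K) (Fin.snoc
        (α := fun _ => MvPolynomial (Fin (w + 1)) ℂ) X 0 j))) =
        fun j => Polynomial.X * Polynomial.C (map (algebraMap ℂ K) (Fin.snoc
        (α := fun _ => MvPolynomial (Fin (w + 1)) ℂ) X 0 j)) := by
      funext j
      refine Fin.lastCases ?_ (fun i => ?_) j
      · rw [Fin.snoc_last]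
        simp
      · rw [Fin.snoc_castSucc]
        simp [PRJ_psi]
    have e3 : (fun j : Fin (w + 2) => PRJ_psi (w + 1) K (map (algebraMap ℂ K) (C (e j)))) =
        fun j => Polynomial.C (map (algebraMap ℂ K) (C (e j))) := by
      funext j
      simp [PRJ_psi]
    rw [e1, e2, e3]
    exact h1
  · -- projection
    rw [hcomp]
    have e1 : (fun i => aeval (gQ e) (gF e i)) =
        ppt (Fin.snoc (α := fun _ => MvPolynomial (Fin (w + 2)) ℂ) (gQ e) 0)
          (fun j => C (e j)) := by
      funext p
      unfold gF ppt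
      split_ifs
      · obtain ⟨i, j⟩ := p
        simp only
        refine Fin.lastCases ?_ (fun l => ?_) j
        · rw [Fin.snoc_last, Fin.snoc_last, map_zero]
        · rw [Fin.snoc_castSucc, Fin.snoc_castSucc, aeval_X]
      · rw [algHom_C, algebraMap_eq]
    rw [e1]
    unfold gE
    rw [PRJ_sub, PRJ_sub]
    have h1 := (hR (MvPolynomial (Fin (w + 2)) K) C
      (fun j => map (algebraMap ℂ K) (X j)) (fun j => map (algebraMap ℂ K) (C (e j)))
      (-(C (algebraMap ℂ K (e (Fin.last (w + 1))))⁻¹ * X (Fin.last (w + 1))))).1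
    rw [← h1]
    congr 2
    funext j
    refine Fin.lastCases ?_ (fun l => ?_) j
    · rw [Fin.snoc_last, map_zero, map_X, map_C]
      have h2 : (C (algebraMap ℂ K (e (Fin.last (w + 1))))⁻¹ : MvPolynomial (Fin (w + 2)) K) *
          C (algebraMap ℂ K (e (Fin.last (w + 1)))) = 1 := by
        rw [← C_mul, inv_mul_cancel₀ heK, C_1]
      linear_combination (X (Fin.last (w + 1)) : MvPolynomial (Fin (w + 2)) K) * h2
    · rw [Fin.snoc_castSucc, map_X, map_C]
      unfold gQ
      rw [map_sub, map_mul, map_X, map_X, map_C, map_div₀, div_eq_mul_inv, C_mul]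
      ring
  · -- section
    intro G
    rw [hcomp]
    have e1 : (fun j => aeval (gZ w) (gQ e j)) = X := by
      funext j
      unfold gQ gZ
      rw [map_sub, map_mul, aeval_X, aeval_X, Fin.snoc_castSucc, Fin.snoc_last, mul_zero,
        sub_zero]
    rw [e1]
    unfold subC
    simp only [map_X]
    rw [coe_eval₂Hom]
    exact eval₂_eta G
  · -- values
    intro p
    unfold gF
    rw [PRJ_sub, PRJ_comp]
    have e0 : (eval fun j => algebraMap ℂ K (prj e p j)).comp C = RingHom.id K := by
      apply RingHom.ext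
      intro r
      simp
    have h1 := (hR K (RingHom.id K) (fun j => algebraMap ℂ K (p j))
      (fun j => algebraMap ℂ K (e j))
      (-(algebraMap ℂ K (p (Fin.last (w + 1)) / e (Fin.last (w + 1)))))).1
    have h2 : eval (fun j => algebraMap ℂ K (ppt p e j)) R =
        at2 (RingHom.id K) (fun j => algebraMap ℂ K (p j)) (fun j => algebraMap ℂ K (e j)) R := by
      unfold at2
      have h3 : (eval fun j => algebraMap ℂ K (ppt p e j)) =
          eval₂Hom (RingHom.id K) (fun q : Fin 2 × Fin (w + 2) =>
            if q.1 = 0 then algebraMap ℂ K (p q.2) else algebraMap ℂ K (e q.2)) := by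
        apply ringHom_ext
        · intro r
          simp
        · intro q
          simp only [eval_X, eval₂Hom_X', ppt]
          split_ifs <;> rfl
      exact congrArg (fun f => f R) h3
    rw [h2, ← h1, e0]
    congr 2
    · funext j
      refine Fin.lastCases ?_ (fun l => ?_) j
      · rw [Fin.snoc_last, map_zero, map_zero, ← map_neg, ← map_mul, ← map_add]
        have h4 : p (Fin.last (w + 1)) +
            -(p (Fin.last (w + 1)) / e (Fin.last (w + 1))) * e (Fin.last (w + 1)) = 0 := by
          field_simp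
          ring
        rw [h4, map_zero]
      · rw [Fin.snoc_castSucc, map_X, eval_X, ← map_neg, ← map_mul, ← map_add]
        congr 1
        unfold prj
        field_simp
        ring
    · funext j
      rw [map_C, eval_C]

end Pool.ThmM.Chow
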