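import Pool.Agent.Work.MP_f82ddf_M.Chow

set_option autoImplicit false

/-! # THEOREM M, part P3a, block PSI -/

namespace Pool.ThmM.Chow

open MvPolynomial
open Pool.Agent.Work.MP_f82ddf_M5 (lineAt resAt chow at2 comb Data)

/-- A ring homomorphism applied to `at2`. -/
theorem PSI_comp {N : ℕ} {R B B' : Type} [CommRing R] [CommRing B] [CommRing B'] (φ : R →+* B)
    (θ : B →+* B') (a b : Fin N → B) (F : MvPolynomial (Fin 2 × Fin N) R) :
    θ (at2 φ a b F) = at2 (θ.comp φ) (fun i => θ (a i)) (fun i => θ (b i)) F := by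
  unfold at2
  rw [coe_eval₂Hom, coe_eval₂Hom, hom_eval₂]
  congr 1
  funext p
  by_cases h : p.1 = 0
  · rw [if_pos h, if_pos h]
  · rw [if_neg h, if_neg h]

/-- The substitution of the variables themselves. -/
theorem PSI_self {N : ℕ} {R : Type} [CommRing R] (F : MvPolynomial (Fin 2 × Fin N) R) :
    at2 C (fun i => X (0, i)) (fun i => X (1, i)) F = F := by
  unfold at2
  rw [coe_eval₂Hom]
  have h : (fun p : Fin 2 × Fin N => if p.1 = 0 then (X (0, p.2) : MvPolynomial (Fin 2 × Fin N) R)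
      else X (1, p.2)) = X := by
    funext p
    obtain ⟨i, j⟩ := p
    fin_cases i
    · rfl
    · rfl
  rw [h]
  exact eval₂_eta F

/-- The multiplication of the variables by `T`: the coefficients are the components. -/
theorem PSI_coeff {σ K : Type} [CommRing K] (F : MvPolynomial σ K) (k : ℕ) :
    (eval₂Hom (Polynomial.C.comp C) (fun i => Polynomial.X * Polynomial.C (X i)) F :
      Polynomial (MvPolynomial σ K)).coeff k = homogeneousComponent k F := by
  classical
  induction F using MvPolynomial.induction_on' with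
  | monomial s c =>
    have h1 : (eval₂Hom (Polynomial.C.comp C) (fun i => Polynomial.X * Polynomial.C (X i))
        (monomial s c) : Polynomial (MvPolynomial σ K)) =
        Polynomial.X ^ s.degree * Polynomial.C (monomial s c) := by
      rw [eval₂Hom_monomial]
      simp only [mul_pow, Finsupp.prod, Finset.prod_mul_distrib]
      rw [Finset.prod_pow_eq_pow_sum, monomial_eq]
      simp only [Finsupp.prod, map_mul, map_prod, map_pow, RingHom.comp_apply]
      rw [Finsupp.degree_apply]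
      ring
    rw [h1, Polynomial.coeff_X_pow_mul']
    have h2 : (monomial s c : MvPolynomial σ K) ∈ homogeneousSubmodule σ K s.degree :=
      (mem_homogeneousSubmodule _ _).mpr (isHomogeneous_monomial c rfl)
    rw [homogeneousComponent_of_mem h2]
    by_cases h3 : s.degree ≤ k
    · rw [if_pos h3, Polynomial.coeff_C]
      by_cases h4 : k = s.degree
      · rw [if_pos (by omega), if_pos h4]
      · rw [if_neg (by omega), if_neg h4]
    · rw [if_neg h3, if_neg (by omega)]
  | add p q hp hq =>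
    rw [map_add, Polynomial.coeff_add, hp, hq, map_add]

theorem PSI_hom {σ K : Type} [CommRing K] (F : MvPolynomial σ K) (n : ℕ)
    (h : (eval₂Hom (Polynomial.C.comp C) (fun i => Polynomial.X * Polynomial.C (X i)) F :
      Polynomial (MvPolynomial σ K)) = Polynomial.X ^ n * Polynomial.C F) :
    F.IsHomogeneous n := by
  have h1 := PSI_coeff F n
  rw [h, Polynomial.coeff_X_pow_mul'] at h1
  simp only [le_refl, if_true, Nat.sub_self, Polynomial.coeff_C_zero] at h1
  rw [h1]
  exact homogeneousComponent_isHomogeneous n F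

/-- The substitution `X_i ↦ X_2 X_i` is injective (over a field which contains `ℂ`). -/
theorem PSI_inj {K : Type} [Field K] [Algebra ℂ K] (F : MvPolynomial (Fin 3) K)
    (h : eval₂Hom C (fun i => X 2 * X i : Fin 3 → MvPolynomial (Fin 3) K) F = 0) : F = 0 := by
  have hinj : Function.Injective (algebraMap ℂ K) := (algebraMap ℂ K).injective
  apply funext_set (fun _ => algebraMap ℂ K '' {z | z ≠ 0})
  · intro _
    refine Set.Infinite.image hinj.injOn ?_
    have : ({z : ℂ | z ≠ 0} : Set ℂ) = {0}ᶜ := rfl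
    rw [this]
    exact (Set.finite_singleton (0 : ℂ)).infinite_compl
  · intro y hy
    have hy2 : ∀ i, ∃ p : ℂ, p ≠ 0 ∧ algebraMap ℂ K p = y i := fun i => hy i (Set.mem_univ i)
    choose p hp0 hp using hy2
    obtain ⟨s, hs⟩ : ∃ s : ℂ, s ^ 2 = p 2 := IsAlgClosed.exists_pow_nat_eq (p 2) (by norm_num)
    have hs0 : s ≠ 0 := by
      rintro rfl
      apply hp0 2
      rw [← hs]
      norm_num
    have h1 := congrArg (eval (fun i => algebraMap ℂ K (p i / s))) h
    rw [coe_eval₂Hom, hom_eval₂, map_zero] at h1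
    rw [map_zero, eval_eq_eval₂' ]
    rw [← h1]
    congr 1
    · ext z
      simp
    · funext i
      rw [← hp i, map_mul, eval_X, eval_X, ← map_mul]
      congr 1
      rw [← hs]
      field_simp
where
  eval_eq_eval₂' {K : Type} [Field K] {y : Fin 3 → K} {F : MvPolynomial (Fin 3) K} :
    eval y F = eval₂ (RingHom.id K) y F := rfl

theorem p_PSI : Stmt_PGL → Stmt_PSI := by
  intro hPGL ρ K _ _ G hG
  -- the points
  obtain ⟨a, ha⟩ : ∃ a : Fin 3 → MvPolynomial (Fin 2 × Fin 3) K, a = fun i => X (0, i) := ⟨_, rfl⟩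
  obtain ⟨b, hb⟩ : ∃ b : Fin 3 → MvPolynomial (Fin 2 × Fin 3) K, b = fun i => X (1, i) := ⟨_, rfl⟩
  have hself : at2 C a b G = G := by
    rw [ha, hb]
    exact PSI_self G
  obtain ⟨m, hm⟩ : ∃ m : Fin 3 → MvPolynomial (Fin 2 × Fin 3) K, m = crs a b := ⟨_, rfl⟩
  have hm0 : m 0 = a 1 * b 2 - a 2 * b 1 := by rw [hm]; rfl
  have hm1 : m 1 = a 2 * b 0 - a 0 * b 2 := by rw [hm]; rfl
  have hm2 : m 2 = a 0 * b 1 - a 1 * b 0 := by rw [hm]; rfl
  -- the substitution
  obtain ⟨τ, hτ⟩ : ∃ τ : MvPolynomial (Fin 3) K →+* MvPolynomial (Fin 2 × Fin 3) K,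
    τ = eval₂Hom C m := ⟨_, rfl⟩
  have hτC : τ.comp C = C := by
    rw [hτ]
    ext z
    simp
  have hτX : ∀ i, τ (X i) = m i := by
    intro i
    rw [hτ, coe_eval₂Hom, eval₂_X]
  have hsub : ∀ F, subC K gC F = τ F := by
    intro F
    unfold subC
    rw [hτ]
    congr 2
    funext i
    rw [hm]
    fin_cases i
    · simp [gC, crs, ha, hb]
    · simp [gC, crs, ha, hb]
    · simp [gC, crs, ha, hb]
  obtain ⟨H2, hH2⟩ : ∃ H2 : MvPolynomial (Fin 3) K,
    H2 = at2 C ![X 2, 0, - X 0] ![0, X 2, - X 1] G := ⟨_, rfl⟩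
  obtain ⟨H0, hH0⟩ : ∃ H0 : MvPolynomial (Fin 3) K,
    H0 = at2 C ![- X 1, X 0, 0] ![- X 2, 0, X 0] G := ⟨_, rfl⟩
  have hgD : subC K gD G = H2 := by
    unfold subC
    rw [hH2]
    unfold at2
    congr 2
    funext p
    obtain ⟨i, j⟩ := p
    fin_cases i
    · fin_cases j
      · simp [gD, ppt]
      · simp [gD, ppt]
      · simp [gD, ppt]
    · fin_cases j
      · simp [gD, ppt]
      · simp [gD, ppt]
      · simp [gD, ppt]
  have hτ2 : τ H2 = m 2 ^ ρ * G := by
    rw [hH2, PSI_comp, hτC]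
    have h := hPGL 3 ρ K G hG _ C a b (b 1) (- a 1) (- b 0) (a 0)
    rw [hself] at h
    have e : b 1 * a 0 - - a 1 * - b 0 = m 2 := by rw [hm2]; ring
    rw [e] at h
    rw [← h]
    congr 1
    congr 1
    · funext j
      fin_cases j
      · simp [hτX, hm0, hm1, hm2]; ring
      · simp [hτX, hm0, hm1, hm2]; ring
      · simp [hτX, hm0, hm1, hm2]; ring
    · funext j
      fin_cases j
      · simp [hτX, hm0, hm1, hm2]; ring
      · simp [hτX, hm0, hm1, hm2]; ring
      · simp [hτX, hm0, hm1, hm2]; ring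
  have hτ0 : τ H0 = m 0 ^ ρ * G := by
    rw [hH0, PSI_comp, hτC]
    have h := hPGL 3 ρ K G hG _ C a b (b 2) (- a 2) (- b 1) (a 1)
    rw [hself] at h
    have e : b 2 * a 1 - - a 2 * - b 1 = m 0 := by rw [hm0]; ring
    rw [e] at h
    rw [← h]
    congr 1
    congr 1
    · funext j
      fin_cases j
      · simp [hτX, hm0, hm1, hm2]; ring
      · simp [hτX, hm0, hm1, hm2]; ring
      · simp [hτX, hm0, hm1, hm2]; ring
    · funext j
      fin_cases j
      · simp [hτX, hm0, hm1, hm2]; ring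
      · simp [hτX, hm0, hm1, hm2]; ring
      · simp [hτX, hm0, hm1, hm2]; ring
  -- injectivity
  have hinj : ∀ F, τ F = 0 → F = 0 := by
    intro F hF
    apply PSI_inj
    have h := congrArg (at2 C ![X 2, 0, - X 0] ![0, X 2, - X 1] :
      MvPolynomial (Fin 2 × Fin 3) K →+* MvPolynomial (Fin 3) K) hF
    rw [map_zero, hτ, coe_eval₂Hom, hom_eval₂] at h
    rw [← h, coe_eval₂Hom]
    congr 1
    · ext z
      simp [at2]
    · funext i
      rw [hm, ha, hb]
      fin_cases i
      · simp [at2, crs]; ring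
      · simp [at2, crs]
      · simp [at2, crs]
  have hτinj : Function.Injective τ := (injective_iff_map_eq_zero τ).mpr hinj
  have heq : X 0 ^ ρ * H2 = X 2 ^ ρ * H0 := by
    apply hτinj
    rw [map_mul, map_mul, map_pow, map_pow, hτX, hτX, hτ2, hτ0]
    ring
  have hdvd : (X 2 : MvPolynomial (Fin 3) K) ^ ρ ∣ H2 := by
    have hp : Prime (X 2 : MvPolynomial (Fin 3) K) := X_prime
    refine hp.pow_dvd_of_dvd_mul_left ρ ?_ (Dvd.intro _ heq.symm)
    intro h
    have h1 := hp.dvd_of_dvd_pow h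
    rw [X_dvd_X] at h1
    exact absurd h1 (by decide)
  obtain ⟨Psi, hPsi⟩ := hdvd
  have hm2ne : m 2 ≠ 0 := by
    intro h
    have h1 : τ (X 2) = 0 := by rw [hτX, h]
    exact X_ne_zero 2 (hinj _ h1)
  have hGP : G = τ Psi := by
    have h1 : m 2 ^ ρ * G = m 2 ^ ρ * τ Psi := by
      rw [← hτ2, hPsi, map_mul, map_pow, hτX]
    exact mul_left_cancel₀ (pow_ne_zero ρ hm2ne) h1
  refine ⟨Psi, ?_, by rw [hsub]; exact hGP, by rw [hgD]; exact hPsi⟩
  -- homogeneity
  apply PSI_hom
  obtain ⟨h, hh⟩ : ∃ h : MvPolynomial (Fin 3) K →+* Polynomial (MvPolynomial (Fin 3) K),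
    h = eval₂Hom (Polynomial.C.comp C) (fun i => Polynomial.X * Polynomial.C (X i)) := ⟨_, rfl⟩
  have hhC : h.comp C = Polynomial.C.comp C := by
    rw [hh]
    ext1 z
    simp
  have hhX : ∀ i, h (X i) = Polynomial.X * Polynomial.C (X i) := by
    intro i
    rw [hh, coe_eval₂Hom, eval₂_X]
  rw [← hh]
  have hs1 : h H2 = Polynomial.X ^ ρ * (Polynomial.X ^ ρ * Polynomial.C H2) := by
    rw [hH2, PSI_comp, hhC, PSI_comp]
    obtain ⟨-, -, -, h4⟩ := hG (Polynomial (MvPolynomial (Fin 3) K)) (Polynomial.C.comp C)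
      (fun i => Polynomial.C ((![X 2, 0, - X 0] : Fin 3 → MvPolynomial (Fin 3) K) i))
      (fun i => Polynomial.C ((![0, X 2, - X 1] : Fin 3 → MvPolynomial (Fin 3) K) i))
      Polynomial.X
    rw [← h4]
    obtain ⟨-, -, h3, -⟩ := hG (Polynomial (MvPolynomial (Fin 3) K)) (Polynomial.C.comp C)
      (fun i => Polynomial.C ((![X 2, 0, - X 0] : Fin 3 → MvPolynomial (Fin 3) K) i))
      (fun i => Polynomial.X *
        Polynomial.C ((![0, X 2, - X 1] : Fin 3 → MvPolynomial (Fin 3) K) i))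
      Polynomial.X
    rw [← h3]
    congr 1
    congr 1
    · funext j
      fin_cases j
      · simp [hhX]
      · simp [hhX]
      · simp [hhX]; ring
    · funext j
      fin_cases j
      · simp [hhX]
      · simp [hhX]
      · simp [hhX]; ring
  rw [hPsi, map_mul, map_pow, hhX, mul_pow, Polynomial.C_mul, Polynomial.C_pow] at hs1
  have hX : (Polynomial.X ^ ρ * Polynomial.C (X 2) ^ ρ : Polynomial (MvPolynomial (Fin 3) K)) ≠ 0 :=
    mul_ne_zero (pow_ne_zero _ Polynomial.X_ne_zero)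
      (pow_ne_zero _ (by rw [Ne, Polynomial.C_eq_zero]; exact X_ne_zero 2))
  apply mul_left_cancel₀ hX
  rw [hs1]
  ring

end Pool.ThmM.Chow
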