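import Pool.Agent.Work.MP_f82ddf_M.Chow

set_option autoImplicit false

/-! # Block QPP: the plane section, degree and values -/

namespace Pool.ThmM.Chow

open MvPolynomial
open Pool.Agent.Work.MP_f82ddf_M5 (lineAt resAt chow at2 comb Data)

theorem QPP_chain {N : ℕ} {τ : Type} (g : Fin N → MvPolynomial τ ℂ) (i : τ)
    (Q : MvPolynomial (Fin N) ℂ) :
    pderiv i (aeval g Q) = ∑ j, aeval g (pderiv j Q) * pderiv i (g j) := by
  classical
  induction Q using MvPolynomial.induction_on with
  | C a =>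
    rw [aeval_C]
    have h1 : pderiv i (algebraMap ℂ (MvPolynomial τ ℂ) a) = 0 := Derivation.map_algebraMap _ a
    rw [h1]
    symm
    refine Finset.sum_eq_zero fun j _ => ?_
    rw [pderiv_C, map_zero, zero_mul]
  | add p q hp hq =>
    rw [map_add, map_add, hp, hq, ← Finset.sum_add_distrib]
    refine Finset.sum_congr rfl fun j _ => ?_
    rw [map_add, map_add, add_mul]
  | mul_X p k hp =>
    rw [map_mul, aeval_X, pderiv_mul, hp]
    have h1 : ∀ j, aeval g (pderiv j (p * X k)) * pderiv i (g j) =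
        aeval g (pderiv j p) * pderiv i (g j) * g k +
          (if j = k then aeval g p * pderiv i (g j) else 0) := by
      intro j
      rw [pderiv_mul, map_add, map_mul, map_mul, aeval_X, pderiv_X]
      by_cases hjk : j = k
      · subst hjk
        rw [Pi.single_eq_same, map_one, if_pos rfl]
        ring
      · rw [Pi.single_eq_of_ne (Ne.symm hjk), map_zero, if_neg hjk]
        ring
    rw [Finset.sum_congr rfl fun j _ => h1 j, Finset.sum_add_distrib, Finset.sum_ite_eq',
      if_pos (Finset.mem_univ _), Finset.sum_mul]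

theorem QPP_pl_eval {N : ℕ} {τ : Type} (u e θ : Fin N → ℂ) (y : Fin 3 → MvPolynomial τ ℂ)
    (p : τ → ℂ) (j : Fin N) : eval p (pl u e θ y j) =
      u j * eval p (y 0) + e j * eval p (y 1) + θ j * eval p (y 2) := by
  simp [pl]

theorem QPP_eval₂ {τ K : Type} [CommRing K] [Algebra ℂ K] (p : τ → ℂ) (g : MvPolynomial τ ℂ) :
    eval₂ (algebraMap ℂ K) (fun i => algebraMap ℂ K (p i)) g = algebraMap ℂ K (eval p g) := by
  have h := MvPolynomial.eval₂_comp_left (algebraMap ℂ K) (RingHom.id ℂ) p g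
  rw [RingHom.comp_id] at h
  exact h.symm

theorem p_QPP (hF : Stmt_FNC) : Stmt_QPP := by
  intro N d Q u e θ hQ
  refine ⟨?_, ?_, ?_, ?_⟩
  · have h1 := hF.2.2.2.2.2 (Fin N) (Fin 3) ℂ (pl u e θ X) Q d 1 hQ (by
      intro j
      have hX : ∀ (c : ℂ) (i : Fin 3), (C c * X i : MvPolynomial (Fin 3) ℂ).IsHomogeneous 1 := by
        intro c i
        have h := (isHomogeneous_C (Fin 3) c).mul (isHomogeneous_X ℂ i)
        rwa [zero_add] at h
      exact ((hX _ _).add (hX _ _)).add (hX _ _))
    rw [hF.2.2.2.2.1, one_mul] at h1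
    exact h1
  · intro y
    have h1 : eval y (aeval (pl u e θ X) Q) = eval (fun j => eval y (pl u e θ X j)) Q := by
      have h2 := MvPolynomial.comp_aeval_apply (σ := Fin N) (pl u e θ (X : Fin 3 → _))
        (aeval y : MvPolynomial (Fin 3) ℂ →ₐ[ℂ] ℂ) Q
      exact h2
    rw [qp, h1]
    congr 2
    funext j
    rw [QPP_pl_eval, eval_X, eval_X, eval_X]
  · have h0 : eval ![1, 0, 0] (pderiv 1 (qp u e θ Q)) =
        ∑ j, eval ![1, 0, 0] (aeval (pl u e θ X) (pderiv j Q)) *
          eval ![1, 0, 0] (pderiv 1 (pl u e θ X j)) := by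
      rw [qp, QPP_chain, map_sum]
      refine Finset.sum_congr rfl fun j _ => ?_
      rw [map_mul]
    rw [h0]
    refine Finset.sum_congr rfl fun j _ => ?_
    have h1 : eval (![1, 0, 0] : Fin 3 → ℂ) (aeval (pl u e θ X) (pderiv j Q)) =
        eval u (pderiv j Q) := by
      have h2 : eval (![1, 0, 0] : Fin 3 → ℂ) (aeval (pl u e θ X) (pderiv j Q)) =
          eval (fun j => eval (![1, 0, 0] : Fin 3 → ℂ) (pl u e θ X j)) (pderiv j Q) :=
        MvPolynomial.comp_aeval_apply (σ := Fin N) (pl u e θ (X : Fin 3 → _))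
          (aeval (![1, 0, 0] : Fin 3 → ℂ) : MvPolynomial (Fin 3) ℂ →ₐ[ℂ] ℂ) (pderiv j Q)
      rw [h2]
      congr 2
      funext l
      rw [QPP_pl_eval, eval_X, eval_X, eval_X]
      simp
    have h3 : eval (![1, 0, 0] : Fin 3 → ℂ) (pderiv 1 (pl u e θ X j)) = e j := by
      simp [pl, pderiv_X]
    rw [h1, h3, mul_comm]
  · intro K _ _ F F₁ a b h
    have h4 := congrArg (eval₂ (RingHom.id K)
      (fun p : Fin 2 × Fin 3 => algebraMap ℂ K (ppt a b p))) h
    rw [hF.2.2.2.1, hF.2.2.2.1, RingHom.id_comp] at h4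
    have e1 : (fun i => eval₂ (algebraMap ℂ K) (fun p : Fin 2 × Fin 3 => algebraMap ℂ K
        (ppt a b p)) (gC i)) = fun i => algebraMap ℂ K (crs a b i) := by
      funext i
      rw [QPP_eval₂]
      congr 1
      fin_cases i <;> simp [gC, crs, ppt]
    have e2 : (fun i => eval₂ (algebraMap ℂ K) (fun p : Fin 2 × Fin 3 => algebraMap ℂ K
        (ppt a b p)) (gP u e θ i)) = fun p => algebraMap ℂ K
          (ppt (fun j => u j * a 0 + e j * a 1 + θ j * a 2)
            (fun j => u j * b 0 + e j * b 1 + θ j * b 2) p) := by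
      funext p
      rw [QPP_eval₂]
      congr 1
      obtain ⟨i, j⟩ := p
      unfold gP
      by_cases hi : i = 0
      · subst hi
        show eval _ (pl u e θ (fun i => X (0, i)) j) = _
        rw [QPP_pl_eval, eval_X, eval_X, eval_X]
        simp [ppt]
      · have hi1 : i = 1 := by omega
        subst hi1
        show eval _ (pl u e θ (fun i => X (1, i)) j) = _
        rw [QPP_pl_eval, eval_X, eval_X, eval_X]
        simp [ppt]
    rw [e1, e2] at h4
    exact h4.symm

end Pool.ThmM.Chow
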