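import Pool.Agent.Work.MP_f82ddf_M.Core

set_option autoImplicit false

/-! # Block RDA (helper63): reduction of polynomials at `z` -/

open Topology Filter
open scoped Differential
open Pool.Agent.Work.MP_f82ddf_nt.DQ

namespace Pool.ThmM.Chow

open MvPolynomial

theorem p_RDA : Stmt_RDA := by
  classical
  intro σ z O θ hL
  have hval : ∀ (F : MvPolynomial σ O) (α : σ →₀ ℕ),
      coeff α (map (O.val : O →+* Mer) F) = ((coeff α F : O) : Mer) := by
    intro F α
    exact coeff_map _ _ _
  have hnn : ∀ f : O, 0 ≤ om (f : Mer) z := fun f => (hL.mem _).1 f.2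
  refine ⟨fun F => ?_, fun G hG => ?_⟩
  · have h0 : 0 ≤ vP (map (O.val : O →+* Mer) F) z := by
      unfold vP
      refine Finset.le_inf fun α _ => ?_
      rw [hval]
      exact hnn _
    refine ⟨h0, fun hne => ?_, fun heq hz => ?_⟩
    · obtain ⟨α, hα⟩ := ne_zero_iff.1 hne
      rw [coeff_map] at hα
      change θ (coeff α F) ≠ 0 at hα
      have h1 : ¬ (1 : WithTop ℤ) ≤ om ((coeff α F : O) : Mer) z := fun h => hα ((hL.zero _).2 h)
      have h2 : om ((coeff α F : O) : Mer) z = 0 := by
        have h3 := hnn (coeff α F)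
        have htop : om ((coeff α F : O) : Mer) z ≠ ⊤ := fun h => h1 (h ▸ le_top)
        obtain ⟨m, hm⟩ := WithTop.ne_top_iff_exists.1 htop
        rw [← hm] at h1 h3 ⊢
        have h4 : ¬ (1 : ℤ) ≤ m := fun h => h1 (by exact_mod_cast h)
        have h5 : (0 : ℤ) ≤ m := by exact_mod_cast h3
        have h6 : m = 0 := by omega
        rw [h6]
        rfl
      have hs : α ∈ (map (O.val : O →+* Mer) F).support := by
        rw [mem_support_iff, hval]
        intro h
        apply hα
        have : coeff α F = 0 := Subtype.ext h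
        rw [this, map_zero]
      refine le_antisymm ?_ h0
      have h7 : vP (map (O.val : O →+* Mer) F) z ≤ om (coeff α (map (O.val : O →+* Mer) F)) z := by
        unfold vP
        exact Finset.inf_le hs
      rw [hval, h2] at h7
      exact h7
    · have h1 : (1 : WithTop ℤ) ≤ vP (map (O.val : O →+* Mer) F) z := by
        unfold vP
        refine Finset.le_inf fun α _ => ?_
        rw [hval]
        refine (hL.zero _).1 ?_
        have h2 : coeff α (map (θ : O →+* ℂ) F) = 0 := by rw [hz, coeff_zero]
        rw [coeff_map] at h2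
        exact h2
      rw [heq] at h1
      have h3 : (1 : ℤ) ≤ 0 := by exact_mod_cast h1
      omega
  · have hmem : ∀ α ∈ G.support, coeff α G ∈ O := by
      intro α hα
      refine (hL.mem _).2 (hG.trans ?_)
      unfold vP
      exact Finset.inf_le hα
    refine ⟨∑ α ∈ G.support.attach, monomial (α : σ →₀ ℕ) ⟨coeff α G, hmem α α.2⟩, ?_⟩
    rw [map_sum]
    have h1 : ∀ α ∈ G.support.attach, map (O.val : O →+* Mer)
        (monomial (α : σ →₀ ℕ) (⟨coeff α G, hmem α α.2⟩ : O)) = monomial (α : σ →₀ ℕ) (coeff α G) := by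
      intro α _
      rw [map_monomial]
      rfl
    rw [Finset.sum_congr rfl h1, Finset.sum_attach G.support (fun α => monomial α (coeff α G))]
    exact G.support_sum_monomial_coeff

end Pool.ThmM.Chow
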