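import Pool.Agent.Work.MP_f82ddf_M.Core

set_option autoImplicit false

/-! # Block RDN: normalised reduction -/

open Topology Filter
open scoped Differential
open Pool.Agent.Work.MP_f82ddf_nt.DQ

namespace Pool.ThmM.Chow

open MvPolynomial

/-- an element of order `-n` -/
theorem RDN_unit (hV : Pool.ThmM.Stmt_VAL) (z : ℂ) (n : ℤ) :
    ∃ u : Mer, u ≠ 0 ∧ om u z = ((-n : ℤ) : WithTop ℤ) := by
  obtain ⟨hmul, -, htop, halg, -, hzt⟩ := hV z
  have h1 : om (1 : Mer) z = 0 := by
    have := halg 1 one_ne_zero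
    rwa [map_one] at this
  have hpow : ∀ m : ℕ, om ((zt z) ^ m) z = ((m : ℤ) : WithTop ℤ) := by
    intro m
    induction m with
    | zero =>
      rw [pow_zero, h1]
      rfl
    | succ m ih =>
      rw [pow_succ, hmul, ih, hzt]
      push_cast
      rfl
  have hz0 : zt z ≠ 0 := by
    intro h
    rw [(htop _).2 h] at hzt
    exact WithTop.top_ne_one hzt
  rcases le_total 0 n with hn | hn
  · obtain ⟨m, rfl⟩ := Int.eq_ofNat_of_zero_le hn
    refine ⟨((zt z) ^ m)⁻¹, inv_ne_zero (pow_ne_zero _ hz0), ?_⟩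
    have h2 := hmul ((zt z) ^ m)⁻¹ ((zt z) ^ m)
    rw [inv_mul_cancel₀ (pow_ne_zero _ hz0), h1, hpow] at h2
    have h3 : om ((zt z) ^ m)⁻¹ z ≠ ⊤ := by
      intro h
      rw [h, WithTop.top_add] at h2
      exact WithTop.zero_ne_top h2
    lift om ((zt z) ^ m)⁻¹ z to ℤ using h3 with k
    norm_cast at h2 ⊢
    omega
  · obtain ⟨m, hm⟩ := Int.eq_ofNat_of_zero_le (Int.neg_nonneg_of_nonpos hn)
    refine ⟨(zt z) ^ m, pow_ne_zero _ hz0, ?_⟩
    rw [hpow, hm]

theorem p_RDN (hV : Pool.ThmM.Stmt_VAL) (hO : Stmt_OZE) (hR : Stmt_RDA) : Stmt_RDN := by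
  intro σ F z hF
  obtain ⟨O, θ, hloc⟩ := hO z
  obtain ⟨hmul, -, htop, halg, hdv, hzt⟩ := hV z
  -- the order of `F`
  have hne : F.support.Nonempty := by
    rwa [Finset.nonempty_iff_ne_empty, Ne, MvPolynomial.support_eq_empty]
  obtain ⟨α, hα, hα2⟩ := Finset.exists_mem_eq_inf F.support hne
    (fun α => om (MvPolynomial.coeff α F) z)
  have hα3 : vP F z = om (MvPolynomial.coeff α F) z := hα2
  have hα4 : MvPolynomial.coeff α F ≠ 0 := MvPolynomial.mem_support_iff.1 hα
  obtain ⟨n, hn⟩ : ∃ n : ℤ, vP F z = (n : WithTop ℤ) := ⟨_, hα3.trans (hdv _ hα4)⟩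
  obtain ⟨u, hu0, hu⟩ := RDN_unit hV z n
  have hcoef : ∀ β, MvPolynomial.coeff β (C u * F) = u * MvPolynomial.coeff β F := fun β =>
    MvPolynomial.coeff_C_mul β u F
  have hord : vP (C u * F) z = 0 := by
    apply le_antisymm
    · have h1 : α ∈ (C u * F).support := by
        rw [MvPolynomial.mem_support_iff, hcoef]
        exact mul_ne_zero hu0 hα4
      have h2 : vP (C u * F) z ≤ om (MvPolynomial.coeff α (C u * F)) z :=
        Finset.inf_le (f := fun α => om (MvPolynomial.coeff α (C u * F)) z) h1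
      refine h2.trans (le_of_eq ?_)
      rw [hcoef, hmul, ← hα3, hn, hu]
      norm_cast
      omega
    · apply Finset.le_inf
      intro β hβ
      rw [MvPolynomial.mem_support_iff, hcoef] at hβ
      have h1 : β ∈ F.support := MvPolynomial.mem_support_iff.2 (right_ne_zero_of_mul hβ)
      have h2 : vP F z ≤ om (MvPolynomial.coeff β F) z :=
        Finset.inf_le (f := fun α => om (MvPolynomial.coeff α F) z) h1
      rw [hcoef, hmul, hu]
      rw [hn, hdv _ (right_ne_zero_of_mul hβ)] at h2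
      rw [hdv _ (right_ne_zero_of_mul hβ)]
      norm_cast at h2 ⊢
      omega
  obtain ⟨F₁, hF₁⟩ := (hR σ z O θ hloc).2 (C u * F) hord.ge
  have hF₀ := ((hR σ z O θ hloc).1 F₁).2.2 (by rw [hF₁]; exact hord)
  refine ⟨map (θ : O →+* ℂ) F₁, hF₀, ?_⟩
  intro p hp
  have h1 : θ (eval (fun i => algebraMap ℂ O (p i)) F₁) = eval p (map (θ : O →+* ℂ) F₁) := by
    have h := MvPolynomial.eval₂_comp_left (θ : O →+* ℂ) (RingHom.id O)
      (fun i => algebraMap ℂ O (p i)) F₁
    rw [eval_map]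
    refine Eq.trans h ?_
    congr 1
    funext i
    exact θ.commutes (p i)
  have h2 : ((eval (fun i => algebraMap ℂ O (p i)) F₁ : O) : Mer) = evC p (C u * F) := by
    unfold evC
    rw [← hF₁, eval_map]
    have h := MvPolynomial.eval₂_comp_left (O.val : O →+* Mer) (RingHom.id O)
      (fun i => algebraMap ℂ O (p i)) F₁
    refine Eq.trans h ?_
    congr 1
  have h3 : ¬ 1 ≤ om (evC p (C u * F)) z := by
    rw [← h2, ← hloc.zero, h1]
    exact hp
  have h4 : 0 ≤ om (evC p (C u * F)) z := by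
    rw [← h2]
    exact (hloc.mem _).1 (Subtype.prop _)
  have h5 : evC p (C u * F) = u * evC p F := by
    unfold evC
    rw [map_mul, eval_C]
  rw [h5, hmul, hu] at h3 h4
  rw [hn]
  have h6 : om (evC p F) z ≠ ⊤ := by
    intro h
    rw [h, WithTop.add_top] at h3
    exact h3 le_top
  lift om (evC p F) z to ℤ using h6 with k
  norm_cast at h3 h4 ⊢
  omega

end Pool.ThmM.Chow
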