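import Pool.Agent.Work.MP_f82ddf_M.Chow

set_option autoImplicit false

/-! # THEOREM M, part P3a, block RFL: the resultant of the reversed polynomials -/

namespace Pool.ThmM.Chow

/-- the permutation which reverses both blocks -/
noncomputable def RFL_col (m n : ℕ) : Equiv.Perm (Fin (m + n)) :=
  (finSumFinEquiv.symm.trans (Equiv.sumCongr Fin.revPerm Fin.revPerm)).trans finSumFinEquiv

theorem RFL_sylvester (R : Type) [CommRing R] (f g : Polynomial R) (m n : ℕ) :
    (f.reflect m).sylvester (g.reflect n) m n
      = (f.sylvester g m n).submatrix (Fin.revPerm : Equiv.Perm (Fin (m + n))) (RFL_col m n) := by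
  ext i j
  have hi := i.2
  induction j using Fin.addCases with
  | left j =>
    have hj := j.2
    have hcol : RFL_col m n (Fin.castAdd n j) = Fin.castAdd n (Fin.rev j) := by
      simp [RFL_col]
    rw [Matrix.submatrix_apply, hcol]
    simp only [Polynomial.sylvester, Matrix.of_apply, Fin.addCases_left, Set.mem_Icc,
      Fin.revPerm_apply, Fin.val_rev, Polynomial.coeff_reflect]
    by_cases h : (j : ℕ) ≤ i ∧ (i : ℕ) ≤ j + n
    · rw [if_pos h, if_pos (by omega), Polynomial.revAt_le (by omega)]
      congr 1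
      omega
    · rw [if_neg h, if_neg (by omega)]
  | right j =>
    have hj := j.2
    have hcol : RFL_col m n (Fin.natAdd m j) = Fin.natAdd m (Fin.rev j) := by
      simp [RFL_col]
    rw [Matrix.submatrix_apply, hcol]
    simp only [Polynomial.sylvester, Matrix.of_apply, Fin.addCases_right, Set.mem_Icc,
      Fin.revPerm_apply, Fin.val_rev, Polynomial.coeff_reflect]
    by_cases h : (j : ℕ) ≤ i ∧ (i : ℕ) ≤ j + m
    · rw [if_pos h, if_pos (by omega), Polynomial.revAt_le (by omega)]
      congr 1
      omega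
    · rw [if_neg h, if_neg (by omega)]

theorem p_RFL : Stmt_RFL := by
  refine ⟨fun m n => (Equiv.Perm.sign (Fin.revPerm : Equiv.Perm (Fin (m + n))) : ℤ)
    * (Equiv.Perm.sign (RFL_col m n) : ℤ), ?_, ?_⟩
  · intro m n
    have h1 : ∀ u : ℤˣ, (u : ℤ) * (u : ℤ) = 1 := by
      intro u
      rw [← Units.val_mul, Int.units_mul_self, Units.val_one]
    calc _ = ((Equiv.Perm.sign (Fin.revPerm : Equiv.Perm (Fin (m + n))) : ℤ)
          * (Equiv.Perm.sign (Fin.revPerm : Equiv.Perm (Fin (m + n))) : ℤ))
          * ((Equiv.Perm.sign (RFL_col m n) : ℤ) * (Equiv.Perm.sign (RFL_col m n) : ℤ)) := by ring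
      _ = 1 := by rw [h1, h1, mul_one]
  · intro R _ f g m n
    unfold Polynomial.resultant
    rw [RFL_sylvester]
    have h2 : (f.sylvester g m n).submatrix (Fin.revPerm : Equiv.Perm (Fin (m + n)))
        (RFL_col m n) = ((f.sylvester g m n).submatrix id (RFL_col m n)).submatrix
          (Fin.revPerm : Equiv.Perm (Fin (m + n))) id := rfl
    rw [h2, Matrix.det_permute, Matrix.det_permute', Int.cast_mul, mul_assoc]

end Pool.ThmM.Chow
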