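import Pool.Agent.Work.MP_f82ddf_M.Chow

set_option autoImplicit false

/-! # THEOREM M, part P3a: block RTS.  helper79. -/

namespace Pool.ThmM.Chow

section RTS

variable {R : Type} [CommRing R]

/-- the resultant with formal degrees only depends on the coefficients up to these degrees -/
theorem RTS_congr (f g F G : Polynomial R) (m n : ℕ) (hf : ∀ i ≤ m, f.coeff i = F.coeff i)
    (hg : ∀ i ≤ n, g.coeff i = G.coeff i) : f.resultant g m n = F.resultant G m n := by
  unfold Polynomial.resultant
  congr 1
  unfold Polynomial.sylvester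
  ext i j
  rw [Matrix.of_apply, Matrix.of_apply]
  induction j using Fin.addCases with
  | left j =>
    rw [Fin.addCases_left, Fin.addCases_left]
    by_cases h : (i : ℕ) ∈ Set.Icc (j : ℕ) (j + n)
    · rw [if_pos h, if_pos h]
      apply hg
      have h1 := h.1
      have h2 := h.2
      omega
    · rw [if_neg h, if_neg h]
  | right j =>
    rw [Fin.addCases_right, Fin.addCases_right]
    by_cases h : (i : ℕ) ∈ Set.Icc (j : ℕ) (j + m)
    · rw [if_pos h, if_pos h]
      apply hf
      have h1 := h.1
      have h2 := h.2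
      omega
    · rw [if_neg h, if_neg h]

/-- a polynomial of degree at most `m` with the same coefficients up to `m` -/
theorem RTS_trunc (f : Polynomial R) (m : ℕ) :
    ∃ F : Polynomial R, F.natDegree ≤ m ∧ ∀ i ≤ m, F.coeff i = f.coeff i := by
  refine ⟨∑ i ∈ Finset.range (m + 1), Polynomial.monomial i (f.coeff i), ?_, ?_⟩
  · apply Polynomial.natDegree_sum_le_of_forall_le
    intro i hi
    have := Finset.mem_range.mp hi
    exact (Polynomial.natDegree_monomial_le _).trans (by omega)
  · intro i hi
    rw [Polynomial.finsetSum_coeff, Finset.sum_eq_single i]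
    · rw [Polynomial.coeff_monomial, if_pos rfl]
    · intro j _ hj
      rw [Polynomial.coeff_monomial, if_neg hj]
    · intro h
      exact absurd (Finset.mem_range.mpr (by omega)) h

/-- reduction to the true degrees -/
theorem RTS_deg (f g : Polynomial R) (k l : ℕ) :
    f.resultant g (f.natDegree + k) (g.natDegree + l) =
      (-1) ^ ((g.natDegree + l) * k) * g.coeff (g.natDegree + l) ^ k *
        (f.coeff f.natDegree ^ l * f.resultant g f.natDegree g.natDegree) := by
  rw [Polynomial.resultant_add_left_deg _ _ _ _ _ le_rfl, Polynomial.resultant_add_right_deg _ _ _ _ _ le_rfl]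

theorem RTS_taylor_coeff (f : Polynomial R) (c : R) (m : ℕ) (h : f.natDegree ≤ m) :
    (Polynomial.taylor c f).coeff m = f.coeff m := by
  rcases h.eq_or_lt with h | h
  · subst h
    have h1 : (Polynomial.taylor c f).natDegree = f.natDegree := Polynomial.natDegree_taylor f c
    have h2 : (Polynomial.taylor c f).leadingCoeff = f.leadingCoeff := Polynomial.leadingCoeff_taylor c f
    unfold Polynomial.leadingCoeff at h2
    rw [h1] at h2
    exact h2
  · rw [Polynomial.coeff_eq_zero_of_natDegree_lt h, Polynomial.coeff_eq_zero_of_natDegree_lt]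
    rw [Polynomial.natDegree_taylor]
    exact h

theorem RTS_scale_coeff (f : Polynomial R) (c : R) (m : ℕ) (h : f.natDegree ≤ m) :
    (f.scaleRoots c).coeff m = f.coeff m := by
  rw [Polynomial.coeff_scaleRoots, Nat.sub_eq_zero_of_le h, pow_zero, mul_one]

theorem RTS_one (f g : Polynomial R) (m n : ℕ) (c : R) (hf : f.natDegree ≤ m) (hg : g.natDegree ≤ n) :
    (Polynomial.taylor c f).resultant (Polynomial.taylor c g) m n = f.resultant g m n := by
  obtain ⟨k, rfl⟩ := Nat.exists_eq_add_of_le hf
  obtain ⟨l, rfl⟩ := Nat.exists_eq_add_of_le hg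
  have e := RTS_deg (Polynomial.taylor c f) (Polynomial.taylor c g) k l
  rw [Polynomial.natDegree_taylor, Polynomial.natDegree_taylor] at e
  rw [e, RTS_deg f g k l, RTS_taylor_coeff f c _ le_rfl, RTS_taylor_coeff g c _ (Nat.le_add_right _ _)]
  have h := Polynomial.resultant_taylor f g c
  rw [Polynomial.natDegree_taylor, Polynomial.natDegree_taylor] at h
  rw [h]

theorem RTS_two (f f' g g' : Polynomial R) (m n : ℕ) (c : R)
    (hf : ∀ i ≤ m, f'.coeff i = c ^ (m - i) * f.coeff i)
    (hg : ∀ i ≤ n, g'.coeff i = c ^ (n - i) * g.coeff i) :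
    f'.resultant g' m n = c ^ (m * n) * f.resultant g m n := by
  obtain ⟨F, hF1, hF2⟩ := RTS_trunc f m
  obtain ⟨G, hG1, hG2⟩ := RTS_trunc g n
  rw [RTS_congr f g F G m n (fun i hi => (hF2 i hi).symm) (fun i hi => (hG2 i hi).symm)]
  obtain ⟨k, rfl⟩ := Nat.exists_eq_add_of_le hF1
  obtain ⟨l, rfl⟩ := Nat.exists_eq_add_of_le hG1
  have e1 : ∀ i ≤ F.natDegree + k, f'.coeff i = (Polynomial.C (c ^ k) * F.scaleRoots c).coeff i := by
    intro i hi
    rw [hf i hi, ← hF2 i hi, Polynomial.coeff_C_mul, Polynomial.coeff_scaleRoots]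
    by_cases h : i ≤ F.natDegree
    · rw [show F.natDegree + k - i = k + (F.natDegree - i) by omega, pow_add]
      ring
    · rw [Polynomial.coeff_eq_zero_of_natDegree_lt (by omega)]
      ring
  have e2 : ∀ i ≤ G.natDegree + l, g'.coeff i = (Polynomial.C (c ^ l) * G.scaleRoots c).coeff i := by
    intro i hi
    rw [hg i hi, ← hG2 i hi, Polynomial.coeff_C_mul, Polynomial.coeff_scaleRoots]
    by_cases h : i ≤ G.natDegree
    · rw [show G.natDegree + l - i = l + (G.natDegree - i) by omega, pow_add]
      ring
    · rw [Polynomial.coeff_eq_zero_of_natDegree_lt (by omega)]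
      ring
  rw [RTS_congr f' g' _ _ _ _ e1 e2, Polynomial.resultant_C_mul_left, Polynomial.resultant_C_mul_right]
  by_cases hkl : 0 < k ∧ 0 < l
  · have h1 : F.resultant G (F.natDegree + k) (G.natDegree + l) = 0 :=
      Polynomial.resultant_eq_zero_of_lt_lt _ _ _ _ (by omega) (by omega)
    have h2 : (F.scaleRoots c).resultant (G.scaleRoots c) (F.natDegree + k) (G.natDegree + l) = 0 :=
      Polynomial.resultant_eq_zero_of_lt_lt _ _ _ _ (by rw [Polynomial.natDegree_scaleRoots]; omega)
        (by rw [Polynomial.natDegree_scaleRoots]; omega)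
    rw [h1, h2]
    ring
  · have e := RTS_deg (F.scaleRoots c) (G.scaleRoots c) k l
    rw [Polynomial.natDegree_scaleRoots, Polynomial.natDegree_scaleRoots] at e
    rw [e, RTS_deg F G k l, RTS_scale_coeff F c _ le_rfl, RTS_scale_coeff G c _ (Nat.le_add_right _ _)]
    have h := Polynomial.resultant_scaleRoots F G c
    rw [Polynomial.natDegree_scaleRoots, Polynomial.natDegree_scaleRoots] at h
    rw [h]
    have h3 : (c ^ k) ^ (G.natDegree + l) * (c ^ l) ^ (F.natDegree + k) * c ^ (F.natDegree * G.natDegree) =
        c ^ ((F.natDegree + k) * (G.natDegree + l)) := by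
      rw [← pow_mul, ← pow_mul, ← pow_add, ← pow_add]
      congr 1
      rcases Nat.eq_zero_or_pos k with hk | hk
      · subst hk
        ring
      · have hl : l = 0 := by
          by_contra hl
          exact hkl ⟨hk, Nat.pos_of_ne_zero hl⟩
        subst hl
        ring
    rw [← h3]
    ring

end RTS

theorem p_RTS : Stmt_RTS :=
  ⟨fun _ _ f g m n c hf hg => RTS_one f g m n c hf hg,
    fun _ _ f f' g g' m n c hf hg => RTS_two f f' g g' m n c hf hg⟩

end Pool.ThmM.Chow
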