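import Pool.Agent.Work.MP_f82ddf_M.Core

/-! # Block VXK (helper55): the order of `x` is divisible by `k` -/

set_option autoImplicit false

open Pool.Agent.Work.MP_f82ddf_nt.DQ

namespace Pool.ThmM.Chow

open MvPolynomial

/-- `T` spans if its orthogonal complement is trivial -/
theorem VXK_span {r : ℕ} (T : Finset (Fin (r + 1) → ℂ))
    (hT : ∀ y : Fin (r + 1) → ℂ, (∀ u ∈ T, ∑ i, u i * y i = 0) → y = 0) :
    Submodule.span ℂ (T : Set (Fin (r + 1) → ℂ)) = ⊤ := by
  classical
  by_contra hne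
  obtain ⟨f, hf, hle⟩ := Submodule.exists_le_ker_of_lt_top _ (lt_top_iff_ne_top.2 hne)
  have hfe : ∀ u : Fin (r + 1) → ℂ, f u = ∑ i, u i * f (Pi.single i 1) := by
    intro u
    conv_lhs => rw [← Finset.univ_sum_single u]
    rw [map_sum]
    refine Finset.sum_congr rfl fun i _ => ?_
    have h1 : (Pi.single i (u i) : Fin (r + 1) → ℂ) = u i • Pi.single i 1 := by
      rw [← Pi.single_smul, smul_eq_mul, mul_one]
    rw [h1, map_smul, smul_eq_mul]
  have h0 : (fun i => f (Pi.single i 1)) = 0 := by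
    apply hT
    intro u hu
    rw [← hfe u]
    exact LinearMap.mem_ker.1 (hle (Submodule.subset_span hu))
  apply hf
  ext i
  rw [LinearMap.comp_apply, LinearMap.zero_comp, LinearMap.zero_apply]
  exact congrFun h0 i

theorem VXK_pow (hV : Pool.ThmM.Stmt_VAL) (y : Mer) (k : ℕ) (z : ℂ) :
    om (y ^ k) z = k • om y z := by
  induction k with
  | zero =>
    rw [pow_zero, zero_nsmul]
    have h1 : (1 : Mer) = algebraMap ℂ Mer 1 := by rw [map_one]
    rw [h1]
    exact (hV z).2.2.2.1 1 one_ne_zero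
  | succ n ih => rw [pow_succ, (hV z).1, ih, succ_nsmul]

theorem p_VXK : Pool.ThmM.Stmt_ORD → Pool.ThmM.Stmt_VAL → Stmt_VXK := by
  classical
  intro hO hV r k T x hx hT hy z
  obtain ⟨hmin, i0, hi0, hi0'⟩ := (hO (Fin (r + 1)) x).2 hx z
  obtain ⟨hmul, hadd, htop, hconst, hdv, -⟩ := hV z
  set v : ℤ := dv x z with hv
  have hom : om (x i0) z = (v : WithTop ℤ) := by rw [hdv _ hi0, hi0']
  have hge : ∀ i, (v : WithTop ℤ) ≤ om (x i) z := by
    intro i
    by_cases h : x i = 0
    · rw [(htop _).2 h]; exact le_top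
    · rw [hdv _ h]
      exact_mod_cast hmin i h
  have hsingle : ∀ i, ∑ j, algebraMap ℂ Mer ((Pi.single i 1 : Fin (r + 1) → ℂ) j) * x j = x i := by
    intro i
    rw [Finset.sum_eq_single i]
    · rw [Pi.single_eq_same, map_one, one_mul]
    · intro j _ hj
      rw [Pi.single_eq_of_ne hj, map_zero, zero_mul]
    · intro h; exact absurd (Finset.mem_univ i) h
  -- the vectors for which the combination has order at least `b`
  have hsub : ∀ b : ℤ, ∃ W : Submodule ℂ (Fin (r + 1) → ℂ), ∀ w, w ∈ W ↔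
      (b : WithTop ℤ) ≤ om (∑ i, algebraMap ℂ Mer (w i) * x i) z := by
    intro b
    refine ⟨{
      carrier := {w | (b : WithTop ℤ) ≤ om (∑ i, algebraMap ℂ Mer (w i) * x i) z}
      add_mem' := ?_
      zero_mem' := ?_
      smul_mem' := ?_ }, fun w => Iff.rfl⟩
    · intro w w' h h'
      show (b : WithTop ℤ) ≤ om (∑ i, algebraMap ℂ Mer ((w + w') i) * x i) z
      have e : ∑ i, algebraMap ℂ Mer ((w + w') i) * x i =
          ∑ i, algebraMap ℂ Mer (w i) * x i + ∑ i, algebraMap ℂ Mer (w' i) * x i := by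
        rw [← Finset.sum_add_distrib]
        refine Finset.sum_congr rfl fun i _ => ?_
        rw [Pi.add_apply, map_add, add_mul]
      rw [e]
      exact (le_min h h').trans (hadd _ _)
    · show (b : WithTop ℤ) ≤ om (∑ i, algebraMap ℂ Mer ((0 : Fin (r + 1) → ℂ) i) * x i) z
      have e : ∑ i, algebraMap ℂ Mer ((0 : Fin (r + 1) → ℂ) i) * x i = 0 := by
        simp
      rw [e, (htop 0).2 rfl]
      exact le_top
    · intro a w h
      show (b : WithTop ℤ) ≤ om (∑ i, algebraMap ℂ Mer ((a • w) i) * x i) z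
      have e : ∑ i, algebraMap ℂ Mer ((a • w) i) * x i =
          algebraMap ℂ Mer a * ∑ i, algebraMap ℂ Mer (w i) * x i := by
        rw [Finset.mul_sum]
        refine Finset.sum_congr rfl fun i _ => ?_
        rw [Pi.smul_apply, smul_eq_mul, map_mul, mul_assoc]
      rw [e]
      by_cases ha : a = 0
      · rw [ha, map_zero, zero_mul, (htop 0).2 rfl]
        exact le_top
      · rw [hmul, hconst a ha, zero_add]
        exact h
  have hall : ∀ w : Fin (r + 1) → ℂ,
      (v : WithTop ℤ) ≤ om (∑ i, algebraMap ℂ Mer (w i) * x i) z := by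
    obtain ⟨W, hW⟩ := hsub v
    intro w
    refine (hW w).1 ?_
    have hw : w = ∑ i, w i • (Pi.single i 1 : Fin (r + 1) → ℂ) := by
      conv_lhs => rw [← Finset.univ_sum_single w]
      refine Finset.sum_congr rfl fun i _ => ?_
      rw [← Pi.single_smul, smul_eq_mul, mul_one]
    rw [hw]
    refine Submodule.sum_mem _ fun i _ => Submodule.smul_mem _ _ ?_
    rw [hW, hsingle]
    exact hge i
  -- one of the combinations with `u ∈ T` has order exactly `v`
  obtain ⟨W, hW⟩ := hsub (v + 1)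
  have hex : ∃ u ∈ T, u ∉ W := by
    by_contra hcon
    push Not at hcon
    have h1 : Submodule.span ℂ (T : Set (Fin (r + 1) → ℂ)) ≤ W := Submodule.span_le.2 hcon
    rw [VXK_span T hT, top_le_iff] at h1
    have h2 : (Pi.single i0 1 : Fin (r + 1) → ℂ) ∈ W := by rw [h1]; exact Submodule.mem_top
    rw [hW] at h2
    rw [hsingle, hom] at h2
    have h3 : v + 1 ≤ v := by exact_mod_cast h2
    omega
  obtain ⟨u, hu, huW⟩ := hex
  rw [hW] at huW
  obtain ⟨y, hyk⟩ := hy u hu
  have h1 := hall u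
  rw [hyk] at h1 huW
  have hne : om (y ^ k) z ≠ ⊤ := by
    intro h
    rw [h] at huW
    exact huW le_top
  obtain ⟨m, hm⟩ := WithTop.ne_top_iff_exists.1 hne
  rw [← hm] at h1 huW
  have h2 : v ≤ m := by exact_mod_cast h1
  have h3 : ¬ v + 1 ≤ m := by
    intro h
    apply huW
    exact_mod_cast h
  have h4 : v = m := by omega
  rw [VXK_pow hV] at hm
  rcases Nat.eq_zero_or_pos k with hk | hk
  · subst hk
    refine ⟨0, ?_⟩
    rw [zero_nsmul] at hm
    have h5 : m = 0 := by exact_mod_cast hm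
    rw [h4, h5]
    simp
  · have hy0 : om y z ≠ ⊤ := by
      intro h
      obtain ⟨k', rfl⟩ : ∃ k', k = k' + 1 := ⟨k - 1, by omega⟩
      rw [h, succ_nsmul, WithTop.add_top] at hm
      exact WithTop.coe_ne_top hm
    obtain ⟨n, hn⟩ := WithTop.ne_top_iff_exists.1 hy0
    refine ⟨n, ?_⟩
    rw [← hn, ← WithTop.coe_nsmul, nsmul_eq_mul] at hm
    rw [h4]
    exact_mod_cast hm

end Pool.ThmM.Chow
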