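import Pool.Agent.Work.MP_f82ddf_M.Chow

set_option autoImplicit false

namespace Pool.ThmM.Chow

open MvPolynomial

/-- The substitution `X_i ↦ X_i T ^ (wt i)`. -/
noncomputable def WHF_h {σ K : Type} [CommRing K] (wt : σ → ℕ) :
    MvPolynomial σ K →+* Polynomial (MvPolynomial σ K) :=
  eval₂Hom (Polynomial.C.comp C) (fun i => Polynomial.C (X i) * Polynomial.X ^ wt i)

theorem WHF_mon {σ K : Type} [CommRing K] (wt : σ → ℕ) (s : σ →₀ ℕ) (c : K) :
    WHF_h wt (monomial s c) =
      Polynomial.C (monomial s c) * Polynomial.X ^ (Finsupp.weight wt s) := by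
  unfold WHF_h
  rw [coe_eval₂Hom, eval₂_monomial, MvPolynomial.monomial_eq, Finsupp.prod, Finsupp.prod]
  simp only [mul_pow, Finset.prod_mul_distrib, RingHom.comp_apply, map_mul, map_prod, map_pow]
  rw [mul_assoc]
  congr 2
  rw [Finsupp.weight_apply, Finsupp.sum, ← Finset.prod_pow_eq_pow_sum]
  apply Finset.prod_congr rfl
  intro i _
  rw [← pow_mul, smul_eq_mul, mul_comm]

theorem WHF_coeff {σ K : Type} [CommRing K] (wt : σ → ℕ) (F : MvPolynomial σ K) (k : ℕ)
    (s : σ →₀ ℕ) :
    ((WHF_h wt F).coeff k).coeff s = if Finsupp.weight wt s = k then F.coeff s else 0 := by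
  classical
  induction F using MvPolynomial.induction_on' with
  | monomial u a =>
    rw [WHF_mon, Polynomial.coeff_C_mul, Polynomial.coeff_X_pow]
    by_cases hk : k = Finsupp.weight wt u
    · rw [if_pos hk, mul_one]
      by_cases hs : Finsupp.weight wt s = k
      · rw [if_pos hs]
      · rw [if_neg hs, coeff_monomial, if_neg]
        intro hus
        apply hs
        rw [← hus, hk]
    · rw [if_neg hk, mul_zero, coeff_zero]
      split_ifs with hs
      · rw [coeff_monomial, if_neg]
        intro hus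
        apply hk
        rw [← hs, hus]
      · rfl
  | add p q hp hq =>
    rw [map_add, Polynomial.coeff_add, coeff_add, hp, hq, coeff_add]
    split_ifs <;> simp

theorem WHF_inj {σ K : Type} [CommRing K] (wt : σ → ℕ) (F : MvPolynomial σ K)
    (h : WHF_h wt F = 0) : F = 0 := by
  ext s
  have := WHF_coeff wt F (Finsupp.weight wt s) s
  rw [h, if_pos rfl] at this
  simpa using this.symm

theorem WHF_hom {σ K : Type} [CommRing K] (wt : σ → ℕ) (F : MvPolynomial σ K) (n : ℕ)
    (hF : IsWeightedHomogeneous wt F n) :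
    WHF_h wt F = Polynomial.C F * Polynomial.X ^ n := by
  ext k s
  rw [WHF_coeff, Polynomial.coeff_C_mul, Polynomial.coeff_X_pow]
  by_cases hs : F.coeff s = 0
  · rw [hs]
    split_ifs <;> simp [hs]
  · have := hF hs
    rw [this]
    by_cases hk : n = k
    · rw [if_pos hk, if_pos hk.symm, mul_one]
    · rw [if_neg hk, if_neg (fun h => hk h.symm), mul_zero, coeff_zero]

theorem WHF_of {σ K : Type} [CommRing K] (wt : σ → ℕ) (F : MvPolynomial σ K)
    (h : (WHF_h wt F).natTrailingDegree = (WHF_h wt F).natDegree) :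
    IsWeightedHomogeneous wt F (WHF_h wt F).natDegree := by
  intro s hs
  by_contra hne
  apply hs
  have h1 := WHF_coeff wt F (Finsupp.weight wt s) s
  rw [if_pos rfl] at h1
  rw [← h1]
  have h2 : (WHF_h wt F).coeff (Finsupp.weight wt s) = 0 := by
    rcases lt_or_gt_of_ne hne with h3 | h3
    · apply Polynomial.coeff_eq_zero_of_lt_natTrailingDegree
      rw [h]; exact h3
    · exact Polynomial.coeff_eq_zero_of_natDegree_lt h3
  rw [h2, coeff_zero]

theorem p_WHF : Stmt_WHF := by
  intro σ K _ _ wt F G n hne hFG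
  have h1 : WHF_h wt F * WHF_h wt G = Polynomial.C (F * G) * Polynomial.X ^ n := by
    rw [← map_mul, WHF_hom wt (F * G) n hFG]
  have hF : WHF_h wt F ≠ 0 := fun h => hne (by rw [WHF_inj wt F h, zero_mul])
  have hG : WHF_h wt G ≠ 0 := fun h => hne (by rw [WHF_inj wt G h, mul_zero])
  have hd := Polynomial.natDegree_mul hF hG
  have ht := Polynomial.natTrailingDegree_mul hF hG
  rw [h1, Polynomial.natDegree_C_mul_X_pow _ _ hne] at hd
  rw [h1] at ht
  have ht' : (Polynomial.C (F * G) * Polynomial.X ^ n).natTrailingDegree = n := by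
    rw [Polynomial.C_mul_X_pow_eq_monomial, Polynomial.natTrailingDegree_monomial hne]
  rw [ht'] at ht
  have l1 := Polynomial.natTrailingDegree_le_natDegree (WHF_h wt F)
  have l2 := Polynomial.natTrailingDegree_le_natDegree (WHF_h wt G)
  refine ⟨(WHF_h wt F).natDegree, (WHF_h wt G).natDegree, hd.symm, ?_, ?_⟩
  · apply WHF_of; omega
  · apply WHF_of; omega

end Pool.ThmM.Chow
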