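import Pool.Agent.Work.MP_f82ddf_M1.All2
import Pool.Agent.Work.MP_f82ddf_M5.All
import Pool.Agent.Work.MP_f82ddf_M4.All
import Pool.Agent.Work.MP_f82ddf_M.C_FNC
import Pool.Agent.Work.MP_f82ddf_M.C_FCH
import Pool.Agent.Work.MP_f82ddf_M.C_RFL
import Pool.Agent.Work.MP_f82ddf_M.C_RTS
import Pool.Agent.Work.MP_f82ddf_M.C_LNH
import Pool.Agent.Work.MP_f82ddf_M.C_CHP
import Pool.Agent.Work.MP_f82ddf_M.C_PGL
import Pool.Agent.Work.MP_f82ddf_M.C_PLW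
import Pool.Agent.Work.MP_f82ddf_M.C_WHF
import Pool.Agent.Work.MP_f82ddf_M.C_PFA
import Pool.Agent.Work.MP_f82ddf_M.C_PLS
import Pool.Agent.Work.MP_f82ddf_M.C_PSI
import Pool.Agent.Work.MP_f82ddf_M.C_NZE
import Pool.Agent.Work.MP_f82ddf_M.C_MIN
import Pool.Agent.Work.MP_f82ddf_M.C_NVC
import Pool.Agent.Work.MP_f82ddf_M.C_BAI
import Pool.Agent.Work.MP_f82ddf_M.C_COU
import Pool.Agent.Work.MP_f82ddf_M.C_HRZ
import Pool.Agent.Work.MP_f82ddf_M.C_ZER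
import Pool.Agent.Work.MP_f82ddf_M.C_CPS
import Pool.Agent.Work.MP_f82ddf_M.C_PRJ
import Pool.Agent.Work.MP_f82ddf_M.C_NVH
import Pool.Agent.Work.MP_f82ddf_M.C_NWT
import Pool.Agent.Work.MP_f82ddf_M.C_IRA
import Pool.Agent.Work.MP_f82ddf_M.C_IRR
import Pool.Agent.Work.MP_f82ddf_M.C_QPP
import Pool.Agent.Work.MP_f82ddf_M.C_OZE
import Pool.Agent.Work.MP_f82ddf_M.C_RDA
import Pool.Agent.Work.MP_f82ddf_M.C_RDN
import Pool.Agent.Work.MP_f82ddf_M.C_SPV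
import Pool.Agent.Work.MP_f82ddf_M.C_LSB
import Pool.Agent.Work.MP_f82ddf_M.C_DZS
import Pool.Agent.Work.MP_f82ddf_M.C_PHZ
import Pool.Agent.Work.MP_f82ddf_M.C_PHN
import Pool.Agent.Work.MP_f82ddf_M.C_PHG
import Pool.Agent.Work.MP_f82ddf_M.C_VXK
import Pool.Agent.Work.MP_f82ddf_M.C_LBD
import Pool.Agent.Work.MP_f82ddf_M.C_HTE
import Pool.Agent.Work.MP_f82ddf_M.C_FAC
import Pool.Agent.Work.MP_f82ddf_M.C_COP
import Pool.Agent.Work.MP_f82ddf_M.C_NOD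
import Pool.Agent.Work.MP_f82ddf_M.C_PER
import Pool.Agent.Work.MP_f82ddf_M.C_GRO
import Pool.Agent.Work.MP_f82ddf_M.C_DFF
import Pool.Agent.Work.MP_f82ddf_M.C_PFC
import Pool.Agent.Work.MP_f82ddf_M.C_PLC
import Pool.Agent.Work.MP_f82ddf_M.C_FTL
import Pool.Agent.Work.MP_f82ddf_M.C_NDC
import Pool.Agent.Work.MP_f82ddf_M.C_EXE
import Pool.Agent.Work.MP_f82ddf_M.C_END
import Pool.Agent.Work.MP_f82ddf_M.C_CORE

set_option autoImplicit false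

/-! # THEOREM M, parts P3 and P4: all the blocks together -/

namespace Pool.ThmM.Chow

open Pool.ThmM

theorem q4_FIN : M4P.FIN := M4P.cl_FIN
theorem q4_PLANE : M4P.PLANE := M4P.cl_PLANE

theorem q_FNC : Stmt_FNC := p_FNC
theorem q_FCH : Stmt_FCH := p_FCH Pool.Agent.Work.MP_f82ddf_M5.stmt_FUN q_FNC
theorem q_RFL : Stmt_RFL := p_RFL
theorem q_RTS : Stmt_RTS := p_RTS
theorem q_LNH : Stmt_LNH := p_LNH Pool.Agent.Work.MP_f82ddf_M5.stmt_DEG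
theorem q_CHP : Stmt_CHP := p_CHP Pool.Agent.Work.MP_f82ddf_M5.stmt_FUN
    Pool.Agent.Work.MP_f82ddf_M5.stmt_DEG q_RFL q_RTS q_LNH
theorem q_PGL : Stmt_PGL := p_PGL
theorem q_PLW : Stmt_PLW := p_PLW
theorem q_WHF : Stmt_WHF := p_WHF
theorem q_PFA : Stmt_PFA := p_PFA q_PLW q_WHF
theorem q_PLS : Stmt_PLS := p_PLS
theorem q_PSI : Stmt_PSI := p_PSI q_PGL
theorem q_NZE : Stmt_NZE := p_NZE Pool.Agent.Work.MP_f82ddf_M5.stmt_FUN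
    Pool.Agent.Work.MP_f82ddf_M5.stmt_DEG Pool.Agent.Work.MP_f82ddf_M5.stmt_RES
    Pool.Agent.Work.MP_f82ddf_M5.stmt_PRI q_CHP q_PGL q_FNC
theorem q_MIN : Stmt_MIN := p_MIN
theorem q_NVC : Stmt_NVC := p_NVC
theorem q_BAI : Stmt_BAI := p_BAI
theorem q_COU : Stmt_COU := p_COU
theorem q_HRZ : Stmt_HRZ := p_HRZ Pool.Agent.Work.MP_f82ddf_M5.stmt_DEG
theorem q_ZER : Stmt_ZER := p_ZER q4_FIN q_HRZ
theorem q_CPS : Stmt_CPS := p_CPS q_WHF q_MIN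
theorem q_PRJ : Stmt_PRJ := p_PRJ q_FNC
theorem q_NVH : Stmt_NVH := p_NVH
theorem q_NWT : Stmt_NWT := p_NWT
theorem q_IRA : Stmt_IRA := p_IRA Pool.Agent.Work.MP_f82ddf_M5.stmt_RES
theorem q_IRR : Stmt_IRR := p_IRR q_WHF q_MIN q_NWT q_IRA
theorem q_QPP : Stmt_QPP := p_QPP q_FNC
theorem q_OZE : Stmt_OZE := p_OZE Pool.ThmM.all_REP Pool.ThmM.all_ALG Pool.ThmM.all_VAL
theorem q_RDA : Stmt_RDA := p_RDA
theorem q_RDN : Stmt_RDN := p_RDN Pool.ThmM.all_VAL q_OZE q_RDA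
theorem q_SPV : Stmt_SPV := p_SPV Pool.ThmM.all_ALG Pool.ThmM.all_VAL Pool.ThmM.all_REP q_OZE
    q_RDA q_FNC q_FCH
theorem q_LSB : Stmt_LSB := p_LSB Pool.ThmM.all_VAL Pool.ThmM.all_LIN Pool.ThmM.all_NNP
    Pool.ThmM.all_VPD
theorem q_DZS : Stmt_DZS := p_DZS Pool.ThmM.all_DZR q_FNC
theorem q_PHZ : Stmt_PHZ := p_PHZ Pool.Agent.Work.MP_f82ddf_M5.all_LINE q_NZE q_FNC q_FCH q_OZE
    q_RDA
theorem q_PHN : Stmt_PHN := p_PHN Pool.Agent.Work.MP_f82ddf_M5.stmt_FUN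
    Pool.Agent.Work.MP_f82ddf_M5.all_PTD Pool.Agent.Work.MP_f82ddf_M5.all_IDE q_FNC q_FCH q_OZE
    q_RDA Pool.ThmM.all_GAU Pool.ThmM.all_ORD Pool.ThmM.all_VAL
theorem q_PHG : Stmt_PHG := p_PHG q_PHZ q_PHN q_FNC Pool.ThmM.all_ORD Pool.ThmM.all_VAL
    Pool.ThmM.all_GAU
theorem q_VXK : Stmt_VXK := p_VXK Pool.ThmM.all_ORD Pool.ThmM.all_VAL
theorem q_LBD : Stmt_LBD := p_LBD q_NZE q_FNC q_FCH q_SPV Pool.ThmM.all_ALG Pool.ThmM.all_ORD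
    Pool.ThmM.all_CMP
theorem q_HTE : Stmt_HTE := p_HTE Pool.ThmM.all_GAU Pool.ThmM.all_GEL Pool.ThmM.all_VPD q_LSB
theorem q_FAC : Stmt_FAC := p_FAC
theorem q_COP : Stmt_COP := p_COP Pool.ThmM.all_DZR
theorem q_NOD : Stmt_NOD := p_NOD Pool.ThmM.all_VAL Pool.ThmM.all_GAU q_LSB q_FNC
theorem q_PER : Stmt_PER := p_PER
theorem q_GRO : Stmt_GRO := p_GRO q_PER Pool.ThmM.all_GRW Pool.ThmM.all_GEL Pool.ThmM.all_LOW
theorem q_DFF : Stmt_DFF := p_DFF q_NVC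
theorem q_PFC : Stmt_PFC := p_PFC q_ZER q_QPP q_FNC q_FCH q_SPV Pool.ThmM.all_ALG
theorem q_PLC : Stmt_PLC := p_PLC q_IRR q_BAI q_QPP q_PLS q_PSI q_DFF q_PFC q_RDN q_LSB q4_PLANE
    Pool.ThmM.all_VAL Pool.ThmM.all_GAU Pool.ThmM.all_VPD Pool.ThmM.all_GEL Pool.ThmM.all_LOW
    Pool.ThmM.all_NNP
theorem q_FTL : Stmt_FTL := p_FTL q_FNC q_PRJ q_LSB
theorem q_NDC : Stmt_NDC := p_NDC q_PLC q_FTL q_PRJ Pool.ThmM.all_VAL Pool.ThmM.all_VPD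
    Pool.ThmM.all_NNP Pool.ThmM.all_LOW
theorem q_EXE : Stmt_EXE := p_EXE q_CPS q_NVC q_PLW q_PRJ q_DZS q_FNC
theorem q_END : Stmt_END := p_END Pool.ThmM.all_LEMS Pool.ThmM.all_MON
theorem q_CORE : Stmt_CORE := p_CORE q_CHP q_PLW q_PFA q_FNC q_FCH q_PHG q_VXK q_LBD q_HTE q_FAC
    q_COP q_NOD q_GRO q_FTL q_NDC q_EXE q_NVH q_COU q_END q_PRJ Pool.ThmM.all_VAL

end Pool.ThmM.Chow
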