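import Pool.Agent.Work.MP_f82ddf_M.Terminal

set_option autoImplicit false

/-! # STE: one step of the descent -/

namespace Pool.ThmM

open MvPolynomial Finset

theorem stmt_STE : Stmt_SHP → Stmt_SHL → Stmt_SHR → Stmt_RAI → Stmt_RES → Stmt_PRM →
    Stmt_STE := by
  classical
  intro hSHP hSHL hSHR hRAI hRES hPRM r w D d e P g T f hst hT hd hed hf hlow hf0 hvan
  obtain ⟨hdat, hg, hon⟩ := hst
  have hwr : w + 1 ≤ r := hdat.le
  have hD : 1 ≤ D := hdat.pos
  let m : Fin (r + 1) := ⟨w + 1, by omega⟩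
  have hm : (m : ℕ) = w + 1 := rfl
  obtain ⟨c, a, hc, ha, hF⟩ := hSHR r w e m f hm hf hlow hf0
  obtain ⟨hs1, hs2, -, -⟩ := hSHP r m c
  obtain ⟨A, hA, hAu⟩ := (hSHP r m (-c)).2.2.1
  let g' : Matrix (Fin (r + 1)) (Fin (r + 1)) ℂ := A * g
  have hg' : IsUnit g'.det := by
    show IsUnit (A * g).det
    rw [Matrix.det_mul]
    exact hA.mul hg
  have hg'u : ∀ u, g'.mulVec u = shp m (-c) (g.mulVec u) := by
    intro u
    show (A * g).mulVec u = _
    rw [← Matrix.mulVec_mulVec, hAu]
  have hev : ∀ (h : Pr r) (u : Fin (r + 1) → ℂ),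
      eval (g'.mulVec u) (shear m c h) = eval (g.mulVec u) h := by
    intro h u
    rw [hs1, hg'u, hs2]
  have hFv : ∀ u ∈ T, eval (g'.mulVec u) (C a * shear m c f) = 0 := by
    intro u hu
    rw [map_mul, hev, hvan u hu, mul_zero]
  have he1 : 1 ≤ e := by
    by_contra he
    have he0 : e = 0 := by omega
    subst he0
    obtain ⟨c', -, h2⟩ := hF
    obtain ⟨u, hu⟩ := hT
    have h3 := hFv u hu
    rw [h2] at h3
    simp at h3
  obtain ⟨hl1, hl2⟩ := hSHL r w m c hm hc
  have key : ∀ i : Fin (r + 1), ∃ E : Pr r, w < (i : ℕ) →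
      IsMon w (D * d) i E ∧ ∀ u ∈ T, eval (g'.mulVec u) E = 0 := by
    intro i
    by_cases hi : w < (i : ℕ)
    · have h1 : ∃ E : Pr r, IsMon w (D * e) i E ∧ ∀ u ∈ T, eval (g'.mulVec u) E = 0 := by
        by_cases him : i = m
        · subst him
          refine ⟨X m ^ (D * e - e) * (C a * shear m c f), ?_, ?_⟩
          · have h2 := hRAI r w e (D * e - e) m _ hF
            have h3 : e + (D * e - e) = D * e := by
              have : e ≤ D * e := Nat.le_mul_of_pos_left e hD
              omega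
            rwa [h3] at h2
          · intro u hu
            rw [map_mul, hFv u hu, mul_zero]
        · have hi' : w + 1 < (i : ℕ) := by
            rcases Nat.lt_or_ge (w + 1) i with h | h
            · exact h
            · exact absurd (Fin.ext (show (i : ℕ) = w + 1 by omega)) him
          obtain ⟨E, hE, hEm⟩ := hdat.mon i hi'
          obtain ⟨E', hE', hE'v⟩ := hRES r w e D m i _ _ hm hi' he1 hD hF (hl2 D i E hi' hEm)
          refine ⟨E', hE', fun u hu => hE'v _ (hFv u hu) ?_⟩
          rw [hev]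
          exact hon u hu E hE
      obtain ⟨E, hE, hEv⟩ := h1
      refine ⟨X i ^ (D * d - D * e) * E, fun _ => ⟨?_, ?_⟩⟩
      · have h2 := hRAI r w (D * e) (D * d - D * e) i _ hE
        have h3 : D * e + (D * d - D * e) = D * d := by
          have : D * e ≤ D * d := Nat.mul_le_mul_left D hed
          omega
        rwa [h3] at h2
      · intro u hu
        rw [map_mul, hEv u hu, mul_zero]
    · exact ⟨0, fun h => absurd h hi⟩
  choose E hE using key
  have hDd : 1 ≤ D * d := Nat.mul_pos hD hd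
  obtain ⟨Q, hQ, hQon⟩ := hPRM r w (D * d) E (by omega) hDd fun i hi => (hE i hi).1
  have : Nonempty (Fin (D * d)) := ⟨⟨0, hDd⟩⟩
  let F : (Fin (r + 1) → Fin (D * d)) → Finset (Fin (r + 1) → ℂ) :=
    fun l => T.filter fun u => On (Q l) (g'.mulVec u)
  obtain ⟨l₀, -, hl₀⟩ := Finset.exists_max_image
    (Finset.univ : Finset (Fin (r + 1) → Fin (D * d))) (fun l => (F l).card)
    Finset.univ_nonempty
  refine ⟨Q l₀, g', F l₀, ⟨hQ l₀, hg', fun u hu => (Finset.mem_filter.1 hu).2⟩,
    Finset.filter_subset _ _, ?_⟩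
  have hsub : T ⊆ Finset.univ.biUnion F := by
    intro u hu
    obtain ⟨l, hl⟩ := hQon (g'.mulVec u) fun i hi => (hE i hi).2 u hu
    exact Finset.mem_biUnion.2 ⟨l, Finset.mem_univ l, Finset.mem_filter.2 ⟨hu, hl⟩⟩
  calc T.card ≤ (Finset.univ.biUnion F).card := Finset.card_le_card hsub
    _ ≤ ∑ l, (F l).card := Finset.card_biUnion_le
    _ ≤ (Finset.univ : Finset (Fin (r + 1) → Fin (D * d))).card • (F l₀).card :=
        Finset.sum_le_card_nsmul _ _ _ fun l hl => hl₀ l hl
    _ = (D * d) ^ (r + 1) * (F l₀).card := by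
        rw [Finset.card_univ, Fintype.card_fun, Fintype.card_fin, Fintype.card_fin, smul_eq_mul]

end Pool.ThmM
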