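import Pool.Agent.Work.MP_f82ddf_M.Terminal

set_option autoImplicit false

/-! # ZRO: on a datum of dimension 0 all the points are proportional -/

namespace Pool.ThmM

open MvPolynomial Finset

theorem ZRO_mono {r n : ℕ} (c : Pr r) (hl : Low 0 c) (hh : c.IsHomogeneous n) :
    c = C (coeff (Finsupp.single 0 n) c) * X 0 ^ n := by
  classical
  ext s
  rw [coeff_C_mul, coeff_X_pow]
  split_ifs with h
  · rw [mul_one, h]
  · rw [mul_zero]
    by_contra hs
    apply h
    have h1 : ∀ i : Fin (r + 1), i ≠ 0 → s i = 0 := by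
      intro i hi
      by_contra h2
      have h3 : i ∈ c.vars :=
        (mem_vars_iff_mem_support i).2 ⟨s, mem_support_iff.2 hs, Finsupp.mem_support_iff.2 h2⟩
      have h4 := hl i h3
      apply hi
      exact Fin.ext (by simpa using h4)
    have h2 : s.degree = n := by
      have := hh hs
      rw [← this, Finsupp.degree_eq_weight_one]
      rfl
    have h3 : s = Finsupp.single 0 (s 0) := by
      ext i
      by_cases hi : i = 0
      · subst hi; simp
      · rw [h1 i hi, Finsupp.single_eq_of_ne hi]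
    rw [h3, Finsupp.degree_single] at h2
    rw [h3, h2]

theorem ZRO_lin {r D : ℕ} {P : Ideal (Pr r)} (h : Datum r 0 D P) (i : Fin (r + 1)) :
    ∃ α : ℂ, X i - C α * X 0 ∈ P := by
  by_cases hi : i = 0
  · refine ⟨1, ?_⟩
    subst hi
    simp
  have hi' : 0 < (i : ℕ) := Nat.pos_of_ne_zero fun h0 => hi (Fin.ext h0)
  obtain ⟨E, hE, c, hc, hEq⟩ := h.mon i hi'
  have := h.prime
  have hX0 : (X 0 : Pr r) ∉ P := by
    intro h0
    have h1 := h.indep _ h0 (by
      intro j hj
      rw [vars_X, Finset.mem_singleton] at hj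
      subst hj
      simp)
    exact X_ne_zero 0 h1
  let B := Pr r ⧸ P
  let K := FractionRing B
  let φ : Pr r →ₐ[ℂ] K := (IsScalarTower.toAlgHom ℂ B K).comp (Ideal.Quotient.mkₐ ℂ P)
  have hφ : ∀ f : Pr r, φ f = 0 ↔ f ∈ P := by
    intro f
    show algebraMap B K (Ideal.Quotient.mk P f) = 0 ↔ f ∈ P
    rw [FaithfulSMul.algebraMap_eq_zero_iff, Ideal.Quotient.eq_zero_iff_mem]
  have hx0 : φ (X 0) ≠ 0 := fun h0 => hX0 ((hφ _).1 h0)
  have hE0 : φ E = 0 := (hφ _).2 hE
  set y : K := φ (X i) / φ (X 0) with hy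
  let q : Polynomial ℂ := Polynomial.X ^ D +
    ∑ j ∈ range D, Polynomial.C (coeff (Finsupp.single 0 (D - j)) (c j)) * Polynomial.X ^ j
  have hqm : q.Monic := by
    apply Polynomial.monic_X_pow_add
    refine lt_of_le_of_lt (Polynomial.degree_sum_le _ _) ?_
    refine (Finset.sup_lt_iff (WithBot.bot_lt_coe D)).2 ?_
    intro j hj
    refine lt_of_le_of_lt (Polynomial.degree_C_mul_X_pow_le _ _) ?_
    exact WithBot.coe_lt_coe.2 (Finset.mem_range.1 hj)
  have hqy : Polynomial.aeval y q = 0 := by
    have h1 : Polynomial.aeval y q * φ (X 0) ^ D = φ E := by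
      rw [hEq]
      simp only [q, map_add, map_sum, map_mul, map_pow, Polynomial.aeval_X, Polynomial.aeval_C,
        add_mul]
      congr 1
      · rw [hy, div_pow, div_mul_cancel₀ _ (pow_ne_zero D hx0)]
      · rw [Finset.sum_mul]
        apply Finset.sum_congr rfl
        intro j hj
        have hjD := Finset.mem_range.1 hj
        have h2 := ZRO_mono (c j) (hc j hjD).1 (hc j hjD).2
        have h3 : φ (c j) = algebraMap ℂ K (coeff (Finsupp.single 0 (D - j)) (c j)) *
            φ (X 0) ^ (D - j) := by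
          conv_lhs => rw [h2]
          rw [map_mul, map_pow]
          exact congrArg (· * φ (X 0) ^ (D - j)) (φ.commutes _)
        rw [h3]
        have h4 : φ (X 0) ^ D = φ (X 0) ^ (D - j) * φ (X 0) ^ j := by
          rw [← pow_add, Nat.sub_add_cancel hjD.le]
        have h5 : φ (X 0) ^ j ≠ 0 := pow_ne_zero j hx0
        rw [h4, hy, div_pow]
        have h6 : ∀ a b c e : K, e ≠ 0 → a * (b / e) * (c * e) = a * c * b := by
          intro a b c e he
          have h7 : b / e * e = b := div_mul_cancel₀ _ he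
          calc a * (b / e) * (c * e) = a * c * (b / e * e) := by ring
            _ = a * c * b := by rw [h7]
        exact h6 _ _ _ _ h5
    rw [hE0] at h1
    exact (mul_eq_zero.1 h1).resolve_right (pow_ne_zero D hx0)
  have hint : IsIntegral ℂ y := ⟨q, hqm, hqy⟩
  have hdeg := IsAlgClosed.degree_eq_one_of_irreducible ℂ (minpoly.irreducible hint)
  obtain ⟨α, hα⟩ := minpoly.mem_range_of_degree_eq_one ℂ y hdeg
  refine ⟨α, (hφ _).1 ?_⟩
  rw [map_sub, map_mul, sub_eq_zero]
  have h5 : φ (C α) = algebraMap ℂ K α := φ.commutes α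
  rw [h5, hα, hy, div_mul_cancel₀ _ hx0]

theorem stmt_ZRO : Stmt_ZRO := by
  intro r D P g u v hD hg hu hv huv
  choose α hα using fun i => ZRO_lin hD i
  have key : ∀ p : Fin (r + 1) → ℂ, On P p → p = p 0 • α := by
    intro p hp
    funext i
    have h1 := hp _ (hα i)
    simp only [map_sub, map_mul, eval_X, eval_C] at h1
    rw [Pi.smul_apply, smul_eq_mul, mul_comm]
    exact sub_eq_zero.1 h1
  have hinj : Function.Injective g.mulVec :=
    Matrix.mulVec_injective_of_isUnit ((Matrix.isUnit_iff_isUnit_det g).2 hg)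
  set p := g.mulVec u with hp
  set q := g.mulVec v with hq
  have h1 : q 0 • u = p 0 • v := by
    apply hinj
    rw [Matrix.mulVec_smul, Matrix.mulVec_smul, ← hp, ← hq, key p hu, key q hv]
    simp only [Pi.smul_apply, smul_eq_mul, smul_smul]
    have e1 := congrFun (key p hu) 0
    have e2 := congrFun (key q hv) 0
    simp only [Pi.smul_apply, smul_eq_mul] at e1 e2
    rw [← e1, ← e2, mul_comm]
  obtain ⟨h2, h3⟩ := huv _ _ h1
  have h4 : p = 0 := by rw [key p hu, h3, zero_smul]
  have h5 : u = 0 := by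
    apply hinj
    rw [← hp, h4, Matrix.mulVec_zero]
  have h6 := huv 1 0 (by rw [h5]; simp)
  exact one_ne_zero h6.1

end Pool.ThmM
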