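import Pool.Agent.Work.MP_f82ddf_M.Terminal2

/-!
# PEL: primitive elements with natural coefficients (helper29)
-/

set_option autoImplicit false

namespace Pool.ThmM

namespace PEL

open Polynomial

/-- Two different embeddings are separated by a generator. -/
theorem sep {K L Ω : Type} [Field K] [Field L] [Field Ω] [Algebra K L] [Algebra K Ω]
    {m : ℕ} (t : Fin m → L) (ht : IntermediateField.adjoin K (Set.range t) = ⊤)
    (σ τ : L →ₐ[K] Ω) (h : ∀ i, σ (t i) = τ (t i)) : σ = τ := by
  have h1 : Set.range t ⊆ (AlgHom.equalizer σ τ : Set L) := by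
    rintro _ ⟨i, rfl⟩
    exact h i
  let E : IntermediateField K L :=
    { AlgHom.equalizer σ τ with
      inv_mem' := by
        intro x hx
        show σ x⁻¹ = τ x⁻¹
        rw [map_inv₀, map_inv₀]
        exact congrArg _ hx }
  have h2 : IntermediateField.adjoin K (Set.range t) ≤ E :=
    IntermediateField.adjoin_le_iff.2 h1
  rw [ht] at h2
  ext x
  have h3 : x ∈ E := h2 (IntermediateField.mem_top)
  exact h3

end PEL

open PEL Polynomial in
theorem stmt_PEL : Stmt_PEL := by
  intro K L _ _ _ _ _ m t ht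
  classical
  let Ω := AlgebraicClosure K
  have : CharZero Ω := charZero_of_injective_algebraMap (algebraMap K Ω).injective
  have : Fintype (L →ₐ[K] Ω) := Fintype.ofFinite _
  -- the polynomials
  let p : (L →ₐ[K] Ω) × (L →ₐ[K] Ω) → (Polynomial Ω) := fun s =>
    ∑ i : Fin m, C (s.1 (t i) - s.2 (t i)) * X ^ (i : ℕ)
  have hcoef : ∀ s, ∀ i : Fin m, (p s).coeff i = s.1 (t i) - s.2 (t i) := by
    intro s i
    simp only [p, finsetSum_coeff, coeff_C_mul, coeff_X_pow]
    rw [Finset.sum_eq_single i]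
    · simp
    · intro j _ hj
      rw [if_neg (fun h => hj (Fin.ext h.symm)), mul_zero]
    · intro h
      exact absurd (Finset.mem_univ i) h
  have hp : ∀ s, s.1 ≠ s.2 → p s ≠ 0 := by
    intro s hs h0
    apply hs
    apply sep t ht
    intro i
    have := hcoef s i
    rw [h0, coeff_zero] at this
    exact (sub_eq_zero.1 this.symm)
  let P : (Polynomial Ω) := ∏ s ∈ (Finset.univ.filter fun s : (L →ₐ[K] Ω) × (L →ₐ[K] Ω) => s.1 ≠ s.2), p s
  have hP : P ≠ 0 := by
    rw [Finset.prod_ne_zero_iff]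
    intro s hs
    exact hp s (Finset.mem_filter.1 hs).2
  obtain ⟨N, hN⟩ : ∃ N : ℕ, eval (N : Ω) P ≠ 0 := by
    by_contra hcon
    push Not at hcon
    apply hP
    apply Polynomial.eq_zero_of_infinite_isRoot
    refine Set.Infinite.mono (s := Set.range (fun n : ℕ => (n : Ω))) ?_
      (Set.infinite_range_of_injective Nat.cast_injective)
    rintro _ ⟨n, rfl⟩
    exact hcon n
  refine ⟨fun i => N ^ (i : ℕ), ?_⟩
  have : Algebra.IsSeparable K L := inferInstance
  have hspl : ∀ x : L, ((minpoly K x).map (algebraMap K Ω)).Splits := fun x =>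
    IsAlgClosed.splits _
  rw [Field.primitive_element_iff_algHom_eq_of_eval' K Ω hspl]
  intro σ τ hst
  by_contra hne
  apply hN
  have h1 : eval (N : Ω) (p (σ, τ)) = 0 := by
    simp only [p, eval_finsetSum, eval_mul, eval_C, eval_pow, eval_X]
    have h2 : σ (∑ i : Fin m, ((N ^ (i : ℕ) : ℕ) : L) * t i) =
        τ (∑ i : Fin m, ((N ^ (i : ℕ) : ℕ) : L) * t i) := hst
    rw [map_sum, map_sum, ← sub_eq_zero, ← Finset.sum_sub_distrib] at h2
    rw [← h2]
    refine Finset.sum_congr rfl fun i _ => ?_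
    rw [map_mul, map_mul, map_natCast, map_natCast]
    push_cast
    ring
  show eval (N : Ω) (∏ s ∈ (Finset.univ.filter fun s : (L →ₐ[K] Ω) × (L →ₐ[K] Ω) => s.1 ≠ s.2), p s) = 0
  rw [eval_prod]
  exact Finset.prod_eq_zero (Finset.mem_filter.2 ⟨Finset.mem_univ (σ, τ), hne⟩) h1

end Pool.ThmM
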