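import Pool.Agent.Work.MP_f82ddf_M.Terminal2

set_option autoImplicit false

/-! # Theorem M, part P2, block PRA (helper38): integral extensions with a primitive element -/

namespace Pool.ThmM

namespace PRA

open Module

/-- degree bound for a finitely generated field extension -/
theorem fin_adj (K L : Type) [Field K] [Field L] [Algebra K L] (D m : ℕ) (t : Fin m → L)
    (h : ∀ i, IsIntegral K (t i) ∧ (minpoly K (t i)).natDegree ≤ D) (s : Finset (Fin m)) :
    FiniteDimensional K (IntermediateField.adjoin K (t '' (s : Set (Fin m)))) ∧
      finrank K (IntermediateField.adjoin K (t '' (s : Set (Fin m)))) ≤ D ^ s.card := by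
  classical
  induction s using Finset.induction_on with
  | empty =>
    rw [Finset.coe_empty, Set.image_empty, IntermediateField.adjoin_empty]
    refine ⟨inferInstance, ?_⟩
    rw [IntermediateField.finrank_bot, Finset.card_empty, pow_zero]
  | insert a s ha ih =>
    obtain ⟨ih1, ih2⟩ := ih
    have h1 : IntermediateField.adjoin K (t '' ((insert a s : Finset (Fin m)) : Set (Fin m))) =
        IntermediateField.adjoin K {t a} ⊔ IntermediateField.adjoin K (t '' (s : Set (Fin m))) := by
      rw [Finset.coe_insert, Set.image_insert_eq, Set.insert_eq, IntermediateField.adjoin_union]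
    haveI := ih1
    haveI : FiniteDimensional K (IntermediateField.adjoin K {t a}) :=
      IntermediateField.adjoin.finiteDimensional (h a).1
    rw [h1]
    refine ⟨IntermediateField.finiteDimensional_sup _ _, ?_⟩
    refine (IntermediateField.finrank_sup_le _ _).trans ?_
    rw [Finset.card_insert_of_notMem ha, pow_succ, mul_comm (D ^ s.card)]
    refine Nat.mul_le_mul ?_ ih2
    rw [IntermediateField.adjoin.finrank (h a).1]
    exact (h a).2

/-- the trace argument: `q'(y) z` is a polynomial in `y` -/
theorem dual (A K L : Type) [CommRing A] [IsDomain A] [IsIntegrallyClosed A] [Field K] [Field L]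
    [Algebra A K] [Algebra K L] [Algebra A L] [IsScalarTower A K L] [IsFractionRing A K]
    [FiniteDimensional K L] [Algebra.IsSeparable K L] (y z : L)
    (hy : IntermediateField.adjoin K {y} = ⊤) (hyi : IsIntegral A y) (hz : IsIntegral A z) :
    ∃ a : Polynomial A, Polynomial.aeval y a =
      Polynomial.aeval y (Polynomial.derivative (minpoly K y)) * z := by
  have hK : Algebra.adjoin K {y} = ⊤ := by
    have h1 := IntermediateField.adjoin_simple_toSubalgebra_of_isAlgebraic
      (Algebra.IsAlgebraic.isAlgebraic (R := K) y)
    rw [hy, IntermediateField.top_toSubalgebra] at h1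
    exact h1.symm
  have h2 := traceForm_dualSubmodule_adjoin A K hK hyi
  have h3 : z ∈ (Algebra.traceForm K L).dualSubmodule
      (Subalgebra.toSubmodule (Algebra.adjoin A {y})) := by
    rw [LinearMap.BilinForm.mem_dualSubmodule]
    intro x hx
    rw [Algebra.traceForm_apply, Submodule.mem_one]
    have hx' : x ∈ Algebra.adjoin A {y} := hx
    have h4 : IsIntegral A x := by
      have h5 : Algebra.adjoin A {y} ≤ integralClosure A L :=
        Algebra.adjoin_le (Set.singleton_subset_iff.2 hyi)
      exact h5 hx'
    exact IsIntegrallyClosed.isIntegral_iff.1 (Algebra.isIntegral_trace (hz.mul h4))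
  rw [h2] at h3
  have hne : Polynomial.aeval y (Polynomial.derivative (minpoly K y)) ≠ 0 :=
    (Algebra.IsSeparable.isSeparable K y).aeval_derivative_ne_zero (minpoly.aeval _ _)
  rw [Submodule.mem_smul_iff_inv_mul_mem (inv_ne_zero hne), inv_inv,
    Subalgebra.mem_toSubmodule, Algebra.adjoin_singleton_eq_range_aeval] at h3
  obtain ⟨a, ha⟩ := h3
  exact ⟨a, ha⟩

end PRA

open Module in
theorem stmt_PRA (hPEL : Stmt_PEL) : Stmt_PRA := by
  classical
  intro A B _ _ _ _ _ _ _ hinj m D t hgen hroot
  haveI : FaithfulSMul A B := (faithfulSMul_iff_algebraMap_injective _ _).2 hinj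
  haveI : IsTorsionFree A B := isTorsionFree_iff_algebraMap_injective.2 hinj
  let K : Type := FractionRing A
  let L : Type := FractionRing B
  have hBL : Function.Injective (algebraMap B L) := IsFractionRing.injective B L
  have hAL : Function.Injective (algebraMap A L) := by
    rw [IsScalarTower.algebraMap_eq A B L]
    exact hBL.comp hinj
  haveI : FaithfulSMul A L := (faithfulSMul_iff_algebraMap_injective _ _).2 hAL
  letI : Algebra K L := FractionRing.liftAlgebra A L
  haveI : IsScalarTower A K L := FractionRing.isScalarTower_liftAlgebra A L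
  haveI : CharZero K := charZero_of_injective_algebraMap (IsFractionRing.injective A K)
  -- integrality
  have hint : ∀ i, IsIntegral A (t i) := by
    intro i
    obtain ⟨p, hp1, -, hp2⟩ := hroot i
    exact ⟨p, hp1, hp2⟩
  have hB : ∀ b : B, IsIntegral A b := by
    intro b
    have h1 : Algebra.adjoin A (Set.range t) ≤ integralClosure A B :=
      Algebra.adjoin_le (by rintro _ ⟨i, rfl⟩; exact hint i)
    have h2 : b ∈ Algebra.adjoin A (Set.range t) := by
      rw [hgen]
      exact Algebra.mem_top
    exact h1 h2
  have hBLint : ∀ b : B, IsIntegral A (algebraMap B L b) := fun b => (hB b).algebraMap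
  -- the fraction field is generated by the images
  have htop : IntermediateField.adjoin K (Set.range fun i => algebraMap B L (t i)) = ⊤ := by
    have h1 : ∀ b : B, algebraMap B L b ∈
        IntermediateField.adjoin K (Set.range fun i => algebraMap B L (t i)) := by
      intro b
      have h2 : b ∈ Algebra.adjoin A (Set.range t) := by
        rw [hgen]
        exact Algebra.mem_top
      induction h2 using Algebra.adjoin_induction with
      | mem x hx =>
        obtain ⟨i, rfl⟩ := hx
        exact IntermediateField.subset_adjoin K _ ⟨i, rfl⟩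
      | algebraMap r =>
        rw [← IsScalarTower.algebraMap_apply A B L, IsScalarTower.algebraMap_apply A K L]
        exact IntermediateField.algebraMap_mem _ _
      | add x y _ _ hx hy =>
        rw [map_add]
        exact add_mem hx hy
      | mul x y _ _ hx hy =>
        rw [map_mul]
        exact mul_mem hx hy
    rw [eq_top_iff]
    intro z _
    obtain ⟨x, y, -, rfl⟩ := IsFractionRing.div_surjective (A := B) z
    exact div_mem (h1 x) (h1 y)
  have hdeg : ∀ i, IsIntegral K (algebraMap B L (t i)) ∧
      (minpoly K (algebraMap B L (t i))).natDegree ≤ D := by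
    intro i
    obtain ⟨p, hp1, hp2, hp3⟩ := hroot i
    have h1 : Polynomial.aeval (algebraMap B L (t i)) (p.map (algebraMap A K)) = 0 := by
      rw [Polynomial.aeval_map_algebraMap, Polynomial.aeval_algebraMap_apply, hp3, map_zero]
    refine ⟨⟨p.map (algebraMap A K), hp1.map _, h1⟩, ?_⟩
    refine (Polynomial.natDegree_le_of_dvd (minpoly.dvd K _ h1) (hp1.map _).ne_zero).trans ?_
    rw [hp1.natDegree_map, hp2]
  obtain ⟨hfd, hrk⟩ := PRA.fin_adj K L D m (fun i => algebraMap B L (t i)) hdeg Finset.univ
  rw [Finset.coe_univ, Set.image_univ, htop] at hfd hrk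
  haveI : FiniteDimensional K L :=
    (IntermediateField.topEquiv (F := K) (E := L)).toLinearEquiv.finiteDimensional
  rw [IntermediateField.finrank_top', Finset.card_univ, Fintype.card_fin] at hrk
  obtain ⟨c, hc⟩ := hPEL K L m (fun i => algebraMap B L (t i)) htop
  have hy : algebraMap B L (∑ i, (c i : B) * t i) = ∑ i, (c i : L) * algebraMap B L (t i) := by
    rw [map_sum]
    refine Finset.sum_congr rfl fun i _ => ?_
    rw [map_mul, map_natCast]
  rw [← hy] at hc
  have hyi := hB (∑ i, (c i : B) * t i)
  have hmin := minpoly.isIntegrallyClosed_eq_field_fractions K L hyi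
  refine ⟨c, minpoly A (∑ i, (c i : B) * t i), minpoly.monic hyi,
    (minpoly.prime_of_isIntegrallyClosed hyi).irreducible, ?_,
    fun f hf => minpoly.isIntegrallyClosed_dvd hyi hf, minpoly.aeval _ _, ?_⟩
  · have h1 : (minpoly K (algebraMap B L (∑ i, (c i : B) * t i))).natDegree =
        (minpoly A (∑ i, (c i : B) * t i)).natDegree := by
      rw [hmin, (minpoly.monic hyi).natDegree_map]
    rw [← h1, ← IntermediateField.adjoin.finrank (Algebra.IsIntegral.isIntegral _), hc,
      IntermediateField.finrank_top']
    exact hrk
  · intro z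
    obtain ⟨a, ha⟩ := PRA.dual A K L (algebraMap B L (∑ i, (c i : B) * t i)) (algebraMap B L z)
      hc (hBLint _) (hBLint z)
    refine ⟨a, hBL ?_⟩
    rw [← Polynomial.aeval_algebraMap_apply, ha, map_mul, hmin, Polynomial.derivative_map,
      Polynomial.aeval_map_algebraMap, Polynomial.aeval_algebraMap_apply]

end Pool.ThmM
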