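import Pool.Agent.Work.MP_f82ddf_M.Terminal2

set_option autoImplicit false

/-! # Block PRB: the hypersurface model of a datum -/

namespace Pool.ThmM.PRB

open MvPolynomial Finset Pool.ThmM

/-! ## The isomorphism `A[T] ≃ ℂ[X_0, .., X_(w+1)]` -/

/-- the homomorphism `A[T] → ℂ[X_0, .., X_(w+1)]` -/
noncomputable def PRB_th (w : ℕ) :
    Polynomial (MvPolynomial (Fin (w + 1)) ℂ) →+* MvPolynomial (Fin (w + 2)) ℂ :=
  Polynomial.eval₂RingHom (rename (Fin.castSucc : Fin (w + 1) → Fin (w + 2))).toRingHom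
    (X (Fin.last (w + 1)))

/-- its inverse -/
noncomputable def PRB_ps (w : ℕ) :
    MvPolynomial (Fin (w + 2)) ℂ →+* Polynomial (MvPolynomial (Fin (w + 1)) ℂ) :=
  eval₂Hom (Polynomial.C.comp C)
    (fun j => Fin.lastCases (motive := fun _ => Polynomial (MvPolynomial (Fin (w + 1)) ℂ))
      Polynomial.X (fun j => Polynomial.C (X j)) j)

theorem PRB_th_C (w : ℕ) (a : MvPolynomial (Fin (w + 1)) ℂ) :
    PRB_th w (Polynomial.C a) = rename Fin.castSucc a := by
  simp [PRB_th]

theorem PRB_th_X (w : ℕ) : PRB_th w Polynomial.X = X (Fin.last (w + 1)) := by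
  simp [PRB_th]

theorem PRB_th_mon (w : ℕ) (b : MvPolynomial (Fin (w + 1)) ℂ) (k : ℕ) :
    PRB_th w (Polynomial.C b * Polynomial.X ^ k) =
      rename Fin.castSucc b * X (Fin.last (w + 1)) ^ k := by
  rw [map_mul, map_pow, PRB_th_C, PRB_th_X]

theorem PRB_ps_C (w : ℕ) (z : ℂ) : PRB_ps w (C z) = Polynomial.C (C z) := by
  simp [PRB_ps]

theorem PRB_ps_last (w : ℕ) : PRB_ps w (X (Fin.last (w + 1))) = Polynomial.X := by
  simp [PRB_ps]

theorem PRB_ps_cast (w : ℕ) (j : Fin (w + 1)) :
    PRB_ps w (X j.castSucc) = Polynomial.C (X j) := by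
  simp [PRB_ps]

/-- the isomorphism -/
noncomputable def PRB_eq (w : ℕ) :
    Polynomial (MvPolynomial (Fin (w + 1)) ℂ) ≃+* MvPolynomial (Fin (w + 2)) ℂ :=
  RingEquiv.ofRingHom (PRB_th w) (PRB_ps w)
    (by
      refine MvPolynomial.ringHom_ext ?_ ?_
      · intro z
        simp only [RingHom.comp_apply, RingHom.id_apply,
          PRB_th_C, rename_C, PRB_ps_C]
      · intro j
        refine Fin.lastCases ?_ (fun j => ?_) j
        · simp only [RingHom.comp_apply, RingHom.id_apply,
            PRB_th_X, PRB_ps_last]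
        · simp only [RingHom.comp_apply, RingHom.id_apply,
            PRB_th_C, rename_X, PRB_ps_cast])
    (by
      refine Polynomial.ringHom_ext' ?_ ?_
      · refine MvPolynomial.ringHom_ext ?_ ?_
        · intro z
          simp only [RingHom.comp_apply, RingHom.id_apply,
            PRB_th_C, rename_C, PRB_ps_C]
        · intro j
          simp only [RingHom.comp_apply, RingHom.id_apply,
            PRB_th_C, rename_X, PRB_ps_cast]
      · simp only [RingHom.comp_apply, RingHom.id_apply,
          PRB_th_X, PRB_ps_last])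

theorem PRB_eq_apply (w : ℕ) (p : Polynomial (MvPolynomial (Fin (w + 1)) ℂ)) :
    PRB_eq w p = PRB_th w p := rfl

theorem PRB_irr (w : ℕ) {p : Polynomial (MvPolynomial (Fin (w + 1)) ℂ)} (h : Irreducible p) :
    Irreducible (PRB_th w p) := by
  rw [← PRB_eq_apply]
  exact (MulEquiv.irreducible_iff (PRB_eq w)).2 h

/-- the derivative -/
theorem PRB_pd (w : ℕ) (p : Polynomial (MvPolynomial (Fin (w + 1)) ℂ)) :
    pderiv (Fin.last (w + 1)) (PRB_th w p) = PRB_th w (Polynomial.derivative p) := by
  induction p using Polynomial.induction_on' with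
  | add p q hp hq => simp only [map_add, hp, hq]
  | monomial n a =>
    have h0 : pderiv (Fin.last (w + 1)) (rename (Fin.castSucc : Fin (w + 1) → Fin (w + 2)) a)
        = 0 := by
      classical
      apply pderiv_eq_zero_of_notMem_vars
      intro h
      have h1 := vars_rename (Fin.castSucc : Fin (w + 1) → Fin (w + 2)) a h
      obtain ⟨j, -, hj⟩ := Finset.mem_image.1 h1
      exact (Fin.castSucc_lt_last j).ne hj
    have h1 : rename (Fin.castSucc : Fin (w + 1) → Fin (w + 2)) (a * (n : MvPolynomial _ ℂ)) =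
        rename Fin.castSucc a * (n : MvPolynomial (Fin (w + 2)) ℂ) := by
      rw [map_mul, map_natCast]
    rw [← Polynomial.C_mul_X_pow_eq_monomial, Polynomial.derivative_C_mul_X_pow, PRB_th_mon,
      PRB_th_mon, h1]
    rw [Derivation.leibniz, h0, smul_zero, add_zero, Derivation.leibniz_pow, pderiv_X_self]
    simp only [smul_eq_mul, nsmul_eq_mul, mul_one]
    ring

/-! ## Homogeneous components -/

theorem PRB_hc (w d j : ℕ) (hj : j ≤ d) (a : MvPolynomial (Fin (w + 1)) ℂ) :
    homogeneousComponent d (rename (Fin.castSucc : Fin (w + 1) → Fin (w + 2)) a *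
      X (Fin.last (w + 1)) ^ j) =
    rename Fin.castSucc (homogeneousComponent (d - j) a) * X (Fin.last (w + 1)) ^ j := by
  have h1 : rename (Fin.castSucc : Fin (w + 1) → Fin (w + 2)) a * X (Fin.last (w + 1)) ^ j =
      ∑ i ∈ range (a.totalDegree + 1), rename (Fin.castSucc : Fin (w + 1) → Fin (w + 2))
        (homogeneousComponent i a) * X (Fin.last (w + 1)) ^ j := by
    rw [← Finset.sum_mul, ← map_sum, sum_homogeneousComponent]
  have h2 : ∀ i, homogeneousComponent d (rename (Fin.castSucc : Fin (w + 1) → Fin (w + 2))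
      (homogeneousComponent i a) * X (Fin.last (w + 1)) ^ j) =
      if i = d - j then rename (Fin.castSucc : Fin (w + 1) → Fin (w + 2))
        (homogeneousComponent i a) * X (Fin.last (w + 1)) ^ j else 0 := by
    intro i
    have h3 : (rename (Fin.castSucc : Fin (w + 1) → Fin (w + 2))
      (homogeneousComponent i a) * X (Fin.last (w + 1)) ^ j).IsHomogeneous (i + j) := by
      refine IsHomogeneous.mul (homogeneousComponent_isHomogeneous i a).rename_isHomogeneous ?_
      have h4 := (isHomogeneous_X ℂ (Fin.last (w + 1))).pow j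
      simpa using h4
    rw [homogeneousComponent_of_mem ((mem_homogeneousSubmodule _ _).2 h3)]
    have h4 : (d = i + j) ↔ (i = d - j) := by omega
    simp only [h4]
  rw [h1, map_sum, Finset.sum_congr rfl (fun i _ => h2 i), Finset.sum_ite_eq']
  split_ifs with h
  · rfl
  · have h5 : homogeneousComponent (d - j) a = 0 := by
      apply homogeneousComponent_eq_zero
      rw [Finset.mem_range] at h
      omega
    rw [h5, map_zero, zero_mul]

theorem PRB_deg {A : Type} [CommRing A] (d : ℕ) (b : ℕ → A) :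
    (∑ j ∈ range d, Polynomial.C (b j) * Polynomial.X ^ j).degree < (d : WithBot ℕ) := by
  rw [Finset.sum_range]
  exact Polynomial.degree_sum_fin_lt (fun j : Fin d => b j)

theorem PRB_monic {A : Type} [CommRing A] (d : ℕ) (b : ℕ → A) :
    (Polynomial.X ^ d + ∑ j ∈ range d, Polynomial.C (b j) * Polynomial.X ^ j).Monic :=
  Polynomial.monic_X_pow_add (PRB_deg d b)

theorem PRB_natDegree {A : Type} [CommRing A] [Nontrivial A] (d : ℕ) (b : ℕ → A) :
    (Polynomial.X ^ d + ∑ j ∈ range d, Polynomial.C (b j) * Polynomial.X ^ j).natDegree = d := by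
  rw [Polynomial.natDegree_add_eq_left_of_degree_lt, Polynomial.natDegree_X_pow]
  rw [Polynomial.degree_X_pow]
  exact PRB_deg d b

/-- a polynomial in `X_0, .., X_w` -/
theorem PRB_low {r w : ℕ} (hw : w ≤ r) {f : Pr r} (h : Low w f) :
    ∃ g : MvPolynomial (Fin (w + 1)) ℂ, rename (Fin.castLE (Nat.succ_le_succ hw)) g = f := by
  refine exists_rename_eq_of_vars_subset_range f _ (Fin.castLE_injective _) ?_
  intro i hi
  exact ⟨⟨i, Nat.lt_succ_of_le (h i hi)⟩, rfl⟩

theorem PRB_low' {r w : ℕ} (hw : w ≤ r) (g : MvPolynomial (Fin (w + 1)) ℂ) :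
    Low (r := r) w (rename (Fin.castLE (Nat.succ_le_succ hw)) g) := by
  classical
  intro i hi
  have h1 := vars_rename _ g hi
  obtain ⟨j, -, rfl⟩ := Finset.mem_image.1 h1
  exact Nat.le_of_lt_succ j.2

theorem PRB_ofNat {r w : ℕ} (hw : w ≤ r) (j : Fin (w + 1)) :
    Fin.ofNat (r + 1) ((j.castSucc : Fin (w + 2)) : ℕ) =
      Fin.castLE (Nat.succ_le_succ hw) j := by
  ext
  simp only [Fin.ofNat, Fin.val_castSucc, Fin.val_castLE]
  exact Nat.mod_eq_of_lt (by omega)

theorem PRB_sub_cast {r w : ℕ} (hw : w ≤ r) (c : Fin (r + 1) → ℂ) (j : Fin (w + 1)) :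
    sub w c (X j.castSucc) = X (Fin.castLE (Nat.succ_le_succ hw) j) := by
  have h1 : ((j.castSucc : Fin (w + 2)) : ℕ) ≤ w := by
    rw [Fin.val_castSucc]; omega
  rw [sub, aeval_X, if_pos h1, PRB_ofNat hw]

theorem PRB_sub_last {r w : ℕ} (c : Fin (r + 1) → ℂ) :
    sub w c (X (Fin.last (w + 1))) = ∑ i, C (c i) * X i := by
  have h1 : ¬ ((Fin.last (w + 1) : Fin (w + 2)) : ℕ) ≤ w := by
    rw [Fin.val_last]; omega
  rw [sub, aeval_X, if_neg h1]

end Pool.ThmM.PRB

namespace Pool.ThmM

open MvPolynomial Finset Pool.ThmM.PRB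

theorem stmt_PRB (hPRA : Stmt_PRA) (hSUB : Stmt_SUB) : Stmt_PRB := by
  intro r w D P hP
  have hw := hP.le
  have := hP.prime
  obtain ⟨-, hsubH, hsubC⟩ : (∀ c : Fin (r + 1) → ℂ, True) ∧
      (∀ (c : Fin (r + 1) → ℂ) (f : MvPolynomial (Fin (w + 2)) ℂ) (e : ℕ), f.IsHomogeneous e →
        (sub w c f).IsHomogeneous e) ∧
      ∀ (c : Fin (r + 1) → ℂ) (f : MvPolynomial (Fin (w + 2)) ℂ) (e : ℕ),
        homogeneousComponent e (sub w c f) = sub w c (homogeneousComponent e f) :=
    ⟨fun _ => trivial, fun c => (hSUB r w c).2.1, fun c => (hSUB r w c).2.2⟩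
  set em : Fin (w + 1) → Fin (r + 1) := Fin.castLE (Nat.succ_le_succ hw) with hem
  let φ : MvPolynomial (Fin (w + 1)) ℂ →+* (Pr r ⧸ P) :=
    (Ideal.Quotient.mk P).comp (rename em).toRingHom
  have hφ : ∀ a, φ a = Ideal.Quotient.mk P (rename em a) := fun a => rfl
  let _ : Algebra (MvPolynomial (Fin (w + 1)) ℂ) (Pr r ⧸ P) := φ.toAlgebra
  have halg : ∀ a, algebraMap (MvPolynomial (Fin (w + 1)) ℂ) (Pr r ⧸ P) a =
      Ideal.Quotient.mk P (rename em a) := fun a => rfl
  have hinj : Function.Injective (algebraMap (MvPolynomial (Fin (w + 1)) ℂ) (Pr r ⧸ P)) := by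
    rw [injective_iff_map_eq_zero]
    intro a ha
    rw [halg, Ideal.Quotient.eq_zero_iff_mem] at ha
    have h1 := hP.indep _ ha (PRB_low' hw a)
    exact (map_eq_zero_iff _ (rename_injective _ (Fin.castLE_injective _))).1 h1
  let ix : Fin (r - w) → Fin (r + 1) := fun j => ⟨w + 1 + j, by omega⟩
  have hixinj : Function.Injective ix := by
    intro i j h
    have h1 := congrArg Fin.val h
    simp only [ix] at h1
    ext
    omega
  let t : Fin (r - w) → (Pr r ⧸ P) := fun j => Ideal.Quotient.mk P (X (ix j))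
  have hadj : Algebra.adjoin (MvPolynomial (Fin (w + 1)) ℂ) (Set.range t) = ⊤ := by
    rw [eq_top_iff]
    rintro b -
    obtain ⟨f, rfl⟩ := Ideal.Quotient.mk_surjective b
    induction f using MvPolynomial.induction_on with
    | C a =>
      have h1 : Ideal.Quotient.mk P (C a) =
          algebraMap (MvPolynomial (Fin (w + 1)) ℂ) (Pr r ⧸ P) (C a) := by
        rw [halg, rename_C]
      rw [h1]
      exact Subalgebra.algebraMap_mem _ _
    | add f g hf hg =>
      rw [map_add]
      exact Subalgebra.add_mem _ hf hg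
    | mul_X f i hf =>
      rw [map_mul]
      refine Subalgebra.mul_mem _ hf ?_
      by_cases hi : (i : ℕ) ≤ w
      · have h1 : Ideal.Quotient.mk P (X i) =
            algebraMap (MvPolynomial (Fin (w + 1)) ℂ) (Pr r ⧸ P)
              (X ⟨i, Nat.lt_succ_of_le hi⟩) := by
          rw [halg, rename_X]
          rfl
        rw [h1]
        exact Subalgebra.algebraMap_mem _ _
      · refine Algebra.subset_adjoin ⟨⟨i - (w + 1), by have := i.2; omega⟩, ?_⟩
        have h1 : ix ⟨i - (w + 1), by have := i.2; omega⟩ = i := by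
          ext
          simp only [ix]
          omega
        simp only [t, h1]
  have hmon : ∀ i, ∃ p : Polynomial (MvPolynomial (Fin (w + 1)) ℂ), p.Monic ∧
      p.natDegree = D ∧ Polynomial.aeval (t i) p = 0 := by
    intro i
    have hi : w < ((ix i : Fin (r + 1)) : ℕ) := by simp only [ix]; omega
    obtain ⟨E, hE, c, hc, hEc⟩ := hP.mon (ix i) hi
    have h1 : ∀ j, ∃ g : MvPolynomial (Fin (w + 1)) ℂ, j < D → rename em g = c j := by
      intro j
      by_cases hj : j < D
      · obtain ⟨g, hg⟩ := PRB_low hw (hc j hj).1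
        exact ⟨g, fun _ => hg⟩
      · exact ⟨0, fun h => absurd h hj⟩
    choose b hb using h1
    refine ⟨_, PRB_monic D b, PRB_natDegree D b, ?_⟩
    rw [map_add, map_pow, Polynomial.aeval_X, map_sum]
    have h2 : (∑ j ∈ range D, Polynomial.aeval (t i) (Polynomial.C (b j) * Polynomial.X ^ j)) =
        ∑ j ∈ range D, Ideal.Quotient.mk P (c j * X (ix i) ^ j) := by
      refine Finset.sum_congr rfl fun j hj => ?_
      rw [map_mul, map_pow, Polynomial.aeval_X, Polynomial.aeval_C, halg, map_mul, map_pow,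
        hb j (Finset.mem_range.1 hj)]
    rw [h2, ← map_sum, ← map_pow, ← map_add, ← hEc]
    exact Ideal.Quotient.eq_zero_iff_mem.2 hE
  obtain ⟨c₀, q, hq1, hq2, hq3, hq4, hq5, hq6⟩ :=
    hPRA (MvPolynomial (Fin (w + 1)) ℂ) (Pr r ⧸ P) hinj (r - w) D t hadj hmon
  set y : Pr r ⧸ P := ∑ i, (c₀ i : Pr r ⧸ P) * t i with hy
  let c : Fin (r + 1) → ℂ := fun i =>
    if h : w < (i : ℕ) then (c₀ ⟨i - (w + 1), by have := i.2; omega⟩ : ℂ) else 0
  have hcix : ∀ i, c (ix i) = (c₀ i : ℂ) := by
    intro i
    have hi : w < ((ix i : Fin (r + 1)) : ℕ) := by simp only [ix]; omega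
    simp only [c, dif_pos hi]
    congr 2
    ext
    simp only [ix]
    omega
  have hysub : Ideal.Quotient.mk P (sub w c (X (Fin.last (w + 1)))) = y := by
    rw [PRB_sub_last, map_sum, hy]
    symm
    refine Fintype.sum_of_injective ix hixinj _ _ ?_ ?_
    · intro i hi
      have h1 : ¬ w < (i : ℕ) := by
        intro h
        apply hi
        refine ⟨⟨i - (w + 1), by have := i.2; omega⟩, ?_⟩
        ext
        simp only [ix]
        omega
      simp only [c, dif_neg h1, map_zero, zero_mul]
    · intro i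
      rw [hcix, map_mul]
      simp only [map_natCast, t]
  -- the main compatibility
  have hcomp : ∀ a : Polynomial (MvPolynomial (Fin (w + 1)) ℂ),
      Ideal.Quotient.mk P (sub w c (PRB_th w a)) = Polynomial.aeval y a := by
    have h1 : ((Ideal.Quotient.mk P).comp ((sub w c).toRingHom.comp (PRB_th w))) =
        (Polynomial.aeval (R := MvPolynomial (Fin (w + 1)) ℂ) y).toRingHom := by
      refine Polynomial.ringHom_ext' ?_ ?_
      · refine MvPolynomial.ringHom_ext ?_ ?_
        · intro z
          show Ideal.Quotient.mk P (sub w c (PRB_th w (Polynomial.C (C z)))) =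
            Polynomial.aeval y (Polynomial.C (C z))
          rw [PRB_th_C, rename_C, Polynomial.aeval_C, halg, rename_C, sub, aeval_C]
          rfl
        · intro j
          show Ideal.Quotient.mk P (sub w c (PRB_th w (Polynomial.C (X j)))) =
            Polynomial.aeval y (Polynomial.C (X j))
          rw [PRB_th_C, rename_X, Polynomial.aeval_C, halg, rename_X, PRB_sub_cast hw]
      · show Ideal.Quotient.mk P (sub w c (PRB_th w Polynomial.X)) =
            Polynomial.aeval y Polynomial.X
        rw [PRB_th_X, Polynomial.aeval_X, hysub]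
    intro a
    exact congrArg (fun f => f a) h1
  have hdpos : 1 ≤ q.natDegree := by
    by_contra h
    have h1 : q.natDegree = 0 := by omega
    have h2 := Polynomial.eq_one_of_monic_natDegree_zero hq1 h1
    rw [h2] at hq2
    exact hq2.not_isUnit isUnit_one
  set d := q.natDegree with hd
  have hQas : PRB_th w q = X (Fin.last (w + 1)) ^ d + ∑ j ∈ range d,
      rename Fin.castSucc (q.coeff j) * X (Fin.last (w + 1)) ^ j := by
    conv_lhs => rw [hq1.as_sum]
    rw [map_add, map_pow, PRB_th_X, map_sum]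
    congr 1
    refine Finset.sum_congr rfl fun j _ => ?_
    rw [map_mul, map_pow, PRB_th_C, PRB_th_X]
  have hQP : sub w c (PRB_th w q) ∈ P := by
    rw [← Ideal.Quotient.eq_zero_iff_mem, hcomp]
    exact hq5
  -- `Q` is homogeneous
  have hQhom : (PRB_th w q).IsHomogeneous d := by
    set q' : Polynomial (MvPolynomial (Fin (w + 1)) ℂ) := Polynomial.X ^ d +
      ∑ j ∈ range d, Polynomial.C (homogeneousComponent (d - j) (q.coeff j)) *
        Polynomial.X ^ j with hq'
    have h1 : homogeneousComponent d (PRB_th w q) = PRB_th w q' := by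
      rw [hQas, hq', map_add, map_add, map_pow (PRB_th w), PRB_th_X, map_sum, map_sum]
      congr 1
      · have h2 : (X (Fin.last (w + 1)) ^ d : MvPolynomial (Fin (w + 2)) ℂ).IsHomogeneous d := by
          have h4 := (isHomogeneous_X ℂ (Fin.last (w + 1))).pow d
          simpa using h4
        rw [homogeneousComponent_of_mem ((mem_homogeneousSubmodule _ _).2 h2), if_pos rfl]
      · refine Finset.sum_congr rfl fun j hj => ?_
        rw [PRB_th_mon]
        exact PRB_hc w d j (Finset.mem_range.1 hj).le _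
    have h2 : Polynomial.aeval y q' = 0 := by
      rw [← hcomp, ← h1, ← hsubC, Ideal.Quotient.eq_zero_iff_mem]
      exact hP.hom _ hQP d
    have h3 : q' = q := by
      refine Polynomial.eq_of_monic_of_dvd_of_natDegree_le hq1 (PRB_monic d _)
        (hq4 q' h2) ?_
      rw [hq', PRB_natDegree]
    rw [h3] at h1
    rw [← h1]
    exact homogeneousComponent_isHomogeneous _ _
  -- the forms
  have hA : ∀ i, ∃ a : Polynomial (MvPolynomial (Fin (w + 1)) ℂ), Polynomial.aeval y a =
      Polynomial.aeval y (Polynomial.derivative q) * Ideal.Quotient.mk P (X i) :=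
    fun i => hq6 _
  choose a ha using hA
  refine ⟨d, c, PRB_th w q, fun i => homogeneousComponent d (PRB_th w (a i)), hdpos, hq3,
    PRB_irr w hq2, hQhom, ⟨fun j => q.coeff j, hQas⟩,
    fun i => homogeneousComponent_isHomogeneous _ _, hQP, ?_⟩
  intro i
  have h1 : sub w c (PRB_th w (a i)) -
      sub w c (pderiv (Fin.last (w + 1)) (PRB_th w q)) * X i ∈ P := by
    rw [← Ideal.Quotient.eq_zero_iff_mem, map_sub, map_mul, hcomp, PRB_pd, hcomp, ha, sub_self]
  have h2 := hP.hom _ h1 d
  rw [map_sub, hsubC] at h2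
  have h3 : (sub w c (pderiv (Fin.last (w + 1)) (PRB_th w q)) * X i).IsHomogeneous d := by
    have h4 := (hsubH c _ _ (hQhom.pderiv (i := Fin.last (w + 1)))).mul (isHomogeneous_X ℂ i)
    rwa [Nat.sub_add_cancel hdpos] at h4
  rw [homogeneousComponent_of_mem ((mem_homogeneousSubmodule _ _).2 h3), if_pos rfl] at h2
  exact h2

end Pool.ThmM

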