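import Pool.Agent.Work.MP_f82ddf_M.Terminal

set_option autoImplicit false

/-! # Theorem M, part P2, block PRM (helper38): the primes from the roots -/

namespace Pool.ThmM

open MvPolynomial Finset

namespace PRM

/-- extension of an evaluation to the integral closure in an algebraically closed field -/
theorem ext (A : Type) [CommRing A] [IsDomain A] (K : Type) [Field K] [Algebra A K]
    (hinj : Function.Injective (algebraMap A K)) (ε : A →+* ℂ) (hε : Function.Surjective ε) :
    ∃ ψ : integralClosure A K →+* ℂ, ∀ a, ψ (algebraMap A (integralClosure A K) a) = ε a := by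
  have hinj' : Function.Injective (algebraMap A (integralClosure A K)) := by
    intro a b h
    apply hinj
    have h2 := congrArg (fun x : integralClosure A K => (x : K)) h
    exact h2
  haveI : FaithfulSMul A (integralClosure A K) := (faithfulSMul_iff_algebraMap_injective _ _).2 hinj'
  haveI : Algebra.IsIntegral A (integralClosure A K) := inferInstance
  haveI hmax : (RingHom.ker ε).IsMaximal := RingHom.ker_isMaximal_of_surjective ε hε
  obtain ⟨Q, hQ, hQP⟩ := Ideal.exists_maximal_ideal_liesOver_of_isIntegral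
    (S := integralClosure A K) (RingHom.ker ε)
  haveI := hQ
  haveI := hQP
  letI : Field (A ⧸ RingHom.ker ε) := Ideal.Quotient.field _
  letI : Field (integralClosure A K ⧸ Q) := Ideal.Quotient.field _
  let ε' : (A ⧸ RingHom.ker ε) →+* ℂ := RingHom.kerLift ε
  letI : Algebra (A ⧸ RingHom.ker ε) ℂ := ε'.toAlgebra
  haveI : Algebra.IsIntegral (A ⧸ RingHom.ker ε) (integralClosure A K ⧸ Q) := inferInstance
  let τ : (integralClosure A K ⧸ Q) →ₐ[A ⧸ RingHom.ker ε] ℂ := IsAlgClosed.lift
  refine ⟨τ.toRingHom.comp (Ideal.Quotient.mk Q), fun a => ?_⟩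
  have h1 : Ideal.Quotient.mk Q (algebraMap A (integralClosure A K) a) =
      algebraMap (A ⧸ RingHom.ker ε) (integralClosure A K ⧸ Q)
        (Ideal.Quotient.mk (RingHom.ker ε) a) := rfl
  show τ (Ideal.Quotient.mk Q (algebraMap A (integralClosure A K) a)) = ε a
  rw [h1, τ.commutes]
  rfl

/-- the roots of a monic polynomial in the integral closure -/
theorem roots (A : Type) [CommRing A] [IsDomain A] (K : Type) [Field K] [IsAlgClosed K]
    [Algebra A K] (D : ℕ) (e : Polynomial A) (he : e.Monic) (hd : e.natDegree = D) :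
    ∃ θ : Fin D → integralClosure A K,
      e.map (algebraMap A (integralClosure A K)) = ∏ j, (Polynomial.X - Polynomial.C (θ j)) := by
  have hs : (e.map (algebraMap A K)).Splits := IsAlgClosed.splits _
  have hm : (e.map (algebraMap A K)).Monic := he.map _
  have hprod := hs.eq_prod_roots_of_monic hm
  have hcard := hs.natDegree_eq_card_roots
  obtain ⟨l, hl⟩ : ∃ l : List K, (l : Multiset K) = (e.map (algebraMap A K)).roots :=
    Quot.exists_rep _
  have hlen : l.length = D := by
    rw [← hl, he.natDegree_map, hd] at hcard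
    simpa using hcard.symm
  subst hlen
  have hint : ∀ j : Fin l.length, IsIntegral A (l.get j) := by
    intro j
    refine ⟨e, he, ?_⟩
    have h1 : l.get j ∈ (e.map (algebraMap A K)).roots := by
      rw [← hl]
      exact Multiset.mem_coe.2 (List.get_mem l j)
    have h2 := (Polynomial.mem_roots'.1 h1).2
    rwa [Polynomial.IsRoot.def, Polynomial.eval_map] at h2
  refine ⟨fun j => ⟨l.get j, hint j⟩, ?_⟩
  apply Polynomial.map_injective (integralClosure A K).val.toRingHom Subtype.val_injective
  rw [Polynomial.map_map, Polynomial.map_prod]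
  have h3 : ((integralClosure A K).val.toRingHom.comp (algebraMap A (integralClosure A K))) =
      algebraMap A K := rfl
  rw [h3, hprod, ← hl, Multiset.map_coe, Multiset.prod_coe]
  have h4 : ∀ j : Fin l.length, Polynomial.map (integralClosure A K).val.toRingHom
      (Polynomial.X - Polynomial.C (⟨l.get j, hint j⟩ : integralClosure A K)) =
      Polynomial.X - Polynomial.C (l.get j) := by
    intro j
    rw [Polynomial.map_sub, Polynomial.map_X, Polynomial.map_C]
    rfl
  rw [Finset.prod_congr rfl fun j _ => h4 j, ← List.prod_ofFn]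
  congr 1
  conv_lhs => rw [← List.ofFn_get l]
  rw [List.map_ofFn]
  rfl

/-- inclusion of the first variables -/
def inc {r w : ℕ} (h : w ≤ r) : Fin (w + 1) → Fin (r + 1) := Fin.castLE (Nat.succ_le_succ h)

theorem inc_inj {r w : ℕ} (h : w ≤ r) : Function.Injective (inc h) := Fin.castLE_injective _

theorem low {r w : ℕ} (h : w ≤ r) (f : Pr r) (hf : Low w f) :
    ∃ a : MvPolynomial (Fin (w + 1)) ℂ, rename (inc h) a = f := by
  apply exists_rename_eq_of_vars_subset_range f (inc h) (inc_inj h)
  intro i hi
  exact ⟨⟨i, Nat.lt_succ_of_le (hf i hi)⟩, Fin.ext rfl⟩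

/-- the monic equation as a polynomial over `ℂ[X_0, .., X_w]` -/
theorem poly {r w D : ℕ} (h : w ≤ r) (i : Fin (r + 1)) (E : Pr r) (hE : IsMon w D i E) :
    ∃ e : Polynomial (MvPolynomial (Fin (w + 1)) ℂ), e.Monic ∧ e.natDegree = D ∧
      ∀ (R : Type) [CommRing R] (F : Pr r →+* R),
        F E = e.eval₂ (F.comp (rename (inc h)).toRingHom) (F (X i)) := by
  classical
  obtain ⟨c, hc, hE⟩ := hE
  have h1 : ∀ j, ∃ a : MvPolynomial (Fin (w + 1)) ℂ, j < D → rename (inc h) a = c j := by
    intro j
    by_cases hj : j < D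
    · obtain ⟨a, ha⟩ := low h (c j) (hc j hj).1
      exact ⟨a, fun _ => ha⟩
    · exact ⟨0, fun hj' => absurd hj' hj⟩
  choose a ha using h1
  have hdeg : (∑ j ∈ range D, Polynomial.C (a j) * Polynomial.X ^ j).degree < (D : WithBot ℕ) := by
    refine lt_of_le_of_lt (Polynomial.degree_sum_le _ _) ?_
    refine (Finset.sup_lt_iff (WithBot.bot_lt_coe D)).2 fun j hj => ?_
    refine lt_of_le_of_lt (Polynomial.degree_C_mul_X_pow_le j (a j)) ?_
    exact WithBot.coe_lt_coe.2 (Finset.mem_range.1 hj)
  refine ⟨Polynomial.X ^ D + ∑ j ∈ range D, Polynomial.C (a j) * Polynomial.X ^ j,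
    Polynomial.monic_X_pow_add hdeg, ?_, ?_⟩
  · apply Polynomial.natDegree_eq_of_degree_eq_some
    rw [Polynomial.degree_add_eq_left_of_degree_lt (by rw [Polynomial.degree_X_pow]; exact hdeg),
      Polynomial.degree_X_pow]
  · intro R _ F
    rw [Polynomial.eval₂_add, Polynomial.eval₂_pow, Polynomial.eval₂_X,
      Polynomial.eval₂_finsetSum, hE, map_add, map_pow, map_sum]
    congr 1
    refine Finset.sum_congr rfl fun j hj => ?_
    rw [Polynomial.eval₂_mul, Polynomial.eval₂_C, Polynomial.eval₂_pow, Polynomial.eval₂_X,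
      map_mul, map_pow, ← ha j (Finset.mem_range.1 hj)]
    rfl

theorem mon_hom {r w D : ℕ} {i : Fin (r + 1)} {E : Pr r} (hE : IsMon w D i E) :
    E.IsHomogeneous D := by
  obtain ⟨c, hc, rfl⟩ := hE
  refine IsHomogeneous.add (isHomogeneous_X_pow i D) (IsHomogeneous.sum _ _ _ fun j hj => ?_)
  have hj' := Finset.mem_range.1 hj
  have h1 := (hc j hj').2.mul (isHomogeneous_X_pow (R := ℂ) i j)
  have h2 : D - j + j = D := by omega
  rwa [h2] at h1

section core

attribute [local instance] MvPolynomial.gradedAlgebra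

/-- the homogeneous core of an ideal -/
noncomputable def core {r : ℕ} (I : Ideal (Pr r)) : Ideal (Pr r) :=
  (I.homogeneousCore (homogeneousSubmodule (Fin (r + 1)) ℂ)).toIdeal

theorem core_prime {r : ℕ} {I : Ideal (Pr r)} (h : I.IsPrime) : (core I).IsPrime :=
  Ideal.IsPrime.homogeneousCore h

theorem core_le {r : ℕ} (I : Ideal (Pr r)) : core I ≤ I :=
  Ideal.toIdeal_homogeneousCore_le _ _

theorem core_hom {r : ℕ} (I : Ideal (Pr r)) : Hom (core I) := by
  intro f hf n
  have h1 := (I.homogeneousCore (homogeneousSubmodule (Fin (r + 1)) ℂ)).isHomogeneous n hf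
  have h2 : (DirectSum.decompose (homogeneousSubmodule (Fin (r + 1)) ℂ) f n : Pr r) =
      homogeneousComponent n f := decomposition.decompose'_apply f n
  rw [← h2]
  exact h1

theorem core_mem {r : ℕ} {I : Ideal (Pr r)} {f : Pr r} {n : ℕ} (h : f.IsHomogeneous n)
    (hf : f ∈ I) : f ∈ core I :=
  Ideal.mem_homogeneousCore_of_homogeneous_of_mem ⟨n, h⟩ hf

end core

end PRM

theorem stmt_PRM : Stmt_PRM := by
  classical
  intro r w D E hwr hD hE
  let A : Type := MvPolynomial (Fin (w + 1)) ℂ
  let K : Type := AlgebraicClosure (FractionRing A)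
  let B : Type := integralClosure A K
  have hinjK : Function.Injective (algebraMap A K) := by
    rw [IsScalarTower.algebraMap_eq A (FractionRing A) K]
    exact (algebraMap (FractionRing A) K).injective.comp (IsFractionRing.injective A _)
  have hinj : Function.Injective (algebraMap A (integralClosure A K)) := by
    intro a b h
    exact hinjK (congrArg (fun x : integralClosure A K => (x : K)) h)
  have h1 : ∀ i : Fin (r + 1), ∃ (e : Polynomial (MvPolynomial (Fin (w + 1)) ℂ))
      (θ : Fin D → integralClosure A K), w < i →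
      (e.map (algebraMap A (integralClosure A K)) = ∏ j, (Polynomial.X - Polynomial.C (θ j)) ∧
      ∀ (R : Type) [CommRing R] (F : Pr r →+* R),
        F (E i) = e.eval₂ (F.comp (rename (PRM.inc hwr)).toRingHom) (F (X i))) := by
    intro i
    by_cases hi : w < i
    · obtain ⟨e, he1, he2, he3⟩ := PRM.poly hwr i (E i) (hE i hi)
      obtain ⟨θ, hθ⟩ := PRM.roots A K D e he1 he2
      exact ⟨e, θ, fun _ => ⟨hθ, he3⟩⟩
    · exact ⟨0, fun _ => 0, fun h => absurd h hi⟩
  choose e θ hθ using h1
  let g : (Fin (r + 1) → Fin D) → Fin (r + 1) → integralClosure A K := fun l i =>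
    if h : (i : ℕ) ≤ w then algebraMap A (integralClosure A K) (X ⟨i, Nat.lt_succ_of_le h⟩)
    else θ i (l i)
  let Φ : (Fin (r + 1) → Fin D) → Pr r →+* integralClosure A K := fun l =>
    eval₂Hom ((algebraMap A (integralClosure A K)).comp C) (g l)
  have hΦX : ∀ l i, Φ l (X i) = g l i := fun l i => eval₂Hom_X' _ _ _
  have hΦC : ∀ l z, Φ l (C z) = algebraMap A (integralClosure A K) (C z) :=
    fun l z => eval₂Hom_C _ _ _
  have hΦA : ∀ l, (Φ l).comp (rename (PRM.inc hwr)).toRingHom =
      algebraMap A (integralClosure A K) := by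
    intro l
    apply MvPolynomial.ringHom_ext
    · intro z
      show Φ l (rename (PRM.inc hwr) (C z)) = _
      rw [rename_C, hΦC]
    · intro j
      show Φ l (rename (PRM.inc hwr) (X j)) = _
      rw [rename_X, hΦX]
      have hj : ((PRM.inc hwr j : Fin (r + 1)) : ℕ) ≤ w := Nat.le_of_lt_succ j.2
      show (if h : ((PRM.inc hwr j : Fin (r + 1)) : ℕ) ≤ w then
        algebraMap A (integralClosure A K) (X ⟨(PRM.inc hwr j : Fin (r + 1)), Nat.lt_succ_of_le h⟩)
        else θ _ (l _)) = _
      rw [dif_pos hj]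
      rfl
  have hΦE : ∀ l (i : Fin (r + 1)), w < i → Φ l (E i) = 0 := by
    intro l i hi
    rw [(hθ i hi).2 _ (Φ l), hΦA, hΦX, Polynomial.eval₂_eq_eval_map, (hθ i hi).1,
      Polynomial.eval_prod]
    refine Finset.prod_eq_zero (Finset.mem_univ (l i)) ?_
    have h2 : g l i = θ i (l i) := dif_neg (not_le.2 hi)
    rw [h2, Polynomial.eval_sub, Polynomial.eval_X, Polynomial.eval_C, sub_self]
  refine ⟨fun l => PRM.core (RingHom.ker (Φ l)), ?_, ?_⟩
  · intro l
    refine ⟨hwr, hD, PRM.core_prime (RingHom.ker_isPrime (Φ l)), PRM.core_hom _, ?_, ?_⟩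
    · intro f hf hlow
      have h2 := PRM.core_le _ hf
      obtain ⟨a, rfl⟩ := PRM.low hwr f hlow
      have h3 : algebraMap A (integralClosure A K) a = 0 := by
        rw [← hΦA l]
        exact h2
      have h4 : a = 0 := hinj (by rw [h3, map_zero])
      rw [h4, map_zero]
    · intro i hi
      exact ⟨E i, PRM.core_mem (PRM.mon_hom (hE i hi)) (hΦE l i hi), hE i hi⟩
  · intro u hu
    obtain ⟨ψ, hψ⟩ := PRM.ext A K hinjK (eval fun j => u (PRM.inc hwr j)) (fun z =>
      ⟨C z, eval_C z⟩)
    have h2 : ∀ i : Fin (r + 1), ∃ j : Fin D, w < i → u i = ψ (θ i j) := by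
      intro i
      by_cases hi : w < i
      · have h3 := (hθ i hi).2 ℂ (eval u)
        rw [hu i hi, eval_X] at h3
        have h4 : (eval u).comp (rename (PRM.inc hwr)).toRingHom =
            ψ.comp (algebraMap A (integralClosure A K)) := by
          apply RingHom.ext
          intro a
          show eval u (rename (PRM.inc hwr) a) = ψ (algebraMap A (integralClosure A K) a)
          rw [hψ, eval_rename]
          rfl
        rw [h4, Polynomial.eval₂_eq_eval_map, ← Polynomial.map_map, (hθ i hi).1,
          Polynomial.map_prod, Polynomial.eval_prod] at h3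
        obtain ⟨j, -, hj⟩ := Finset.prod_eq_zero_iff.1 h3.symm
        rw [Polynomial.map_sub, Polynomial.map_X, Polynomial.map_C, Polynomial.eval_sub,
          Polynomial.eval_X, Polynomial.eval_C] at hj
        exact ⟨j, fun _ => sub_eq_zero.1 hj⟩
      · exact ⟨⟨0, hD⟩, fun h => absurd h hi⟩
    choose l hl using h2
    refine ⟨l, fun f hf => ?_⟩
    have h5 : ψ.comp (Φ l) = eval u := by
      apply MvPolynomial.ringHom_ext
      · intro z
        show ψ (Φ l (C z)) = _
        rw [hΦC, hψ, eval_C, eval_C]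
      · intro i
        show ψ (Φ l (X i)) = _
        rw [hΦX, eval_X]
        by_cases hi : (i : ℕ) ≤ w
        · have h6 : g l i = algebraMap A (integralClosure A K) (X ⟨i, Nat.lt_succ_of_le hi⟩) :=
            dif_pos hi
          rw [h6, hψ, eval_X]
          rfl
        · have h6 : g l i = θ i (l i) := dif_neg hi
          rw [h6, ← hl i (not_le.1 hi)]
    have h6 : Φ l f = 0 := PRM.core_le _ hf
    rw [← h5, RingHom.comp_apply, h6, map_zero]

end Pool.ThmM
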