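import Pool.Agent.Work.MP_f82ddf_M.Terminal

set_option autoImplicit false

/-! # THEOREM M, block RAI: raising the degree of a monic equation -/

namespace Pool.ThmM

open MvPolynomial Finset

theorem stmt_RAI : Stmt_RAI := by
  rintro r w D k i E ⟨c, hc, rfl⟩
  refine ⟨fun j => if k ≤ j then c (j - k) else 0, ?_, ?_⟩
  · intro j hj
    by_cases hk : k ≤ j
    · simp only [hk, if_true]
      obtain ⟨h1, h2⟩ := hc (j - k) (by omega)
      refine ⟨h1, ?_⟩
      rwa [show D - (j - k) = D + k - j by omega] at h2
    · simp only [hk, if_false]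
      exact ⟨fun l hl => by simp at hl, isHomogeneous_zero _ _ _⟩
  · rw [add_comm D k, Finset.sum_range_add, mul_add, ← pow_add]
    congr 1
    have h1 : ∑ x ∈ range k, (if k ≤ x then c (x - k) else 0) * (X i : Pr r) ^ x = 0 := by
      apply Finset.sum_eq_zero
      intro x hx
      rw [mem_range] at hx
      rw [if_neg (by omega), zero_mul]
    rw [h1, zero_add, Finset.mul_sum]
    apply Finset.sum_congr rfl
    intro x _
    have h2 : (if k ≤ k + x then c (k + x - k) else 0 : Pr r) = c x := by
      rw [if_pos (by omega), show k + x - k = x by omega]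
    change X i ^ k * (c x * X i ^ x) = (if k ≤ k + x then c (k + x - k) else 0) * X i ^ (k + x)
    rw [h2, pow_add]
    ring

end Pool.ThmM
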