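import Pool.Agent.Work.MP_f82ddf_M.Terminal

set_option autoImplicit false

/-! Block RES: elimination between two monic equations. -/

namespace Pool.ThmM

open MvPolynomial Finset

namespace RES

/-- a monic polynomial with given lower coefficients -/
noncomputable def mk {A : Type} [CommRing A] (n : ℕ) (c : ℕ → A) : Polynomial A :=
  Polynomial.X ^ n + ∑ j ∈ range n, Polynomial.C (c j) * Polynomial.X ^ j

theorem mk_deg {A : Type} [CommRing A] (n : ℕ) (c : ℕ → A) :
    (∑ j ∈ range n, Polynomial.C (c j) * Polynomial.X ^ j).degree < (n : WithBot ℕ) := by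
  rw [← Polynomial.mem_degreeLT]
  refine Submodule.sum_mem _ fun j hj => ?_
  rw [Polynomial.mem_degreeLT]
  refine lt_of_le_of_lt (Polynomial.degree_C_mul_X_pow_le _ _) ?_
  exact_mod_cast Finset.mem_range.1 hj

theorem mk_monic {A : Type} [CommRing A] (n : ℕ) (c : ℕ → A) : (mk n c).Monic :=
  Polynomial.monic_X_pow_add (mk_deg n c)

theorem mk_natDegree {A : Type} [CommRing A] [Nontrivial A] (n : ℕ) (c : ℕ → A) :
    (mk n c).natDegree = n := by
  have : (mk n c).degree = n := by
    rw [mk, Polynomial.degree_add_eq_left_of_degree_lt]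
    · exact Polynomial.degree_X_pow n
    · rw [Polynomial.degree_X_pow]; exact mk_deg n c
  exact Polynomial.natDegree_eq_of_degree_eq_some this

theorem mk_eval {A B : Type} [CommRing A] [CommRing B] (n : ℕ) (c : ℕ → A) (f : A →+* B) (x : B) :
    (mk n c).eval₂ f x = x ^ n + ∑ j ∈ range n, f (c j) * x ^ j := by
  simp only [mk, Polynomial.eval₂_add, Polynomial.eval₂_finsetSum, Polynomial.eval₂_mul,
    Polynomial.eval₂_pow, Polynomial.eval₂_X, Polynomial.eval₂_C]

/-- the tower of two monic extensions -/
theorem tower (A : Type) [CommRing A] [Nontrivial A] (e D : ℕ) (he : 1 ≤ e)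
    (c : ℕ → A) (b : ℕ → AdjoinRoot (mk e c)) :
    ∃ χ : Polynomial A, χ.Monic ∧ χ.natDegree = D * e ∧
      ∀ (B : Type) [CommRing B] (ρ : A →+* B) (x y : B) (hx : (mk e c).eval₂ ρ x = 0),
        (mk D b).eval₂ (AdjoinRoot.lift ρ x hx) y = 0 → χ.eval₂ ρ y = 0 := by
  have hm := mk_monic e c
  have : Module.Free A (AdjoinRoot (mk e c)) := hm.free_adjoinRoot
  have : Module.Finite A (AdjoinRoot (mk e c)) := hm.finite_adjoinRoot
  have hr1 : Module.finrank A (AdjoinRoot (mk e c)) = e := by
    rw [(AdjoinRoot.powerBasis' hm).finrank, AdjoinRoot.powerBasis'_dim, mk_natDegree]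
  have : Nontrivial (AdjoinRoot (mk e c)) := by
    by_contra h
    rw [not_nontrivial_iff_subsingleton] at h
    rw [Module.finrank_zero_of_subsingleton] at hr1
    omega
  have hm2 := mk_monic D b
  have : Module.Free (AdjoinRoot (mk e c)) (AdjoinRoot (mk D b)) := hm2.free_adjoinRoot
  have : Module.Finite (AdjoinRoot (mk e c)) (AdjoinRoot (mk D b)) := hm2.finite_adjoinRoot
  have hr2 : Module.finrank (AdjoinRoot (mk e c)) (AdjoinRoot (mk D b)) = D := by
    rw [(AdjoinRoot.powerBasis' hm2).finrank, AdjoinRoot.powerBasis'_dim, mk_natDegree]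
  have : Module.Free A (AdjoinRoot (mk D b)) := Module.Free.trans (S := AdjoinRoot (mk e c))
  have : Module.Finite A (AdjoinRoot (mk D b)) := Module.Finite.trans (AdjoinRoot (mk e c)) _
  have hr : Module.finrank A (AdjoinRoot (mk D b)) = D * e := by
    rw [← Module.finrank_mul_finrank A (AdjoinRoot (mk e c)) (AdjoinRoot (mk D b)), hr1, hr2,
      mul_comm]
  refine ⟨(Algebra.lmul A (AdjoinRoot (mk D b)) (AdjoinRoot.root (mk D b))).charpoly,
    LinearMap.charpoly_monic _, ?_, ?_⟩
  · rw [LinearMap.charpoly_natDegree, hr]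
  · intro B _ ρ x y hx hy
    have h1 : Polynomial.aeval (AdjoinRoot.root (mk D b))
      (Algebra.lmul A (AdjoinRoot (mk D b)) (AdjoinRoot.root (mk D b))).charpoly = 0 :=
      Algebra.aeval_self_charpoly_lmul _
    generalize (Algebra.lmul A (AdjoinRoot (mk D b)) (AdjoinRoot.root (mk D b))).charpoly = χ at h1
    have h2 := congrArg (AdjoinRoot.lift (AdjoinRoot.lift ρ x hx) y hy) h1
    rw [map_zero, Polynomial.aeval_def, Polynomial.hom_eval₂, AdjoinRoot.lift_root] at h2
    convert h2 using 2
    ext a
    rw [RingHom.comp_apply, IsScalarTower.algebraMap_apply A (AdjoinRoot (mk e c))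
      (AdjoinRoot (mk D b)), AdjoinRoot.algebraMap_eq, AdjoinRoot.algebraMap_eq,
      AdjoinRoot.lift_of, AdjoinRoot.lift_of]

/-- the coefficients of the restriction to a line through 0 are the homogeneous components -/
theorem line {σ : Type} (u : σ → ℂ) (p : MvPolynomial σ ℂ) (n : ℕ) :
    (aeval (fun k => Polynomial.C (u k) * Polynomial.X) p : Polynomial ℂ).coeff n =
      eval u (homogeneousComponent n p) := by
  induction p using MvPolynomial.induction_on' with
  | monomial d c =>
    have h1 : (aeval (fun k => Polynomial.C (u k) * Polynomial.X) (monomial d c) :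
        Polynomial ℂ) = Polynomial.C (eval u (monomial d c)) * Polynomial.X ^ d.degree := by
      rw [aeval_monomial, eval_monomial, Finsupp.degree_apply]
      simp only [mul_pow, Finsupp.prod, Finset.prod_mul_distrib, Finset.prod_pow_eq_pow_sum,
        map_mul, map_prod, map_pow]
      simp only [Polynomial.algebraMap_eq]
      ring
    rw [h1, Polynomial.coeff_C_mul_X_pow,
      homogeneousComponent_of_mem (isHomogeneous_monomial c rfl)]
    split_ifs with h
    · rfl
    · simp
  | add p q hp hq => simp only [map_add, Polynomial.coeff_add, hp, hq]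

end RES

theorem stmt_RES : Stmt_RES := by
  intro r w e D m i F E hm hi he hD hF hE
  obtain ⟨c, hc, hFc⟩ := hF
  obtain ⟨b, hb, hEb⟩ := hE
  have hwr : w + 1 ≤ r + 1 := by have := m.2; omega
  -- the inclusion of the variables
  obtain ⟨emb, hemb⟩ : ∃ emb : Fin (w + 1) → Fin (r + 1), ∀ k, (emb k : ℕ) = k :=
    ⟨Fin.castLE hwr, fun k => rfl⟩
  -- reduction to the first variables
  obtain ⟨lam, hlam⟩ : ∃ lam : Pr r →+* MvPolynomial (Fin (w + 1)) ℂ,
      lam = (aeval (fun k : Fin (r + 1) => if h : (k : ℕ) < w + 1 then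
        (X ⟨k, h⟩ : MvPolynomial (Fin (w + 1)) ℂ) else 0)).toRingHom := ⟨_, rfl⟩
  obtain ⟨χ, hχm, hχd, hχ⟩ := RES.tower (MvPolynomial (Fin (w + 1)) ℂ) e D he
    (fun j => lam (c j))
    (fun j => (aeval (fun k : Fin (r + 1) => if h : (k : ℕ) < w + 1 then
        AdjoinRoot.of (RES.mk e fun j => lam (c j)) (X ⟨k, h⟩)
        else AdjoinRoot.root (RES.mk e fun j => lam (c j))) (b j)))
  refine ⟨X i ^ (D * e) + ∑ j ∈ range (D * e),
    rename emb (homogeneousComponent (D * e - j) (χ.coeff j)) * X i ^ j,
    ⟨fun j => rename emb (homogeneousComponent (D * e - j) (χ.coeff j)), ?_, rfl⟩, ?_⟩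
  · intro j _
    refine ⟨?_, (homogeneousComponent_isHomogeneous _ _).rename_isHomogeneous⟩
    intro k hk
    obtain ⟨a, _, rfl⟩ := mem_vars_rename _ _ hk
    rw [hemb]; omega
  · intro u hFu hEu
    -- the line through u
    obtain ⟨L, hL⟩ : ∃ L : Pr r →+* Polynomial ℂ,
      L = (aeval (fun k => Polynomial.C (u k) * Polynomial.X)).toRingHom := ⟨_, rfl⟩
    obtain ⟨ρ, hρ⟩ : ∃ ρ : MvPolynomial (Fin (w + 1)) ℂ →+* Polynomial ℂ,
      ρ = (aeval (fun k => Polynomial.C (u (emb k)) * Polynomial.X)).toRingHom := ⟨_, rfl⟩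
    have hLX : ∀ k, L (X k) = Polynomial.C (u k) * Polynomial.X := by
      intro k; rw [hL]; simp
    have hLC : ∀ a, L (C a) = Polynomial.C a := by
      intro a; rw [hL]; simp [Polynomial.algebraMap_eq]
    have hρX : ∀ k, ρ (X k) = Polynomial.C (u (emb k)) * Polynomial.X := by
      intro k; rw [hρ]; simp
    have hρC : ∀ a, ρ (C a) = Polynomial.C a := by
      intro a; rw [hρ]; simp [Polynomial.algebraMap_eq]
    have hhom : ∀ (G : Pr r) (n : ℕ), G.IsHomogeneous n →
        L G = Polynomial.C (eval u G) * Polynomial.X ^ n := by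
      intro G n hG
      ext k
      rw [hL]
      change (aeval (fun k => Polynomial.C (u k) * Polynomial.X) G : Polynomial ℂ).coeff k = _
      rw [RES.line, Polynomial.coeff_C_mul_X_pow, homogeneousComponent_of_mem hG]
      split_ifs with h
      · rfl
      · simp
    have hFh : F.IsHomogeneous e := by
      rw [hFc]
      refine IsHomogeneous.add (isHomogeneous_X_pow _ _) (IsHomogeneous.sum _ _ _ fun j hj => ?_)
      have hj' := Finset.mem_range.1 hj
      have := (hc j hj').2.mul (isHomogeneous_X_pow (R := ℂ) m j)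
      rwa [Nat.sub_add_cancel hj'.le] at this
    have hEh : E.IsHomogeneous D := by
      rw [hEb]
      refine IsHomogeneous.add (isHomogeneous_X_pow _ _) (IsHomogeneous.sum _ _ _ fun j hj => ?_)
      have hj' := Finset.mem_range.1 hj
      have := (hb j hj').2.mul (isHomogeneous_X_pow (R := ℂ) i j)
      rwa [Nat.sub_add_cancel hj'.le] at this
    have hLF : L F = 0 := by rw [hhom F e hFh, hFu]; simp
    have hLE : L E = 0 := by rw [hhom E D hEh, hEu]; simp
    have hx : (RES.mk e fun j => lam (c j)).eval₂ ρ (L (X m)) = 0 := by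
      rw [RES.mk_eval, ← hLF, hFc, map_add, map_pow, map_sum]
      congr 1
      refine Finset.sum_congr rfl fun j hj => ?_
      rw [map_mul, map_pow]
      congr 1
      refine hom_congr_vars (f₁ := ρ.comp lam) (f₂ := L) ?_ ?_ rfl
      · ext a : 1
        simp only [RingHom.comp_apply]
        rw [hLC, hlam]
        change ρ (aeval _ (C a)) = _
        rw [aeval_C]
        exact hρC a
      · intro k hk _
        have hk' := (hc j (Finset.mem_range.1 hj)).1 k hk
        have hk2 : (k : ℕ) < w + 1 := by omega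
        rw [RingHom.comp_apply, hLX, hlam]
        change ρ (aeval _ (X k)) = _
        rw [aeval_X, dif_pos hk2, hρX]
        congr 3
        apply Fin.ext
        rw [hemb]
    have hy := hχ (Polynomial ℂ) ρ (L (X m)) (L (X i)) hx (by
      rw [RES.mk_eval, ← hLE, hEb, map_add, map_pow, map_sum]
      congr 1
      refine Finset.sum_congr rfl fun j hj => ?_
      rw [map_mul, map_pow]
      congr 1
      refine hom_congr_vars (f₁ := (AdjoinRoot.lift ρ (L (X m)) hx).comp
        (aeval (fun k : Fin (r + 1) => if h : (k : ℕ) < w + 1 then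
        AdjoinRoot.of (RES.mk e fun j => lam (c j)) (X ⟨k, h⟩)
        else AdjoinRoot.root (RES.mk e fun j => lam (c j)))).toRingHom) (f₂ := L) ?_ ?_ rfl
      · ext a : 1
        simp only [RingHom.comp_apply]
        rw [hLC]
        change (AdjoinRoot.lift ρ (L (X m)) hx) (aeval _ (C a)) = _
        rw [aeval_C, IsScalarTower.algebraMap_apply ℂ (MvPolynomial (Fin (w + 1)) ℂ)
          (AdjoinRoot _), AdjoinRoot.algebraMap_eq, AdjoinRoot.lift_of]
        exact hρC a
      · intro k hk _
        have hk' := (hb j (Finset.mem_range.1 hj)).1 k hk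
        rw [RingHom.comp_apply]
        change (AdjoinRoot.lift ρ (L (X m)) hx) (aeval _ (X k)) = _
        rw [aeval_X]
        split_ifs with hk2
        · rw [AdjoinRoot.lift_of, hρX, hLX]
          congr 3
          apply Fin.ext
          rw [hemb]
        · rw [AdjoinRoot.lift_root]
          congr 2
          apply Fin.ext
          omega)
    -- take the coefficient of degree D e
    have h1 := congrArg (fun P : Polynomial ℂ => P.coeff (D * e)) hy
    simp only [Polynomial.coeff_zero] at h1
    rw [Polynomial.eval₂_eq_sum_range, hχd, Polynomial.finsetSum_coeff,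
      Finset.sum_range_succ] at h1
    have h2 : ∀ j ≤ D * e, (ρ (χ.coeff j) * L (X i) ^ j).coeff (D * e) =
        eval (fun k => u (emb k)) (homogeneousComponent (D * e - j) (χ.coeff j)) * u i ^ j := by
      intro j hj
      rw [hLX, mul_pow, ← mul_assoc, ← Polynomial.C_pow, mul_right_comm]
      obtain ⟨k, hk⟩ := Nat.exists_eq_add_of_le hj
      rw [Polynomial.coeff_mul_C, hk, add_comm j k, Polynomial.coeff_mul_X_pow, Nat.add_sub_cancel,
        hρ]
      change (aeval (fun k => Polynomial.C (u (emb k)) * Polynomial.X) (χ.coeff j) :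
        Polynomial ℂ).coeff k * _ = _
      rw [RES.line]
    rw [Finset.sum_congr rfl fun j hj => h2 j (Finset.mem_range.1 hj).le, h2 _ le_rfl] at h1
    have h3 : χ.coeff (D * e) = 1 := by rw [← hχd]; exact hχm.coeff_natDegree
    rw [h3, Nat.sub_self, homogeneousComponent_of_mem (isHomogeneous_one (Fin (w + 1)) ℂ),
      if_pos rfl, map_one, one_mul] at h1
    rw [map_add, map_pow, eval_X, map_sum, add_comm, ← h1]
    congr 1
    refine Finset.sum_congr rfl fun j _ => ?_
    rw [map_mul, map_pow, eval_X, eval_rename]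
    rfl

end Pool.ThmM
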