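import Pool.Agent.Work.MP_f82ddf_M.Terminal

set_option autoImplicit false

namespace Pool.ThmM.SHL

open MvPolynomial Finset

theorem low {r w : ℕ} (m : Fin (r + 1)) (c : Fin (r + 1) → ℂ) (hm : (m : ℕ) = w + 1)
    (f : Pr r) (hf : Low (w + 1) f) : Low (w + 1) (shear m c f) := by
  classical
  intro j hj
  obtain ⟨i, hi, hji⟩ := mem_vars_bind₁ (fun i => if i = m then X m else X i + C (c i) * X m) f
    (j := j) hj
  have hiw := hf i hi
  by_cases him : i = m
  · simp only [him, if_true, vars_X, Finset.mem_singleton] at hji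
    subst hji
    omega
  · simp only [him, if_false] at hji
    have h1 := MvPolynomial.vars_add_subset _ _ hji
    rw [Finset.mem_union] at h1
    rcases h1 with h1 | h1
    · rw [vars_X, Finset.mem_singleton] at h1
      subst h1; exact hiw
    · have h2 := MvPolynomial.vars_mul _ _ h1
      rw [vars_C, vars_X, Finset.empty_union, Finset.mem_singleton] at h2
      subst h2
      omega

end Pool.ThmM.SHL

namespace Pool.ThmM

open MvPolynomial Finset

theorem stmt_SHL : Stmt_SHP → Stmt_SHL := by
  intro hP r w m c hm hc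
  refine ⟨fun f hf => SHL.low m c hm f hf, ?_⟩
  rintro D i E hi ⟨a, ha, rfl⟩
  have hX : shear m c (X i) = X i := by
    have h1 : i ≠ m := by
      intro h; subst h; omega
    have h2 : c i = 0 := hc i (by omega)
    simp [shear, h1, h2]
  refine ⟨fun j => shear m c (a j), ?_, ?_⟩
  · intro j hj
    exact ⟨SHL.low m c hm _ (ha j hj).1, (hP r m c).2.2.2 _ _ (ha j hj).2⟩
  · simp only [map_add, map_sum, map_mul, map_pow, hX]

end Pool.ThmM
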