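import Pool.Agent.Work.MP_f82ddf_M.Terminal

set_option autoImplicit false

namespace Pool.ThmM.SHP

open MvPolynomial Finset Pool.ThmM

theorem ev {r : ℕ} (m : Fin (r + 1)) (c : Fin (r + 1) → ℂ) (f : Pr r)
    (u : Fin (r + 1) → ℂ) : eval u (shear m c f) = eval (shp m c u) f := by
  have h : (MvPolynomial.eval u).comp ((shear m c : Pr r →ₐ[ℂ] Pr r) : Pr r →+* Pr r)
      = MvPolynomial.eval (shp m c u) := by
    apply MvPolynomial.ringHom_ext
    · intro a
      simp [shear]
    · intro i
      by_cases hi : i = m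
      · subst hi
        simp [shear, shp]
      · simp [shear, shp, hi]
  exact congrArg (fun g : Pr r →+* ℂ => g f) h

theorem inv {r : ℕ} (m : Fin (r + 1)) (c u : Fin (r + 1) → ℂ) :
    shp m c (shp m (-c) u) = u := by
  funext i
  by_cases hi : i = m
  · subst hi; simp [shp]
  · simp [shp, hi]

theorem mat {r : ℕ} (m : Fin (r + 1)) (c : Fin (r + 1) → ℂ) :
    ∃ A : Matrix (Fin (r + 1)) (Fin (r + 1)) ℂ, ∀ u, A.mulVec u = shp m c u := by
  refine ⟨Matrix.of fun i j => (if i = j then 1 else 0) +
    (if i = m then 0 else if j = m then c i else 0), ?_⟩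
  intro u
  funext i
  simp only [Matrix.mulVec, dotProduct, Matrix.of_apply, add_mul, Finset.sum_add_distrib]
  by_cases hi : i = m
  · subst hi; simp [shp]
  · simp [shp, hi]

end Pool.ThmM.SHP

namespace Pool.ThmM

open MvPolynomial Finset

theorem stmt_SHP : Stmt_SHP := by
  intro r m c
  refine ⟨fun f u => SHP.ev m c f u, fun u => SHP.inv m c u, ?_, ?_⟩
  · obtain ⟨A, hA⟩ := SHP.mat m c
    obtain ⟨B, hB⟩ := SHP.mat m (-c)
    refine ⟨A, ?_, hA⟩
    have h : A * B = 1 := by
      apply Matrix.ext_of_mulVec_single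
      intro i
      rw [← Matrix.mulVec_mulVec, hB, hA, SHP.inv, Matrix.one_mulVec]

    exact Matrix.isUnit_det_of_right_inverse h
  · intro f e hf
    have h := hf.aeval (n := 1) (fun i => if i = m then X m else X i + C (c i) * X m) (by
      intro i
      by_cases hi : i = m
      · simp only [hi, if_true]; exact isHomogeneous_X _ _
      · simp only [hi, if_false]
        refine (isHomogeneous_X _ _).add ?_
        have := (isHomogeneous_C (Fin (r + 1)) (c i)).mul (isHomogeneous_X ℂ m)
        simpa using this)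
    simpa [shear] using h

end Pool.ThmM
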