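import Pool.Agent.Work.MP_f82ddf_M.Terminal

/-! # Block SHR (helper55): a nonzero form becomes monic after a shear -/

set_option autoImplicit false

namespace Pool.ThmM

open MvPolynomial Finset

namespace SHR

theorem degree_erase {r : ℕ} (m : Fin (r + 1)) (d : Fin (r + 1) →₀ ℕ) :
    (d.erase m).degree + d m = d.degree := by
  have h : (Finsupp.single m (d m) + d.erase m).degree = d.degree := by
    rw [Finsupp.single_add_erase]
  rw [map_add, Finsupp.degree_single] at h
  omega

/-- collect by powers of `X_m` -/
theorem collect {r w e : ℕ} (m : Fin (r + 1)) (g : Pr r) (hm : (m : ℕ) = w + 1)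
    (hg : g.IsHomogeneous e) (hL : Low (w + 1) g) (h1 : coeff (Finsupp.single m e) g = 1) :
    IsMon w e m g := by
  classical
  have hdeg : ∀ d ∈ g.support, d.degree = e := by
    intro d hd
    by_contra hne
    exact (mem_support_iff.1 hd) (hg.coeff_eq_zero hne)
  let c : ℕ → Pr r := fun j =>
    ∑ d ∈ g.support with d m = j, monomial (d.erase m) (coeff d g)
  have hc : ∀ j, c j * X m ^ j = ∑ d ∈ g.support with d m = j, monomial d (coeff d g) := by
    intro j
    rw [Finset.sum_mul]
    refine Finset.sum_congr rfl fun d hd => ?_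
    rw [Finset.mem_filter] at hd
    rw [X_pow_eq_monomial, monomial_mul, mul_one, ← hd.2, Finsupp.erase_add_single]
  have hsum : g = ∑ j ∈ range (e + 1), c j * X m ^ j := by
    conv_lhs => rw [← support_sum_monomial_coeff g]
    rw [← Finset.sum_fiberwise_of_maps_to (s := g.support) (t := range (e + 1))
      (g := fun d => d m)]
    · exact Finset.sum_congr rfl fun j _ => (hc j).symm
    · intro d hd
      rw [Finset.mem_range, ← hdeg d hd, ← degree_erase m d]
      omega
  have hce : c e = 1 := by
    have h2 : (g.support.filter fun d => d m = e) = {Finsupp.single m e} := by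
      ext d
      rw [Finset.mem_filter, Finset.mem_singleton]
      constructor
      · rintro ⟨h3, h4⟩
        have h5 := degree_erase m d
        rw [hdeg d h3, h4] at h5
        have h6 : (d.erase m).degree = 0 := by omega
        rw [Finsupp.degree_eq_zero_iff] at h6
        rw [← Finsupp.erase_add_single m d, h6, h4, zero_add]
      · rintro rfl
        refine ⟨?_, Finsupp.single_eq_same⟩
        rw [mem_support_iff, h1]
        exact one_ne_zero
    show ∑ d ∈ g.support with d m = e, monomial (d.erase m) (coeff d g) = 1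
    rw [h2, Finset.sum_singleton, h1, Finsupp.erase_single]
    rfl
  refine ⟨c, ?_, ?_⟩
  · intro j hj
    constructor
    · intro i hi
      have h2 := vars_sum_subset (g.support.filter fun d => d m = j)
        (fun d => monomial (d.erase m) (coeff d g)) hi
      rw [Finset.mem_biUnion] at h2
      obtain ⟨d, hd, hid⟩ := h2
      rw [Finset.mem_filter] at hd
      rw [vars_monomial (mem_support_iff.1 hd.1), Finsupp.support_erase, Finset.mem_erase] at hid
      have h3 : i ∈ g.vars := by
        rw [mem_vars_iff_mem_support]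
        exact ⟨d, hd.1, hid.2⟩
      have h4 := hL i h3
      have h5 : (i : ℕ) ≠ w + 1 := by
        intro h
        exact hid.1 (Fin.ext (h.trans hm.symm))
      omega
    · refine IsHomogeneous.sum _ _ _ fun d hd => ?_
      rw [Finset.mem_filter] at hd
      refine isHomogeneous_monomial _ ?_
      have h3 := degree_erase m d
      rw [hdeg d hd.1, hd.2] at h3
      omega
  · rw [Finset.sum_range_succ, hce, one_mul, add_comm] at hsum
    exact hsum

theorem eval_scale {r e : ℕ} (f : Pr r) (hf : f.IsHomogeneous e) (a : ℂ)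
    (p : Fin (r + 1) → ℂ) : eval (fun i => a * p i) f = a ^ e * eval p f := by
  rw [eval_eq', eval_eq', Finset.mul_sum]
  refine Finset.sum_congr rfl fun d hd => ?_
  have h1 : ∑ i, d i = e := by
    by_contra hne
    refine (mem_support_iff.1 hd) (hf.coeff_eq_zero ?_)
    rwa [Finsupp.degree_eq_sum]
  rw [← h1, ← Finset.prod_pow_eq_pow_sum]
  simp only [mul_pow, Finset.prod_mul_distrib]
  ring

theorem eval_delta {r e : ℕ} (f : Pr r) (hf : f.IsHomogeneous e) (m : Fin (r + 1)) :
    eval (fun i => if i = m then 1 else 0) f = coeff (Finsupp.single m e) f := by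
  classical
  rw [eval_eq', Finset.sum_eq_single (Finsupp.single m e)]
  · rw [Finset.prod_eq_one, mul_one]
    intro i _
    by_cases h : i = m
    · subst h; simp
    · rw [Finsupp.single_eq_of_ne h, pow_zero]
  · intro d hd hne
    have h1 : d.degree = e := by
      by_contra hne'
      exact (mem_support_iff.1 hd) (hf.coeff_eq_zero hne')
    have h2 : ∃ i, i ≠ m ∧ d i ≠ 0 := by
      by_contra hcon
      apply hne
      have h3 : d.erase m = 0 := by
        ext i
        by_cases hi : i = m
        · subst hi; simp
        · rw [Finsupp.erase_ne hi]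
          by_contra h4
          exact hcon ⟨i, hi, h4⟩
      have h5 := degree_erase m d
      rw [h3, map_zero, zero_add, h1] at h5
      rw [← Finsupp.erase_add_single m d, h3, h5, zero_add]
    obtain ⟨i, hi, hdi⟩ := h2
    rw [Finset.prod_eq_zero (Finset.mem_univ i), mul_zero]
    rw [if_neg hi, zero_pow hdi]
  · intro h
    rw [notMem_support_iff.1 h, zero_mul]

end SHR

open SHR in
theorem stmt_SHR : Stmt_SHP → Stmt_SHL → Stmt_SHR := by
  classical
  intro hP hL r w e m f hm hf hlow hne
  -- a point
  obtain ⟨p, hp⟩ : ∃ p : Fin (r + 1) → ℂ, eval p (f * X m) ≠ 0 := by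
    by_contra hcon
    push Not at hcon
    have h1 : f * X m = 0 := by
      apply MvPolynomial.funext
      intro x
      rw [hcon x, map_zero]
    rcases mul_eq_zero.1 h1 with h | h
    · exact hne h
    · exact X_ne_zero m h
  rw [map_mul, eval_X] at hp
  have hp1 : eval p f ≠ 0 := left_ne_zero_of_mul hp
  have hp2 : p m ≠ 0 := right_ne_zero_of_mul hp
  let c : Fin (r + 1) → ℂ := fun i => if (i : ℕ) ≤ w then (p m)⁻¹ * p i else 0
  have hc : ∀ i : Fin (r + 1), w < i → c i = 0 := fun i hi => if_neg (by omega)
  obtain ⟨hev, _, _, hdeg⟩ := hP r m c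
  have hf' : (shear m c f).IsHomogeneous e := hdeg f e hf
  have hlow' : Low (w + 1) (shear m c f) := (hL r w m c hm hc).1 f hlow
  have hval : eval (fun i => if i = m then 1 else 0) (shear m c f) =
      (p m)⁻¹ ^ e * eval p f := by
    rw [hev, ← eval_scale f hf]
    refine eval₂Hom_congr' rfl ?_ rfl
    intro i hi _
    have h1 := hlow i hi
    show shp m c (fun i => if i = m then 1 else 0) i = (p m)⁻¹ * p i
    unfold shp
    by_cases him : i = m
    · subst him
      rw [if_pos rfl, inv_mul_cancel₀ hp2]
      exact if_pos rfl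
    · have h2 : (i : ℕ) ≠ w + 1 := fun h => him (Fin.ext (h.trans hm.symm))
      rw [if_neg him]
      show (if i = m then (1 : ℂ) else 0) + c i * (if m = m then (1 : ℂ) else 0) = (p m)⁻¹ * p i
      rw [if_neg him, if_pos rfl, mul_one, zero_add]
      exact if_pos (by omega)
  have hne0 : (p m)⁻¹ ^ e * eval p f ≠ 0 := mul_ne_zero (pow_ne_zero _ (inv_ne_zero hp2)) hp1
  refine ⟨c, ((p m)⁻¹ ^ e * eval p f)⁻¹, hc, inv_ne_zero hne0, ?_⟩
  refine collect m _ hm ?_ ?_ ?_
  · have h1 := (isHomogeneous_C (Fin (r + 1)) ((p m)⁻¹ ^ e * eval p f)⁻¹).mul hf'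
    rwa [zero_add] at h1
  · intro i hi
    have h1 := vars_mul _ _ hi
    rw [vars_C, Finset.empty_union] at h1
    exact hlow' i h1
  · rw [coeff_C_mul, ← eval_delta _ hf', hval, inv_mul_cancel₀ hne0]

end Pool.ThmM
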