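import Pool.Agent.Work.MP_f82ddf_M.Terminal

/-!
# TER: the descent (helper29)
-/

set_option autoImplicit false

namespace Pool.ThmM

open MvPolynomial Finset

namespace TER

/-- The conclusion of `Stmt_TERM` for the set `T`. -/
def Concl (r : ℕ) (d : ℕ → ℕ → ℕ) (Dmax : ℕ) (T : Finset (Fin (r + 1) → ℂ)) : Prop :=
  ∃ (w D : ℕ) (P : Ideal (Pr r)) (g : Matrix (Fin (r + 1)) (Fin (r + 1)) ℂ)
    (T' : Finset (Fin (r + 1) → ℂ)),
    1 ≤ w ∧ D ≤ Dmax ∧ Datum r w D P ∧ IsUnit g.det ∧ T' ⊆ T ∧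
    (∀ u ∈ T', On P (g.mulVec u)) ∧
    ∀ (e : ℕ) (f : Pr r), e ≤ d w D → f.IsHomogeneous e → Low w f → f ≠ 0 →
      ∃ u ∈ T', eval (g.mulVec u) f ≠ 0

theorem Concl.mono {r : ℕ} {d : ℕ → ℕ → ℕ} {D₁ D₂ : ℕ} {T₁ T₂ : Finset (Fin (r + 1) → ℂ)}
    (h : Concl r d D₁ T₁) (hD : D₁ ≤ D₂) (hT : T₁ ⊆ T₂) : Concl r d D₂ T₂ := by
  obtain ⟨w, D, P, g, T', h1, h2, h3, h4, h5, h6, h7⟩ := h
  exact ⟨w, D, P, g, T', h1, h2.trans hD, h3, h4, h5.trans hT, h6, h7⟩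

theorem main (hSTE : Stmt_STE) (hZRO : Stmt_ZRO) (r : ℕ) (d : ℕ → ℕ → ℕ) (w : ℕ) :
    ∀ D : ℕ, ∃ N Dm : ℕ, ∀ (P : Ideal (Pr r)) (g : Matrix (Fin (r + 1)) (Fin (r + 1)) ℂ)
      (T : Finset (Fin (r + 1) → ℂ)), State r w D P g T →
      (∀ u ∈ T, ∀ v ∈ T, u ≠ v → NonProp u v) → N ≤ T.card → Concl r d Dm T := by
  classical
  induction w with
  | zero =>
    intro D
    refine ⟨2, 0, ?_⟩
    intro P g T hS hT hN
    exfalso
    obtain ⟨u, hu, v, hv, huv⟩ := Finset.one_lt_card.1 (show 1 < T.card by omega)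
    exact hZRO r D P g u v hS.1 hS.2.1 (hS.2.2 u hu) (hS.2.2 v hv) (hT u hu v hv huv)
  | succ w ih =>
    intro D
    set d' := max 1 (d (w + 1) D) with hd'
    obtain ⟨N, Dm, hN⟩ := ih (D * d')
    refine ⟨(D * d') ^ (r + 1) * (N + 2) + 1, max D Dm, ?_⟩
    intro P g T hS hT hc
    by_cases hf : ∀ (e : ℕ) (f : Pr r), e ≤ d (w + 1) D → f.IsHomogeneous e → Low (w + 1) f →
        f ≠ 0 → ∃ u ∈ T, eval (g.mulVec u) f ≠ 0
    · exact ⟨w + 1, D, P, g, T, by omega, le_max_left _ _, hS.1, hS.2.1, Finset.Subset.refl _,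
        hS.2.2, hf⟩
    · push Not at hf
      obtain ⟨e, f, h1, h2, h3, h4, h5⟩ := hf
      have hne : T.Nonempty := by
        rw [← Finset.card_pos]
        omega
      obtain ⟨P', g', T', h6, h7, h8⟩ := hSTE r w D d' e P g T f hS hne (le_max_left _ _)
        (h1.trans (le_max_right _ _)) h2 h3 h4 h5
      have h9 : N ≤ T'.card := by
        by_contra hlt
        push Not at hlt
        have h10 : (D * d') ^ (r + 1) * T'.card ≤ (D * d') ^ (r + 1) * (N + 2) :=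
          Nat.mul_le_mul_left _ (by omega)
        omega
      exact (hN P' g' T' h6 (fun u hu v hv => hT u (h7 hu) v (h7 hv)) h9).mono
        (le_max_right _ _) h7

theorem bot_datum (r : ℕ) : Datum r r 1 (⊥ : Ideal (Pr r)) where
  le := le_refl r
  pos := le_refl 1
  prime := Ideal.isPrime_bot
  hom := by
    intro f hf n
    rw [Ideal.mem_bot] at hf ⊢
    rw [hf, map_zero]
  indep := by
    intro f hf _
    exact (Ideal.mem_bot).1 hf
  mon := by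
    intro i hi
    have := i.2
    omega

end TER

theorem stmt_TER : Stmt_STE → Stmt_ZRO → Stmt_TER := by
  intro hSTE hZRO r d
  obtain ⟨N, Dm, h⟩ := TER.main hSTE hZRO r d r 1
  refine ⟨N, Dm, ?_⟩
  intro S hS hc
  have h1 : State r r 1 (⊥ : Ideal (Pr r)) 1 S := by
    refine ⟨TER.bot_datum r, by simp, ?_⟩
    intro u _ f hf
    rw [(Ideal.mem_bot).1 hf, map_zero]
  exact h ⊥ 1 S h1 hS hc

end Pool.ThmM
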