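import Pool.Agent.Work.MP_f82ddf_M.T_ELI
import Pool.Agent.Work.MP_f82ddf_M.T_FIN
import Pool.Agent.Work.MP_f82ddf_M.T_PEL
import Pool.Agent.Work.MP_f82ddf_M.T_PRA
import Pool.Agent.Work.MP_f82ddf_M.T_PRB
import Pool.Agent.Work.MP_f82ddf_M.T_PRM
import Pool.Agent.Work.MP_f82ddf_M.T_RAI
import Pool.Agent.Work.MP_f82ddf_M.T_RES
import Pool.Agent.Work.MP_f82ddf_M.T_SHL
import Pool.Agent.Work.MP_f82ddf_M.T_SHP
import Pool.Agent.Work.MP_f82ddf_M.T_SHR
import Pool.Agent.Work.MP_f82ddf_M.T_SUB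
import Pool.Agent.Work.MP_f82ddf_M.T_TER
import Pool.Agent.Work.MP_f82ddf_M.B_STE
import Pool.Agent.Work.MP_f82ddf_M.B_ZRO

set_option autoImplicit false

/-! # THEOREM M, part P2: all the blocks together -/

namespace Pool.ThmM

theorem all_SHP : Stmt_SHP := stmt_SHP
theorem all_SHL : Stmt_SHL := stmt_SHL all_SHP
theorem all_SHR : Stmt_SHR := stmt_SHR all_SHP all_SHL
theorem all_STE : Stmt_STE := stmt_STE all_SHP all_SHL all_SHR stmt_RAI stmt_RES stmt_PRM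
theorem all_TER : Stmt_TER := stmt_TER all_STE stmt_ZRO
theorem all_PRA : Stmt_PRA := stmt_PRA stmt_PEL
theorem all_PRB : Stmt_PRB := stmt_PRB all_PRA stmt_SUB

/-- The result of part P2. -/
theorem all_T3 : Stmt_T3 := stmt_FIN all_TER all_PRB stmt_SUB stmt_ELI

end Pool.ThmM
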