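import Pool.Agent.Work.MP_f82ddf_M.Core

/-! # Block NOD (helper55): the node lemma -/

set_option autoImplicit false

open Pool.Agent.Work.MP_f82ddf_nt.DQ

namespace Pool.ThmM.Chow

open MvPolynomial

theorem NOD_C (hV : Pool.ThmM.Stmt_VAL) {σ : Type} (c : Mer) (z : ℂ) :
    vP (C c : MvPolynomial σ Mer) z = om c z := by
  classical
  unfold vP
  by_cases hc : c = 0
  · subst hc
    rw [C_0, support_zero, Finset.inf_empty]
    exact (((hV z).2.2.1 0).2 rfl).symm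
  · have h1 : (C c : MvPolynomial σ Mer).support = {0} := by
      rw [← monomial_zero', support_monomial, if_neg hc]
    rw [h1, Finset.inf_singleton, coeff_zero_C]

theorem NOD_one (hV : Pool.ThmM.Stmt_VAL) {σ : Type} (z : ℂ) :
    vP (1 : MvPolynomial σ Mer) z = 0 := by
  have h1 : (1 : MvPolynomial σ Mer) = C (algebraMap ℂ Mer 1) := by rw [map_one, C_1]
  rw [h1, NOD_C hV]
  exact (hV z).2.2.2.1 1 one_ne_zero

theorem NOD_map (hV : Pool.ThmM.Stmt_VAL) {σ : Type} (G : MvPolynomial σ ℂ) (z : ℂ) :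
    vP (map (algebraMap ℂ Mer) G) z = 0 ∨ vP (map (algebraMap ℂ Mer) G) z = ⊤ := by
  classical
  by_cases hG : G = 0
  · right
    subst hG
    unfold vP
    rw [map_zero, support_zero, Finset.inf_empty]
  · left
    have hne : map (algebraMap ℂ Mer) G ≠ 0 := by
      intro h
      exact hG ((map_injective _ (algebraMap ℂ Mer).injective) (by rw [h, map_zero]))
    have hs : (map (algebraMap ℂ Mer) G).support.Nonempty := by
      rwa [Finset.nonempty_iff_ne_empty, Ne, support_eq_empty]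
    have hval : ∀ α ∈ (map (algebraMap ℂ Mer) G).support,
        om (coeff α (map (algebraMap ℂ Mer) G)) z = 0 := by
      intro α hα
      rw [mem_support_iff, coeff_map] at hα
      rw [coeff_map]
      refine (hV z).2.2.2.1 _ ?_
      intro h
      rw [h, map_zero] at hα
      exact hα rfl
    unfold vP
    rw [Finset.inf_congr rfl hval]
    exact Finset.inf_const hs 0

theorem NOD_pow (hV : Pool.ThmM.Stmt_VAL) (hG : Pool.ThmM.Stmt_GAU) {σ : Type} [Finite σ]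
    (P : MvPolynomial σ Mer) (n : ℕ) (z : ℂ) : vP (P ^ n) z = n • vP P z := by
  induction n with
  | zero => rw [pow_zero, zero_nsmul, NOD_one hV]
  | succ n ih => rw [pow_succ, hG, ih, succ_nsmul]

theorem NOD_prod (hV : Pool.ThmM.Stmt_VAL) (hG : Pool.ThmM.Stmt_GAU) {σ ι : Type} [Finite σ]
    (s : Finset ι) (f : ι → MvPolynomial σ Mer) (z : ℂ) :
    vP (∏ i ∈ s, f i) z = ∑ i ∈ s, vP (f i) z := by
  classical
  induction s using Finset.induction_on with
  | empty => rw [Finset.prod_empty, Finset.sum_empty, NOD_one hV]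
  | insert a s ha ih => rw [Finset.prod_insert ha, Finset.sum_insert ha, hG, ih]

theorem NOD_top {n : ℕ} (hn : n ≠ 0) {a : WithTop ℤ} (h : n • a ≠ ⊤) : a ≠ ⊤ := by
  obtain ⟨k, rfl⟩ := Nat.exists_eq_succ_of_ne_zero hn
  rw [Nat.succ_eq_add_one, succ_nsmul] at h
  exact (WithTop.add_ne_top.1 h).2

theorem NOD_smul (n : ℕ) (a : ℤ) : n • (a : WithTop ℤ) = (((n : ℤ) * a : ℤ) : WithTop ℤ) := by
  rw [← WithTop.coe_nsmul, nsmul_eq_mul]

theorem NOD_sum {ι : Type} (s : Finset ι) (v : ι → WithTop ℤ) (α : ι → ℤ) (m : ι → ℕ)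
    (h : ∀ i ∈ s, v i = (α i : WithTop ℤ)) :
    ∑ i ∈ s, m i • v i = ((∑ i ∈ s, (m i : ℤ) * α i : ℤ) : WithTop ℤ) := by
  classical
  induction s using Finset.induction_on with
  | empty => rw [Finset.sum_empty, Finset.sum_empty]; rfl
  | insert a s ha ih =>
    rw [Finset.sum_insert ha, Finset.sum_insert ha, WithTop.coe_add,
      ih fun i hi => h i (Finset.mem_insert_of_mem hi), h a (Finset.mem_insert_self a s), NOD_smul]

theorem NOD_sum_top {ι : Type} (s : Finset ι) (v : ι → WithTop ℤ) (h : ∑ i ∈ s, v i ≠ ⊤) :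
    ∀ i ∈ s, v i ≠ ⊤ := by
  classical
  induction s using Finset.induction_on with
  | empty => intro i hi; exact absurd hi (Finset.notMem_empty i)
  | insert a s ha ih =>
    rw [Finset.sum_insert ha] at h
    obtain ⟨h1, h2⟩ := WithTop.add_ne_top.1 h
    intro i hi
    rcases Finset.mem_insert.1 hi with rfl | hi
    · exact h1
    · exact ih h2 i hi

/-- nonnegative integers with the sum 1 -/
theorem NOD_one_of {ι : Type} (s : Finset ι) (d : ι → ℤ) (h0 : ∀ i ∈ s, 0 ≤ d i)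
    (h1 : ∑ i ∈ s, d i = 1) : ∃ i ∈ s, d i = 1 ∧ ∀ j ∈ s, j ≠ i → d j = 0 := by
  classical
  have h2 : ∃ i ∈ s, d i ≠ 0 := by
    by_contra hcon
    push Not at hcon
    rw [Finset.sum_congr rfl hcon, Finset.sum_const_zero] at h1
    exact zero_ne_one h1
  obtain ⟨i, hi, hdi⟩ := h2
  have h3 : 1 ≤ d i := by
    have := h0 i hi
    omega
  have h4 : ∑ j ∈ s.erase i, d j + d i = 1 := by rw [Finset.sum_erase_add s d hi, h1]
  have h5 : 0 ≤ ∑ j ∈ s.erase i, d j :=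
    Finset.sum_nonneg fun j hj => h0 j (Finset.mem_of_mem_erase hj)
  have h6 : ∑ j ∈ s.erase i, d j = 0 := by omega
  refine ⟨i, hi, by omega, fun j hj hne => ?_⟩
  exact (Finset.sum_eq_zero_iff_of_nonneg fun j hj => h0 j (Finset.mem_of_mem_erase hj)).1 h6 j
    (Finset.mem_erase.2 ⟨hne, hj⟩)

theorem p_NOD : Pool.ThmM.Stmt_VAL → Pool.ThmM.Stmt_GAU → Stmt_LSB → Stmt_FNC → Stmt_NOD := by
  classical
  intro hV hG hL hF σ τ _ _ g k c Fix Psi s m z a n hk hm h1 h2 h3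
  have hm0 : ∀ P ∈ s, m P ≠ 0 := by
    intro P hP h0
    apply hm P hP
    rw [h0]
    exact dvd_zero k
  have hk0 : k ≠ 0 := by omega
  have hle : ∀ P : MvPolynomial σ Mer, vP P z ≤ vP (subC Mer g P) z := fun P =>
    ((hL σ P).2 τ g).1 z
  have hC : subC Mer g (C c) = C c := by
    unfold subC
    rw [coe_eval₂Hom, eval₂_C]
  -- the orders of the products
  rw [hG, hG, hG, NOD_pow hV hG, NOD_prod hV hG, NOD_C hV] at h1
  rw [map_mul, map_mul, map_mul, map_pow, map_prod, hG, hG, hG, NOD_pow hV hG, NOD_prod hV hG, hC,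
    NOD_C hV, hF.2.2.1] at h2
  simp only [map_pow, NOD_pow hV hG] at h1 h2
  rw [map_prod, NOD_prod hV hG, NOD_prod hV hG] at h3
  have t1 : om c z + vP (map (algebraMap ℂ Mer) Fix) z + k • vP Psi z +
      ∑ P ∈ s, m P • vP P z ≠ ⊤ := by rw [h1]; exact WithTop.coe_ne_top
  have t2 : om c z + vP (map (algebraMap ℂ Mer) (aeval g Fix)) z + k • vP (subC Mer g Psi) z +
      ∑ P ∈ s, m P • vP (subC Mer g P) z ≠ ⊤ := by rw [h2]; exact WithTop.coe_ne_top
  obtain ⟨t3, t4⟩ := WithTop.add_ne_top.1 t1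
  obtain ⟨t5, t6⟩ := WithTop.add_ne_top.1 t3
  obtain ⟨t7, t8⟩ := WithTop.add_ne_top.1 t5
  obtain ⟨u3, u4⟩ := WithTop.add_ne_top.1 t2
  obtain ⟨u5, u6⟩ := WithTop.add_ne_top.1 u3
  obtain ⟨u7, u8⟩ := WithTop.add_ne_top.1 u5
  have e1 : vP (map (algebraMap ℂ Mer) Fix) z = 0 := (NOD_map hV Fix z).resolve_right t8
  have e2 : vP (map (algebraMap ℂ Mer) (aeval g Fix)) z = 0 :=
    (NOD_map hV (aeval g Fix) z).resolve_right u8
  obtain ⟨c0, hc0⟩ := WithTop.ne_top_iff_exists.1 t7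
  obtain ⟨a1, ha1⟩ := WithTop.ne_top_iff_exists.1 (NOD_top hk0 t6)
  obtain ⟨b1, hb1⟩ := WithTop.ne_top_iff_exists.1 (NOD_top hk0 u6)
  have hα : ∀ P : MvPolynomial σ Mer, ∃ α : ℤ, P ∈ s → vP P z = (α : WithTop ℤ) := by
    intro P
    by_cases hP : P ∈ s
    · obtain ⟨α, h⟩ := WithTop.ne_top_iff_exists.1 (NOD_top (hm0 P hP) (NOD_sum_top s _ t4 P hP))
      exact ⟨α, fun _ => h.symm⟩
    · exact ⟨0, fun h => absurd h hP⟩
  have hβ : ∀ P : MvPolynomial σ Mer, ∃ β : ℤ, P ∈ s → vP (subC Mer g P) z = (β : WithTop ℤ) := by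
    intro P
    by_cases hP : P ∈ s
    · obtain ⟨β, h⟩ := WithTop.ne_top_iff_exists.1 (NOD_top (hm0 P hP) (NOD_sum_top s _ u4 P hP))
      exact ⟨β, fun _ => h.symm⟩
    · exact ⟨0, fun h => absurd h hP⟩
  choose α hα using hα
  choose β hβ using hβ
  rw [e1, add_zero, ← hc0, ← ha1, NOD_smul, NOD_sum s _ α m hα, ← WithTop.coe_add,
    ← WithTop.coe_add] at h1
  rw [e2, add_zero, ← hc0, ← hb1, NOD_smul, NOD_sum s _ β m hβ, ← WithTop.coe_add,
    ← WithTop.coe_add] at h2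
  have h1' : c0 + (k : ℤ) * a1 + ∑ P ∈ s, (m P : ℤ) * α P = a := by exact_mod_cast h1
  have h2' : c0 + (k : ℤ) * b1 + ∑ P ∈ s, (m P : ℤ) * β P = a + k * n := by exact_mod_cast h2
  have e3 : ∑ P ∈ s, vP P z = ((∑ P ∈ s, α P : ℤ) : WithTop ℤ) := by
    have := NOD_sum s (fun P => vP P z) α (fun _ => 1) hα
    simpa using this
  have e4 : ∑ P ∈ s, vP (subC Mer g P) z = ((∑ P ∈ s, β P : ℤ) : WithTop ℤ) := by
    have := NOD_sum s (fun P => vP (subC Mer g P) z) β (fun _ => 1) hβ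
    simpa using this
  rw [e3, e4] at h3
  have h3' : ∑ P ∈ s, β P = ∑ P ∈ s, α P + 1 := by exact_mod_cast h3
  have hαβ : ∀ P ∈ s, 0 ≤ β P - α P := by
    intro P hP
    have h4 := hle P
    rw [hα P hP, hβ P hP] at h4
    have h5 : α P ≤ β P := by exact_mod_cast h4
    linarith
  obtain ⟨P₀, hP₀, g1, g2⟩ := NOD_one_of s (fun P => β P - α P) hαβ (by
    rw [Finset.sum_sub_distrib]
    linarith)
  have h6 : ∑ P ∈ s, (m P : ℤ) * (β P - α P) = m P₀ := by
    rw [Finset.sum_eq_single P₀]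
    · rw [g1, mul_one]
    · intro P hP hne
      rw [g2 P hP hne, mul_zero]
    · intro h; exact absurd hP₀ h
  have h7 : ∑ P ∈ s, (m P : ℤ) * (β P - α P) =
      ∑ P ∈ s, (m P : ℤ) * β P - ∑ P ∈ s, (m P : ℤ) * α P := by
    rw [← Finset.sum_sub_distrib]
    exact Finset.sum_congr rfl fun P _ => by ring
  apply hm P₀ hP₀
  have h8 : (m P₀ : ℤ) = k * (n - b1 + a1) := by
    rw [← h6, h7]
    linear_combination h2' - h1'
  have h9 : (k : ℤ) ∣ m P₀ := ⟨_, h8⟩
  exact_mod_cast h9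

end Pool.ThmM.Chow
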