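import Pool.Agent.Work.MP_f82ddf_M.Chow

set_option autoImplicit false

namespace Pool.ThmM.Chow

open MvPolynomial
open Pool.Agent.Work.MP_f82ddf_M5 (lineAt resAt chow at2 comb Data)

/-- the substitution `X_p ↦ T ^ (wt p) X_p` on a monomial -/
theorem PLW_mon {σ R : Type} [CommRing R] (wt : σ → ℕ) (e : σ →₀ ℕ) (r : R) :
    eval₂ (Polynomial.C.comp (C (σ := σ) (R := R)))
      (fun p => Polynomial.X ^ (wt p) * Polynomial.C (X p)) (monomial e r) =
      Polynomial.C (monomial e r) * Polynomial.X ^ (Finsupp.weight wt e) := by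
  rw [eval₂_monomial, monomial_eq, Polynomial.C_mul, Finsupp.weight_apply, Finsupp.prod,
    Finsupp.prod, Finsupp.sum, map_prod]
  simp only [mul_pow, RingHom.comp_apply]
  rw [Finset.prod_mul_distrib, ← Finset.prod_pow_eq_pow_sum]
  have h1 : ∀ x ∈ e.support, (Polynomial.X ^ (wt x)) ^ (e x) =
      (Polynomial.X : Polynomial (MvPolynomial σ R)) ^ (e x • wt x) := by
    intro x _
    rw [← pow_mul, smul_eq_mul, mul_comm]
  rw [Finset.prod_congr rfl h1]
  have h2 : ∀ x ∈ e.support, (Polynomial.C (X x)) ^ (e x) =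
      (Polynomial.C ((X x : MvPolynomial σ R) ^ (e x))) := by
    intro x _
    rw [Polynomial.C_pow]
  rw [Finset.prod_congr rfl h2]
  ring

theorem PLW_coeff {σ R : Type} [CommRing R] (wt : σ → ℕ) (F : MvPolynomial σ R) (k : ℕ)
    (d : σ →₀ ℕ) (hd : Finsupp.weight wt d = k) :
    ((eval₂ (Polynomial.C.comp (C (σ := σ) (R := R)))
      (fun p => Polynomial.X ^ (wt p) * Polynomial.C (X p)) F).coeff k).coeff d = F.coeff d := by
  classical
  induction F using MvPolynomial.induction_on' with
  | monomial e r =>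
    rw [PLW_mon, Polynomial.coeff_C_mul_X_pow, coeff_monomial]
    by_cases hed : e = d
    · rw [hed, hd, if_pos rfl, if_pos rfl, coeff_monomial, if_pos rfl]
    · rw [if_neg hed]
      split_ifs
      · rw [coeff_monomial, if_neg hed]
      · rw [coeff_zero]
  | add p q hp hq =>
    rw [eval₂_add, Polynomial.coeff_add, coeff_add, hp, hq, coeff_add]

theorem p_PLW : Stmt_PLW := by
  intro N ρ R _ F hF i d hd
  by_contra hne
  have key : eval₂ (Polynomial.C.comp (C (σ := Fin 2 × Fin N) (R := R)))
      (fun p => Polynomial.X ^ (wb i p) * Polynomial.C (X p)) F =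
      Polynomial.X ^ ρ * Polynomial.C F := by
    obtain ⟨_, _, h3, h4⟩ := hF (Polynomial (MvPolynomial (Fin 2 × Fin N) R))
      (Polynomial.C.comp C) (fun j => Polynomial.C (X (0, j))) (fun j => Polynomial.C (X (1, j)))
      Polynomial.X
    have h5 : at2 (Polynomial.C.comp C) (fun j => Polynomial.C (X (0, j)))
        (fun j => Polynomial.C (X (1, j))) F = Polynomial.C F := by
      have h6 : at2 (Polynomial.C.comp (C (σ := Fin 2 × Fin N) (R := R)))
          (fun j : Fin N => Polynomial.C (X (0, j))) (fun j => Polynomial.C (X (1, j))) =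
          Polynomial.C := by
        apply MvPolynomial.ringHom_ext
        · intro r
          simp [at2]
        · rintro ⟨i, j⟩
          fin_cases i <;> simp [at2]
      rw [h6]
    rw [h5] at h3 h4
    have hi : i = 0 ∨ i = 1 := by
      fin_cases i <;> simp
    rcases hi with rfl | rfl
    · rw [← h3]
      unfold at2
      rw [coe_eval₂Hom]
      congr 1
      funext p
      obtain ⟨i, j⟩ := p
      fin_cases i <;> simp [wb]
    · rw [← h4]
      unfold at2
      rw [coe_eval₂Hom]
      congr 1
      funext p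
      obtain ⟨i, j⟩ := p
      fin_cases i <;> simp [wb]
  have h1 := PLW_coeff (wb i) F (Finsupp.weight (wb i) d) d rfl
  rw [key, mul_comm, Polynomial.coeff_C_mul_X_pow, if_neg hne, coeff_zero] at h1
  exact hd h1.symm

end Pool.ThmM.Chow
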