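import Pool.Agent.Work.MP_f82ddf_M.Core

set_option autoImplicit false

open Topology Filter
open scoped Differential
open Pool.Agent.Work.MP_f82ddf_nt.DQ

namespace Pool.ThmM.Chow

open MvPolynomial
open Pool.Agent.Work.MP_f82ddf_M5 (lineAt resAt chow at2 comb Data)

theorem SPV_rep_zero (hO : Stmt_OZE) (z : ℂ) : rep 0 z = 0 := by
  obtain ⟨O, θ, hL⟩ := hO z
  have h := hL.val 0
  rw [map_zero] at h
  exact h.symm

theorem SPV_coeff (hO : Stmt_OZE) {σ : Type} (F : MvPolynomial σ Mer) (z : ℂ) (s : σ →₀ ℕ) :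
    coeff s (spv F z) = rep (coeff s F) z := by
  classical
  rw [spv, coeff_sum]
  simp only [coeff_monomial]
  rw [Finset.sum_ite_eq']
  split_ifs with h
  · rfl
  · rw [notMem_support_iff.1 h, SPV_rep_zero hO]

theorem SPV_one (hO : Stmt_OZE) {σ : Type} (z : ℂ) (O : Subalgebra ℂ Mer) (θ : O →ₐ[ℂ] ℂ)
    (hL : LocAt z O θ) (F : MvPolynomial σ O) :
    spv (map (O.val : O →+* Mer) F) z = map (θ : O →+* ℂ) F := by
  ext s
  rw [SPV_coeff hO, coeff_map, coeff_map]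
  exact (hL.val (coeff s F)).symm

theorem SPV_om (hA : Stmt_ALG) (hR : Stmt_REP) (f : Mer) (hf : f ≠ 0) :
    ∀ᶠ z in codiscrete ℂ, om f z = 0 := by
  filter_upwards [hA.2.2.2.2.2.2.2 f hf] with z hz
  exact ((hR f).1 (Set.mem_univ z)).meromorphicOrderAt_eq_zero_iff.2 hz

theorem SPV_om' (hA : Stmt_ALG) (hV : Stmt_VAL) (hR : Stmt_REP) (f : Mer) :
    ∀ᶠ z in codiscrete ℂ, 0 ≤ om f z := by
  by_cases hf : f = 0
  · refine Eventually.of_forall fun z => ?_
    rw [((hV z).2.2.1 f).2 hf]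
    exact le_top
  · filter_upwards [SPV_om hA hR f hf] with z hz
    rw [hz]

theorem SPV_two (hA : Stmt_ALG) (hR : Stmt_REP) {σ : Type} (F : MvPolynomial σ Mer)
    (hF : F ≠ 0) : ∀ᶠ z in codiscrete ℂ, vP F z = 0 := by
  have h1 : ∀ᶠ z in codiscrete ℂ, ∀ α ∈ F.support, om (coeff α F) z = 0 := by
    rw [Filter.eventually_all_finset]
    intro α hα
    exact SPV_om hA hR _ (mem_support_iff.1 hα)
  filter_upwards [h1] with z hz
  rw [vP, Finset.inf_congr rfl hz]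
  exact Finset.inf_const (support_nonempty.2 hF) 0

theorem SPV_two' (hA : Stmt_ALG) (hR : Stmt_REP) {σ : Type} (F : MvPolynomial σ Mer) :
    ∀ᶠ z in codiscrete ℂ, 0 ≤ vP F z := by
  by_cases hF : F = 0
  · refine Eventually.of_forall fun z => ?_
    rw [hF, vP, support_zero, Finset.inf_empty]
    exact le_top
  · filter_upwards [SPV_two hA hR F hF] with z hz
    rw [hz]

theorem SPV_comp (O : Subalgebra ℂ Mer) :
    (O.val : O →+* Mer).comp (algebraMap ℂ O) = algebraMap ℂ Mer := by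
  ext a
  rfl

theorem SPV_comp' (O : Subalgebra ℂ Mer) (θ : O →ₐ[ℂ] ℂ) :
    (θ : O →+* ℂ).comp (algebraMap ℂ O) = algebraMap ℂ ℂ := by
  ext a
  exact θ.commutes a

theorem p_SPV (hA : Stmt_ALG) (hV : Stmt_VAL) (hR : Stmt_REP) (hO : Stmt_OZE) (hD : Stmt_RDA)
    (hN : Stmt_FNC) (hH : Stmt_FCH) : Stmt_SPV := by
  refine ⟨?_, ?_, ?_, ?_, ?_, ?_, ?_, ?_⟩
  · intro σ z O θ hL F
    exact SPV_one hO z O θ hL F
  · intro σ F hF
    exact SPV_two hA hR F hF
  · intro σ F G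
    filter_upwards [SPV_two' hA hR F, SPV_two' hA hR G] with z hz1 hz2
    obtain ⟨O, θ, hL⟩ := hO z
    obtain ⟨F', rfl⟩ := (hD σ z O θ hL).2 F hz1
    obtain ⟨G', rfl⟩ := (hD σ z O θ hL).2 G hz2
    rw [← map_mul, SPV_one hO z O θ hL, SPV_one hO z O θ hL, SPV_one hO z O θ hL, map_mul]
  · intro σ τ g F
    filter_upwards [SPV_two' hA hR F] with z hz1
    obtain ⟨O, θ, hL⟩ := hO z
    obtain ⟨F', rfl⟩ := (hD σ z O θ hL).2 F hz1
    rw [← hN.1 σ τ O Mer (O.val : O →+* Mer) g F' (SPV_comp O), SPV_one hO z O θ hL,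
      SPV_one hO z O θ hL]
    exact hN.1 σ τ O ℂ (θ : O →+* ℂ) g F' (SPV_comp' O θ)
  · intro N r d Q A x
    have h1 : ∀ᶠ z in codiscrete ℂ, ∀ i, 0 ≤ om (x i) z := by
      rw [Filter.eventually_all]
      exact fun i => SPV_om' hA hV hR (x i)
    filter_upwards [h1] with z hz1
    obtain ⟨O, θ, hL⟩ := hO z
    have h2 := hH.1 N r d O Mer (O.val : O →+* Mer) Q A
      (fun i => ⟨x i, (hL.mem (x i)).2 (hz1 i)⟩) (SPV_comp O)
    have h3 := hH.1 N r d O ℂ (θ : O →+* ℂ) Q A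
      (fun i => ⟨x i, (hL.mem (x i)).2 (hz1 i)⟩) (SPV_comp' O θ)
    have h4 : Phi Mer d Q A x = map (O.val : O →+* Mer) (Phi O d Q A
        (fun i => ⟨x i, (hL.mem (x i)).2 (hz1 i)⟩)) := h2.symm
    rw [h4, SPV_one hO z O θ hL, h3]
    congr 1
    funext i
    exact hL.val _
  · intro σ F hF
    obtain ⟨s, hs⟩ := support_nonempty.2 hF
    filter_upwards [hA.2.2.2.2.2.2.2 (coeff s F) (mem_support_iff.1 hs)] with z hz h0
    apply hz
    rw [← SPV_coeff hO, h0, coeff_zero]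
  · intro σ G z
    obtain ⟨O, θ, hL⟩ := hO z
    ext s
    rw [SPV_coeff hO, coeff_map]
    have h := hL.val (algebraMap ℂ O (coeff s G))
    rw [AlgHom.commutes] at h
    exact h.symm
  · intro σ F n z hF s hs
    refine hF fun h0 => hs ?_
    rw [SPV_coeff hO, h0, SPV_rep_zero hO]

end Pool.ThmM.Chow
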