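import Pool.Agent.Work.MP_f82ddf_M.Chow

set_option autoImplicit false

/-! # Block ZER: a form which vanishes only at special lines is a product of linear forms -/

open Topology Filter
open scoped Differential
open Pool.Agent.Work.MP_f82ddf_nt.DQ

namespace Pool.ThmM.Chow

open MvPolynomial
open Pool.Agent.Work.MP_f82ddf_M5 (lineAt resAt chow at2 comb Data)

theorem ZER_dot (v m : Fin 3 → ℂ) : eval m (M4P.lf v) = ∑ i, v i * m i := by
  simp [M4P.lf]

theorem ZER_crs (m : Fin 3 → ℂ) (hm : m ≠ 0) : ∃ a b : Fin 3 → ℂ, crs a b = m := by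
  by_cases h2 : m 2 = 0
  · by_cases h1 : m 1 = 0
    · have h0 : m 0 ≠ 0 := by
        intro h0
        apply hm
        funext i
        fin_cases i
        · exact h0
        · exact h1
        · exact h2
      refine ⟨![-m 1, m 0, 0], ![-m 2 / m 0, 0, 1], ?_⟩
      funext i
      fin_cases i <;> simp [crs]
      field_simp
    · refine ⟨![0, -m 2, m 1], ![1, -m 0 / m 1, 0], ?_⟩
      funext i
      fin_cases i <;> simp [crs]
      field_simp
  · refine ⟨![m 2, 0, -m 0], ![0, 1, -m 1 / m 2], ?_⟩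
    funext i
    fin_cases i <;> simp [crs]
    field_simp

theorem ZER_indep (a b : Fin 3 → ℂ) (s t : ℂ) (h : ∀ j, s * a j + t * b j = 0)
    (hm : crs a b ≠ 0) : s = 0 ∧ t = 0 := by
  have h0 := h 0
  have h1 := h 1
  have h2 := h 2
  constructor
  · by_contra hs
    apply hm
    funext i
    apply mul_left_cancel₀ hs
    fin_cases i
    · show s * (a 1 * b 2 - a 2 * b 1) = s * 0
      linear_combination b 2 * h1 - b 1 * h2
    · show s * (a 2 * b 0 - a 0 * b 2) = s * 0
      linear_combination b 0 * h2 - b 2 * h0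
    · show s * (a 0 * b 1 - a 1 * b 0) = s * 0
      linear_combination b 1 * h0 - b 0 * h1
  · by_contra ht
    apply hm
    funext i
    apply mul_left_cancel₀ ht
    fin_cases i
    · show t * (a 1 * b 2 - a 2 * b 1) = t * 0
      linear_combination a 1 * h2 - a 2 * h1
    · show t * (a 2 * b 0 - a 0 * b 2) = t * 0
      linear_combination a 2 * h0 - a 0 * h2
    · show t * (a 0 * b 1 - a 1 * b 0) = t * 0
      linear_combination a 0 * h1 - a 1 * h0

theorem ZER_hom {d : ℕ} {F : MvPolynomial (Fin 3) ℂ} (hF : F.IsHomogeneous d) (c : ℂ)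
    (v : Fin 3 → ℂ) : eval (c • v) F = c ^ d * eval v F := by
  rw [eval_eq', eval_eq', Finset.mul_sum]
  apply Finset.sum_congr rfl
  intro s hs
  have h1 : ∑ i, s i = d := by
    have h2 := hF (mem_support_iff.1 hs)
    rw [← h2, Finsupp.weight_apply, Finsupp.sum_fintype _ _ (by simp)]
    simp
  have h3 : ∏ i, (c • v) i ^ s i = c ^ d * ∏ i, v i ^ s i := by
    simp only [Pi.smul_apply, smul_eq_mul, mul_pow]
    rw [Finset.prod_mul_distrib, Finset.prod_pow_eq_pow_sum, h1]
  rw [h3]
  ring

theorem ZER_lf_hom (v : Fin 3 → ℂ) : (M4P.lf v).IsHomogeneous 1 := by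
  unfold M4P.lf
  apply IsHomogeneous.sum
  intro i _
  have h := (isHomogeneous_C (Fin 3) (v i)).mul (isHomogeneous_X ℂ i)
  simpa using h

theorem ZER_lf_coeff (v : Fin 3 → ℂ) (i : Fin 3) :
    (M4P.lf v).coeff (Finsupp.single i 1) = v i := by
  unfold M4P.lf
  rw [coeff_sum, Finset.sum_eq_single i]
  · rw [coeff_C_mul, coeff_X, if_pos rfl, mul_one]
  · intro j _ hj
    rw [coeff_C_mul, coeff_X, if_neg, mul_zero]
    intro h
    exact hj (Finsupp.single_left_injective one_ne_zero h)
  · intro h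
    exact absurd (Finset.mem_univ i) h

theorem ZER_prime (v : Fin 3 → ℂ) (hv : v ≠ 0) : Prime (M4P.lf v) := by
  obtain ⟨i, hi⟩ : ∃ i, v i ≠ 0 := by
    by_contra h
    push Not at h
    exact hv (funext h)
  have hne : M4P.lf v ≠ 0 := by
    intro h
    apply hi
    rw [← ZER_lf_coeff v i, h, coeff_zero]
  apply Irreducible.prime
  apply irreducible_of_totalDegree_eq_one ((ZER_lf_hom v).totalDegree hne)
  intro x hx
  have h1 := hx (Finsupp.single i 1)
  rw [ZER_lf_coeff] at h1
  exact isUnit_of_dvd_unit h1 (isUnit_iff_ne_zero.2 hi)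

/-- the divisors of a product of linear forms -/
theorem ZER_dvd (P : (Fin 3 → ℂ) → Prop) (hP : ∀ v, P v → v ≠ 0) :
    ∀ (l : List (Fin 3 → ℂ)), (∀ v ∈ l, P v) → ∀ F : MvPolynomial (Fin 3) ℂ,
      F ∣ (l.map M4P.lf).prod → ∃ (l' : List (Fin 3 → ℂ)) (c : ℂ), (∀ v ∈ l', P v) ∧ c ≠ 0 ∧
        F = C c * (l'.map M4P.lf).prod := by
  intro l
  induction l with
  | nil =>
    intro _ F hF
    rw [List.map_nil, List.prod_nil] at hF
    obtain ⟨r, hr, hF'⟩ := isUnit_iff_eq_C_of_isReduced.1 (isUnit_of_dvd_one hF)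
    exact ⟨[], r, by simp, hr.ne_zero, by simpa using hF'⟩
  | cons v l ih =>
    intro hl F hF
    have hp := ZER_prime v (hP v (hl v (by simp)))
    have hl' : ∀ w ∈ l, P w := fun w hw => hl w (by simp [hw])
    rw [List.map_cons, List.prod_cons] at hF
    obtain ⟨G, hG⟩ := hF
    have h1 : M4P.lf v ∣ F * G := ⟨_, hG.symm⟩
    rcases hp.dvd_or_dvd h1 with ⟨F', hF'⟩ | ⟨G', hG'⟩
    · have h2 : F' ∣ (l.map M4P.lf).prod := by
        refine ⟨G, ?_⟩
        apply mul_left_cancel₀ hp.ne_zero
        rw [hG, hF', mul_assoc]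
      obtain ⟨l', c, h3, h4, h5⟩ := ih hl' F' h2
      refine ⟨v :: l', c, ?_, h4, ?_⟩
      · intro w hw
        rcases List.mem_cons.1 hw with rfl | hw
        · exact hl w (by simp)
        · exact h3 w hw
      · rw [hF', h5, List.map_cons, List.prod_cons]
        ring
    · have h2 : F ∣ (l.map M4P.lf).prod := by
        refine ⟨G', ?_⟩
        apply mul_left_cancel₀ hp.ne_zero
        rw [hG, hG']
        ring
      exact ih hl' F h2

/-- a form of positive degree has a zero different from `0` -/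
theorem ZER_zero {ρ : ℕ} {Psi : MvPolynomial (Fin 3) ℂ} (hP : Psi.IsHomogeneous ρ)
    (hρ : 1 ≤ ρ) : ∃ m : Fin 3 → ℂ, m ≠ 0 ∧ eval m Psi = 0 := by
  by_contra hno
  push Not at hno
  let f : Polynomial ℂ := aeval ![Polynomial.X, 1, 0] Psi
  let g : Polynomial ℂ := aeval ![1, Polynomial.X, 0] Psi
  have hf : ∀ s : ℂ, f.eval s = eval ![s, 1, 0] Psi := by
    intro s
    have h1 := MvPolynomial.map_aeval ![Polynomial.X, 1, 0] (Polynomial.evalRingHom s) Psi
    have h2 : (Polynomial.evalRingHom s) f = f.eval s := rfl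
    rw [← h2, h1]
    rw [show (Polynomial.evalRingHom s).comp (algebraMap ℂ (Polynomial ℂ)) = RingHom.id ℂ by
      ext; simp]
    show eval _ Psi = _
    congr 2
    funext i
    fin_cases i <;> simp
  have hg : ∀ s : ℂ, g.eval s = eval ![1, s, 0] Psi := by
    intro s
    have h1 := MvPolynomial.map_aeval ![1, Polynomial.X, 0] (Polynomial.evalRingHom s) Psi
    have h2 : (Polynomial.evalRingHom s) g = g.eval s := rfl
    rw [← h2, h1]
    rw [show (Polynomial.evalRingHom s).comp (algebraMap ℂ (Polynomial ℂ)) = RingHom.id ℂ by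
      ext; simp]
    show eval _ Psi = _
    congr 2
    funext i
    fin_cases i <;> simp
  have hf0 : f.degree = 0 := by
    by_contra hd
    obtain ⟨s, hs⟩ := IsAlgClosed.exists_root f hd
    have h1 : eval ![s, 1, 0] Psi = 0 := by rw [← hf]; exact hs
    exact hno _ (by intro h; simpa using congrFun h 1) h1
  have hg0 : g.degree = 0 := by
    by_contra hd
    obtain ⟨s, hs⟩ := IsAlgClosed.exists_root g hd
    have h1 : eval ![1, s, 0] Psi = 0 := by rw [← hg]; exact hs
    exact hno _ (by intro h; simpa using congrFun h 0) h1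
  have hfc := Polynomial.eq_C_of_degree_eq_zero hf0
  have hgc := Polynomial.eq_C_of_degree_eq_zero hg0
  have h1 : f.coeff 0 = eval ![1, 1, 0] Psi := by
    rw [← hf, hfc]; simp
  have h2 : g.coeff 0 = eval ![1, 1, 0] Psi := by
    rw [← hg, hgc]; simp
  have h3 : f.coeff 0 = eval ![1 / 2, 1, 0] Psi := by
    rw [← hf, hfc]; simp
  have h4 : g.coeff 0 = eval ![1, 2, 0] Psi := by
    rw [← hg, hgc]; simp
  have h5 : (![1, 2, 0] : Fin 3 → ℂ) = (2 : ℂ) • ![1 / 2, 1, 0] := by
    funext i
    fin_cases i <;> simp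
  rw [h5, ZER_hom hP, ← h3, h1, h2] at h4
  have h6 : eval ![1, 1, 0] Psi ≠ 0 := hno _ (by intro h; simpa using congrFun h 0)
  have h7 : (2 : ℂ) ^ ρ = 1 := by
    apply mul_right_cancel₀ h6
    rw [one_mul]
    exact h4.symm
  have h8 : ((2 ^ ρ : ℕ) : ℂ) = ((1 : ℕ) : ℂ) := by push_cast; exact h7
  have h9 : (2 : ℕ) ^ ρ = 1 := Nat.cast_injective h8
  have h10 : 2 ^ 1 ≤ 2 ^ ρ := Nat.pow_le_pow_right (by norm_num) hρ
  omega

theorem p_ZER (hF : M4P.FIN) (hH : Stmt_HRZ) : Stmt_ZER := by
  intro d ρ q χ Psi hd hq hqh hχh hq1 hqχ hPh hP0 hρ hres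
  classical
  obtain ⟨V, hV0, hV⟩ := hF d d q χ hq hqh hχh hq1 hqχ
  -- the claim
  have hclaim : ∀ m : Fin 3 → ℂ, m ≠ 0 → eval m Psi = 0 →
      ∃ v ∈ V.filter (fun v => eval v q = 0), ∑ i, v i * m i = 0 := by
    intro m hm hPm
    obtain ⟨a, b, hab⟩ := ZER_crs m hm
    rw [← hab] at hPm
    obtain ⟨s, t, hst, h1, h2⟩ := hH 3 d d q χ a b hd hd hqh hχh (hres a b hPm)
    have hp : (fun j => s * a j + t * b j) ≠ 0 := by
      intro h
      have h3 := ZER_indep a b s t (fun j => congrFun h j) (by rw [hab]; exact hm)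
      rcases hst with h4 | h4
      · exact h4 h3.1
      · exact h4 h3.2
    obtain ⟨v, hv, c, hc⟩ := hV _ hp h1 h2
    have hc0 : c ≠ 0 := by
      rintro rfl
      rw [zero_smul] at hc
      exact hp hc
    refine ⟨v, ?_, ?_⟩
    · rw [Finset.mem_filter]
      refine ⟨hv, ?_⟩
      rw [hc, ZER_hom hqh] at h1
      exact (mul_eq_zero.1 h1).resolve_left (pow_ne_zero _ hc0)
    · apply mul_left_cancel₀ hc0
      rw [mul_zero, Finset.mul_sum]
      have h3 : ∀ i, c * (v i * m i) = (s * a i + t * b i) * m i := by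
        intro i
        have h4 := congrFun hc i
        simp only [Pi.smul_apply, smul_eq_mul] at h4
        rw [h4]
        ring
      rw [Finset.sum_congr rfl (fun i _ => h3 i), ← hab, Fin.sum_univ_three]
      simp only [crs, Matrix.cons_val_zero, Matrix.cons_val_one, Matrix.cons_val]
      ring
  set V' := V.filter (fun v => eval v q = 0) with hV'
  obtain ⟨m₁, hm₁, hPm₁⟩ := ZER_zero hPh hρ
  obtain ⟨v₁, hv₁, _⟩ := hclaim m₁ hm₁ hPm₁
  -- the Nullstellensatz
  have hrad : (∏ v ∈ V', M4P.lf v) ∈ (Ideal.span {Psi}).radical := by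
    rw [← vanishingIdeal_zeroLocus_eq_radical (K := ℂ), mem_vanishingIdeal_iff]
    intro m hm
    have hm1 : eval m Psi = 0 := by
      have := (mem_zeroLocus_iff.1 hm) Psi (Ideal.mem_span_singleton_self Psi)
      rwa [aeval_eq_eval] at this
    rw [aeval_eq_eval, map_prod]
    by_cases h0 : m = 0
    · apply Finset.prod_eq_zero hv₁
      rw [ZER_dot, h0]
      simp
    · obtain ⟨v, hv, h1⟩ := hclaim m h0 hm1
      apply Finset.prod_eq_zero hv
      rw [ZER_dot]
      exact h1
  obtain ⟨n, hn⟩ := hrad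
  have hdvd : Psi ∣ (((List.replicate n V'.toList).flatten).map M4P.lf).prod := by
    have h1 : (((List.replicate n V'.toList).flatten).map M4P.lf).prod =
        (∏ v ∈ V', M4P.lf v) ^ n := by
      rw [← Finset.prod_map_toList]
      clear hn
      induction n with
      | zero => simp
      | succ n ih =>
        rw [List.replicate_succ, List.flatten_cons, List.map_append, List.prod_append, ih,
          pow_succ']
    rw [h1]
    exact Ideal.mem_span_singleton.1 hn
  obtain ⟨l, c, hl, hc, hPsi⟩ := ZER_dvd (fun v => v ≠ 0 ∧ eval v q = 0) (fun v h => h.1) _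
    (by
      intro v hv
      obtain ⟨l, hl, hv⟩ := List.mem_flatten.1 hv
      rw [List.eq_of_mem_replicate hl, Finset.mem_toList, hV', Finset.mem_filter] at hv
      exact ⟨hV0 v hv.1, hv.2⟩) Psi hdvd
  -- the degree
  have hdeg : ∀ l : List (Fin 3 → ℂ), ((l.map M4P.lf).prod).IsHomogeneous l.length := by
    intro l
    induction l with
    | nil => simpa using isHomogeneous_one (Fin 3) ℂ
    | cons v l ih =>
      rw [List.map_cons, List.prod_cons, List.length_cons, add_comm]
      exact (ZER_lf_hom v).mul ih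
  have hlen : ρ = l.length := by
    have h1 : Psi.IsHomogeneous (0 + l.length) := by
      rw [hPsi]
      exact (isHomogeneous_C (Fin 3) c).mul (hdeg l)
    rw [zero_add] at h1
    exact hPh.inj_right h1 hP0
  -- put the constant into the first factor
  obtain ⟨v, l', rfl⟩ : ∃ v l', l = v :: l' := by
    cases l with
    | nil =>
      rw [List.length_nil] at hlen
      omega
    | cons v l' => exact ⟨v, l', rfl⟩
  have hlf : C c * M4P.lf v = M4P.lf (c • v) := by
    unfold M4P.lf
    rw [Finset.mul_sum]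
    apply Finset.sum_congr rfl
    intro i _
    rw [← mul_assoc, ← C_mul]
    rfl
  have hlen2 : ρ = ((c • v) :: l').length := by
    rw [hlen]
    rfl
  subst hlen2
  refine ⟨fun i => ((c • v) :: l')[i.1], ?_, ?_⟩
  · rw [hPsi, List.map_cons, List.prod_cons, ← mul_assoc, hlf]
    have h1 := Fin.prod_univ_getElem (((c • v) :: l').map M4P.lf)
    rw [List.map_cons, List.prod_cons] at h1
    rw [← h1]
    apply Fintype.prod_equiv (finCongr (by simp))
    intro i
    rw [List.getElem_cons, finCongr_apply]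
    simp only [Fin.val_cast]
    rw [List.getElem_cons]
    split_ifs <;> simp
  · intro i
    have h1 := List.getElem_mem (l := (c • v) :: l') i.2
    rcases List.mem_cons.1 h1 with h2 | h2
    · show eval (((c • v) :: l')[i.1]) q = 0
      rw [h2, ZER_hom hqh, (hl v (by simp)).2, mul_zero]
    · exact (hl _ (by simp [h2])).2

end Pool.ThmM.Chow
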