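import Pool.Agent.Work.MP_f82ddf_M.ChowDefs

set_option autoImplicit false

/-! # THEOREM M, part P3a: algebra of the Chow form (blocks)

Block file `Pool/Agent/Work/MP_f82ddf_M/C_X.lean`: import this file, namespace `Pool.ThmM.Chow`,
final theorem `p_X : Stmt_A → Stmt_B → .. → Stmt_X` with the blocks of the column `uses` as
hypotheses, in that order; all other lemmas with the prefix `X_`.  In the column `uses`
`M5.RES` means `Pool.Agent.Work.MP_f82ddf_M5.Stmt_RES`, `M1.GAU` means `Pool.ThmM.Stmt_GAU`,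
`M4.FIN` means `M4P.FIN`.  `K` is always a field (or commutative ring) containing `ℂ`. -/

open Topology Filter
open scoped Differential
open Pool.Agent.Work.MP_f82ddf_nt.DQ

namespace Pool.ThmM.Chow

open MvPolynomial
open Pool.Agent.Work.MP_f82ddf_M5 (lineAt resAt chow at2 comb Data)

/-! ## A. Functoriality -/

/-- FNC (60 lines).  Functoriality of `subC`.  All by `MvPolynomial.ringHom_ext` (compare constants
and variables) and `MvPolynomial.map_map`, `eval₂_map`; (5) because `algebraMap ℂ ℂ` is the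
identity; (6) `IsHomogeneous.eval₂`. -/
def Stmt_FNC : Prop :=
  (∀ (σ τ K L : Type) [CommRing K] [CommRing L] [Algebra ℂ K] [Algebra ℂ L] (φ : K →+* L)
      (g : σ → MvPolynomial τ ℂ) (F : MvPolynomial σ K),
      φ.comp (algebraMap ℂ K) = algebraMap ℂ L → map φ (subC K g F) = subC L g (map φ F)) ∧
  (∀ (σ τ υ K : Type) [CommRing K] [Algebra ℂ K] (g : σ → MvPolynomial τ ℂ)
      (h : τ → MvPolynomial υ ℂ) (F : MvPolynomial σ K),
      subC K h (subC K g F) = subC K (fun i => aeval h (g i)) F) ∧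
  (∀ (σ τ K : Type) [CommRing K] [Algebra ℂ K] (g : σ → MvPolynomial τ ℂ) (Q : MvPolynomial σ ℂ),
      subC K g (map (algebraMap ℂ K) Q) = map (algebraMap ℂ K) (aeval g Q)) ∧
  (∀ (σ τ K B : Type) [CommRing K] [Algebra ℂ K] [CommRing B] (φ : K →+* B)
      (g : σ → MvPolynomial τ ℂ) (p : τ → B) (F : MvPolynomial σ K),
      eval₂ φ p (subC K g F) = eval₂ φ (fun i => eval₂ (φ.comp (algebraMap ℂ K)) p (g i)) F) ∧
  (∀ (σ τ : Type) (g : σ → MvPolynomial τ ℂ) (F : MvPolynomial σ ℂ), subC ℂ g F = aeval g F) ∧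
  (∀ (σ τ K : Type) [CommRing K] [Algebra ℂ K] (g : σ → MvPolynomial τ ℂ) (F : MvPolynomial σ K)
      (m n : ℕ), F.IsHomogeneous m → (∀ i, (g i).IsHomogeneous n) →
      (subC K g F).IsHomogeneous (n * m))

/-- FCH (60 lines), uses M5.FUN FNC.  The Chow form `Phi`.
(1) change of `K`: M5.FUN (6) and `map φ (comb ..) = comb ..`.
(2) over `ℂ`.
(3) substitution of points with polynomial coordinates: `subC K (ppt a b)` is
`at2 C (map a) (map b)`; M5.FUN (5) with `φ = C`.
(4) value at a numerical pair of points: M5.FUN (5) with `φ = id`.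
(5) restriction to a plane, in terms of the numerical resultant: `lineAt` of `qp u e θ Q` at `a, b`
is `lineAt` of `Q` at the points `a_0 u + a_1 e + a_2 θ` and `b_0 u + b_1 e + b_2 θ` (compare on
the variables). -/
def Stmt_FCH : Prop :=
  (∀ (N r d : ℕ) (K L : Type) [CommRing K] [CommRing L] [Algebra ℂ K] [Algebra ℂ L] (φ : K →+* L)
      (Q : MvPolynomial (Fin N) ℂ) (A : Fin (r + 1) → MvPolynomial (Fin N) ℂ)
      (x : Fin (r + 1) → K), φ.comp (algebraMap ℂ K) = algebraMap ℂ L →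
      map φ (Phi K d Q A x) = Phi L d Q A (fun i => φ (x i))) ∧
  (∀ (N r d : ℕ) (Q : MvPolynomial (Fin N) ℂ) (A : Fin (r + 1) → MvPolynomial (Fin N) ℂ)
      (x : Fin (r + 1) → ℂ), Phi ℂ d Q A x = chow d d Q (comb (RingHom.id ℂ) A x)) ∧
  (∀ (N r d : ℕ) (τ K : Type) [CommRing K] [Algebra ℂ K]
      (Q : MvPolynomial (Fin N) ℂ) (A : Fin (r + 1) → MvPolynomial (Fin N) ℂ)
      (x : Fin (r + 1) → K) (a b : Fin N → MvPolynomial τ ℂ),
      subC K (ppt a b) (Phi K d Q A x) =
        resAt C (map (algebraMap ℂ K) Q) (comb (algebraMap ℂ K) A x)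
          (fun j => map (algebraMap ℂ K) (a j)) (fun j => map (algebraMap ℂ K) (b j)) d d) ∧
  (∀ (N r d : ℕ) (Q : MvPolynomial (Fin N) ℂ) (A : Fin (r + 1) → MvPolynomial (Fin N) ℂ)
      (x : Fin (r + 1) → ℂ) (a b : Fin N → ℂ),
      eval (ppt a b) (Phi ℂ d Q A x) =
        resAt (RingHom.id ℂ) Q (comb (RingHom.id ℂ) A x) a b d d) ∧
  (∀ (N d : ℕ) (Q G : MvPolynomial (Fin N) ℂ) (u e θ : Fin N → ℂ) (a b : Fin 3 → ℂ),
      resAt (RingHom.id ℂ) (qp u e θ Q) (qp u e θ G) a b d d =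
        resAt (RingHom.id ℂ) Q G (fun j => u j * a 0 + e j * a 1 + θ j * a 2)
          (fun j => u j * b 0 + e j * b 1 + θ j * b 2) d d)

/-! ## B. The Chow form is of Pluecker type -/

/-- RFL (60 lines).  Resultant of the reversed polynomials: the same up to a sign which depends only
on the formal degrees.  PROOF.  The Sylvester matrix of the reversed polynomials is the Sylvester
matrix of `f`, `g` with the rows reversed and the columns reversed inside each of the two blocks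
(`g.reflect n` has the coefficient `g.coeff (n - i)` at `i ≤ n`, and
`(m + n - 1 - i) - (m - 1 - j) = n - (i - j)`): a `submatrix` by two permutations of
`Fin (m + n)`.  `Matrix.det_permute`, `Matrix.det_permute'`: `ε m n` is the product of the two
signs. -/
def Stmt_RFL : Prop :=
  ∃ ε : ℕ → ℕ → ℤ, (∀ m n, ε m n * ε m n = 1) ∧
    ∀ (R : Type) [CommRing R] (f g : Polynomial R) (m n : ℕ),
      (f.reflect m).resultant (g.reflect n) m n = (ε m n : R) * f.resultant g m n

/-- RTS (90 lines).  (1) Taylor shift with formal degrees: `Polynomial.resultant_taylor` for the true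
degrees; `taylor` keeps `natDegree` and the coefficient of `X ^ m` for `m ≥ natDegree`; both sides
are reduced to the true degrees by `resultant_add_left_deg` and `resultant_add_right_deg`.
(2) Scaling of the roots.  `diag(c ^ i) * S' = S * diag(c ^ (n + j) or c ^ (m + j))` for the
Sylvester matrices (`c ^ i * c ^ (n - (i - j)) = c ^ (n + j)`), so
`c ^ (∑_(i < m + n) i) * res' = c ^ (2 m n + ∑_(j < m) j + ∑_(j < n) j) * res`, and
`∑_(i < m + n) i = m n + ∑_(j < m) j + ∑_(j < n) j`.  This proves (2) if `c` is not a zero divisor;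
in general work over `R[T]` with `c = T` (and the polynomials `∑ T ^ (m - i) f_i X ^ i`), then
put `T = c` (`resultant_map_map`; only the coefficients up to `m` and `n` matter). -/
def Stmt_RTS : Prop :=
  (∀ (R : Type) [CommRing R] (f g : Polynomial R) (m n : ℕ) (c : R), f.natDegree ≤ m →
      g.natDegree ≤ n →
      (Polynomial.taylor c f).resultant (Polynomial.taylor c g) m n = f.resultant g m n) ∧
  (∀ (R : Type) [CommRing R] (f f' g g' : Polynomial R) (m n : ℕ) (c : R),
      (∀ i ≤ m, f'.coeff i = c ^ (m - i) * f.coeff i) →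
      (∀ i ≤ n, g'.coeff i = c ^ (n - i) * g.coeff i) →
      f'.resultant g' m n = c ^ (m * n) * f.resultant g m n)

/-- LNH (80 lines), uses M5.DEG.  The polynomial `F (s a + b)`.
(1) exchange of the points is reversal.  For a monomial of degree `d` the polynomial is a product of
`d` linear polynomials `a_i s + b_i`; `Polynomial.reflect_mul`, `reflect 1 (a s + b) = b s + a`;
then linearity (`F` is the sum of its monomials, all of degree `d`).
(2) `F (s a + b + c a) = F ((s + c) a + b)`: both sides are ring homomorphisms in `F`.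
(3) for a form: monomials again (or (1) twice: `F (c s a + b)` has the coefficients
`c ^ i * coeff i`). -/
def Stmt_LNH : Prop :=
  (∀ (N d : ℕ) (R B : Type) [CommRing R] [CommRing B] (φ : R →+* B) (F : MvPolynomial (Fin N) R)
      (a b : Fin N → B), F.IsHomogeneous d → lineAt φ F b a = (lineAt φ F a b).reflect d) ∧
  (∀ (N : ℕ) (R B : Type) [CommRing R] [CommRing B] (φ : R →+* B) (F : MvPolynomial (Fin N) R)
      (a b : Fin N → B) (c : B),
      lineAt φ F a (fun j => b j + c * a j) = Polynomial.taylor c (lineAt φ F a b)) ∧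
  (∀ (N d : ℕ) (R B : Type) [CommRing R] [CommRing B] (φ : R →+* B) (F : MvPolynomial (Fin N) R)
      (a b : Fin N → B) (c : B), F.IsHomogeneous d → ∀ i ≤ d,
      (lineAt φ F a (fun j => c * b j)).coeff i = c ^ (d - i) * (lineAt φ F a b).coeff i)

/-- CHP (60 lines), uses M5.FUN M5.DEG RFL RTS LNH.  The Chow form is of Pluecker type.  PROOF.
`at2 φ a b (chow d D F G) = resAt φ F G a b d D =: ρ(a, b)` (M5.FUN (5)).
`ρ(a, b + c a) = ρ(a, b)`: LNH (2), RTS (1), degrees from M5.DEG (1).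
`ρ(a, c b) = c ^ (d * D) ρ(a, b)`: LNH (3), RTS (2).
`ρ(b, a) = ε ρ(a, b)`: LNH (1), RFL.  So `ρ(a + c b, b) = ε ρ(b, a + c b) = ε ρ(b, a) =
ε ε ρ(a, b)`, and `ρ(c a, b)` in the same way. -/
def Stmt_CHP : Prop :=
  ∀ (N d D : ℕ) (R : Type) [CommRing R] (F G : MvPolynomial (Fin N) R),
    F.IsHomogeneous d → G.IsHomogeneous D → PluF (d * D) (chow d D F G)

/-- PGL (70 lines).  A polynomial of Pluecker type is multiplied by the `ρ`-th power of the
determinant under linear substitutions.  PROOF.  First let `p` be invertible, `p p' = 1`,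
`A = p a + q b`, `s' = s - q r p'`.  Then `r a + s b = s' b + (r p') A`, so
`F(A, r a + s b) = F(A, s' b) = s' ^ ρ F(A, b) = s' ^ ρ F(p a, b) = (s' p) ^ ρ F(a, b)`, and
`s' p = p s - q r`.  In general apply this in the localisation of `B[T]` at the powers of `T + p`
with `T + p` in place of `p`; `T + p` is monic, so it is not a zero divisor and `B[T]` is contained
in the localisation (`IsLocalization.injective` with `powers ≤ nonZeroDivisors`,
`Polynomial.Monic.mem_nonZeroDivisors`).  This gives the identity in `B[T]`; put `T = 0`. -/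
def Stmt_PGL : Prop :=
  ∀ (N ρ : ℕ) (R : Type) [CommRing R] (F : MvPolynomial (Fin 2 × Fin N) R), PluF ρ F →
    ∀ (B : Type) [CommRing B] (φ : R →+* B) (a b : Fin N → B) (p q r s : B),
      at2 φ (fun j => p * a j + q * b j) (fun j => r * a j + s * b j) F =
        (p * s - q * r) ^ ρ * at2 φ a b F

/-- PLW (50 lines).  A polynomial of Pluecker type is homogeneous in `b₁` and in `b₂`.  PROOF.  Take
`B = (MvPolynomial (Fin 2 × Fin N) R)[T]`, `φ = C ∘ C`, `a`, `b` the variables, `c = T`: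
`∑ F_α T ^ (degree of α in b₁) X ^ α = T ^ ρ ∑ F_α X ^ α`; compare coefficients. -/
def Stmt_PLW : Prop :=
  ∀ (N ρ : ℕ) (R : Type) [CommRing R] (F : MvPolynomial (Fin 2 × Fin N) R), PluF ρ F →
    ∀ i : Fin 2, IsWeightedHomogeneous (wb i) F ρ

/-- WHF (60 lines).  A factor of a weighted homogeneous polynomial over a domain is weighted
homogeneous (`IsHomogeneous` is the case of the weights `1`).  PROOF.  The ring homomorphism
`h : X_i ↦ X_i T ^ (wt i)` to `(MvPolynomial σ K)[T]` maps `F * G` to `C (F * G) * T ^ n`.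
`natDegree` and `natTrailingDegree` are additive in a domain
(`Polynomial.natDegree_mul`, `Polynomial.natTrailingDegree_mul`), so
`natDegree (h F) + natDegree (h G) = n = natTrailingDegree (h F) + natTrailingDegree (h G)`, and
both are equal: `h F` is a monomial `C F' * T ^ a`; put `T = 1`: `F' = F`. -/
def Stmt_WHF : Prop :=
  ∀ (σ K : Type) [CommRing K] [IsDomain K] (wt : σ → ℕ) (F G : MvPolynomial σ K) (n : ℕ),
    F * G ≠ 0 → IsWeightedHomogeneous wt (F * G) n →
    ∃ a b : ℕ, a + b = n ∧ IsWeightedHomogeneous wt F a ∧ IsWeightedHomogeneous wt G b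

/-- PFA (180 lines), uses PLW WHF.  Factors of a polynomial of Pluecker type over a field are of
Pluecker type.  PROOF.  `S = K[b]`.  INVARIANCE.  Let `τ : S → S[T]` be the substitution
`b₁ ↦ b₁ + T b₂`, `b₂ ↦ b₂`, and `τ' : S[T] → S[T]` its extension by `T ↦ T`, an automorphism
(inverse `b₁ ↦ b₁ - T b₂`).  For `F = P * G` we have `τ F = C F` (`PluF` with `B = S[T]`).  Let
`P₁` be an irreducible factor of `F`; it is prime, so `C P₁` is prime in `S[T]`
(`Polynomial.prime_C_iff`) and so is `τ P₁ = τ' (C P₁)`.  It divides `C F`, a product of the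
irreducible elements `C P_i` (`P_i` the irreducible factors of `F`), so it is associated to one of
them: `C P_i = τ P₁ * unit`, and the units of `S[T]` are the nonzero constants of `K`.  Put `T = 0`:
`P_i = κ P₁`.  So `τ P₁ = C P₁`.  `P` is a unit times a product of such `P₁`, so `τ P = C P`; the
invariance for all `B` follows by the homomorphism `S[T] → B` given by `φ`, `a`, `b`, `T ↦ c`.  The
same for `b₂ ↦ b₂ + T b₁`.
HOMOGENEITY.  By PLW and WHF `P` is homogeneous in `b₁`, of degree `m ≤ ρ`, and in `b₂`, of degree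
`n ≤ ρ`, which gives the last two properties with `c ^ m` and `c ^ n`.  `m = n`: by the invariance
`P(a, b) = P(a + b, b) = P(a + b, - a) = P(b, - a)` (`B = S[T]`, `a`, `b` the variables), so
`T ^ m P = P(T a, b) = P(b, - T a) = T ^ n P(b, - a) = T ^ n P`, and `P ≠ 0`. -/
def Stmt_PFA : Prop :=
  ∀ (N ρ : ℕ) (K : Type) [Field K] (P G : MvPolynomial (Fin 2 × Fin N) K), P * G ≠ 0 →
    PluF ρ (P * G) → ∃ ρ' : ℕ, ρ' ≤ ρ ∧ PluF ρ' P

/-- PLS (40 lines).  Restriction to a plane keeps the Pluecker type: `at2 φ a b` of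
`subC K (gP u e θ) F` is `at2 φ (Πa) (Πb) F` with `Π` linear over `B`. -/
def Stmt_PLS : Prop :=
  ∀ (N ρ : ℕ) (K : Type) [CommRing K] [Algebra ℂ K] (F : MvPolynomial (Fin 2 × Fin N) K)
    (u e θ : Fin N → ℂ), PluF ρ F → PluF ρ (subC K (gP u e θ) F)

/-- PSI (150 lines), uses PGL.  A polynomial of Pluecker type in two points of 3-space is a form in
the cross product.  PROOF.  Let `H₂(m) = G((m_2, 0, - m_0), (0, m_2, - m_1)) ∈ K[m]`
(`= subC K gD G`) and `H₀(m) = G((- m_1, m_0, 0), (- m_2, 0, m_0))`.  For `m = a × b` one has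
`(m_2, 0, - m_0) = b_1 a - a_1 b`, `(0, m_2, - m_1) = - b_0 a + a_0 b`, of determinant
`b_1 a_0 - a_1 b_0 = m_2`, and `(- m_1, m_0, 0) = b_2 a - a_2 b`,
`(- m_2, 0, m_0) = - b_1 a + a_1 b`, of determinant `a_1 b_2 - a_2 b_1 = m_0`.  So PGL gives, in
`K[a, b]`, `H₂(a × b) = m_2 ^ ρ G(a, b)` and `H₀(a × b) = m_0 ^ ρ G(a, b)`, hence
`m_0 ^ ρ H₂ = m_2 ^ ρ H₀` after the substitution `m = a × b`.  This substitution
`K[m] → K[a, b]` is injective: followed by `a = (m_2, 0, - m_0)`, `b = (0, m_2, - m_1)` it becomes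
`m ↦ m_2 m`, and `∑ f_k ↦ ∑ m_2 ^ k f_k` (`f_k` the homogeneous components, `m_2 ^ k f_k` has
degree `2 k`).  So
`m_0 ^ ρ H₂ = m_2 ^ ρ H₀` in `K[m]`, and `m_2 ^ ρ ∣ H₂` (`X 0`, `X 2` are non associated primes):
`H₂ = m_2 ^ ρ Psi`.  `H₂` is homogeneous of degree `2 ρ`, so `Psi` is homogeneous of degree `ρ`.
`m_2 ^ ρ Psi(a × b) = m_2 ^ ρ G(a, b)`, so `G = Psi(a × b)`. -/
def Stmt_PSI : Prop :=
  ∀ (ρ : ℕ) (K : Type) [Field K] [Algebra ℂ K] (G : MvPolynomial (Fin 2 × Fin 3) K), PluF ρ G →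
    ∃ Psi : MvPolynomial (Fin 3) K, Psi.IsHomogeneous ρ ∧ G = subC K gC Psi ∧
      subC K gD G = X 2 ^ ρ * Psi

/-- NZE (80 lines), uses M5.FUN M5.DEG M5.RES M5.PRI CHP PGL FNC.  If `Q(e) ≠ 0` the Chow form does
not vanish identically for `b₂ = e`.  PROOF.  M5.PRI with `τ = Fin 0`, `a_i = C (e_i)`:
`f = Q (s e + b₂)` is prime in `ℂ[b₂][s]`, and does not divide `G (s e + b₂)`; by M5.DEG its degree
in `s` is exactly `d` (coefficient `Q(e) ≠ 0` of `s ^ d`), `d > 0` because `Q` is not a constant.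
M5.RES: the resultant is not `0` in `MvPolynomial (Fin 0 ⊕ Fin N) ℂ`, hence (M5.FUN (3)) not in
`MvPolynomial (Fin N) ℂ`: `chow(e, b₂) ≠ 0`.  By CHP and PGL with `p = s = 0`, `q = r = 1`:
`chow(b₁, e) = (-1) ^ (d D) chow(e, b₁) ≠ 0`. -/
def Stmt_NZE : Prop :=
  ∀ (N d D : ℕ) (Q G : MvPolynomial (Fin N) ℂ) (e : Fin N → ℂ), Irreducible Q →
    Q.IsHomogeneous d → G.IsHomogeneous D → ¬ Q ∣ G → eval e Q ≠ 0 →
    subC ℂ (gE e) (chow d D Q G) ≠ 0

/-! ## C. Tools -/

/-- MIN (60 lines).  An injective matrix over a domain has a left inverse up to a nonzero factor.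
PROOF.  Over the fraction field `L` the matrix is still injective (clear the denominators of a
vector of the kernel), so it has a left inverse over `L`
(`LinearMap.exists_leftInverse_of_injective`, or `Matrix` version); clear its denominators
(`IsLocalization.exist_integer_multiples_of_finset`, `IsFractionRing`). -/
def Stmt_MIN : Prop :=
  ∀ (S ι κ : Type) [CommRing S] [IsDomain S] [Fintype ι] [Fintype κ] [DecidableEq ι]
    (L : Matrix κ ι S), (∀ v : ι → S, L.mulVec v = 0 → v = 0) →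
    ∃ (D : Matrix ι κ S) (h : S), h ≠ 0 ∧ D * L = h • (1 : Matrix ι ι S)

/-- NVC (15 lines).  A nonzero polynomial over a field `K ⊇ ℂ` does not vanish at all complex
points: `MvPolynomial.funext_set` with the infinite set `Set.range (algebraMap ℂ K)`. -/
def Stmt_NVC : Prop :=
  ∀ (σ K : Type) [Finite σ] [Field K] [Algebra ℂ K] (H : MvPolynomial σ K), H ≠ 0 →
    ∃ p : σ → ℂ, eval (fun i => algebraMap ℂ K (p i)) H ≠ 0

/-- BAI (70 lines).  Countably many nonzero polynomials do not vanish at a common point.  PROOF.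
Enumerate: it is enough to treat a sequence `g_i` of nonzero polynomials (`Set.Countable`, add `G`).
Induction on `N`; `N = 0`: nonzero constants.  `N + 1`: `MvPolynomial.finSuccEquiv` turns `g_i` into
a nonzero polynomial in one variable over `MvPolynomial (Fin N) ℂ`; let `h_i` be a nonzero
coefficient of it.  Choose `θ'` with `h_i(θ') ≠ 0` for all `i`; the polynomials `g_i(·, θ')` in one
variable are not `0`, each has finitely many roots, and `ℂ` is not countable. -/
def Stmt_BAI : Prop :=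
  ∀ (N : ℕ) (Z : Set ℂ) (g : ℂ → MvPolynomial (Fin N) ℂ) (G : MvPolynomial (Fin N) ℂ),
    Z.Countable → (∀ z ∈ Z, g z ≠ 0) → G ≠ 0 →
    ∃ θ : Fin N → ℂ, eval θ G ≠ 0 ∧ ∀ z ∈ Z, eval θ (g z) ≠ 0

/-- COU (70 lines).  The count at the end.  PROOF.  Let `s a = (a + w).choose w`,
`λ = (4 b - 1) / (4 b - 2) > 1`.  If the claim is false for all `a`, then `s (a + q) ≥ λ s a` for
all `a`, so `s (j q) ≥ λ ^ j` for all `j` (`s 0 = 1`); but `s (j q) ≤ (j q + w) ^ w`
(`Nat.choose_le_pow`), a contradiction for large `j`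
(`tendsto_pow_const_div_const_pow_of_one_lt`).  (For `q = 0` the claim is clear: `s a > 0`.) -/
def Stmt_COU : Prop :=
  ∀ w b q : ℕ, 1 ≤ b → ∃ a : ℕ,
    (2 * b - 1) * (2 * (a + q + w).choose w) < (4 * b - 1) * (a + w).choose w

/-- HRZ (70 lines), uses M5.DEG.  If the resultant on a line vanishes, the two forms have a common
zero on the line.  PROOF.  `f = lineAt F`, `g = lineAt G`; the coefficient of `s ^ m` in `f` is
`F(a)`, that of `s ^ n` in `g` is `G(a)` (M5.DEG).  If both are `0`: `(1, 0)`.  If `F(a) ≠ 0`, then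
`f.natDegree = m`, and `resultant_add_right_deg` shows that the resultant with true degrees is `0`
too; so `f`, `g` are not coprime (`Polynomial.resultant_eq_zero_iff`), and have a common root `s`
(`f ≠ 0`; a common factor which is not a unit has a root): `(s, 1)`; `f(s) = F(s a + b)`.  If
`G(a) ≠ 0`: the same after `resultant_comm`. -/
def Stmt_HRZ : Prop :=
  ∀ (N m n : ℕ) (F G : MvPolynomial (Fin N) ℂ) (a b : Fin N → ℂ), 1 ≤ m → 1 ≤ n →
    F.IsHomogeneous m → G.IsHomogeneous n → resAt (RingHom.id ℂ) F G a b m n = 0 →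
    ∃ s t : ℂ, (s ≠ 0 ∨ t ≠ 0) ∧ eval (fun j => s * a j + t * b j) F = 0 ∧
      eval (fun j => s * a j + t * b j) G = 0

/-- ZER (180 lines), uses M4.FIN HRZ.  A form `Psi` in the dual plane which vanishes only at lines
on which `q` and `χ` have a common zero is a product of linear forms `lf t` with `q(t) = 0`.
PROOF.  Let `V` be the finite set of M4.FIN (with `H = χ`, `e = d`) and
`V' = {v ∈ V | q(v) = 0}`.  CLAIM: for `m ≠ 0` with `Psi(m) = 0` there is `v ∈ V'` with
`v·m = 0`.  Choose `a`, `b` with `a × b = m` (e.g. if `m_2 ≠ 0`: `a = (m_2, 0, - m_0)`,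
`b = (0, 1, - m_1 / m_2)`; cyclically otherwise); they are independent.  The resultant vanishes, so
by HRZ there is `t = s a + s' b ≠ 0` with `q(t) = χ(t) = 0`, so `t = c v`, `v ∈ V`, `c ≠ 0`, and
`q(v) = 0`; `t·m = 0` gives `v·m = 0`.
`V' ≠ ∅`: there is `m ≠ 0` with `Psi(m) = 0`, namely `(1, 0, 0)` if `Psi(1, 0, 0) = 0`, and
otherwise `(s, 1, 0)` with a root `s` of the polynomial `Psi(X, 1, 0)`, which has degree `ρ ≥ 1`.
So `L = ∏_(v ∈ V') lf v` vanishes at all zeros of `Psi` (also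
at `m = 0`), and by the Nullstellensatz (`MvPolynomial.vanishingIdeal_zeroLocus_eq_radical`)
`Psi ∣ L ^ M`.  The `lf v`, `v ≠ 0`, are irreducible (linear forms), so by unique factorisation
`Psi = C c * ∏_(i < n) lf (v_i)`, `v_i ∈ V'`, `c ≠ 0`; `n = ρ` by the degree.  `ρ ≥ 1`: put the
constant into the first factor (`C c * lf v = lf (c • v)`, `q(c v) = c ^ d q(v) = 0`). -/
def Stmt_ZER : Prop :=
  ∀ (d ρ : ℕ) (q χ Psi : MvPolynomial (Fin 3) ℂ), 1 ≤ d → Irreducible q → q.IsHomogeneous d →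
    χ.IsHomogeneous d → eval ![0, 1, 0] q ≠ 0 → ¬ q ∣ χ → Psi.IsHomogeneous ρ → Psi ≠ 0 → 1 ≤ ρ →
    (∀ a b : Fin 3 → ℂ, eval (crs a b) Psi = 0 → resAt (RingHom.id ℂ) q χ a b d d = 0) →
    ∃ t : Fin ρ → Fin 3 → ℂ, Psi = ∏ i, M4P.lf (t i) ∧ ∀ i, eval (t i) q = 0

/-- CPS (200 lines), uses WHF MIN.  Specialisation of coprimality.  `R` and `R'` are homogeneous of
degree `ρ` in `b₁` and relatively prime in `K[b₁, b₂]`.  Then `R(b₁, e)` and `R'(b₁, e)` are
relatively prime for all numerical `e` outside of a hypersurface.  PROOF.  Let `S = K[b₂]` and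
consider the `S`-linear map `(A, B) ↦ A R + B R'` from pairs of forms of degree `ρ - 1` in `b₁` over
`S` to forms of degree `2 ρ - 1`, a matrix `L` over `S` with index sets: the exponents of degree
`ρ - 1` in `N` variables (twice), the exponents of degree `2 ρ - 1`.  It is injective: if
`A R + B R' = 0` then `R ∣ B R'`, so `R ∣ B` (`IsRelPrime`, unique factorisation), and
`B = 0` because its degree in `b₁` is `ρ - 1 < ρ`; then `A = 0`.  MIN: `D L = H • 1`, `H ≠ 0`.  Let
`H(e) ≠ 0`.  Then the matrix `L(e)` is injective over `K`: `A R_e + B R'_e = 0` implies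
`A = B = 0` for forms `A`, `B` of degree `ρ - 1`.  In particular `R_e ≠ 0` (`N ≥ 1` and `ρ ≥ 1`, so
there is a form of degree `ρ - 1`, not `0`) and `R'_e ≠ 0`.  Let `π` be a common factor of `R_e`,
`R'_e`, not a unit.  `π` is a form of degree `δ ≥ 1` (WHF with weights `1`), `R_e = π R₁`,
`R'_e = π R₂` with forms `R₁ ≠ 0`, `R₂` of degree `ρ - δ`; with the monomial
`M = X_0 ^ (δ - 1)`: `(M R₂) R_e - (M R₁) R'_e = 0`, a contradiction. -/
def Stmt_CPS : Prop :=
  ∀ (N ρ : ℕ) (K : Type) [Field K] [Algebra ℂ K] (R R' : MvPolynomial (Fin 2 × Fin N) K), 1 ≤ ρ →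
    IsWeightedHomogeneous (wb 0) R ρ → IsWeightedHomogeneous (wb 0) R' ρ → R ≠ 0 →
    IsRelPrime R R' →
    ∃ H : MvPolynomial (Fin N) K, H ≠ 0 ∧ ∀ e : Fin N → ℂ,
      eval (fun j => algebraMap ℂ K (e j)) H ≠ 0 →
      subC K (gE e) R ≠ 0 ∧ IsRelPrime (subC K (gE e) R) (subC K (gE e) R')

/-- PRJ (100 lines), uses FNC.  Projection from `e`, `e_(w+1) ≠ 0`.  PROOF.  (2) In the ring
`B = K[b₁]`: `R(b₁, e) = R(b₁ + c e, e)` with `c = - b_(1,w+1) / e_(w+1)` (`PluF` with
`φ = C`, `a = X`, `b = C ∘ e`), and the point `b₁ + c e` has last coordinate `0` and first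
coordinates `gQ e`.  (1) `F(T X) = T ^ ρ F(X)` in `K[X][T]` for `F = subC K (gF e) R`
(`PluF` with `B = K[X][T]`, `c = T`).  (3) substitutions (FNC (2)).  (4) the value of (2) at `p`. -/
def Stmt_PRJ : Prop :=
  ∀ (w ρ : ℕ) (K : Type) [Field K] [Algebra ℂ K] (R : MvPolynomial (Fin 2 × Fin (w + 2)) K)
    (e : Fin (w + 2) → ℂ), PluF ρ R → e (Fin.last (w + 1)) ≠ 0 →
    (subC K (gF e) R).IsHomogeneous ρ ∧
    subC K (gQ e) (subC K (gF e) R) = subC K (gE e) R ∧
    (∀ G : MvPolynomial (Fin (w + 1)) K, subC K (gZ w) (subC K (gQ e) G) = G) ∧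
    ∀ p : Fin (w + 2) → ℂ,
      eval (fun j => algebraMap ℂ K (prj e p j)) (subC K (gF e) R) =
        eval (fun j => algebraMap ℂ K (ppt p e j)) R

/-- NVH (70 lines).  The projected nodes are in general position.  PROOF.  Let `G` vanish at all
`prj e p`, `p ∈ S`, and `f = aeval (gQ e) G`, a form of degree `m`, with `f(p) = G(prj e p)`.  So
`Q ∣ f`, `f = Q H`.  Fix `p`.  As polynomials in `t`: `f(p + t e) = f(p)` is a constant
(`prj e (p + t e) = prj e p`), `Q(p + t e)` has degree `d ≥ 1` (the coefficient of `t ^ d` is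
`Q(e) ≠ 0`), so `H(p + t e) = 0` and `f(p) = 0`.  So `f = 0` (`MvPolynomial.funext`) and
`G = aeval (gZ w) f = 0`. -/
def Stmt_NVH : Prop :=
  ∀ (w d m : ℕ) (Q : MvPolynomial (Fin (w + 2)) ℂ) (S : Set (Fin (w + 2) → ℂ))
    (e : Fin (w + 2) → ℂ), 1 ≤ d → Q.IsHomogeneous d → eval e Q ≠ 0 →
    e (Fin.last (w + 1)) ≠ 0 →
    (∀ f : MvPolynomial (Fin (w + 2)) ℂ, f.IsHomogeneous m → (∀ p ∈ S, eval p f = 0) → Q ∣ f) →
    ∀ G : MvPolynomial (Fin (w + 1)) ℂ, G.IsHomogeneous m → (∀ p ∈ S, eval (prj e p) G = 0) →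
      G = 0

/-! ## D. A generic plane section is irreducible -/

/-- NWT (40 lines).  Newton approximation of a root.  PROOF.  Induction on `b`; `b = 0, 1`: `η = 0`
(`b = 1`: `P(0) = P.coeff 0` has constant coefficient `0`).  Step, `b ≥ 1`: `η' = η + C c * X ^ b`,
`P(η') ≡ P(η) + c X ^ b P'(η)` modulo `X ^ (b + 1)`; the constant coefficient of `P'(η)` is
`(P.coeff 1).coeff 0` because `η.coeff 0 = 0`, a unit; choose `c`.  (M4P.ETA is the case
`S = ℂ`; the file `MP_f82ddf_M4/B_ETA.lean` can be copied.) -/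
def Stmt_NWT : Prop :=
  ∀ (S : Type) [CommRing S] (P : Polynomial (Polynomial S)) (b : ℕ), (P.coeff 0).coeff 0 = 0 →
    IsUnit ((P.coeff 1).coeff 0) →
    ∃ η : Polynomial S, η.coeff 0 = 0 ∧ (Polynomial.X : Polynomial S) ^ b ∣ P.eval η

/-- `Q(u + Y e + Z θ)` as a polynomial in `Y` over `ℂ[θ][Z]`, `θ = (X_0, .., X_(N-1))`. -/
noncomputable def PQ {N : ℕ} (u e : Fin N → ℂ) (Q : MvPolynomial (Fin N) ℂ) :
    Polynomial (Polynomial (MvPolynomial (Fin N) ℂ)) :=
  aeval (fun j => Polynomial.C (Polynomial.C (C (u j))) +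
    Polynomial.C (Polynomial.C (C (e j))) * Polynomial.X +
    Polynomial.C (Polynomial.X * Polynomial.C (X j))) Q

/-- IRA (150 lines), uses M5.RES.  PROOF.  `S = ℂ[θ]`, `P = PQ u e Q`, `b = 2 d ^ 2`; `d ≥ 1`.
Suppose `Z ^ b ∣ P(η)` and `Z ^ b ∣ A(η)`.  Let `ρ` be the resultant of `P`, `A` with formal
degrees `d`, `d - 1`, an element of `S[Z]`.
(a) `ρ ≠ 0`.  Choose `λ ∈ ℂ`, `λ ≠ 0`, such that the specialisation `A_λ ∈ S[Y]` of `A` at
`Z = λ` is not `0` (some coefficient of `A` is a nonzero polynomial in `Z` over the domain `S` and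
has finitely many roots).  `P_λ = Q(u + Y e + λ θ)` is prime in `S[Y]`: `Q` is prime in `ℂ[θ]`, `C Q`
is prime in `ℂ[θ][Y]`, and `θ_j ↦ u_j + e_j Y + λ θ_j`, `Y ↦ Y` is an automorphism of `ℂ[θ][Y]`
(inverse `θ_j ↦ (θ_j - u_j - e_j Y) / λ`).  The coefficient of `Y ^ d` in `P_λ` is `Q(e) ≠ 0` and
`natDegree P_λ = d`; `natDegree A_λ ≤ d - 1 < d`, so `P_λ` does not divide `A_λ`.  M5.RES: the
resultant of `P_λ`, `A_λ` is not `0`; it is the specialisation of `ρ` (`resultant_map_map`).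
(b) `Z ^ b ∣ ρ`: `Polynomial.exists_mul_add_mul_eq_C_resultant` at `Y = η`.
(c) the degree of `ρ` in `Z` is at most `d (2 d - 1) < b`: the entries of the Sylvester matrix are
coefficients of `P` or `A`, of degree `≤ d` in `Z` (`Matrix.det_apply`,
`Polynomial.natDegree_sum_le_of_forall_le`, `natDegree_prod_le`); for `P`: `Q` has total degree
`≤ d` and every factor `u_j + e_j Y + Z θ_j` has degree `≤ 1` in `Z`.
So `ρ = 0`, a contradiction. -/
def Stmt_IRA : Prop :=
  ∀ (N d : ℕ) (Q : MvPolynomial (Fin N) ℂ) (u e : Fin N → ℂ), Irreducible Q →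
    Q.IsHomogeneous d → eval e Q ≠ 0 →
    ∀ A : Polynomial (Polynomial (MvPolynomial (Fin N) ℂ)), A ≠ 0 → A.natDegree < d →
      (∀ i, (A.coeff i).natDegree ≤ d) →
      ∀ η : Polynomial (MvPolynomial (Fin N) ℂ),
        (Polynomial.X : Polynomial (MvPolynomial (Fin N) ℂ)) ^ (2 * d ^ 2) ∣ (PQ u e Q).eval η →
        ¬ (Polynomial.X : Polynomial (MvPolynomial (Fin N) ℂ)) ^ (2 * d ^ 2) ∣ A.eval η

/-- IRR (220 lines), uses WHF MIN NWT IRA.  Irreducibility of the plane section for all `θ` outside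
of a hypersurface.  PROOF.  `S = ℂ[θ]`, `P = PQ u e Q`, `b = 2 d ^ 2`, `d ≥ 1`.
`(P.coeff 0).coeff 0 = Q(u) = 0` and `(P.coeff 1).coeff 0 = ∑ e_j ∂_j Q(u)`, a nonzero complex
number; NWT: `η ∈ S[Z]`.  Let `L` be the matrix over `S` with the columns `(j, i)`,
`j < d`, `i ≤ d`, and the rows `l < b`: the coefficient of `Z ^ l` in `Z ^ i η ^ j`.  For
`v = (v_(j, i))` and `A_v = ∑ v_(j, i) Z ^ i Y ^ j`: `L v = 0` iff `Z ^ b ∣ A_v(η)`, so `L` is
injective by IRA.  MIN: `D L = G • 1`, `G ≠ 0`.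
Now let `G(θ) ≠ 0` for a numerical `θ`, and `q = qp u e θ Q`, a form of degree `d` with
`q(0, 1, 0) = Q(e) ≠ 0`, `q(1, 0, 0) = Q(u) = 0`, `∂_1 q(1, 0, 0) = ∑ e_j ∂_j Q(u) ≠ 0`.  Suppose
that `q` is not irreducible: `q = q₁ q₂`, not units, so forms of degrees `d₁, d₂ ≥ 1`,
`d₁ + d₂ = d` (WHF with weights `1`; a form of degree `0` is a constant).  One of them vanishes at
`(1, 0, 0)`, say `q₁`, and then `q₂(1, 0, 0) ≠ 0` because of `∂_1 q(1, 0, 0) ≠ 0` (product rule).
Let `A = q₁(1, Y, Z) ∈ ℂ[Z][Y]`, of degree `≤ d₁ < d` in `Y` and with coefficients of degree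
`≤ d₁ ≤ d` in `Z`, and `η_θ ∈ ℂ[Z]` the specialisation of `η`.
`Z ^ b ∣ P_θ(η_θ) = q(1, η_θ, Z) = A(η_θ) q₂(1, η_θ, Z)`; the last factor has the constant
coefficient `q₂(1, 0, 0) ≠ 0`, so it is prime to `Z ^ b` and `Z ^ b ∣ A(η_θ)`, that is
`L(θ) v = 0` for the vector `v` of the coefficients of `A`.  `D(θ) L(θ) = G(θ)` gives `v = 0`,
`A = 0`, and `q₁ = 0` because `q₁` is homogeneous, a contradiction. -/
def Stmt_IRR : Prop :=
  ∀ (N d : ℕ) (Q : MvPolynomial (Fin N) ℂ) (u e : Fin N → ℂ), Irreducible Q →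
    Q.IsHomogeneous d → eval u Q = 0 → (∑ j, e j * eval u (pderiv j Q)) ≠ 0 → eval e Q ≠ 0 →
    ∃ G : MvPolynomial (Fin N) ℂ, G ≠ 0 ∧ ∀ θ : Fin N → ℂ, eval θ G ≠ 0 →
      Irreducible (qp u e θ Q)

/-- QPP (60 lines), uses FNC.  The plane section: degree and values.  `qp u e θ Q` is
`Q(y_0 u + y_1 e + y_2 θ)`; chain rule for the derivative (`MvPolynomial.pderiv` of `aeval`, or
compare derivations on the variables, or `M5.DEG (4)` on the line through `u` and `e`).  The
last two: values of a polynomial `F(b₁, b₂)` restricted to the plane. -/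
def Stmt_QPP : Prop :=
  ∀ (N d : ℕ) (Q : MvPolynomial (Fin N) ℂ) (u e θ : Fin N → ℂ), Q.IsHomogeneous d →
    (qp u e θ Q).IsHomogeneous d ∧
    (∀ y : Fin 3 → ℂ, eval y (qp u e θ Q) =
      eval (fun j => u j * y 0 + e j * y 1 + θ j * y 2) Q) ∧
    eval ![1, 0, 0] (pderiv 1 (qp u e θ Q)) = ∑ j, e j * eval u (pderiv j Q) ∧
    ∀ (K : Type) [CommRing K] [Algebra ℂ K] (F : MvPolynomial (Fin 2 × Fin N) K)
      (F₁ : MvPolynomial (Fin 3) K) (a b : Fin 3 → ℂ),
      subC K (gP u e θ) F = subC K gC F₁ →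
      eval (fun i => algebraMap ℂ K (crs a b i)) F₁ =
        eval (fun p => algebraMap ℂ K (ppt (fun j => u j * a 0 + e j * a 1 + θ j * a 2)
          (fun j => u j * b 0 + e j * b 1 + θ j * b 2) p)) F

end Pool.ThmM.Chow
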