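import Pool.Agent.Work.MP_f82ddf_M5.Stmts
import Pool.Agent.Work.MP_f82ddf_M1.Interface2
import Pool.Agent.Work.MP_f82ddf_M4.Interface2

set_option autoImplicit false

/-! # THEOREM M (MP_f82ddf_nt), part P3 (core in the Chow form version): definitions

Note 3010 (1) to (5) and (8), plane theorem of note 3011.  The field `Mer` of meromorphic functions,
its orders and heights are those of `MP_f82ddf_M1` (helper32), the Chow form is that of
`MP_f82ddf_M5` (helper42), the plane theorem is `M4P.PLANE` of `MP_f82ddf_M4` (helper24), the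
hypersurface data are those of `MP_f82ddf_M.Terminal2`.  Everything here is in the namespace
`Pool.ThmM.Chow`. -/

open Topology Filter
open scoped Differential
open Pool.Agent.Work.MP_f82ddf_nt.DQ

namespace Pool.ThmM.Chow

open MvPolynomial
open Pool.Agent.Work.MP_f82ddf_M5 (lineAt resAt chow at2 comb Data)

/-- The pair of points `(a, b)` as one point.  (`at2 φ a b = eval₂Hom φ (ppt a b)` by definition.) -/
def ppt {N : ℕ} {A : Type} (a b : Fin N → A) : Fin 2 × Fin N → A :=
  fun p => if p.1 = 0 then a p.2 else b p.2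

/-- Substitution of the complex polynomials `g i` for the variables, over a `ℂ`-algebra `K`. -/
noncomputable def subC {σ τ : Type} (K : Type) [CommRing K] [Algebra ℂ K]
    (g : σ → MvPolynomial τ ℂ) : MvPolynomial σ K →+* MvPolynomial τ K :=
  eval₂Hom C (fun i => map (algebraMap ℂ K) (g i))

/-- `subC K (gE e) F = F(b₁, e)`, in the variables `b₁`. -/
noncomputable def gE {N : ℕ} (e : Fin N → ℂ) : Fin 2 × Fin N → MvPolynomial (Fin N) ℂ :=
  ppt X (fun j => C (e j))

/-- `subC K (gU u) F = F(u, b₂)`, in the variables `b₂`. -/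
noncomputable def gU {N : ℕ} (u : Fin N → ℂ) : Fin 2 × Fin N → MvPolynomial (Fin N) ℂ :=
  ppt (fun j => C (u j)) X

/-- The point `y_0 u + y_1 e + y_2 θ`. -/
noncomputable def pl {N : ℕ} {τ : Type} (u e θ : Fin N → ℂ) (y : Fin 3 → MvPolynomial τ ℂ) :
    Fin N → MvPolynomial τ ℂ :=
  fun j => C (u j) * y 0 + C (e j) * y 1 + C (θ j) * y 2

/-- `subC K (gP u e θ) F`: both points are in the plane spanned by `u`, `e`, `θ`. -/
noncomputable def gP {N : ℕ} (u e θ : Fin N → ℂ) :
    Fin 2 × Fin N → MvPolynomial (Fin 2 × Fin 3) ℂ :=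
  ppt (pl u e θ fun i => X (0, i)) (pl u e θ fun i => X (1, i))

/-- The restriction `q(y_0, y_1, y_2) = Q(y_0 u + y_1 e + y_2 θ)` of `Q` to the plane. -/
noncomputable def qp {N : ℕ} (u e θ : Fin N → ℂ) (Q : MvPolynomial (Fin N) ℂ) :
    MvPolynomial (Fin 3) ℂ := aeval (pl u e θ X) Q

/-- `subC K (gF e) F = F((X_0, .., X_w, 0), e)`, in `w + 1` variables. -/
noncomputable def gF {w : ℕ} (e : Fin (w + 2) → ℂ) :
    Fin 2 × Fin (w + 2) → MvPolynomial (Fin (w + 1)) ℂ :=
  ppt (Fin.snoc (α := fun _ => MvPolynomial (Fin (w + 1)) ℂ) X 0) (fun j => C (e j))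

/-- The substitution `X_j ↦ X_j - (e_j / e_(w+1)) X_(w+1)`, `j ≤ w`: projection from `e`. -/
noncomputable def gQ {w : ℕ} (e : Fin (w + 2) → ℂ) :
    Fin (w + 1) → MvPolynomial (Fin (w + 2)) ℂ :=
  fun j => X j.castSucc - C (e j.castSucc / e (Fin.last (w + 1))) * X (Fin.last (w + 1))

/-- The substitution `X_(w+1) ↦ 0`. -/
noncomputable def gZ (w : ℕ) : Fin (w + 2) → MvPolynomial (Fin (w + 1)) ℂ :=
  Fin.snoc (α := fun _ => MvPolynomial (Fin (w + 1)) ℂ) X 0

/-- The projection of the point `p` from `e` to the first `w + 1` coordinates. -/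
noncomputable def prj {w : ℕ} (e p : Fin (w + 2) → ℂ) : Fin (w + 1) → ℂ :=
  fun j => p j.castSucc - e j.castSucc / e (Fin.last (w + 1)) * p (Fin.last (w + 1))

/-- The cross product. -/
def crs {A : Type} [CommRing A] (a b : Fin 3 → A) : Fin 3 → A :=
  ![a 1 * b 2 - a 2 * b 1, a 2 * b 0 - a 0 * b 2, a 0 * b 1 - a 1 * b 0]

/-- `subC K gC Psi = Psi(b₁ × b₂)`. -/
noncomputable def gC : Fin 3 → MvPolynomial (Fin 2 × Fin 3) ℂ :=
  crs (fun i => X (0, i)) (fun i => X (1, i))

/-- `subC K gD G = G((m_2, 0, - m_0), (0, m_2, - m_1))`. -/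
noncomputable def gD : Fin 2 × Fin 3 → MvPolynomial (Fin 3) ℂ :=
  ppt ![X 2, 0, - X 0] ![0, X 2, - X 1]

/-- `F` is of Pluecker type of degree `ρ`: invariant under `b₁ ↦ b₁ + c b₂` and `b₂ ↦ b₂ + c b₁`,
homogeneous of degree `ρ` in `b₁` and in `b₂`.  (Stated for all values of the variables in all
commutative rings `B` over `R`.) -/
def PluF {N : ℕ} {R : Type} [CommRing R] (ρ : ℕ) (F : MvPolynomial (Fin 2 × Fin N) R) : Prop :=
  ∀ (B : Type) [CommRing B] (φ : R →+* B) (a b : Fin N → B) (c : B),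
    at2 φ (fun j => a j + c * b j) b F = at2 φ a b F ∧
    at2 φ a (fun j => b j + c * a j) F = at2 φ a b F ∧
    at2 φ (fun j => c * a j) b F = c ^ ρ * at2 φ a b F ∧
    at2 φ a (fun j => c * b j) F = c ^ ρ * at2 φ a b F

/-- The weights for the degree in `b₁` (`i = 0`) and in `b₂` (`i = 1`). -/
def wb {N : ℕ} (i : Fin 2) : Fin 2 × Fin N → ℕ := fun p => if p.1 = i then 1 else 0

/-- The Chow form of `Q = ∑ x_i A_i = 0` over a `ℂ`-algebra `K` (all forms of degree `d`). -/
noncomputable def Phi {N r : ℕ} (K : Type) [CommRing K] [Algebra ℂ K] (d : ℕ)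
    (Q : MvPolynomial (Fin N) ℂ) (A : Fin (r + 1) → MvPolynomial (Fin N) ℂ) (x : Fin (r + 1) → K) :
    MvPolynomial (Fin 2 × Fin N) K :=
  chow d d (map (algebraMap ℂ K) Q) (comb (algebraMap ℂ K) A x)

/-- `P` is moving: not a scalar times a complex polynomial. -/
def Mov {σ : Type} (P : MvPolynomial σ Mer) : Prop :=
  ∀ (c : Mer) (G : MvPolynomial σ ℂ), P ≠ C c * map (algebraMap ℂ Mer) G

/-- `O` is the ring of the elements of `Mer` without pole at `z`, and `θ` the value at `z`. -/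
structure LocAt (z : ℂ) (O : Subalgebra ℂ Mer) (θ : O →ₐ[ℂ] ℂ) : Prop where
  mem : ∀ f : Mer, f ∈ O ↔ 0 ≤ om f z
  val : ∀ f : O, θ f = rep (f : Mer) z
  zero : ∀ f : O, θ f = 0 ↔ 1 ≤ om (f : Mer) z

/-- The value of a polynomial with coefficients in `Mer` at the point `z` (`M4P.spz` for three
variables). -/
noncomputable def spv {σ : Type} (F : MvPolynomial σ Mer) (z : ℂ) : MvPolynomial σ ℂ :=
  ∑ s ∈ F.support, monomial s (rep (F.coeff s) z)

end Pool.ThmM.Chow
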