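import Pool.Agent.Work.MP_f82ddf_M.Terminal

set_option autoImplicit false

/-! # THEOREM M (MP_f82ddf_nt), part P2b: the hypersurface model

Result of this part: `Stmt_T3`, the data (0) of note 3010. -/

namespace Pool.ThmM

open MvPolynomial Finset

/-- `f` is monic of degree `d` in the last variable -/
def LastMonic (w d : ℕ) (f : MvPolynomial (Fin (w + 2)) ℂ) : Prop :=
  ∃ q : ℕ → MvPolynomial (Fin (w + 1)) ℂ,
    f = X (Fin.last (w + 1)) ^ d + ∑ j ∈ range d,
      rename Fin.castSucc (q j) * X (Fin.last (w + 1)) ^ j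

/-- The hypersurface data (0) of note 3010 for a finite set `T` of nodes: an irreducible form `Q`
of degree `d` in `w + 2` variables, monic in the last one, forms `A_0, .., A_r` of degree `d`, and
for every node `u` of `T` the lifted node `lift u`: a point of `Q = 0` at which the derivative of
`Q` with respect to the last variable is not zero, with `A(lift u) = c u`, `c ≠ 0`. -/
structure HypData (r w d : ℕ) (Q : MvPolynomial (Fin (w + 2)) ℂ)
    (A : Fin (r + 1) → MvPolynomial (Fin (w + 2)) ℂ) (T : Finset (Fin (r + 1) → ℂ))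
    (lift : (Fin (r + 1) → ℂ) → (Fin (w + 2) → ℂ)) : Prop where
  hw : 1 ≤ w
  hwr : w ≤ r
  hd : 1 ≤ d
  irr : Irreducible Q
  homQ : Q.IsHomogeneous d
  mon : LastMonic w d Q
  homA : ∀ i, (A i).IsHomogeneous d
  zero : ∀ u ∈ T, eval (lift u) Q = 0
  smooth : ∀ u ∈ T, eval (lift u) (pderiv (Fin.last (w + 1)) Q) ≠ 0
  prop : ∀ u ∈ T, ∃ c : ℂ, c ≠ 0 ∧ ∀ i, eval (lift u) (A i) = c * u i

/-- THE RESULT OF PART P2.  For every function `β` all large sets `S` of pairwise non proportional
points contain a set `T` with hypersurface data of bounded degree such that every form of degree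
at most `β w d` which vanishes at all the lifted nodes is divisible by `Q`, and `T` has at least
`β w d` elements. -/
def Stmt_T3 : Prop :=
  ∀ (r : ℕ) (β : ℕ → ℕ → ℕ), ∃ N₁ dmax : ℕ, ∀ S : Finset (Fin (r + 1) → ℂ),
    (∀ u ∈ S, ∀ v ∈ S, u ≠ v → NonProp u v) → N₁ ≤ S.card →
    ∃ (w d : ℕ) (Q : MvPolynomial (Fin (w + 2)) ℂ)
      (A : Fin (r + 1) → MvPolynomial (Fin (w + 2)) ℂ) (T : Finset (Fin (r + 1) → ℂ))
      (lift : (Fin (r + 1) → ℂ) → (Fin (w + 2) → ℂ)),
      HypData r w d Q A T lift ∧ d ≤ dmax ∧ T ⊆ S ∧ β w d ≤ T.card ∧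
      ∀ (e : ℕ) (f : MvPolynomial (Fin (w + 2)) ℂ), e ≤ β w d → f.IsHomogeneous e →
        (∀ u ∈ T, eval (lift u) f = 0) → Q ∣ f

/-! ## Commutative algebra -/

/-- PEL (80 lines).  Primitive element with natural coefficients: a finite extension of fields of
characteristic 0 generated by `t_1, .., t_m` is generated by some `Σ c_i t_i`, `c_i ∈ ℕ`.
PROOF.  Let `Ω` be an algebraic closure of `K`.  The finitely many `K`-embeddings `σ : L → Ω` are
determined by the values `σ t_i`.  For two different ones, `c ↦ Σ c_i (σ t_i - τ t_i)` is a nonzero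
linear form in `c`; choose `c ∈ ℕ^m` on which none of these finitely many linear forms vanishes
(e.g. `c_i = N^i`, a nonzero polynomial in `N` for each pair; or
`MvPolynomial.exists_eval_ne_zero` style).  Then the `[L : K]` embeddings take different values at
`y = Σ c_i t_i`, so `K(y) = L` (`Field.primitive_element_iff_algHom_eq_of_eval` or
`Field.primitive_element_iff_minpoly_natDegree_eq`). -/
def Stmt_PEL : Prop :=
  ∀ (K L : Type) [Field K] [Field L] [Algebra K L] [FiniteDimensional K L] [CharZero K]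
    (m : ℕ) (t : Fin m → L), IntermediateField.adjoin K (Set.range t) = ⊤ →
    ∃ c : Fin m → ℕ, IntermediateField.adjoin K {∑ i, (c i : L) * t i} = ⊤

/-- PRA (200 lines), uses PEL.  Let `A` be an integrally closed domain of characteristic 0 and `B`
a domain containing `A`, generated as an `A`-algebra by `t_1, .., t_m`, each a root of a monic
polynomial of degree `D` over `A`.  Then for some `c ∈ ℕ^m` the element `y = Σ c_i t_i` has the
following properties, `q` = its minimal polynomial over `A`: `q` is monic and irreducible, of degree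
at most `D^m`, divides every `f ∈ A[X]` with `f(y) = 0`, and `q'(y) z ∈ A[y]` for all `z ∈ B`.
PROOF.  `K = Frac A`, `L = Frac B = K(t_1, .., t_m)`, `[L : K] ≤ D^m` (the `D^m` monomials
`Π t_i^(a_i)`, `a_i < D`, span `B` over `A`, hence `L` over `K` because `B ⊗ K` is a domain of
finite dimension, a field; or tower law).  Take `c` from PEL.  `q = minpoly A y`;
`minpoly K y = q.map` (`minpoly.isIntegrallyClosed_eq_field_fractions'`), irreducible
(`minpoly.irreducible`/`minpoly.prime_of_isIntegrallyClosed`), divisibility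
(`minpoly.isIntegrallyClosed_dvd`).  `q.natDegree = [L : K]`.  Last claim: every `z ∈ B` is
integral over `A`, so `Tr(z x) ∈ A` for `x ∈ A[y]`, i.e. `z` is in the dual of `A[y]` for the trace
form, which is `q'(y)⁻¹ A[y]`: `traceForm_dualSubmodule_adjoin` in Mathlib
(`Mathlib.RingTheory.DedekindDomain.Different`). -/
def Stmt_PRA : Prop :=
  ∀ (A B : Type) [CommRing A] [IsDomain A] [IsIntegrallyClosed A] [CharZero A] [CommRing B]
    [IsDomain B] [Algebra A B] (_ : Function.Injective (algebraMap A B)) (m D : ℕ)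
    (t : Fin m → B), Algebra.adjoin A (Set.range t) = ⊤ →
    (∀ i, ∃ p : Polynomial A, p.Monic ∧ p.natDegree = D ∧ Polynomial.aeval (t i) p = 0) →
    ∃ (c : Fin m → ℕ) (q : Polynomial A), q.Monic ∧ Irreducible q ∧ q.natDegree ≤ D ^ m ∧
      (∀ f : Polynomial A, Polynomial.aeval (∑ i, (c i : B) * t i) f = 0 → q ∣ f) ∧
      Polynomial.aeval (∑ i, (c i : B) * t i) q = 0 ∧
      ∀ z : B, ∃ a : Polynomial A, Polynomial.aeval (∑ i, (c i : B) * t i) a =
        Polynomial.aeval (∑ i, (c i : B) * t i) (Polynomial.derivative q) * z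

/-- the substitution `X_j ↦ X_j` (`j ≤ w`), `X_(w+1) ↦ Σ c_i X_i` -/
noncomputable def sub {r : ℕ} (w : ℕ) (c : Fin (r + 1) → ℂ) :
    MvPolynomial (Fin (w + 2)) ℂ →ₐ[ℂ] Pr r :=
  aeval fun j => if (j : ℕ) ≤ w then X (Fin.ofNat (r + 1) j) else ∑ i, C (c i) * X i

/-- the same on points -/
def subPt {r : ℕ} (w : ℕ) (c u : Fin (r + 1) → ℂ) : Fin (w + 2) → ℂ :=
  fun j => if (j : ℕ) ≤ w then u (Fin.ofNat (r + 1) j) else ∑ i, c i * u i

/-- SUB (30 lines).  `(sub w c f)(u) = f (subPt w c u)`, and `sub w c` maps forms of degree `e` to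
forms of degree `e`, hence commutes with `homogeneousComponent`. -/
def Stmt_SUB : Prop :=
  ∀ (r w : ℕ) (c : Fin (r + 1) → ℂ),
    (∀ (f : MvPolynomial (Fin (w + 2)) ℂ) (u : Fin (r + 1) → ℂ),
      eval u (sub w c f) = eval (subPt w c u) f) ∧
    (∀ (f : MvPolynomial (Fin (w + 2)) ℂ) (e : ℕ), f.IsHomogeneous e →
      (sub w c f).IsHomogeneous e) ∧
    ∀ (f : MvPolynomial (Fin (w + 2)) ℂ) (e : ℕ),
      homogeneousComponent e (sub w c f) = sub w c (homogeneousComponent e f)

/-- PRB (220 lines), uses PRA SUB.  The hypersurface model of a datum.  PROOF.  Apply PRA to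
`A = MvPolynomial (Fin (w + 1)) ℂ` (a unique factorisation domain, hence integrally closed),
`B = ℂ[X_0, .., X_r] / P`, `A → B` by `X_j ↦ X_j` (`j ≤ w`; injective by `Datum.indep`), and `t` =
the classes of the `X_i`, `i > w` (there are `r - w` of them; they generate `B` over `A`; each is a
root of a monic polynomial of degree `D` by `Datum.mon`).  This gives `c` (extended by 0 to
`i ≤ w`), a polynomial `q ∈ A[T]`, monic, irreducible, of degree `d ≤ D^(r-w)`, `d ≥ 1` (an
irreducible monic polynomial is not constant).  Let `Q` correspond to `q` under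
`A[T] ≃ MvPolynomial (Fin (w + 2)) ℂ` (`T` = last variable; build the isomorphism from
`MvPolynomial.finSuccEquiv` after a permutation of the variables, or by
`MvPolynomial.optionEquivLeft`); it is irreducible, `sub w c Q ∈ P`, and `Q ∣ f` whenever
`sub w c f ∈ P`.  `Q` IS HOMOGENEOUS of degree `d`: its homogeneous component `Q_d` of degree `d` is
monic of degree `d` in `T` and `sub w c Q_d ∈ P` (`Datum.hom`, SUB), so `Q ∣ Q_d`, and both are
monic of degree `d` in `T`: `Q = Q_d`.  FORMS `A_i`: PRA with `z = X_i` gives `a ∈ A[T]` with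
`sub(a) - sub(∂Q/∂T) X_i ∈ P`; take for `A_i` the homogeneous component of degree `d` of `a`
(`∂Q/∂T` is homogeneous of degree `d - 1`, `P` is homogeneous). -/
def Stmt_PRB : Prop :=
  ∀ (r w D : ℕ) (P : Ideal (Pr r)), Datum r w D P →
    ∃ (d : ℕ) (c : Fin (r + 1) → ℂ) (Q : MvPolynomial (Fin (w + 2)) ℂ)
      (A : Fin (r + 1) → MvPolynomial (Fin (w + 2)) ℂ),
      1 ≤ d ∧ d ≤ D ^ (r - w) ∧ Irreducible Q ∧ Q.IsHomogeneous d ∧ LastMonic w d Q ∧
      (∀ i, (A i).IsHomogeneous d) ∧ sub w c Q ∈ P ∧
      ∀ i, sub w c (A i) - sub w c (pderiv (Fin.last (w + 1)) Q) * X i ∈ P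

/-- ELI (150 lines).  Elimination of the last variable between the irreducible form `Q`, monic of
degree `d` in the last variable, and a form `H` of degree `e` not divisible by `Q`.  PROOF.  Let
`A = MvPolynomial (Fin (w + 1)) ℂ` and `B = MvPolynomial (Fin (w + 2)) ℂ / (Q)`, a domain, free over
`A` with basis `1, T, .., T^(d-1)`.  Multiplication by `H` on `B` is a root of a monic polynomial
over `A` with `d` as degree (Cayley-Hamilton), so
`H^d + Σ_(j < d) p_j H^j ∈ (Q)`, `p_j ∈ A`.  `Q` is a form and `H` a form of degree `e`: take the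
homogeneous component of degree `d e`, so we may assume `p_j` homogeneous of degree `(d - j) e`.
Not all `p_j` are 0, otherwise `Q ∣ H^d`, `Q ∣ H`.  Let `j` be the least index with `p_j ≠ 0`:
`H^j (H^(d-j) + .. + p_(j+1) H + p_j) ∈ (Q)`, `(Q)` is prime and `H ∉ (Q)`, so
`p_j ∈ (Q, H)`; `h = p_j`, of degree `(d - j) e ≤ d e`, vanishes where `Q` and `H` do. -/
def Stmt_ELI : Prop :=
  ∀ (w d e : ℕ) (Q H : MvPolynomial (Fin (w + 2)) ℂ), 1 ≤ d → Irreducible Q →
    Q.IsHomogeneous d → LastMonic w d Q → H.IsHomogeneous e → ¬ Q ∣ H →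
    ∃ (e' : ℕ) (h : MvPolynomial (Fin (w + 1)) ℂ), e' ≤ d * e ∧ h.IsHomogeneous e' ∧ h ≠ 0 ∧
      ∀ p : Fin (w + 2) → ℂ, eval p Q = 0 → eval p H = 0 → eval (fun j => p j.castSucc) h = 0

/-- FIN (180 lines), uses TERM PRB SUB ELI.  PROOF of `Stmt_T3`.  Let `r`, `β` be given.  For
`w, D` let `dT w D = Σ_(d ≤ D^r) d (β w d + d)` (a bound for the degree `d (e + d - 1)` which
occurs below for every possible `d ≤ D^r`) and apply `Stmt_TERM`.  We get `w ≥ 1`, `D ≤ Dmax`, `P`, `g`, `T₀`;
PRB gives `d ≤ D^(r-w)`, `c`, `Q`, `A'`.  Put `lift u = subPt w c (g u)`, `Q_T = ∂Q/∂T`,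
`T = {u ∈ T₀ : Q_T(lift u) ≠ 0}`, `A = g⁻¹ A'` (`A_i = Σ_j (g⁻¹)_(ij) A'_j`).  `Q(lift u) = 0`
because `sub w c Q ∈ P`; `A'(lift u) = Q_T(lift u) • g u`, so `A(lift u) = Q_T(lift u) • u`;
`smooth` is the definition of `T`.  DIVISIBILITY.  Let `f` be a form of degree `e ≤ β w d` which vanishes
at all `lift u`, `u ∈ T`, and suppose `Q ∤ f`.  `H = f Q_T` (degree `e + d - 1`) vanishes at
`lift u` for all `u ∈ T₀`, and `Q ∤ H` (`Q` is prime; `Q ∤ Q_T` because `Q_T ≠ 0` has smaller
degree: it is `d T^(d-1) + ..`).  ELI gives a nonzero form `h` of degree at most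
`d (e + d - 1)` in `X_0, .., X_w`; as a form in `Pr r` (rename) it is `Low w`, nonzero and vanishes
at all `g u`, `u ∈ T₀` (the first `w + 1` coordinates of `lift u` are those of `g u`):
contradiction.  CARDINALITY.  If `T.card < β w d`: for every `u ∈ T` there is a linear form `ℓ_u`
which vanishes at `lift u` and is not divisible by `Q` (`w + 2 ≥ 3` variables: the linear forms
vanishing at a point have dimension at least `w + 1 ≥ 2`, the multiples of `Q` among them at most
1), so the product of the `ℓ_u` has degree `T.card ≤ β w d`, is not divisible by the prime `Q`, and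
vanishes at all the lifted nodes: contradiction with the divisibility.
`dmax = max over D ≤ Dmax of D^r`. -/
def Stmt_FIN : Prop := Stmt_T3

end Pool.ThmM
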