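import Pool.Agent.Work.MP_f82ddf_M.Chow
import Pool.Agent.Work.MP_f82ddf_M.Terminal2

set_option autoImplicit false

/-! # THEOREM M, part P3b: the core over the field `Mer` (blocks)

Block file `Pool/Agent/Work/MP_f82ddf_M/C_X.lean`: import this file, namespace `Pool.ThmM.Chow`,
final theorem `p_X : Stmt_A → .. → Stmt_X` with the blocks of the column `uses` as hypotheses, in
that order; own lemmas with the prefix `X_`.  `M1.GAU` means `Pool.ThmM.Stmt_GAU` etc.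

Reminder (helper32's kit): `rep f` representative of `f : Mer`, `om f z` order (`⊤` for `0`),
`dv1 f` divisor, `vP F z` = minimum of the orders of the coefficients of `F` (`⊤` for `F = 0`),
`dvP F` the same as a divisor, `TP F r = LL (cf F) r - NN (dvP F) r` height, `evC p F` value at a
complex point, `dz` coefficientwise derivative, `NN` counting function, `tru` truncation. -/

open Topology Filter
open scoped Differential
open Pool.Agent.Work.MP_f82ddf_nt.DQ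

namespace Pool.ThmM.Chow

open MvPolynomial
open Pool.Agent.Work.MP_f82ddf_M5 (lineAt resAt chow at2 comb Data)

/-! ## E. Orders, values, substitutions -/

/-- OZE (80 lines), uses M1.REP M1.ALG M1.VAL.  The local ring.  PROOF.
`O = {f | 0 ≤ om f z}` is a subalgebra (M1.VAL), `θ f = rep f z`.  For `0 ≤ om f z` the normal form
`rep f` is analytic at `z` (`MeromorphicNFAt.meromorphicOrderAt_nonneg_iff_analyticAt` or similar),
and its value is `0` iff the order is `≥ 1`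
(`meromorphicOrderAt_ne_zero..`, `tendsto_zero_iff_meromorphicOrderAt_pos`).  `θ` is additive and
multiplicative because `rep (f + g)` and `rep f + rep g` are continuous at `z` and agree on a
punctured neighbourhood (M1.ALG). -/
def Stmt_OZE : Prop := ∀ z : ℂ, ∃ (O : Subalgebra ℂ Mer) (θ : O →ₐ[ℂ] ℂ), LocAt z O θ

/-- RDA (60 lines).  Reduction of polynomials at `z`.  `vP` is the minimum of the orders of the
coefficients; `LocAt.mem`, `LocAt.zero` for each coefficient (the coefficients of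
`map O.val F` and `map θ F` are `(F.coeff α : Mer)` and `θ (F.coeff α)`). -/
def Stmt_RDA : Prop :=
  ∀ (σ : Type) (z : ℂ) (O : Subalgebra ℂ Mer) (θ : O →ₐ[ℂ] ℂ), LocAt z O θ →
    (∀ F : MvPolynomial σ O, 0 ≤ vP (map (O.val : O →+* Mer) F) z ∧
      (map (θ : O →+* ℂ) F ≠ 0 ↔ vP (map (O.val : O →+* Mer) F) z = 0)) ∧
    ∀ G : MvPolynomial σ Mer, 0 ≤ vP G z → ∃ F : MvPolynomial σ O, map (O.val : O →+* Mer) F = G

/-- RDN (60 lines), uses M1.VAL OZE RDA.  Normalised reduction.  PROOF.  `n = vP F z` is an integer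
(`F ≠ 0`).  `F' = C (zt z ^ (- n)) * F` has `vP F' z = 0` (`om (zt z) z = 1`), so
`F' = map O.val F₁` and `F₀ = map θ F₁ ≠ 0` (RDA).  If `F₀(p) ≠ 0`: `evC p F'` is the element
`eval p F₁` of `O`, with value `F₀(p) ≠ 0`, so its order is `0`, and
`om (evC p F) z = n`. -/
def Stmt_RDN : Prop :=
  ∀ (σ : Type) (F : MvPolynomial σ Mer) (z : ℂ), F ≠ 0 →
    ∃ F₀ : MvPolynomial σ ℂ, F₀ ≠ 0 ∧ ∀ p : σ → ℂ, eval p F₀ ≠ 0 → om (evC p F) z = vP F z

/-- SPV (120 lines), uses M1.ALG M1.VAL M1.REP OZE RDA FNC FCH.  Values of polynomials off a discrete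
set.
PROOF.  (1) coefficients: `LocAt.val`, and `rep 0 = 0` (or `rep f z = 0` if `om f z ≥ 1`).
(2) off a discrete set the nonzero coefficients have order `0` (M1.ALG last part, M1.REP).  So for
all `z` off a discrete set all the polynomials in question have coefficients in the ring `O` of OZE
(RDA second part) and (3), (4), (5) are identities for the homomorphism `θ`
(`map O.val` is injective; (4) FNC (1); (5) FCH (1), `θ (x i) = rep (x i) z`).
(6) RDA and (2).  (7), (8) coefficients (`rep (algebraMap ℂ Mer a) z = a` by LocAt, for all `z`). -/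
def Stmt_SPV : Prop :=
  (∀ (σ : Type) (z : ℂ) (O : Subalgebra ℂ Mer) (θ : O →ₐ[ℂ] ℂ), LocAt z O θ →
      ∀ F : MvPolynomial σ O, spv (map (O.val : O →+* Mer) F) z = map (θ : O →+* ℂ) F) ∧
  (∀ (σ : Type) (F : MvPolynomial σ Mer), F ≠ 0 → ∀ᶠ z in codiscrete ℂ, vP F z = 0) ∧
  (∀ (σ : Type) (F G : MvPolynomial σ Mer),
      ∀ᶠ z in codiscrete ℂ, spv (F * G) z = spv F z * spv G z) ∧
  (∀ (σ τ : Type) (g : σ → MvPolynomial τ ℂ) (F : MvPolynomial σ Mer),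
      ∀ᶠ z in codiscrete ℂ, spv (subC Mer g F) z = subC ℂ g (spv F z)) ∧
  (∀ (N r d : ℕ) (Q : MvPolynomial (Fin N) ℂ) (A : Fin (r + 1) → MvPolynomial (Fin N) ℂ)
      (x : Fin (r + 1) → Mer), ∀ᶠ z in codiscrete ℂ,
      spv (Phi Mer d Q A x) z = Phi ℂ d Q A (fun i => rep (x i) z)) ∧
  (∀ (σ : Type) (F : MvPolynomial σ Mer), F ≠ 0 → ∀ᶠ z in codiscrete ℂ, spv F z ≠ 0) ∧
  (∀ (σ : Type) (G : MvPolynomial σ ℂ) (z : ℂ), spv (map (algebraMap ℂ Mer) G) z = G) ∧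
  (∀ (σ : Type) (F : MvPolynomial σ Mer) (n : ℕ) (z : ℂ), F.IsHomogeneous n →
      (spv F z).IsHomogeneous n)

/-- LSB (80 lines), uses M1.VAL M1.LIN M1.NNP M1.VPD.  Substitution of complex polynomials does not
lower orders and raises heights by at most a constant.  PROOF.  The coefficients of
`subC Mer g F` are complex linear combinations of the coefficients of `F` (the coefficient of
`X ^ α` is multiplied by the complex polynomial `∏ g_i ^ (α_i)`); the same for `evC p F`.  Orders: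
M1.VAL for finite sums.  Heights: M1.LIN with `c = cf F`, `d = cf (subC Mer g F)`
(not `0`), and M1.NNP (monotone) for the counting functions of the order divisors. -/
def Stmt_LSB : Prop :=
  ∀ (σ : Type) (F : MvPolynomial σ Mer),
    (∀ (p : σ → ℂ) (z : ℂ), vP F z ≤ om (evC p F) z) ∧
    ∀ (τ : Type) (g : σ → MvPolynomial τ ℂ), (∀ z, vP F z ≤ vP (subC Mer g F) z) ∧
      (subC Mer g F ≠ 0 → ∃ C : ℝ, ∀ r : ℝ, 1 ≤ r →
        LL (cf (subC Mer g F)) r ≤ LL (cf F) r + C ∧ TP (subC Mer g F) r ≤ TP F r + C)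

/-- DZS (40 lines), uses M1.DZR FNC.  The coefficientwise derivative commutes with `subC` and keeps
weighted homogeneity.  PROOF.  Additive; for `C c * (monomial)`: product rule and
`dz (map ..) = 0` (M1.DZR (3), (6)).  Homogeneity: M1.DZR (1). -/
def Stmt_DZS : Prop :=
  (∀ (σ τ : Type) (g : σ → MvPolynomial τ ℂ) (F : MvPolynomial σ Mer),
      dz (subC Mer g F) = subC Mer g (dz F)) ∧
  ∀ (σ : Type) (wt : σ → ℕ) (F : MvPolynomial σ Mer) (n : ℕ), IsWeightedHomogeneous wt F n →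
    IsWeightedHomogeneous wt (dz F) n

/-! ## F. Orders of the Chow form -/

/-- PHZ (90 lines), uses M5.LINE NZE FNC FCH OZE RDA.  LOCAL VERSION: if the `x i` have no pole at `z`
and not all of them vanish at `z`, the Chow form has order `0` at `z`, also for `b₂ = e`,
`Q(e) ≠ 0`.  PROOF.  Take `O`, `θ` (OZE); let `x' i ∈ O` be the element `x i`, `y i = θ (x' i)`:
`y ≠ 0` (`LocAt.zero`).  `Phi Mer d Q A x = map O.val (Phi O d Q A x')` and
`map θ (Phi O d Q A x') = Phi ℂ d Q A y = chow d d Q (comb id A y)` (FCH (1), (2)), which is not `0`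
by M5.LINE: `Q` does not divide `comb id A y` (`Data.nd`), a form of degree `d`.  RDA.  In the same
way `subC Mer (gE e) (..) = map O.val (subC O (gE e) ..)` (FNC (1)) has the reduction
`subC ℂ (gE e) (chow d d Q (comb id A y))`, not `0` by NZE. -/
def Stmt_PHZ : Prop :=
  ∀ (N r d : ℕ) (Q : MvPolynomial (Fin N) ℂ) (A : Fin (r + 1) → MvPolynomial (Fin N) ℂ)
    (x : Fin (r + 1) → Mer) (z : ℂ), Data N r d d Q A → (∀ i, 0 ≤ om (x i) z) →
    (∃ i, om (x i) z = 0) →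
    vP (Phi Mer d Q A x) z = 0 ∧
    ∀ e : Fin N → ℂ, eval e Q ≠ 0 → vP (subC Mer (gE e) (Phi Mer d Q A x)) z = 0

/-- PHN (100 lines), uses M5.FUN M5.PTD M5.IDE FNC FCH OZE RDA M1.GAU.  LOCAL VERSION of the order of
the Chow form at a smooth point `u` of `Q = 0`.  PROOF.  By FCH (3) `subC Mer (gU u) (Phi ..)` is
`resAt C Q' X' (C ∘ u) X (e + 1) (e + 1)` over `Mer[b₂]`, and M5.IDE (`Q(u) = 0`) gives
`± C (∑ x_i A_i(u)) * ρ`, `ρ = resAt C Q' X' (C ∘ u) X e (e + 1)`.  `vP ρ z = 0`: with `O`, `θ`, `x'`,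
`y ≠ 0` as in PHZ, `ρ = map O.val (the same over O)` and its reduction is
`resAt C Q (comb id A y) (C ∘ u) X e (e + 1)` over `ℂ[b₂]` (M5.FUN (3), (4)), which is not `0`
because by M5.PTD (`H = 1`) its value at some numerical `b` is not `0` (M5.FUN (3) with
`θ = eval b`).  M1.GAU: `vP (C f * ρ) z = om f z + vP ρ z`. -/
def Stmt_PHN : Prop :=
  ∀ (N r e : ℕ) (Q : MvPolynomial (Fin N) ℂ) (A : Fin (r + 1) → MvPolynomial (Fin N) ℂ)
    (x : Fin (r + 1) → Mer) (z : ℂ) (u : Fin N → ℂ), Data N r (e + 1) (e + 1) Q A →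
    (∀ i, 0 ≤ om (x i) z) → (∃ i, om (x i) z = 0) →
    eval u Q = 0 → (∃ i, eval u (pderiv i Q) ≠ 0) →
    vP (subC Mer (gU u) (Phi Mer (e + 1) Q A x)) z =
      om (∑ i, x i * algebraMap ℂ Mer (eval u (A i))) z

/-- PHG (100 lines), uses PHZ PHN FNC M1.ORD M1.VAL M1.GAU.  Orders of the Chow form for arbitrary
`x ≠ 0`.  PROOF.  Fix `z`, `v = dv x z`; by M1.ORD `v` is the minimum of the orders of the nonzero
`x i` at `z`.  Put `h = zt z ^ (- v)` (`om h z = - v`) and `x' = h • x`: PHZ and PHN apply to `x'` at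
`z`.  `Phi Mer d Q A x' = C h ^ d * Phi Mer d Q A x` (`comb` is linear in `x`, `lineAt` of `C h * G`
is `C h * lineAt G`, `Polynomial.resultant_C_mul_right`), `subC` is a ring homomorphism with
`subC (C h) = C h`, and `∑ x'_i A_i(u) = h ∑ x_i A_i(u)`; M1.GAU:
`0 = - d v + vP (Phi Mer d Q A x) z` and
`- d v + vP (subC (gU u) (Phi ..)) z = - v + om (∑ x_i A_i(u)) z`. -/
def Stmt_PHG : Prop :=
  ∀ (N r e : ℕ) (Q : MvPolynomial (Fin N) ℂ) (A : Fin (r + 1) → MvPolynomial (Fin N) ℂ)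
    (x : Fin (r + 1) → Mer) (z : ℂ), Data N r (e + 1) (e + 1) Q A → x ≠ 0 →
    vP (Phi Mer (e + 1) Q A x) z = (((e + 1) * dv x z : ℤ) : WithTop ℤ) ∧
    (∀ c : Fin N → ℂ, eval c Q ≠ 0 → vP (subC Mer (gE c) (Phi Mer (e + 1) Q A x)) z =
      (((e + 1) * dv x z : ℤ) : WithTop ℤ)) ∧
    ∀ u : Fin N → ℂ, eval u Q = 0 → (∃ i, eval u (pderiv i Q) ≠ 0) →
      vP (subC Mer (gU u) (Phi Mer (e + 1) Q A x)) z =
        om (∑ i, x i * algebraMap ℂ Mer (eval u (A i))) z + ((e * dv x z : ℤ) : WithTop ℤ)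

/-- VXK (60 lines), uses M1.ORD M1.VAL.  The order of `x` is divisible by `k`.  PROOF.  `v = dv x z` is
the minimum of the orders of the nonzero `x i`, attained for some `i` (M1.ORD).  All
`∑ u_j x_j`, `u ∈ T`, have order `≥ v`.  `T` spans `ℂ^(r+1)` (its orthogonal complement is `0`), so the
`i`-th unit vector is a combination of the `u ∈ T` and `x i` is a complex combination of the
`∑ u_j x_j`, `u ∈ T`; so one of these has order exactly `v`, and it is `y ^ k`: `v = k * om y z`. -/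
def Stmt_VXK : Prop :=
  ∀ (r k : ℕ) (T : Finset (Fin (r + 1) → ℂ)) (x : Fin (r + 1) → Mer), x ≠ 0 →
    (∀ y : Fin (r + 1) → ℂ, (∀ u ∈ T, ∑ i, u i * y i = 0) → y = 0) →
    (∀ u ∈ T, ∃ y : Mer, ∑ i, algebraMap ℂ Mer (u i) * x i = y ^ k) →
    ∀ z : ℂ, ∃ n : ℤ, dv x z = k * n

/-- LBD (150 lines), uses NZE FNC FCH SPV M1.ALG M1.ORD M1.CMP.  The Chow form is not larger than
its restriction to `b₂ = e`, up to a constant.  PROOF.  Over `ℂ`: let `S₁(y)`, `S₂(y)` be the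
largest absolute values of the coefficients of `Phi ℂ d Q A y` and of
`subC ℂ (gE e) (Phi ℂ d Q A y)`.  The coefficients are polynomials in `y ∈ ℂ^(r+1)` with exponents
from a fixed finite set (specialise `Phi` over the ring `MvPolynomial (Fin (r + 1)) ℂ`, `x = X`; FCH (1),
FNC (1)), and `Phi ℂ d Q A (t y) = t ^ d Phi ℂ d Q A y` (`Polynomial.resultant_C_mul_right`,
`comb` is linear in `y`), so `S₁`, `S₂` are continuous and homogeneous of degree `d`.  `S₂ > 0` for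
`y ≠ 0` by NZE and `Data.nd`.  Compactness of the unit sphere: `S₁ ≤ K S₂` with a constant `K`
(`S₁(y) ≤ C ‖y‖ ^ d ≤ (C / c) S₂(y)`).  Off a discrete set the norm of `vec (cf F) z` is the
largest absolute value of a coefficient of `spv F z`, so by SPV (4), (5) with
`y = (rep (x i) z)_i`: `‖vec (cf Φ) z‖ ≤ K ‖vec (cf (Φ(·, e))) z‖` off a discrete set, both not `0`
off a discrete set.  Logarithms, M1.CMP; integrability by M1.ORD and
`MeromorphicOn.circleIntegrable_log_norm`. -/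
def Stmt_LBD : Prop :=
  ∀ (N r d : ℕ) (Q : MvPolynomial (Fin N) ℂ) (A : Fin (r + 1) → MvPolynomial (Fin N) ℂ)
    (x : Fin (r + 1) → Mer) (e : Fin N → ℂ), Data N r d d Q A → x ≠ 0 → eval e Q ≠ 0 →
    ∃ C : ℝ, ∀ t : ℝ, t ≠ 0 →
      LL (cf (Phi Mer d Q A x)) t ≤ LL (cf (subC Mer (gE e) (Phi Mer d Q A x))) t + C

/-- HTE (70 lines), uses M1.GAU M1.GEL M1.VPD LSB.  Heights and orders of a factor after a
substitution.  PROOF.  `F ≠ 0`, `subC g F ≠ 0` (`vP (subC g F) = vP F` is not `⊤`), so the same holds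
for `R`, `Rc`.  ORDERS: `vP R + vP Rc = vP F = vP (subC g F) = vP (subC g R) + vP (subC g Rc)`
(M1.GAU) and `vP R ≤ vP (subC g R)`, `vP Rc ≤ vP (subC g Rc)` (LSB), all integers (M1.VPD), so both
are equalities.  HEIGHTS: `dvP F = dvP (subC g F)` (M1.VPD), so
`TP F = LL (cf F) - NN (dvP F) ≤ TP (subC g F) + C`.  M1.GEL:
`TP R ≤ TP F - TP Rc + C ≤ TP (subC g F) - TP (subC g Rc) + C' ≤ TP (subC g R) + C''`
(LSB: `TP (subC g Rc) ≤ TP Rc + C`). -/
def Stmt_HTE : Prop :=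
  ∀ (σ τ : Type) [Finite σ] [Finite τ] (g : σ → MvPolynomial τ ℂ) (F R Rc : MvPolynomial σ Mer),
    F = R * Rc → F ≠ 0 → (∀ z, vP (subC Mer g F) z = vP F z) →
    (∃ C : ℝ, ∀ t : ℝ, t ≠ 0 → LL (cf F) t ≤ LL (cf (subC Mer g F)) t + C) →
    (∀ z, vP (subC Mer g R) z = vP R z) ∧
    ∃ C : ℝ, ∀ t : ℝ, 1 ≤ t → TP R t ≤ TP (subC Mer g R) t + C

/-! ## G. Factorisation -/

/-- FAC (150 lines).  The moving part of a polynomial.  PROOF.  First, by induction
(`UniqueFactorizationMonoid.induction_on_prime` or `WfDvdMonoid.induction_on_irreducible`):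
`Φ = C c * map Fix * ∏_(P ∈ t) P ^ (m P)` with a finite set `t` of irreducible moving polynomials,
`P ∣ P' → P = P'` in `t`, `m P ≥ 1`.  Units are constants `C c`.  Multiply by an irreducible `P₀`: if it
is not moving, `P₀ = C c' * map G`, change `c` and `Fix`; if `P₀ ∣ P'` for some `P' ∈ t`, then
`P₀ = C κ * P'`, increase `m P'` and change `c`; otherwise insert `P₀` with `m P₀ = 1` (also
`P' ∣ P₀` is excluded, irreducible elements).  Then `s = {P ∈ t | ¬ k ∣ m P}` and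
`Psi = ∏_(P ∈ t, k ∣ m P) P ^ (m P / k)`. -/
def Stmt_FAC : Prop :=
  ∀ (σ : Type) [Finite σ] (k : ℕ) (Φ : MvPolynomial σ Mer), Φ ≠ 0 →
    ∃ (c : Mer) (Fix : MvPolynomial σ ℂ) (Psi : MvPolynomial σ Mer)
      (s : Finset (MvPolynomial σ Mer)) (m : MvPolynomial σ Mer → ℕ),
      Φ = C c * map (algebraMap ℂ Mer) Fix * Psi ^ k * ∏ P ∈ s, P ^ m P ∧
      (∀ P ∈ s, Irreducible P ∧ Mov P ∧ ¬ k ∣ m P) ∧ ∀ P ∈ s, ∀ P' ∈ s, P ∣ P' → P = P'

/-- COP (120 lines), uses M1.DZR.  The product `R` of moving irreducible polynomials, pairwise not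
associated, is relatively prime to its derivative.  PROOF.  Let `D ∣ R`, `D ∣ dz R`, `D` not a
unit, `π` an irreducible (prime) factor of `D` (`R ≠ 0`).  `π` divides some `P ∈ s`, is associated
to it, and so `P ∣ dz R`.  By the product rule `dz R = ∑_(P') dz P' ∏_(P'' ≠ P') P''`, so
`P ∣ dz P ∏_(P'' ≠ P) P''`, and `P ∣ dz P` (`P` is prime and `P ∣ P''` only for `P'' = P`).
The total degree of `dz P` is at most that of `P`, so `dz P = C κ * P`: `p_α′ = κ p_α` for the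
coefficients (M1.DZR (1)).  Let `p_β ≠ 0`: `(p_α / p_β)′ = 0`, so `p_α = a_α p_β`, `a_α ∈ ℂ`
(`Mer.exists_algebraMap`), and `P = C p_β * map (∑ a_α X ^ α)` is not moving, a contradiction. -/
def Stmt_COP : Prop :=
  ∀ (σ : Type) [Finite σ] (s : Finset (MvPolynomial σ Mer)), (∀ P ∈ s, Irreducible P ∧ Mov P) →
    (∀ P ∈ s, ∀ P' ∈ s, P ∣ P' → P = P') → IsRelPrime (∏ P ∈ s, P) (dz (∏ P ∈ s, P))

/-- NOD (100 lines), uses M1.VAL M1.GAU LSB FNC.  The node lemma.  PROOF.  Let `F` be the product in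
the statement.  All factors of `F` and of `subC g F` are not `0` (`vP` is not `⊤`; `k ≥ 1`,
`m P ≥ 1` because `¬ k ∣ m P`).  For a nonzero polynomial `P` with `subC g P ≠ 0` let
`δ(P) = vP (subC g P) z - vP P z`, an integer `≥ 0` (LSB), additive for products (M1.GAU).
`δ(C c) = 0`; `δ(map Fix) = 0` because `subC g (map Fix) = map (aeval g Fix)` (FNC (3)) and nonzero
polynomials with complex coefficients have `vP = 0`.  So
`k n = δ(F) = k δ(Psi) + ∑_(P ∈ s) m P δ(P)` (`δ(F) = (a + k n) - a`).  If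
`∑_(P ∈ s) δ(P) = δ(∏ P) = 1`, then exactly one `δ(P)` is `1` and the others are `0`, so `k ∣ m P`, a
contradiction. -/
def Stmt_NOD : Prop :=
  ∀ (σ τ : Type) [Finite σ] [Finite τ] (g : σ → MvPolynomial τ ℂ) (k : ℕ) (c : Mer)
    (Fix : MvPolynomial σ ℂ) (Psi : MvPolynomial σ Mer) (s : Finset (MvPolynomial σ Mer))
    (m : MvPolynomial σ Mer → ℕ) (z : ℂ) (a n : ℤ), 1 ≤ k → (∀ P ∈ s, ¬ k ∣ m P) →
    vP (C c * map (algebraMap ℂ Mer) Fix * Psi ^ k * ∏ P ∈ s, P ^ m P) z =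
      ((a : ℤ) : WithTop ℤ) →
    vP (subC Mer g (C c * map (algebraMap ℂ Mer) Fix * Psi ^ k * ∏ P ∈ s, P ^ m P)) z =
      ((a + k * n : ℤ) : WithTop ℤ) →
    vP (subC Mer g (∏ P ∈ s, P)) z ≠ vP (∏ P ∈ s, P) z + 1

/-- PER (70 lines).  Divisors of a polynomial invariant under `tr` are invariant up to scalars under
a power of `tr`.  PROOF.  In the monoid `Associates (MvPolynomial σ Mer)` the divisors of the class
of `Φ ≠ 0` form a finite set (`UniqueFactorizationMonoid.fintypeSubtypeDvd`, the units of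
`Associates` are trivial).  The ring automorphism `map tr` acts on it (`map tr Φ = Φ`), so
`(map tr)^[i] P` and `(map tr)^[j] P` are associated for some `i < j`; apply the inverse of
`(map tr)^[i]`: with `n = j - i`, `(map tr)^[n] P = C c * P`, i.e.
`(tr^[n]) (p_α) = c p_α` for the coefficients (units are constants, `c ≠ 0`). -/
def Stmt_PER : Prop :=
  ∀ (σ : Type) [Finite σ] (tr : Mer ≃ₐ[ℂ] Mer) (Φ P : MvPolynomial σ Mer), Φ ≠ 0 →
    map (tr : Mer →+* Mer) Φ = Φ → P ∣ Φ →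
    ∃ n : ℕ, 1 ≤ n ∧ ∀ α β : σ →₀ ℕ,
      (tr^[n]) (P.coeff α / P.coeff β) = P.coeff α / P.coeff β

/-- GRO (90 lines), uses PER M1.GRW M1.GEL M1.LOW.  Growth.  PROOF.  `P ≠ 0`; let `p_β ≠ 0`.  Some
quotient `p_α / p_β` is not a constant (otherwise `P = C p_β * map G`).  By PER and the hypothesis on
`tr` it is not rational, so `TP P r / log r → ∞` (M1.GRW with `c = cf P`).  `R = P * P'`, `R ≠ 0`:
`TP R ≥ TP P + TP P' - C ≥ TP P - C'` for `r ≥ 1` (M1.GEL; `TP P'` is bounded below by M1.LOW,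
with the linear combination given by one nonzero coefficient). -/
def Stmt_GRO : Prop :=
  ∀ (σ : Type) [Finite σ] (tr : Mer ≃ₐ[ℂ] Mer) (Φ P R : MvPolynomial σ Mer),
    (∀ (f : Mer) (n : ℕ), 1 ≤ n → (tr^[n]) f = f → IsRat f → ∃ a : ℂ, f = algebraMap ℂ Mer a) →
    Φ ≠ 0 → map (tr : Mer →+* Mer) Φ = Φ → R ∣ Φ → P ∣ R → Mov P →
    Tendsto (fun r => TP R r / Real.log r) atTop atTop

/-! ## H. One node -/

/-- DFF (90 lines), uses NVC.  Division by the fixed linear factors.  PROOF.  Induction on `ρ`.  If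
there is `v ≠ 0` such that `F₁` vanishes at all complex `m` with `∑ v_i m_i = 0`, then
`map (lf v)` divides `F₁`: let `v_(i₀) ≠ 0`, substitute
`m_(i₀) = - ∑_(i ≠ i₀) (v_i / v_(i₀)) m_i` in `F₁`; the result vanishes at all complex points, so it
is `0` (NVC), and `F₁` minus the result of the substitution is divisible by
`m_(i₀) + ∑ (v_i / v_(i₀)) m_i`.  `F₁ = map (lf v) * F₂` with `F₂ ≠ 0` homogeneous of degree
`ρ - 1` (`ρ ≥ 1` in this case).  If there is no such `v`: `Fx = 1`, `F = F₁`. -/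
def Stmt_DFF : Prop :=
  ∀ (ρ : ℕ) (F₁ : MvPolynomial (Fin 3) Mer), F₁ ≠ 0 → F₁.IsHomogeneous ρ →
    ∃ (ρ' : ℕ) (Fx : MvPolynomial (Fin 3) ℂ) (F : MvPolynomial (Fin 3) Mer),
      F₁ = map (algebraMap ℂ Mer) Fx * F ∧ F.IsHomogeneous ρ' ∧
      ∀ v : Fin 3 → ℂ, v ≠ 0 → ∃ m : Fin 3 → ℂ, (∑ i, v i * m i = 0) ∧ evC m F ≠ 0

/-- PFC (150 lines), uses ZER QPP FNC FCH SPV M1.ALG.  The values of `F` are products of linear forms
of points of the curve `q = 0`.  PROOF.  A codiscrete set of the plane has a countable complement.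
For all `z` outside of a countable set `E`: `Phi ℂ d Q A y = R_z * Rc_z`, `y = (rep (x i) z)_i`,
`R_z = spv R z` etc.; `subC ℂ (gP u e θ) R_z = subC ℂ gC F₁_z`; `F₁_z = Fx * F_z`; `F_z ≠ 0`,
homogeneous of degree `ρ`; `∑ y_i A_i(u) ≠ 0` (SPV; M1.ALG for the last one).  Fix such a `z`, and put
`q = qp u e θ Q`, `χ = qp u e θ (comb id A y)`, forms of degree `d` (QPP).  `q ∤ χ`:
`q(1, 0, 0) = Q(u) = 0`, `χ(1, 0, 0) = ∑ y_i A_i(u) ≠ 0`.  `q(0, 1, 0) = Q(e) ≠ 0`.  If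
`F_z(a × b) = 0`, then `F₁_z(a × b) = 0`, so `R_z` vanishes at the pair of points `Πa`, `Πb` of the
plane (QPP last part with `K = ℂ`), so does `Phi ℂ d Q A y`, which by FCH (4), (5) is the resultant of
`q`, `χ` on the line through `a`, `b`.  ZER; `M4P.spz F z = spv F z` by definition. -/
def Stmt_PFC : Prop :=
  ∀ (N r d ρ : ℕ) (Q : MvPolynomial (Fin N) ℂ) (A : Fin (r + 1) → MvPolynomial (Fin N) ℂ)
    (x : Fin (r + 1) → Mer) (u e θ : Fin N → ℂ) (R Rc : MvPolynomial (Fin 2 × Fin N) Mer)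
    (Fx : MvPolynomial (Fin 3) ℂ) (F : MvPolynomial (Fin 3) Mer), 1 ≤ d →
    Data N r d d Q A → Irreducible (qp u e θ Q) → eval e Q ≠ 0 → eval u Q = 0 →
    (∑ i, x i * algebraMap ℂ Mer (eval u (A i))) ≠ 0 → Phi Mer d Q A x = R * Rc →
    subC Mer (gP u e θ) R = subC Mer gC (map (algebraMap ℂ Mer) Fx * F) → F.IsHomogeneous ρ →
    F ≠ 0 → 1 ≤ ρ →
    ∃ E : Set ℂ, E.Countable ∧ ∀ z, z ∉ E → ∃ t : Fin ρ → Fin 3 → ℂ,
      M4P.spz F z = ∏ i, M4P.lf (t i) ∧ ∀ i, eval (t i) (qp u e θ Q) = 0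

/-- PLC (250 lines), uses IRR BAI QPP PLS PSI DFF PFC RDN LSB M4.PLANE M1.VAL M1.GAU M1.VPD M1.GEL
M1.LOW M1.NNP.  The plane theorem for one node `u`.  PROOF.  `f = evC (ppt u e) R ≠ 0`,
`G_u = subC (gU u) R`, `f = evC e G_u`.
(1) `Z = {z | om f z = vP R z + 1}` is countable: `om f z = dv1 f z` and `vP R z = dvP R z` are
integers, and `Z` is contained in the union of the supports of the two divisors.
(2) For `z ∈ Z`: `vP R z ≤ vP G_u z ≤ om f z = vP R z + 1` (LSB) and `vP G_u z ≠ vP R z + 1`, so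
`vP G_u z = vP R z`; RDN: a polynomial `g z ≠ 0` with `om (evC θ G_u) z = vP R z` if
`(g z)(θ) ≠ 0`.
(3) IRR and BAI: `θ` with `q = qp u e θ Q` irreducible and `om (evC (ppt u θ) R) z = vP R z` for all
`z ∈ Z`.
(4) PLS, PSI: `F₁` homogeneous of degree `ρ` with `R_Π := subC (gP u e θ) R = subC gC F₁`,
`subC gD R_Π = X 2 ^ ρ * F₁`.  QPP: `evC (0, 0, 1) F₁ = f` (`a = (1, 0, 0)`, `b = (0, 1, 0)`),
`evC (0, -1, 0) F₁ = evC (ppt u θ) R` (`a = (1, 0, 0)`, `b = (0, 0, 1)`), so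
`evC (0, 1, 0) F₁ = ± evC (ppt u θ) R` (homogeneous).  `F₁ ≠ 0`.
(5) For `z ∈ Z`: `vP F₁ z = vP R z`, because `vP R ≤ vP R_Π ≤ vP (X 2 ^ ρ * F₁) = vP F₁ ≤
om (evC (0, 1, 0) F₁)` (LSB, M1.GAU) and the last one is `vP R z` by (3).
(6) DFF: `F₁ = map Fx * F`, `F` homogeneous of degree `ρ'`; `vP F = vP F₁` (M1.GAU, `Fx ≠ 0`),
`evC m F₁ = Fx(m) evC m F`.
(7) Heights: `TP F ≤ TP F₁ + C ≤ TP R + C'`: M1.GEL for `F₁ = map Fx * F` and for `X 2 ^ ρ * F₁`,
with `TP (map Fx)`, `TP (X 2 ^ ρ)` bounded below (M1.LOW), LSB twice.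
(8) If `ρ' = 0`, `F = C c`: `om f z = om c z = vP F₁ z` for all `z` (`Fx(0, 0, 1) ≠ 0`), so by (5)
`Z = ∅`, `D = 0`, and `0 ≤ (d ^ 2 - 1) TP R + C` by M1.LOW.
(9) If `ρ' ≥ 1`: PFC gives `E`, so `M4P.Dat ρ' q F E` (`mov` from DFF), and M4.PLANE applies:
`q(1, 0, 0) = Q(u) = 0`, `∂_1 q(1, 0, 0) ≠ 0`, `q(0, 1, 0) = Q(e) ≠ 0` (QPP),
`evC (0, 0, 1) F ≠ 0`.  If `D z = 1` then `z ∈ Z`, `Fx(0, 1, 0) ≠ 0` (because
`evC (0, 1, 0) F₁ ≠ 0`), `om (evC (0, 1, 0) F) z = vP R z = vP F z` and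
`om (evC (0, 0, 1) F) z = om f z = vP F z + 1`.  So `d ^ 2 NN D ≤ (d ^ 2 - 1) TP F + C`; (7).
The constant does not depend on `D` (`θ`, `F` do not). -/
def Stmt_PLC : Prop :=
  ∀ (N r d ρ : ℕ) (Q : MvPolynomial (Fin N) ℂ) (A : Fin (r + 1) → MvPolynomial (Fin N) ℂ)
    (x : Fin (r + 1) → Mer) (u e : Fin N → ℂ) (R Rc : MvPolynomial (Fin 2 × Fin N) Mer), 1 ≤ d →
    Data N r d d Q A → eval u Q = 0 → (∑ j, e j * eval u (pderiv j Q)) ≠ 0 → eval e Q ≠ 0 →
    (∑ i, x i * algebraMap ℂ Mer (eval u (A i))) ≠ 0 → Phi Mer d Q A x = R * Rc → PluF ρ R →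
    (∀ z, vP (subC Mer (gU u) R) z ≠ vP R z + 1) → evC (ppt u e) R ≠ 0 →
    ∃ C : ℝ, ∀ D : Function.locallyFinsupp ℂ ℤ,
      (∀ z, D z = 0 ∨ D z = 1 ∧ om (evC (ppt u e) R) z = vP R z + 1) →
      ∀ t : ℝ, 1 ≤ t → (d ^ 2 : ℕ) * NN D t ≤ (d ^ 2 - 1 : ℕ) * TP R t + C

/-- FTL (50 lines), uses FNC PRJ LSB.  Orders and heights of `R(·, e)` and of `subC (gF e) R`.
PROOF.  Each of the two is obtained from the other by a substitution: PRJ (2), and applying
`subC (gZ w)` to it with PRJ (3).  LSB. -/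
def Stmt_FTL : Prop :=
  ∀ (w ρ : ℕ) (R : MvPolynomial (Fin 2 × Fin (w + 2)) Mer) (e : Fin (w + 2) → ℂ), PluF ρ R →
    e (Fin.last (w + 1)) ≠ 0 →
    (∀ z, vP (subC Mer (gF e) R) z = vP (subC Mer (gE e) R) z) ∧
    (subC Mer (gE e) R ≠ 0 → ∃ C : ℝ, ∀ t : ℝ, 1 ≤ t →
      TP (subC Mer (gE e) R) t ≤ TP (subC Mer (gF e) R) t + C)

/-- NDC (120 lines), uses PLC FTL PRJ M1.VAL M1.VPD M1.NNP M1.LOW.  The truncated counting function at
one node.  PROOF.  `F = subC (gF e) R`, `p = prj e u`; `evC p F = evC (ppt u e) R =: f ≠ 0`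
(PRJ (4)), `vP F = vP (subC (gE e) R) = vP R` (FTL, hypothesis), so `D_f = dv1 f - dvP F ≥ 0`
(M1.LOW: `dv c ≤ dv1 f`, `c = cf F`, `f` is a linear combination of the coefficients).  Let
`D₁ z = 1` if `D_f z = 1` and `0` otherwise (locally finite: its support is contained in that of
`D_f`).  Then `2 tru D_f ≤ D_f + D₁`.  M1.NNP: `2 NN (tru D_f) ≤ NN D_f + NN D₁`; M1.LOW:
`NN D_f ≤ TP F + C`; PLC: `d ^ 2 NN D₁ ≤ (d ^ 2 - 1) TP R + C ≤ (d ^ 2 - 1) TP F + C'` (hypothesis,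
FTL).  So `2 NN (tru D_f) ≤ (2 - 1 / d ^ 2) TP F + C''`. -/
def Stmt_NDC : Prop :=
  ∀ (w r d ρ : ℕ) (Q : MvPolynomial (Fin (w + 2)) ℂ)
    (A : Fin (r + 1) → MvPolynomial (Fin (w + 2)) ℂ) (x : Fin (r + 1) → Mer)
    (u e : Fin (w + 2) → ℂ) (R Rc : MvPolynomial (Fin 2 × Fin (w + 2)) Mer), 1 ≤ d →
    Data (w + 2) r d d Q A → eval u Q = 0 → (∑ j, e j * eval u (pderiv j Q)) ≠ 0 →
    eval e Q ≠ 0 → e (Fin.last (w + 1)) ≠ 0 →
    (∑ i, x i * algebraMap ℂ Mer (eval u (A i))) ≠ 0 → Phi Mer d Q A x = R * Rc → PluF ρ R →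
    (∀ z, vP (subC Mer (gU u) R) z ≠ vP R z + 1) → evC (ppt u e) R ≠ 0 →
    (∀ z, vP (subC Mer (gE e) R) z = vP R z) →
    (∃ C : ℝ, ∀ t : ℝ, 1 ≤ t → TP R t ≤ TP (subC Mer (gE e) R) t + C) →
    ∃ C : ℝ, ∀ t : ℝ, 1 ≤ t →
      NN (tru (dv1 (evC (prj e u) (subC Mer (gF e) R)) - dvP (subC Mer (gF e) R))) t ≤
        (1 - 1 / (2 * ((d ^ 2 : ℕ) : ℝ))) * TP (subC Mer (gF e) R) t + C

/-! ## I. The end -/

/-- EXE (120 lines), uses CPS NVC PLW PRJ DZS FNC.  The centre of projection `e`.  PROOF.  PLW: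
`R` is homogeneous of degree `ρ` in `b₁`, and so is `dz R` (DZS (2)); CPS (with `K = Mer`,
`R' = dz R`) gives `H₁ ≠ 0`.  The product `H` of `H₁`, `map Q`, `X_(w+1)`, and for all `u ∈ T` of
`∑_j C (∂_j Q(u)) X_j` and `subC (gU u) R`, is a nonzero polynomial over `Mer`; NVC: `e` with
`evC e H ≠ 0`.  This gives all the properties except the last; `evC e (subC (gU u) R) =
evC (ppt u e) R` (FNC (4)).  LAST: `R_e = subC (gE e) R` and `subC (gE e) (dz R) = dz R_e` (DZS) are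
relatively prime (CPS).  Let `D` divide `F = subC (gF e) R` and `dz F`.  Apply `subC (gQ e)`: by PRJ
(2) and DZS the image of `D` divides `R_e` and `dz R_e`, so it is a unit; apply `subC (gZ w)`
(PRJ (3)): `D` is a unit. -/
def Stmt_EXE : Prop :=
  ∀ (w ρ : ℕ) (Q : MvPolynomial (Fin (w + 2)) ℂ) (T : Finset (Fin (w + 2) → ℂ))
    (R : MvPolynomial (Fin 2 × Fin (w + 2)) Mer), Q ≠ 0 → 1 ≤ ρ → PluF ρ R → R ≠ 0 →
    IsRelPrime R (dz R) → (∀ u ∈ T, ∃ i, eval u (pderiv i Q) ≠ 0) →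
    (∀ u ∈ T, subC Mer (gU u) R ≠ 0) →
    ∃ e : Fin (w + 2) → ℂ, eval e Q ≠ 0 ∧ e (Fin.last (w + 1)) ≠ 0 ∧
      (∀ u ∈ T, (∑ j, e j * eval u (pderiv j Q)) ≠ 0 ∧ evC (ppt u e) R ≠ 0) ∧
      IsRelPrime (subC Mer (gF e) R) (dz (subC Mer (gF e) R))

/-- END (100 lines), uses M1.LEMS M1.MON.  The final contradiction.  PROOF.  `IsRelPrime F (dz F)`
gives the divisibility hypothesis of M1.LEMS (`IsRelPrime.dvd_of_dvd_mul_right`).  M1.LEMS: `J`
with `J.card + numM w a = 2 numM w (a + q)`, all points of `J` in `S`, so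
`∑_(p ∈ J) NN (tru ..) ≤ J.card (1 - 1 / (2 b)) TP F + C`.  Let
`δ = numM w a - J.card (1 - 1 / (2 b))`; `2 b δ = (4 b - 1) numM w a - (2 b - 1) 2 numM w (a + q)
> 0` (M1.MON (1) and the hypothesis on `a`).  With `ε = δ / 2`: `(δ / 2) TP F r ≤ C` for arbitrarily
large `r`, but `TP F r → ∞`. -/
def Stmt_END : Prop :=
  ∀ (w q b a : ℕ) (F : MvPolynomial (Fin (w + 1)) Mer) (S : Set (Fin (w + 1) → ℂ)), 1 ≤ b →
    (2 * b - 1) * (2 * (a + q + w).choose w) < (4 * b - 1) * (a + w).choose w →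
    F.IsHomogeneous q → F ≠ 0 → IsRelPrime F (dz F) → (∀ p ∈ S, evC p F ≠ 0) →
    (∀ G : MvPolynomial (Fin (w + 1)) ℂ, G.IsHomogeneous (a + 2 * q) →
      (∀ p ∈ S, MvPolynomial.eval p G = 0) → G = 0) →
    Tendsto (fun r => TP F r / Real.log r) atTop atTop →
    (∀ p ∈ S, ∃ C : ℝ, ∀ t : ℝ, 1 ≤ t →
      NN (tru (dv1 (evC p F) - dvP F)) t ≤ (1 - 1 / (2 * (b : ℝ))) * TP F t + C) → False

/-- CORE, the result of part P3 (250 lines), uses CHP PLW PFA FNC FCH PHG VXK LBD HTE FAC COP NOD GRO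
FTL NDC EXE NVH COU END PRJ M1.VAL.  THEOREM.  There is a function `β` such that for hypersurface
data with the divisibility property up to degree `β w d`, and meromorphic functions `x_i`, linearly
independent over `ℂ`, invariant under `tr` (the translation by a period), with
`⟨u, x⟩ = y_u ^ k` for all nodes `u ∈ T`, the Chow form is `C c * Fix * Psi ^ k` with `Fix`
numerical.
PROOF.  For `ρ ≤ d ^ 2` let `a(w, d, ρ)` be a number from COU with `b = max 1 (d ^ 2)`, `q = ρ`, and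
`β w d` the maximum of `a(w, d, ρ) + 2 ρ` over `ρ ≤ d ^ 2`.
(1) `Data (w + 2) r d d Q A`: if `Q ∣ comb id A y`, take the value at `lift u`:
`0 = ∑ y_i A_i(lift u) = c ∑ u_i y_i`, `c ≠ 0`, for all `u ∈ T`, so `y = 0`.  `x ≠ 0`; `d = e + 1`.
`Φ = Phi Mer d Q A x`, `vP Φ z = d * dv x z` (PHG), so `Φ ≠ 0`; `PluF (d * d) Φ` (CHP: `map Q` and
`comb A x` are homogeneous of degree `d`); `map tr Φ = Φ` (FCH (1)).
(2) FAC: `Φ = C c * map Fix * Psi ^ k * ∏_(P ∈ s) P ^ (m P)`.  If `s = ∅` this is the claim.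
Otherwise let `R = ∏_(P ∈ s) P`; `m P ≥ 1`, so `Φ = R * Rc`.  PFA: `PluF ρ R` with `ρ ≤ d * d`.
`ρ ≥ 1`: otherwise `R` is a constant (PLW), but it is divisible by an irreducible `P ∈ s`.
COP: `IsRelPrime R (dz R)`.
(3) NODES.  For `u ∈ T`, `u' = lift u`: `∑ x_i A_i(u') = c_u ∑ u_i x_i = c_u y ^ k`, not `0` by the
linear independence (`u ≠ 0`, `c_u ≠ 0`), so `y ≠ 0` and `om y z` is an integer (M1.VAL).  PHG:
`vP (subC (gU u') Φ) z = k * om y z + (d - 1) * dv x z = d * dv x z + k * (om y z - n_z)`, where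
`dv x z = k * n_z` (VXK).  So `subC (gU u') R ≠ 0`, and NOD (`a = d * dv x z`) gives
`vP (subC (gU u') R) z ≠ vP R z + 1` for all `z`.
(4) EXE for the set of all `lift u`: `e`.  PHG, LBD, HTE (with `g = gE e`, `F = Φ`):
`vP (subC (gE e) R) = vP R`, `TP R ≤ TP (subC (gE e) R) + C`.  NDC for every `u ∈ T`.
(5) GRO with some `P ∈ s`: `TP R r / log r → ∞`, and `TP R ≤ TP F + C`, `F = subC (gF e) R`
(HTE, FTL), so `TP F r / log r → ∞`.
(6) END with `S = {prj e (lift u) | u ∈ T}`, `q = ρ`, `b = d ^ 2`, `a = a(w, d, ρ)`: `F` is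
homogeneous of degree `ρ` (PRJ (1)), `F ≠ 0` (it is not `0` at `prj e u'`; if `T = ∅` then the
hypothesis on `T` gives a contradiction, `r + 1 ≥ 1`), and no form of degree
`a + 2 ρ ≤ β w d` vanishes on `S` without being `0` (NVH).  Contradiction. -/
def Stmt_CORE : Prop :=
  ∃ β : ℕ → ℕ → ℕ, ∀ (k r w d : ℕ) (Q : MvPolynomial (Fin (w + 2)) ℂ)
    (A : Fin (r + 1) → MvPolynomial (Fin (w + 2)) ℂ) (T : Finset (Fin (r + 1) → ℂ))
    (lift : (Fin (r + 1) → ℂ) → (Fin (w + 2) → ℂ)) (x : Fin (r + 1) → Mer)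
    (tr : Mer ≃ₐ[ℂ] Mer), 1 ≤ k → HypData r w d Q A T lift →
    (∀ (e : ℕ) (f : MvPolynomial (Fin (w + 2)) ℂ), e ≤ β w d → f.IsHomogeneous e →
      (∀ u ∈ T, eval (lift u) f = 0) → Q ∣ f) →
    (∀ u ∈ T, u ≠ 0) →
    (∀ y : Fin (r + 1) → ℂ, (∀ u ∈ T, ∑ i, u i * y i = 0) → y = 0) →
    (∀ y : Fin (r + 1) → ℂ, ∑ i, algebraMap ℂ Mer (y i) * x i = 0 → y = 0) →
    (∀ (f : Mer) (n : ℕ), 1 ≤ n → (tr^[n]) f = f → IsRat f → ∃ a : ℂ, f = algebraMap ℂ Mer a) →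
    (∀ i, tr (x i) = x i) →
    (∀ u ∈ T, ∃ y : Mer, ∑ i, algebraMap ℂ Mer (u i) * x i = y ^ k) →
    ∃ (c : Mer) (Fix : MvPolynomial (Fin 2 × Fin (w + 2)) ℂ)
      (Psi : MvPolynomial (Fin 2 × Fin (w + 2)) Mer),
      chow d d (map (algebraMap ℂ Mer) Q) (comb (algebraMap ℂ Mer) A x) =
        C c * map (algebraMap ℂ Mer) Fix * Psi ^ k

end Pool.ThmM.Chow
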