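import Pool.Agent.Work.MP_f82ddf_M.Terminal2

set_option autoImplicit false

/-! Block ELI: elimination of the last variable. -/

namespace Pool.ThmM

open MvPolynomial Finset

namespace ELI

/-- the product with a form shifts the homogeneous components -/
theorem comp_mul {σ : Type} {P : MvPolynomial σ ℂ} {d : ℕ} (hP : P.IsHomogeneous d)
    (s : MvPolynomial σ ℂ) (n : ℕ) :
    homogeneousComponent (d + n) (P * s) = P * homogeneousComponent n s := by
  conv_lhs => rw [← sum_homogeneousComponent s]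
  rw [Finset.mul_sum, map_sum]
  have h : ∀ i ∈ range (s.totalDegree + 1),
      homogeneousComponent (d + n) (P * homogeneousComponent i s) =
        if n = i then P * homogeneousComponent i s else 0 := by
    intro i _
    rw [homogeneousComponent_of_mem (hP.mul (homogeneousComponent_isHomogeneous i s))]
    by_cases h : n = i
    · subst h; simp
    · rw [if_neg h, if_neg (by omega)]
  rw [Finset.sum_congr rfl h]
  rw [Finset.sum_ite_eq]
  split_ifs with h1
  · rfl
  · rw [homogeneousComponent_eq_zero]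
    · simp
    · simpa using h1

theorem comp_mul_zero {σ : Type} {P : MvPolynomial σ ℂ} {d : ℕ} (hP : P.IsHomogeneous d)
    (s : MvPolynomial σ ℂ) (n : ℕ) (hn : n < d) :
    homogeneousComponent n (P * s) = 0 := by
  rw [← sum_homogeneousComponent s, Finset.mul_sum, map_sum]
  refine Finset.sum_eq_zero ?_
  intro i _
  rw [homogeneousComponent_of_mem (hP.mul (homogeneousComponent_isHomogeneous i s)),
    if_neg (by omega)]

theorem comp_dvd {σ : Type} {P : MvPolynomial σ ℂ} {d : ℕ} (hP : P.IsHomogeneous d)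
    (G : MvPolynomial σ ℂ) (n : ℕ) (h : P ∣ G) : P ∣ homogeneousComponent n G := by
  obtain ⟨s, rfl⟩ := h
  rcases lt_or_ge n d with h1 | h1
  · rw [comp_mul_zero hP s n h1]
    exact dvd_zero _
  · obtain ⟨k, rfl⟩ := Nat.exists_eq_add_of_le h1
    rw [comp_mul hP s k]
    exact dvd_mul_right _ _

/-- polynomials in the last variable -/
noncomputable def phi (w : ℕ) :
    Polynomial (MvPolynomial (Fin (w + 1)) ℂ) →+* MvPolynomial (Fin (w + 2)) ℂ :=
  Polynomial.eval₂RingHom (rename Fin.castSucc : MvPolynomial (Fin (w + 1)) ℂ →ₐ[ℂ] _).toRingHom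
    (X (Fin.last (w + 1)))

theorem phi_C (w : ℕ) (a : MvPolynomial (Fin (w + 1)) ℂ) :
    phi w (Polynomial.C a) = rename Fin.castSucc a := by
  simp [phi]

theorem phi_X (w : ℕ) : phi w Polynomial.X = X (Fin.last (w + 1)) := by
  simp [phi]

theorem phi_surj (w : ℕ) : Function.Surjective (phi w) := by
  intro f
  induction f using MvPolynomial.induction_on with
  | C a => exact ⟨Polynomial.C (C a), by rw [phi_C]; simp⟩
  | add p q hp hq =>
    obtain ⟨a, rfl⟩ := hp
    obtain ⟨b, rfl⟩ := hq
    exact ⟨a + b, map_add _ _ _⟩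
  | mul_X p n hp =>
    obtain ⟨a, rfl⟩ := hp
    refine Fin.lastCases ?_ ?_ n
    · exact ⟨a * Polynomial.X, by rw [map_mul, phi_X]⟩
    · intro i
      exact ⟨a * Polynomial.C (X i), by rw [map_mul, phi_C]; simp⟩

/-- Cayley-Hamilton modulo a monic polynomial -/
theorem relation_abs {A : Type} [CommRing A] [Nontrivial A] (f η : Polynomial A) (hfm : f.Monic) :
    ∃ p : ℕ → A, p f.natDegree = 1 ∧
      f ∣ ∑ j ∈ range (f.natDegree + 1), Polynomial.C (p j) * η ^ j := by
  have : Module.Free A (AdjoinRoot f) := hfm.free_adjoinRoot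
  have : Module.Finite A (AdjoinRoot f) := hfm.finite_adjoinRoot
  have h1 : Polynomial.aeval (AdjoinRoot.mk f η)
    (Algebra.lmul A (AdjoinRoot f) (AdjoinRoot.mk f η)).charpoly = 0 :=
    Algebra.aeval_self_charpoly_lmul _
  have h2 : (Algebra.lmul A (AdjoinRoot f) (AdjoinRoot.mk f η)).charpoly.Monic :=
    LinearMap.charpoly_monic _
  have h3 : (Algebra.lmul A (AdjoinRoot f) (AdjoinRoot.mk f η)).charpoly.natDegree =
      f.natDegree := by
    rw [LinearMap.charpoly_natDegree, (AdjoinRoot.powerBasis' hfm).finrank,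
      AdjoinRoot.powerBasis'_dim]
  generalize (Algebra.lmul A (AdjoinRoot f) (AdjoinRoot.mk f η)).charpoly = χ at h1 h2 h3
  refine ⟨fun j => χ.coeff j, ?_, ?_⟩
  · rw [← h3]; exact h2.coeff_natDegree
  · rw [← AdjoinRoot.mk_eq_zero, map_sum, ← h1, Polynomial.aeval_eq_sum_range, h3]
    refine Finset.sum_congr rfl fun j _ => ?_
    rw [map_mul, map_pow, AdjoinRoot.mk_C, Algebra.smul_def, AdjoinRoot.algebraMap_eq]

/-- Cayley-Hamilton modulo the monic Q -/
theorem relation (w d : ℕ) (Q H : MvPolynomial (Fin (w + 2)) ℂ) (hQm : LastMonic w d Q) :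
    ∃ p : ℕ → MvPolynomial (Fin (w + 1)) ℂ, p d = 1 ∧
      Q ∣ ∑ j ∈ range (d + 1), rename Fin.castSucc (p j) * H ^ j := by
  obtain ⟨q, hq⟩ := hQm
  obtain ⟨f, hf⟩ : ∃ f : Polynomial (MvPolynomial (Fin (w + 1)) ℂ), f =
    Polynomial.X ^ d + ∑ j ∈ range d, Polynomial.C (q j) * Polynomial.X ^ j := ⟨_, rfl⟩
  have hdeg : (∑ j ∈ range d, Polynomial.C (q j) * Polynomial.X ^ j).degree < (d : WithBot ℕ) := by
    rw [← Polynomial.mem_degreeLT]
    refine Submodule.sum_mem _ fun j hj => ?_
    rw [Polynomial.mem_degreeLT]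
    refine lt_of_le_of_lt (Polynomial.degree_C_mul_X_pow_le _ _) ?_
    exact_mod_cast Finset.mem_range.1 hj
  have hfm : f.Monic := by rw [hf]; exact Polynomial.monic_X_pow_add hdeg
  have hfd : f.natDegree = d := by
    have : f.degree = d := by
      rw [hf, Polynomial.degree_add_eq_left_of_degree_lt]
      · exact Polynomial.degree_X_pow d
      · rw [Polynomial.degree_X_pow]; exact hdeg
    exact Polynomial.natDegree_eq_of_degree_eq_some this
  have hfQ : phi w f = Q := by
    rw [hf, map_add, map_pow, phi_X, map_sum, hq]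
    refine congrArg₂ (· + ·) rfl ?_
    refine Finset.sum_congr rfl fun j _ => ?_
    rw [map_mul, map_pow, phi_X, phi_C]
  obtain ⟨η, hη⟩ := phi_surj w H
  obtain ⟨p, hp1, hp2⟩ := relation_abs f η hfm
  rw [hfd] at hp1 hp2
  refine ⟨p, hp1, ?_⟩
  have h5 := map_dvd (phi w) hp2
  rw [hfQ, map_sum] at h5
  have h6 : ∀ j ∈ range (d + 1), phi w (Polynomial.C (p j) * η ^ j) =
      rename Fin.castSucc (p j) * H ^ j := fun j _ => by
    rw [map_mul, map_pow, phi_C, hη]
  rw [Finset.sum_congr rfl h6] at h5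
  exact h5

end ELI

theorem stmt_ELI : Stmt_ELI := by
  intro w d e Q H hd hirr hQ hQm hH hnd
  have hprime : Prime Q := hirr.prime
  obtain ⟨p, hpd, hp⟩ := ELI.relation w d Q H hQm
  set P : ℕ → MvPolynomial (Fin (w + 1)) ℂ :=
    fun j => homogeneousComponent ((d - j) * e) (p j) with hP
  have hPd : P d = 1 := by
    simp only [hP, hpd]
    rw [homogeneousComponent_of_mem (isHomogeneous_one (Fin (w + 1)) ℂ)]
    simp
  have h1 : Q ∣ ∑ j ∈ range (d + 1), rename Fin.castSucc (P j) * H ^ j := by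
    have h2 := ELI.comp_dvd hQ _ (d * e) hp
    rw [map_sum] at h2
    convert h2 using 1
    refine Finset.sum_congr rfl fun j hj => ?_
    have hj' : j ≤ d := by have := Finset.mem_range.1 hj; omega
    have h3 : d * e = e * j + (d - j) * e := by
      obtain ⟨k, rfl⟩ := Nat.exists_eq_add_of_le hj'
      rw [Nat.add_sub_cancel_left]; ring
    rw [h3, mul_comm (rename Fin.castSucc (p j)), ELI.comp_mul (hH.pow j),
      ← rename_homogeneousComponent, mul_comm]
  classical
  have hex : ∃ j, P j ≠ 0 := ⟨d, by rw [hPd]; exact one_ne_zero⟩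
  obtain ⟨j, hj0, hjmin⟩ : ∃ j, P j ≠ 0 ∧ ∀ i < j, P i = 0 :=
    ⟨Nat.find hex, Nat.find_spec hex, fun i hi => by
      by_contra h; exact Nat.find_min hex hi h⟩
  have hjd : j ≤ d := by
    by_contra h
    have := hjmin d (by omega)
    rw [hPd] at this
    exact one_ne_zero this
  -- split off H ^ j
  have h4 : ∑ i ∈ range (d + 1), rename Fin.castSucc (P i) * H ^ i =
      H ^ j * (rename Fin.castSucc (P j) +
        H * ∑ i ∈ range (d - j), rename Fin.castSucc (P (j + 1 + i)) * H ^ i) := by
    have h5 : d + 1 = j + (1 + (d - j)) := by omega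
    rw [h5, Finset.sum_range_add, Finset.sum_eq_zero (s := range j), zero_add,
      Finset.sum_range_add]
    · rw [mul_add, Finset.mul_sum, Finset.mul_sum]
      refine congrArg₂ (· + ·) ?_ ?_
      · simp [mul_comm]
      · refine Finset.sum_congr rfl fun i _ => ?_
        rw [show j + (1 + i) = j + 1 + i by ring]
        ring
    · intro i hi
      rw [hjmin i (Finset.mem_range.1 hi)]; simp
  rw [h4] at h1
  have h6 : Q ∣ rename Fin.castSucc (P j) +
        H * ∑ i ∈ range (d - j), rename Fin.castSucc (P (j + 1 + i)) * H ^ i := by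
    rcases hprime.dvd_or_dvd h1 with h | h
    · exact absurd (hprime.dvd_of_dvd_pow h) hnd
    · exact h
  refine ⟨(d - j) * e, P j, Nat.mul_le_mul_right _ (Nat.sub_le _ _),
    homogeneousComponent_isHomogeneous _ _, hj0, ?_⟩
  intro x hx1 hx2
  obtain ⟨s, hs⟩ := h6
  have h7 := congrArg (eval x) hs
  rw [map_add, map_mul, map_mul, hx1, hx2, zero_mul, zero_mul, add_zero, eval_rename] at h7
  exact h7

end Pool.ThmM
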