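import Pool.Agent.Work.MP_f82ddf_M.Terminal2

set_option autoImplicit false

/-! # THEOREM M, block SUB: the substitution -/

namespace Pool.ThmM

open MvPolynomial Finset

theorem stmt_SUB : Stmt_SUB := by
  intro r w c
  have h1 : ∀ (f : MvPolynomial (Fin (w + 2)) ℂ) (u : Fin (r + 1) → ℂ),
      eval u (sub w c f) = eval (subPt w c u) f := by
    intro f u
    have h : ((aeval u : Pr r →ₐ[ℂ] ℂ).comp (sub w c)) =
        (aeval (subPt w c u) : MvPolynomial (Fin (w + 2)) ℂ →ₐ[ℂ] ℂ) := by
      apply MvPolynomial.algHom_ext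
      intro j
      simp only [AlgHom.comp_apply, sub, subPt, aeval_X]
      by_cases hj : (j : ℕ) ≤ w
      · simp [hj]
      · simp [hj, map_sum]
    have h' := congrArg (fun F : MvPolynomial (Fin (w + 2)) ℂ →ₐ[ℂ] ℂ => F f) h
    simpa [MvPolynomial.aeval_eq_eval] using h'
  have h2 : ∀ (f : MvPolynomial (Fin (w + 2)) ℂ) (e : ℕ), f.IsHomogeneous e →
      (sub (r := r) w c f).IsHomogeneous e := by
    intro f e hf
    have h := hf.aeval (fun j : Fin (w + 2) =>
      (if (j : ℕ) ≤ w then X (Fin.ofNat (r + 1) j) else ∑ i, C (c i) * X i : Pr r)) (n := 1) ?_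
    · rwa [one_mul] at h
    · intro j
      by_cases hj : (j : ℕ) ≤ w
      · simp only [hj, if_true]
        exact isHomogeneous_X _ _
      · simp only [hj, if_false]
        refine IsHomogeneous.sum _ _ _ fun i _ => ?_
        have := (isHomogeneous_C (Fin (r + 1)) (c i)).mul (isHomogeneous_X ℂ i)
        rwa [zero_add] at this
  refine ⟨h1, h2, ?_⟩
  intro f e
  conv_lhs => rw [← sum_homogeneousComponent f]
  rw [map_sum, map_sum]
  have h3 : ∀ i ∈ range (f.totalDegree + 1),
      homogeneousComponent e (sub (r := r) w c (homogeneousComponent i f)) =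
        if e = i then sub w c (homogeneousComponent i f) else 0 := by
    intro i _
    exact homogeneousComponent_of_mem (h2 _ _ (homogeneousComponent_isHomogeneous i f))
  rw [Finset.sum_congr rfl h3, Finset.sum_ite_eq]
  split_ifs with h4
  · rfl
  · rw [homogeneousComponent_eq_zero]
    · simp
    · rw [mem_range] at h4; omega

end Pool.ThmM
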