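import Mathlib

set_option autoImplicit false

/-! # THEOREM M (MP_f82ddf_nt), part P2: terminal varieties by monic equations

`r + 1` is the number of coordinates.  A variety is given by a homogeneous prime ideal `P` of
`ℂ[X_0, .., X_r]`.  Result of this part: `Stmt_TERM`.

IDEA.  Start with `w = r`, `P = 0`.  If a nonzero form `f` of degree `e ≤ d w D` in `X_0, .., X_w`
vanishes at all the nodes, a shear inside `X_0, .., X_w` makes `f` monic in `X_w`, and the other
coordinates satisfy at the nodes monic equations of degree `D e` over `ℂ[X_0, .., X_(w-1)]`.  There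
are at most `(D e)^(r+1)` ways to send the `X_i`, `i ≥ w`, to roots of these equations in an
algebraic closure of `ℂ(X_0, .., X_(w-1))`, and every node is a specialisation of one of them: keep
the best one.  The number `w` drops; at `w = 0` all the points are proportional. -/

namespace Pool.ThmM

open MvPolynomial Finset

/-- the polynomial ring in `X_0, .., X_r` -/
abbrev Pr (r : ℕ) : Type := MvPolynomial (Fin (r + 1)) ℂ

/-- `f` involves only the variables `X_0, .., X_w` -/
def Low {r : ℕ} (w : ℕ) (f : Pr r) : Prop := ∀ i ∈ f.vars, (i : ℕ) ≤ w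

/-- `I` is a homogeneous ideal -/
def Hom {r : ℕ} (I : Ideal (Pr r)) : Prop := ∀ f ∈ I, ∀ n, homogeneousComponent n f ∈ I

/-- `E` is a monic homogeneous equation of degree `D` for `X_i` over `ℂ[X_0, .., X_w]` -/
def IsMon {r : ℕ} (w D : ℕ) (i : Fin (r + 1)) (E : Pr r) : Prop :=
  ∃ c : ℕ → Pr r, (∀ j < D, Low w (c j) ∧ (c j).IsHomogeneous (D - j)) ∧
    E = X i ^ D + ∑ j ∈ range D, c j * X i ^ j

/-- The homogeneous prime ideal `P` is a datum of dimension `w` and complexity `D`:
`X_0, .., X_w` are independent modulo `P` and the other coordinates are roots of monic homogeneous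
equations of degree `D` over `ℂ[X_0, .., X_w]` modulo `P`. -/
structure Datum (r w D : ℕ) (P : Ideal (Pr r)) : Prop where
  le : w ≤ r
  pos : 1 ≤ D
  prime : P.IsPrime
  hom : Hom P
  indep : ∀ f ∈ P, Low w f → f = 0
  mon : ∀ i : Fin (r + 1), w < i → ∃ E ∈ P, IsMon w D i E

/-- the point `u` lies on the cone of `P` -/
def On {r : ℕ} (P : Ideal (Pr r)) (u : Fin (r + 1) → ℂ) : Prop := ∀ f ∈ P, eval u f = 0

/-- `u` and `v` are not proportional (and both nonzero) -/
def NonProp {r : ℕ} (u v : Fin (r + 1) → ℂ) : Prop := ∀ a b : ℂ, a • u = b • v → a = 0 ∧ b = 0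

/-- LEMMA T, the result of part P2. -/
def Stmt_TERM : Prop :=
  ∀ (r : ℕ) (d : ℕ → ℕ → ℕ), ∃ N₁ Dmax : ℕ, ∀ S : Finset (Fin (r + 1) → ℂ),
    (∀ u ∈ S, ∀ v ∈ S, u ≠ v → NonProp u v) → N₁ ≤ S.card →
    ∃ (w D : ℕ) (P : Ideal (Pr r)) (g : Matrix (Fin (r + 1)) (Fin (r + 1)) ℂ)
      (T : Finset (Fin (r + 1) → ℂ)),
      1 ≤ w ∧ D ≤ Dmax ∧ Datum r w D P ∧ IsUnit g.det ∧ T ⊆ S ∧
      (∀ u ∈ T, On P (g.mulVec u)) ∧
      ∀ (e : ℕ) (f : Pr r), e ≤ d w D → f.IsHomogeneous e → Low w f → f ≠ 0 →
        ∃ u ∈ T, eval (g.mulVec u) f ≠ 0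

/-! ## Shears -/

/-- the shear `X_i ↦ X_i + c_i X_m` (`i ≠ m`), `X_m ↦ X_m` -/
noncomputable def shear {r : ℕ} (m : Fin (r + 1)) (c : Fin (r + 1) → ℂ) : Pr r →ₐ[ℂ] Pr r :=
  aeval fun i => if i = m then X m else X i + C (c i) * X m

/-- the same on points -/
def shp {r : ℕ} (m : Fin (r + 1)) (c u : Fin (r + 1) → ℂ) : Fin (r + 1) → ℂ :=
  fun i => if i = m then u m else u i + c i * u m

/-- SHP (40 lines).  (1) `(shear m c f)(u) = f (shp m c u)`: both sides are ring homomorphisms in
`f` which agree on the variables and constants.  (2) `shp m c` is the linear map of a matrix `A`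
with `A.det` a unit and `shp m c (shp m (-c) u) = u` (`A = shp m c` of the standard basis; its
inverse is the matrix of `shp m (-c)`).  (3) the shear preserves the degree of forms
(`MvPolynomial.IsHomogeneous.aeval` or `IsHomogeneous.eval₂`). -/
def Stmt_SHP : Prop :=
  ∀ (r : ℕ) (m : Fin (r + 1)) (c : Fin (r + 1) → ℂ),
    (∀ (f : Pr r) (u : Fin (r + 1) → ℂ), eval u (shear m c f) = eval (shp m c u) f) ∧
    (∀ u, shp m c (shp m (-c) u) = u) ∧
    (∃ A : Matrix (Fin (r + 1)) (Fin (r + 1)) ℂ, IsUnit A.det ∧ ∀ u, A.mulVec u = shp m c u) ∧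
    ∀ (f : Pr r) (e : ℕ), f.IsHomogeneous e → (shear m c f).IsHomogeneous e

/-- SHL (60 lines).  Let `m = w + 1` and `c_i = 0` for `i > w`.  (1) the shear of a polynomial in
`X_0, .., X_(w+1)` is one (every variable of `shear m c f` is `m` or a variable of `f`:
`MvPolynomial.vars_bind₁` or induction).  (2) for `i > w + 1` the shear of a monic homogeneous
equation for `X_i` over `ℂ[X_0, .., X_(w+1)]` is one, because `X_i ↦ X_i + 0 * X_m = X_i`.
Uses SHP (3). -/
def Stmt_SHL : Prop :=
  ∀ (r w : ℕ) (m : Fin (r + 1)) (c : Fin (r + 1) → ℂ), (m : ℕ) = w + 1 →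
    (∀ i : Fin (r + 1), w < i → c i = 0) →
    (∀ f : Pr r, Low (w + 1) f → Low (w + 1) (shear m c f)) ∧
    ∀ (D : ℕ) (i : Fin (r + 1)) (E : Pr r), w + 1 < (i : ℕ) → IsMon (w + 1) D i E →
      IsMon (w + 1) D i (shear m c E)

/-- SHR (100 lines).  A nonzero form `f` of degree `e` in `X_0, .., X_(w+1)` becomes, after a shear
inside these variables and multiplication by a nonzero constant, monic of degree `e` in
`X_m`, `m = w + 1`.  PROOF.  Choose a point `p` with `f(p) ≠ 0` (`MvPolynomial.funext` or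
`exists_eval_ne_zero`, `ℂ` infinite) and `p_m ≠ 0` (choose `p` with `(f * X_m)(p) ≠ 0`); `f` is
homogeneous, so we may divide `p` by `p_m` and have `p_m = 1`; `f` involves only the variables up
to `m`, so we may take `p_i = 0` for `i > m`.  Let `c_i = p_i` for `i ≤ w` and `c_i = 0` for
`i > w`.  The form `f' = shear m c f` is homogeneous of degree `e` (SHP (3)) and involves only
`X_0, .., X_m` (SHL (1)); its value at the point `δ_m` (1 at `m`, 0 elsewhere) is
`f(shp m c δ_m) = f(p) ≠ 0` and is the coefficient of `X_m^e`.  Collect by powers of `X_m`: every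
other monomial of `f'` is `X_m^j` times a monomial of degree `e - j > 0` in `X_0, .., X_w`; put
`a = f(p)⁻¹`, `c_j = a * Σ (monomials of f' with exponent j at m, with X_m removed)`. -/
def Stmt_SHR : Prop :=
  ∀ (r w e : ℕ) (m : Fin (r + 1)) (f : Pr r), (m : ℕ) = w + 1 → f.IsHomogeneous e →
    Low (w + 1) f → f ≠ 0 →
    ∃ (c : Fin (r + 1) → ℂ) (a : ℂ), (∀ i : Fin (r + 1), w < i → c i = 0) ∧ a ≠ 0 ∧
      IsMon w e m (C a * shear m c f)

/-! ## Elimination -/

/-- RAI (20 lines).  A monic equation of degree `D` times `X_i^k` is one of degree `D + k`. -/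
def Stmt_RAI : Prop :=
  ∀ (r w D k : ℕ) (i : Fin (r + 1)) (E : Pr r), IsMon w D i E → IsMon w (D + k) i (X i ^ k * E)

/-- RES (180 lines).  Elimination of `X_m`, `m = w + 1`, between a monic equation `F` of degree `e`
for `X_m` over `A = ℂ[X_0, .., X_w]` and a monic equation `E` of degree `D` for `X_i`, `i > m`,
over `ℂ[X_0, .., X_m]`: there is a monic equation `E'` of degree `D e` for `X_i` over `A` which
vanishes at all the common zeros of `F` and `E`.  PROOF (Cayley-Hamilton).  Let `I` be the ideal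
`(F, E)` and `B = ℂ[X_0, .., X_r] / I`, an algebra over `A = MvPolynomial (Fin (w + 1)) ℂ` (map
`rename`), and let `M` be the `A`-submodule of `B` generated by the `D e` elements `X_m^a X_i^b`,
`a < e`, `b < D`.  `X_m M ⊆ M` by `F = 0`.  `X_i M ⊆ M`: `X_m^a X_i^D` is by `E = 0` a combination
of the `X_i^b`, `b < D`, with coefficients in `A[X_m]`, and `A[X_m] X_i^b ⊆ M` by `F = 0`.
Multiplication by `X_i` on `M` is an endomorphism of a module with `D e` generators, so it is a
root of a monic polynomial `p` over `A` of degree exactly `D e` (`Matrix.charpoly` of any matrix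
which represents it, Cayley-Hamilton; see `LinearMap.exists_monic_and_aeval_eq_zero`,
`Matrix.isRepresentation` in Mathlib; if the degree comes out smaller than or different from
`D e` use the matrix directly).  `1 ∈ M`, so `p(X_i) = 0` in `B`: the polynomial
`G = X_i^(D e) + Σ_(j < D e) p_j X_i^j` of `ℂ[X_0, .., X_r]` is in `I`.  `I` is generated by two
forms (of degrees `e` and `D`), so the homogeneous component `E'` of degree `D e` of `G` is in `I`
too, and `E' = X_i^(D e) + Σ_(j < D e) (component of degree D e - j of p_j) X_i^j`.  Elements of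
`I` vanish at the common zeros of `F` and `E`. -/
def Stmt_RES : Prop :=
  ∀ (r w e D : ℕ) (m i : Fin (r + 1)) (F E : Pr r), (m : ℕ) = w + 1 → w + 1 < (i : ℕ) →
    1 ≤ e → 1 ≤ D → IsMon w e m F → IsMon (w + 1) D i E →
    ∃ E' : Pr r, IsMon w (D * e) i E' ∧
      ∀ u : Fin (r + 1) → ℂ, eval u F = 0 → eval u E = 0 → eval u E' = 0

/-- PRM (200 lines).  Let `E_i`, `i > w`, be monic homogeneous equations of degree `D` for `X_i`
over `A = ℂ[X_0, .., X_w]`.  There are at most `D^(r+1)` data `P_l` of dimension `w` and complexity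
`D`, indexed by the functions `l : Fin (r + 1) → Fin D`, such that every common zero of the `E_i`
lies on one of them.  PROOF.  Let `K` be an algebraic closure of the fraction field of
`A = MvPolynomial (Fin (w + 1)) ℂ` and `θ_(i,0), .., θ_(i,D-1)` the roots in `K`, with
multiplicities, of `E_i` as a monic polynomial in `X_i` over `A` (as a `Multiset` of card `D`,
listed).  `Φ_l : ℂ[X_0, .., X_r] → K` is the homomorphism `X_i ↦ X_i` for `i ≤ w`,
`X_i ↦ θ_(i, l i)` for `i > w`; `P_l` is the homogeneous core of `ker Φ_l` (the ideal generated by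
the homogeneous elements of `ker Φ_l`; `Ideal.homogeneousCore`, which is prime by
`Ideal.IsPrime.homogeneousCore`).  `P_l ∩ A = 0` because `Φ_l` is injective on `A`, and the form
`E_i` is in `P_l` because `Φ_l(E_i) = 0`.  Now let `u` be a common zero of the `E_i`.  Let `A'` be
the integral closure of `A` in `K` and `ψ : A' → ℂ` a ring homomorphism which extends the
evaluation `A → ℂ` at `(u_0, .., u_w)`: a maximal ideal of `A'` over the kernel exists (lying over,
`Ideal.exists_ideal_over_maximal_of_isIntegral`), its residue field is algebraic over `ℂ`, hence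
equal to `ℂ`.  The `θ_(i,j)` are in `A'`, and `E_i = Π_j (T - θ_(i,j))` in `A'[T]`; apply `ψ` and
put `T = u_i`: `0 = Π_j (u_i - ψ(θ_(i,j)))`, so `u_i = ψ(θ_(i, l i))` for some `l i` (any value
for `i ≤ w`).  Then `ψ ∘ Φ_l` and the evaluation at `u` agree on all the `X_i`, so
`P_l ⊆ ker Φ_l ⊆ ker (eval u)`. -/
def Stmt_PRM : Prop :=
  ∀ (r w D : ℕ) (E : Fin (r + 1) → Pr r), w ≤ r → 1 ≤ D →
    (∀ i : Fin (r + 1), w < i → IsMon w D i (E i)) →
    ∃ P : (Fin (r + 1) → Fin D) → Ideal (Pr r), (∀ l, Datum r w D (P l)) ∧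
      ∀ u : Fin (r + 1) → ℂ, (∀ i : Fin (r + 1), w < i → eval u (E i) = 0) → ∃ l, On (P l) u

/-! ## The descent -/

/-- the state of the descent: the points `g u`, `u ∈ T`, lie on the datum `P` -/
def State (r w D : ℕ) (P : Ideal (Pr r)) (g : Matrix (Fin (r + 1)) (Fin (r + 1)) ℂ)
    (T : Finset (Fin (r + 1) → ℂ)) : Prop :=
  Datum r w D P ∧ IsUnit g.det ∧ ∀ u ∈ T, On P (g.mulVec u)

/-- STE (120 lines), uses SHP SHL SHR RAI RES PRM.  One step of the descent.  PROOF.  `e ≥ 1`: a
nonzero constant does not vanish at a point of `T`.  Take `c, a` from SHR for `f`, `m = w + 1`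
(`m ≤ r` by the datum).  Let `A` be the matrix of `shp m (-c)` (SHP) and `g' = A * g`, so
`g' u = shp m (-c) (g u)` and `shp m c (g' u) = g u`; `F = C a * shear m c f` vanishes at `g' u`
(SHP (1)), and so do the equations `shear m c E_i`, `i > w + 1`, `E_i ∈ P` from the datum (SHL).
By RES there are monic equations of degree `D e` over `ℂ[X_0, .., X_w]` for `X_i`, `i > w + 1`,
which vanish at the `g' u`, and for `X_m` take `X_m^(D e - e) * F` (RAI).  Raise all of them to
degree `D d` (RAI; the factor `X_i^k` does not destroy the zeros).  Apply PRM: every `g' u`,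
`u ∈ T`, lies on one of the `(D d)^(r+1)` data; by the pigeonhole principle
(`Finset.exists_le_card_fiber_of_mul_le_card_of_maps_to` or by summing the fibres) one of them
carries a subset `T'` with `T.card ≤ (D d)^(r+1) * T'.card`. -/
def Stmt_STE : Prop :=
  ∀ (r w D d e : ℕ) (P : Ideal (Pr r)) (g : Matrix (Fin (r + 1)) (Fin (r + 1)) ℂ)
    (T : Finset (Fin (r + 1) → ℂ)) (f : Pr r),
    State r (w + 1) D P g T → T.Nonempty → 1 ≤ d → e ≤ d → f.IsHomogeneous e →
    Low (w + 1) f → f ≠ 0 → (∀ u ∈ T, eval (g.mulVec u) f = 0) →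
    ∃ (P' : Ideal (Pr r)) (g' : Matrix (Fin (r + 1)) (Fin (r + 1)) ℂ)
      (T' : Finset (Fin (r + 1) → ℂ)),
      State r w (D * d) P' g' T' ∧ T' ⊆ T ∧ T.card ≤ (D * d) ^ (r + 1) * T'.card

/-- ZRO (80 lines).  On a datum of dimension 0 all the points are proportional.  PROOF.  For
`i > 0` the equation is `E = X_i^D + Σ a_j X_0^(D-j) X_i^j` with constants `a_j` (a form of degree
`D - j` in `X_0` alone), so `E = Π_l (X_i - α_l X_0)`, `α_l` the roots of `T^D + Σ a_j T^j` in `ℂ`
(homogenise the factorisation over `ℂ`).  `P` is prime, so `X_i - α_i X_0 ∈ P` for some `α_i`.  So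
`g u = (g u)_0 • α` and `g v = (g v)_0 • α` with `α_0 = 1`.  Take the relation
`(g v)_0 • g u = (g u)_0 • g v`, hence `(g v)_0 • u = (g u)_0 • v` (`g` invertible): by `NonProp`
both numbers are 0, so `g u = 0`, `u = 0`, and `1 • u = 0 • v` contradicts `NonProp`. -/
def Stmt_ZRO : Prop :=
  ∀ (r D : ℕ) (P : Ideal (Pr r)) (g : Matrix (Fin (r + 1)) (Fin (r + 1)) ℂ)
    (u v : Fin (r + 1) → ℂ), Datum r 0 D P → IsUnit g.det → On P (g.mulVec u) →
    On P (g.mulVec v) → NonProp u v → False

/-- TER (80 lines), uses STE ZRO.  PROOF of `Stmt_TERM`.  Claim by induction on `w`: for all `D`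
there are `N₁, Dmax` such that every state `(w, D, P, g, T)` with `T ⊆ S`, `N₁ ≤ T.card`, leads to
the conclusion (with `T` replaced by a subset).  `w = 0`: `N₁ = 2`, contradiction by ZRO.
`w + 1`: let `d' = max 1 (d (w + 1) D)`, take `N, Dm` for `w` and `D d'`, and put
`N₁ = (D d')^(r+1) * (N + 2)`, `Dmax = max D Dm`: if no nonzero form of degree at most
`d (w + 1) D` vanishes at all the points the state itself is the answer, otherwise apply STE (the
set `T'` has at least `N + 2` elements because `T.card ≤ (D d')^(r+1) * T'.card`).  Start: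
`w = r`, `D = 1`, `P = ⊥`, `g = 1`, `T = S` (`⊥` is a datum: prime, homogeneous, no `i > r`). -/
def Stmt_TER : Prop := Stmt_TERM

end Pool.ThmM
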